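import Pool.Agent.P.MP_f17f76_ag.Nash1

/-!
Derivatives, substitutions and the identity principle for Nash germs.
-/

namespace Pool.Agent.P.MP_f17f76_ag

open MvPolynomial Filter Topology

section Nash2
variable {ι : Type} [Fintype ι] {x : ι → ℂ} {a b : (ι → ℂ) → ℂ}

theorem analytic_mul_eq_zero {F : Type} [NormedAddCommGroup F] [NormedSpace ℂ F] {y : F}
    {f g : F → ℂ} (hf : AnalyticAt ℂ f y) (hg : AnalyticAt ℂ g y)
    (h : ∀ᶠ z in 𝓝 y, f z * g z = 0) : (∀ᶠ z in 𝓝 y, f z = 0) ∨ (∀ᶠ z in 𝓝 y, g z = 0) := by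
  obtain ⟨ε, hε, hb'⟩ := Metric.eventually_nhds_iff_ball.1
    (hf.eventually_analyticAt.and (hg.eventually_analyticAt.and h.eventually_nhds))
  by_cases h0 : ∀ u ∈ Metric.ball y ε, f u = 0
  · exact Or.inl (Metric.eventually_nhds_iff_ball.2 ⟨ε, hε, h0⟩)
  · push Not at h0
    obtain ⟨z, hz, hz0⟩ := h0
    have h1 : g =ᶠ[𝓝 z] 0 := by
      filter_upwards [(hb' z hz).2.2, (hb' z hz).1.continuousAt.eventually_ne hz0] with u h1 h2
      exact (mul_eq_zero.1 h1).resolve_left h2
    have h2 : AnalyticOnNhd ℂ g (Metric.ball y ε) := fun u hu => (hb' u hu).2.1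
    exact Or.inr (Metric.eventually_nhds_iff_ball.2 ⟨ε, hε,
      h2.eqOn_zero_of_preconnected_of_eventuallyEq_zero (convex_ball y ε).isPreconnected hz h1⟩)

theorem analyticAt_eval {F κ : Type} [NormedAddCommGroup F] [NormedSpace ℂ F] {y : F}
    (p : MvPolynomial κ ℂ) (f : F → κ → ℂ) (h : ∀ k, AnalyticAt ℂ (fun z => f z k) y) :
    AnalyticAt ℂ (fun z => eval (f z) p) y := by
  induction p using MvPolynomial.induction_on with
  | C c => simpa only [eval_C] using analyticAt_const
  | add p q hp hq =>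
    simp only [map_add]
    exact hp.add hq
  | mul_X p i hp =>
    simp only [map_mul, eval_X]
    exact hp.mul (h i)

theorem hasFDerivAt_eval {F κ : Type} [Fintype κ] [NormedAddCommGroup F] [NormedSpace ℂ F] {y : F}
    (p : MvPolynomial κ ℂ) (f : F → κ → ℂ) (f' : κ → F →L[ℂ] ℂ)
    (h : ∀ k, HasFDerivAt (fun z => f z k) (f' k) y) :
    HasFDerivAt (fun z => eval (f z) p) (∑ k, eval (f y) (pderiv k p) • f' k) y := by
  classical
  induction p using MvPolynomial.induction_on with
  | C c =>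
    simp only [eval_C]
    refine (hasFDerivAt_const c y).congr_fderiv ?_
    ext v
    simp
  | add p q hp hq =>
    simp only [map_add (eval _) p q]
    refine (hp.add hq).congr_fderiv ?_
    ext v
    simp [add_mul, Finset.sum_add_distrib]
  | mul_X p i hp =>
    simp only [map_mul (eval _) p (X i), eval_X]
    refine (hp.mul (h i)).congr_fderiv ?_
    ext v
    have e1 : ∀ k, eval (f y) (pderiv k (p * X i)) * f' k v =
        (if i = k then eval (f y) p * f' k v else 0) +
          f y i * (eval (f y) (pderiv k p) * f' k v) := by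
      intro k
      rw [pderiv_mul, pderiv_X, map_add, map_mul, map_mul, eval_X]
      by_cases hk : i = k
      · subst hk
        simp only [Pi.single_eq_same, map_one, if_true]
        ring
      · simp only [Pi.single_eq_of_ne hk, map_zero, if_neg hk]
        ring
    simp only [add_apply, smul_apply, ContinuousLinearMap.sum_apply, smul_eq_mul, e1,
      Finset.sum_add_distrib, Finset.sum_ite_eq, Finset.mem_univ, if_true, Finset.mul_sum]

theorem nash2_eval₂ (g : Polynomial (MvPolynomial ι ℂ)) (ha : IsNash x a) :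
    IsNash x (fun u => g.eval₂ (eval u) (a u)) := by
  induction g using Polynomial.induction_on with
  | C c => simpa only [Polynomial.eval₂_C] using nash1_poly x c
  | add p q hp hq => simpa only [Polynomial.eval₂_add] using hp.add hq
  | monomial n c hp =>
    simp only [pow_succ, ← mul_assoc, Polynomial.eval₂_mul_X]
    exact hp.mul ha

theorem IsNash.eventually (h : IsNash x a) : ∀ᶠ x' in 𝓝 x, IsNash x' a := by
  obtain ⟨h1, f, hf, h2⟩ := h
  filter_upwards [h1.eventually_analyticAt, h2.eventually_nhds] with x' h3 h4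
  exact ⟨h3, f, hf, h4⟩

theorem IsEt.isNash (h : IsEt x a) : IsNash x a := by
  obtain ⟨h1, f, h2, h3⟩ := h
  refine ⟨h1, f, ?_, h2⟩
  rintro rfl
  simp at h3

theorem IsEt.eventually (h : IsEt x a) : ∀ᶠ x' in 𝓝 x, IsEt x' a := by
  have hN := h.isNash
  obtain ⟨h1, f, h2, h3⟩ := h
  filter_upwards [h1.eventually_analyticAt, h2.eventually_nhds,
    (nash2_eval₂ (Polynomial.derivative f) hN).1.continuousAt.eventually_ne h3] with x' h4 h5 h6
  exact ⟨h4, f, h5, h6⟩

theorem IsEt.congr (h : IsEt x a) (hab : a =ᶠ[𝓝 x] b) : IsEt x b := by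
  obtain ⟨h1, f, h2, h3⟩ := h
  refine ⟨h1.congr hab, f, ?_, ?_⟩
  · filter_upwards [h2, hab] with u hu hu'
    rw [← hu']
    exact hu
  · rw [← hab.self_of_nhds]
    exact h3

theorem nash2_deriv (v : ι → ℂ) (f : Polynomial (MvPolynomial ι ℂ)) :
    ∃ g : Polynomial (MvPolynomial ι ℂ), ∀ (u : ι → ℂ) (a : (ι → ℂ) → ℂ)
      (a' : (ι → ℂ) →L[ℂ] ℂ), HasFDerivAt a a' u → ∃ L : (ι → ℂ) →L[ℂ] ℂ,
        HasFDerivAt (fun w => f.eval₂ (eval w) (a w)) L u ∧
          L v = g.eval₂ (eval u) (a u) +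
            (Polynomial.derivative f).eval₂ (eval u) (a u) * a' v := by
  induction f using Polynomial.induction_on with
  | C c =>
    refine ⟨Polynomial.C (∑ i, pderiv i c * C (v i)), fun u a a' _ => ?_⟩
    have h1 := hasFDerivAt_eval (y := u) c (fun w : ι → ℂ => w)
      (fun i => ContinuousLinearMap.proj (R := ℂ) (φ := fun _ : ι => ℂ) i)
      (fun i => (ContinuousLinearMap.proj (R := ℂ) (φ := fun _ : ι => ℂ) i).hasFDerivAt)
    refine ⟨_, by simp only [Polynomial.eval₂_C]; exact h1, ?_⟩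
    rw [Polynomial.eval₂_C]
    simp
  | add p q hp hq =>
    obtain ⟨g₁, h₁⟩ := hp
    obtain ⟨g₂, h₂⟩ := hq
    refine ⟨g₁ + g₂, fun u a a' ha => ?_⟩
    obtain ⟨L₁, k₁, e₁⟩ := h₁ u a a' ha
    obtain ⟨L₂, k₂, e₂⟩ := h₂ u a a' ha
    refine ⟨L₁ + L₂, by simp only [Polynomial.eval₂_add]; exact k₁.add k₂, ?_⟩
    simp only [add_apply, e₁, e₂, map_add, Polynomial.eval₂_add]
    ring
  | monomial n c hp =>
    obtain ⟨g, h⟩ := hp
    refine ⟨g * Polynomial.X, fun u a a' ha => ?_⟩
    obtain ⟨L, k, e⟩ := h u a a' ha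
    rw [pow_succ, ← mul_assoc]
    generalize Polynomial.C c * Polynomial.X ^ n = p at k e ⊢
    refine ⟨_, by simp only [Polynomial.eval₂_mul_X]; exact k.mul ha, ?_⟩
    simp only [add_apply, smul_apply, e, smul_eq_mul,
      Polynomial.derivative_mul, Polynomial.derivative_X, mul_one, Polynomial.eval₂_add,
      Polynomial.eval₂_mul_X]
    ring

theorem IsEt.isNash_fderiv (h : IsEt x a) (v : ι → ℂ) :
    IsNash x (fun u => fderiv ℂ a u v) := by
  have hN := h.isNash
  obtain ⟨h1, f, h2, h3⟩ := h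
  obtain ⟨g, hg⟩ := nash2_deriv v f
  have hd := nash2_eval₂ (Polynomial.derivative f) hN
  refine ((nash2_eval₂ g hN).neg.mul (hd.inv h3)).congr ?_
  filter_upwards [h1.eventually_analyticAt, h2.eventually_nhds,
    hd.1.continuousAt.eventually_ne h3] with u h4 h5 h6
  obtain ⟨L, k, e⟩ := hg u a _ h4.differentiableAt.hasFDerivAt
  have hL : L = 0 := k.unique ((hasFDerivAt_const (0 : ℂ) u).congr_of_eventuallyEq h5)
  rw [hL, zero_apply] at e
  field_simp
  linear_combination e

theorem IsEt.comp_poly {κ : Type} [Fintype κ] (G : ι → MvPolynomial κ ℂ) (y : κ → ℂ)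
    (h : IsEt (fun i => eval y (G i)) a) : IsEt y (fun u => a (fun i => eval u (G i))) := by
  obtain ⟨h1, f, h2, h3⟩ := h
  have hG : AnalyticAt ℂ (fun u : κ → ℂ => fun i => eval u (G i)) y :=
    analyticAt_pi_iff.2 fun i => nash1_analytic_eval y (G i)
  have e : ∀ u : κ → ℂ, (eval u).comp (bind₁ G).toRingHom = eval (fun i => eval u (G i)) := by
    intro u
    refine MvPolynomial.ringHom_ext (fun c => ?_) (fun i => ?_) <;> simp
  refine ⟨h1.comp hG, f.map (bind₁ G).toRingHom, ?_, ?_⟩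
  · filter_upwards [hG.continuousAt.tendsto.eventually h2] with u hu
    rw [Polynomial.eval₂_map, e]
    exact hu
  · rw [Polynomial.derivative_map, Polynomial.eval₂_map, e]
    exact h3

theorem IsNash.comp_inj {κ : Type} [Fintype κ] (e : ι → κ) (he : Function.Injective e)
    (y : κ → ℂ) (h : IsNash (fun i => y (e i)) a) :
    IsNash y (fun u => a (fun i => u (e i))) := by
  obtain ⟨h1, f, hf, h2⟩ := h
  have hG : AnalyticAt ℂ (fun u : κ → ℂ => fun i => u (e i)) y :=
    analyticAt_pi_iff.2 fun i => nash1_analytic_coord y (e i)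
  have e1 : ∀ u : κ → ℂ, (eval u).comp (rename e : MvPolynomial ι ℂ →ₐ[ℂ] _).toRingHom =
      eval (fun i => u (e i)) := by
    intro u
    refine MvPolynomial.ringHom_ext (fun c => ?_) (fun i => ?_) <;> simp
  refine ⟨h1.comp hG, f.map (rename e : MvPolynomial ι ℂ →ₐ[ℂ] _).toRingHom,
    (Polynomial.map_ne_zero_iff (rename_injective e he)).2 hf, ?_⟩
  filter_upwards [hG.continuousAt.tendsto.eventually h2] with u hu
  rw [Polynomial.eval₂_map, e1]
  exact hu

theorem IsNash.dense {F : Type} (l : Filter F) (γ : F → ι → ℂ) (hγ : Tendsto γ l (𝓝 x))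
    (hd : ∀ p : MvPolynomial ι ℂ, (∀ᶠ z in l, eval (γ z) p = 0) → p = 0)
    (ha : IsNash x a) (h0 : ∀ᶠ z in l, a (γ z) = 0) : ∀ᶠ u in 𝓝 x, a u = 0 := by
  obtain ⟨h1, f, hf, h2⟩ := id ha
  obtain ⟨q, hq, hnd⟩ := Polynomial.exists_eq_pow_rootMultiplicity_mul_and_not_dvd f hf 0
  rw [map_zero, sub_zero] at hq hnd
  generalize Polynomial.rootMultiplicity 0 f = k at hq
  have h3 : ∀ᶠ u in 𝓝 x, a u ^ k * q.eval₂ (eval u) (a u) = 0 := by
    filter_upwards [h2] with u hu
    rw [hq, Polynomial.eval₂_mul, Polynomial.eval₂_X_pow] at hu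
    exact hu
  rcases analytic_mul_eq_zero (h1.pow k) (nash2_eval₂ q ha).1 h3 with h4 | h4
  · filter_upwards [h4] with u hu
    exact pow_eq_zero_iff'.1 hu |>.1
  · refine absurd (Polynomial.X_dvd_iff.2 (hd _ ?_)) hnd
    filter_upwards [hγ.eventually h4, h0] with z hz hz0
    rw [hz0, Polynomial.eval₂_at_zero] at hz
    exact hz

end Nash2

end Pool.Agent.P.MP_f17f76_ag
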