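import Pool.Agent.P.MP_f17f76_ag.Defs2
import Pool.Agent.P.MP_f17f76_ag.Nash2

/-!
Ax's lemma: a Zariski dense analytic germ of large dimension in a fibre of a map with Nash
differential forces a constant linear relation among the components of the map.
-/

namespace Pool.Agent.P.MP_f17f76_ag

open MvPolynomial Filter Topology

/-- A function with zero derivative near a point is constant near that point. -/
theorem axa_const {E : Type} [NormedAddCommGroup E] [NormedSpace ℂ E] (f : E → ℂ) (x : E)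
    (hf : ∀ᶠ u in 𝓝 x, HasFDerivAt f (0 : E →L[ℂ] ℂ) u) : ∀ᶠ u in 𝓝 x, f u = f x := by
  let : NormedSpace ℝ E := .restrictScalars ℝ ℂ E
  obtain ⟨r, hr, hb⟩ := Metric.eventually_nhds_iff_ball.1 hf
  filter_upwards [Metric.ball_mem_nhds x hr] with u hu
  exact Metric.isOpen_ball.is_const_of_fderiv_eq_zero (𝕜 := ℂ) (convex_ball x r).isPreconnected
    (fun z hz => (hb z hz).differentiableAt.differentiableWithinAt)
    (fun z hz => (hb z hz).fderiv) hu (Metric.mem_ball_self hr)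

/-- Derivative of one entry of the differential. -/
theorem axa_entry {ι : Type} [Fintype ι] {g : ℕ} (h : (ι → ℂ) → Fin g → ℂ) (u : ι → ℂ)
    (hh : AnalyticAt ℂ h u) (w : ι → ℂ) (i : Fin g) :
    ∃ L : (ι → ℂ) →L[ℂ] ℂ, HasFDerivAt (fun z => fderiv ℂ h z w i) L u ∧
      ∀ ξ, L ξ = fderiv ℂ (fderiv ℂ h) u ξ w i := by
  have h1 : HasFDerivAt (fderiv ℂ h) (fderiv ℂ (fderiv ℂ h) u) u :=
    hh.fderiv.differentiableAt.hasFDerivAt
  let T : ((ι → ℂ) →L[ℂ] (Fin g → ℂ)) →L[ℂ] ℂ :=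
    (ContinuousLinearMap.proj i).comp (ContinuousLinearMap.apply ℂ (Fin g → ℂ) w)
  refine ⟨T.comp (fderiv ℂ (fderiv ℂ h) u), ?_, fun ξ => rfl⟩
  exact T.hasFDerivAt.comp u h1

/-- Differentiating the relation among the rows of the differential. -/
theorem axa_symm {ι J : Type} [Fintype ι] [Fintype J] {g : ℕ} (h : (ι → ℂ) → Fin g → ℂ)
    (u : ι → ℂ) (hh : AnalyticAt ℂ h u) (e : J → Fin g) (i₀ : Fin g) (a : (ι → ℂ) → J → ℂ)
    (ha : ∀ j, DifferentiableAt ℂ (fun z => a z j) u)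
    (hR : ∀ᶠ z in 𝓝 u, ∀ w, fderiv ℂ h z w i₀ = ∑ j, a z j * fderiv ℂ h z w (e j))
    (w ξ : ι → ℂ) :
    ∑ j, fderiv ℂ (fun z => a z j) u ξ * fderiv ℂ h u w (e j) =
      ∑ j, fderiv ℂ (fun z => a z j) u w * fderiv ℂ h u ξ (e j) := by
  have key : ∀ w ξ : ι → ℂ, fderiv ℂ (fderiv ℂ h) u ξ w i₀ =
      ∑ j, (a u j * fderiv ℂ (fderiv ℂ h) u ξ w (e j) +
        fderiv ℂ (fun z => a z j) u ξ * fderiv ℂ h u w (e j)) := by
    intro w ξ
    choose L hL hL' using axa_entry h u hh w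
    have h1 : HasFDerivAt (fun z => ∑ j, a z j * fderiv ℂ h z w (e j))
        (∑ j, (a u j • L (e j) + fderiv ℂ h u w (e j) • fderiv ℂ (fun z => a z j) u)) u :=
      HasFDerivAt.fun_sum fun j _ => (ha j).hasFDerivAt.fun_mul (hL (e j))
    have h2 : HasFDerivAt (fun z => fderiv ℂ h z w i₀)
        (∑ j, (a u j • L (e j) + fderiv ℂ h u w (e j) • fderiv ℂ (fun z => a z j) u)) u :=
      h1.congr_of_eventuallyEq (hR.mono fun z hz => hz w)
    have h3 := (hL i₀).unique h2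
    rw [← hL' i₀ ξ, h3, _root_.sum_apply]
    refine Finset.sum_congr rfl fun j _ => ?_
    simp only [_root_.add_apply, _root_.smul_apply, smul_eq_mul, hL']
    ring
  have hs : IsSymmSndFDerivAt ℂ h u := (hh.contDiffAt (n := ⊤)).isSymmSndFDerivAt_of_omega
  have k1 := key w ξ
  have k2 := key ξ w
  rw [hs ξ w] at k1
  rw [Finset.sum_add_distrib] at k1 k2
  exact add_left_cancel (k1.symm.trans k2)

/-- The main step, at a point where a maximal family of rows has a dual family of vectors. -/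
theorem axa_core {ι J : Type} [Fintype ι] [Fintype J] [DecidableEq J] {F : Type}
    [NormedAddCommGroup F] [NormedSpace ℂ F] {g : ℕ} (h : (ι → ℂ) → Fin g → ℂ) (γ : F → ι → ℂ)
    (y₁ : F) (c₀ : Fin g → ℂ) (hγ : AnalyticAt ℂ γ y₁) (hh : AnalyticAt ℂ h (γ y₁))
    (hN : ∀ v i, IsNash (γ y₁) (fun u => fderiv ℂ h u v i))
    (hd : ∀ p : MvPolynomial ι ℂ, (∀ᶠ z in 𝓝 y₁, eval (γ z) p = 0) → p = 0)
    (hc : ∀ᶠ y in 𝓝 y₁, h (γ y) = c₀)
    (e : J → Fin g) (i₀ : Fin g) (hi : ∀ j, e j ≠ i₀) (v : J → ι → ℂ)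
    (hv : ∀ j k, fderiv ℂ h (γ y₁) (v k) (e j) = if j = k then 1 else 0)
    (hmax : ∀ᶠ y in 𝓝 y₁,
      Function.Surjective (fun (w : ι → ℂ) (j : J) => fderiv ℂ h (γ y) w (e j)) →
        ∀ w, (∀ j, fderiv ℂ h (γ y) w (e j) = 0) → fderiv ℂ h (γ y) w i₀ = 0) :
    ∃ ℓ : (Fin g → ℂ) →L[ℂ] ℂ, ℓ ≠ 0 ∧ ∀ᶠ u in 𝓝 (γ y₁), ℓ (h u) = ℓ (h (γ y₁)) := by
  classical
  set x := γ y₁ with hx
  have hT : Tendsto γ (𝓝 y₁) (𝓝 x) := hγ.continuousAt
  let M : (ι → ℂ) → Matrix J J ℂ := fun u => Matrix.of fun j k => fderiv ℂ h u (v k) (e j)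
  have hM1 : M x = 1 := by
    ext j k
    simp only [M, Matrix.of_apply, hv, Matrix.one_apply]
  have hdet : ∀ᶠ u in 𝓝 x, (M u).det ≠ 0 := by
    have h1 : IsNash x (fun u => (M u).det) := isNash_det M fun j k => hN _ _
    refine h1.1.continuousAt.eventually_ne ?_
    simp [hM1]
  let b : (ι → ℂ) → J → ℂ := fun u k => fderiv ℂ h u (v k) i₀
  let a : (ι → ℂ) → J → ℂ := fun u => Matrix.vecMul (b u) (M u)⁻¹
  have hab : ∀ u, (M u).det ≠ 0 → ∀ k, ∑ j, a u j * M u j k = b u k := by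
    intro u hu k
    have : Matrix.vecMul (a u) (M u) = b u := by
      simp only [a, Matrix.vecMul_vecMul]
      rw [Matrix.nonsing_inv_mul _ (isUnit_iff_ne_zero.2 hu), Matrix.vecMul_one]
    have h2 := congrFun this k
    simpa [Matrix.vecMul, dotProduct] using h2
  have haN : ∀ j, IsNash x (fun u => a u j) := by
    intro j
    refine nash_solve (fun u j k => M u j k) (fun j k => hN _ _) ?_ a ?_ j
    · have : (fun j k => M x j k) = fun j : J => (Pi.single j (1 : ℂ) : J → ℂ) := by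
        funext j k
        rw [hM1, Matrix.one_apply, Pi.single_apply]
        simp [eq_comm]
      rw [this]
      exact Pi.linearIndependent_single_one J ℂ
    · intro k
      refine (hN (v k) i₀).congr ?_
      filter_upwards [hdet] with u hu
      exact (hab u hu k).symm
  -- the relation holds along the germ
  have hRγ : ∀ᶠ y in 𝓝 y₁, ∀ w,
      fderiv ℂ h (γ y) w i₀ = ∑ j, a (γ y) j * fderiv ℂ h (γ y) w (e j) := by
    filter_upwards [hmax, hT.eventually hdet] with y hy hu w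
    set u := γ y
    have hsolve : ∀ t : J → ℂ, ∀ j,
        fderiv ℂ h u (∑ k, (Matrix.mulVec (M u)⁻¹ t) k • v k) (e j) = t j := by
      intro t j
      have h1 : Matrix.mulVec (M u) (Matrix.mulVec (M u)⁻¹ t) = t := by
        rw [Matrix.mulVec_mulVec, Matrix.mul_nonsing_inv _ (isUnit_iff_ne_zero.2 hu),
          Matrix.one_mulVec]
      have h2 := congrFun h1 j
      rw [← h2, map_sum, Finset.sum_apply]
      simp only [map_smul, Pi.smul_apply, smul_eq_mul]
      simp only [Matrix.mulVec, dotProduct, M, Matrix.of_apply]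
      exact Finset.sum_congr rfl fun k _ => mul_comm _ _
    have hsurj : Function.Surjective (fun (w : ι → ℂ) (j : J) => fderiv ℂ h u w (e j)) :=
      fun t => ⟨_, funext (hsolve t)⟩
    set t : J → ℂ := fun j => fderiv ℂ h u w (e j) with ht
    set s : J → ℂ := Matrix.mulVec (M u)⁻¹ t with hs
    have h0 := hy hsurj (w - ∑ k, s k • v k) (fun j => by
      rw [map_sub, Pi.sub_apply, hsolve t j, sub_self])
    rw [map_sub, Pi.sub_apply, sub_eq_zero] at h0
    have h3 : ∀ j, fderiv ℂ h u w (e j) = ∑ k, s k * M u j k := by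
      intro j
      have := hsolve t j
      rw [map_sum, Finset.sum_apply] at this
      simp only [map_smul, Pi.smul_apply, smul_eq_mul] at this
      exact this.symm
    rw [h0, map_sum, Finset.sum_apply]
    simp only [map_smul, Pi.smul_apply, smul_eq_mul, h3, Finset.mul_sum]
    rw [Finset.sum_comm]
    refine Finset.sum_congr rfl fun k _ => ?_
    have := hab u hu k
    simp only [b] at this
    rw [← this, Finset.mul_sum]
    exact Finset.sum_congr rfl fun j _ => by ring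
  -- hence near the point
  have hR : ∀ᶠ u in 𝓝 x, ∀ w, fderiv ℂ h u w i₀ = ∑ j, a u j * fderiv ℂ h u w (e j) := by
    have h1 : ∀ w, ∀ᶠ u in 𝓝 x,
        fderiv ℂ h u w i₀ - ∑ j, a u j * fderiv ℂ h u w (e j) = 0 := by
      intro w
      refine IsNash.dense (𝓝 y₁) γ hT hd
        ((hN w i₀).sub (isNash_sum Finset.univ _ fun j _ => (haN j).mul (hN w (e j)))) ?_
      filter_upwards [hRγ] with y hy
      exact sub_eq_zero.2 (hy w)
    have h2 : ∀ᶠ u in 𝓝 x, ∀ k : ι, fderiv ℂ h u (Pi.single k 1) i₀ -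
        ∑ j, a u j * fderiv ℂ h u (Pi.single k 1) (e j) = 0 :=
      eventually_all.2 fun k => h1 _
    filter_upwards [h2] with u hu w
    have hw : w = ∑ k, w k • (Pi.single k 1 : ι → ℂ) := by
      funext k
      simp [Finset.sum_apply, Pi.single_apply]
    rw [hw]
    simp only [map_sum, map_smul, Finset.sum_apply, Pi.smul_apply, smul_eq_mul, Finset.mul_sum]
    rw [Finset.sum_comm]
    refine Finset.sum_congr rfl fun k _ => ?_
    rw [sub_eq_zero.1 (hu k), Finset.mul_sum]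
    exact Finset.sum_congr rfl fun j _ => by ring
  have haA : ∀ᶠ u in 𝓝 x, ∀ j, AnalyticAt ℂ (fun z => a z j) u :=
    eventually_all.2 fun j => (haN j).1.eventually_analyticAt
  -- the coefficients are constant along the germ
  have hac : ∀ j, ∀ᶠ y in 𝓝 y₁, a (γ y) j = a x j := by
    intro j
    refine axa_const (fun y => a (γ y) j) y₁ ?_
    filter_upwards [hγ.eventually_analyticAt, hT.eventually hh.eventually_analyticAt,
      hT.eventually hdet, hT.eventually hR.eventually_nhds, hT.eventually haA,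
      hc.eventually_nhds] with y hy1 hy2 hy3 hy4 hy5 hy6
    set u := γ y
    have hD : (fderiv ℂ h u).comp (fderiv ℂ γ y) = 0 := by
      have h1 : HasFDerivAt (fun z => h (γ z)) ((fderiv ℂ h u).comp (fderiv ℂ γ y)) y :=
        hy2.differentiableAt.hasFDerivAt.comp y hy1.differentiableAt.hasFDerivAt
      have h2 : HasFDerivAt (fun z => h (γ z)) (0 : F →L[ℂ] (Fin g → ℂ)) y :=
        (hasFDerivAt_const c₀ y).congr_of_eventuallyEq hy6
      exact h1.unique h2
    have h1 : HasFDerivAt (fun z => a (γ z) j)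
        ((fderiv ℂ (fun z => a z j) u).comp (fderiv ℂ γ y)) y :=
      (hy5 j).differentiableAt.hasFDerivAt.comp y hy1.differentiableAt.hasFDerivAt
    convert h1 using 1
    ext ε
    have hξ : fderiv ℂ h u (fderiv ℂ γ y ε) = 0 := by
      have := congrArg (fun T => T ε) hD
      simpa using this
    have h2 : Matrix.vecMul (fun j => fderiv ℂ (fun z => a z j) u (fderiv ℂ γ y ε)) (M u) = 0 := by
      funext k
      have := axa_symm h u hy2 e i₀ a (fun j => (hy5 j).differentiableAt) hy4 (v k)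
        (fderiv ℂ γ y ε)
      rw [hξ] at this
      simpa [Matrix.vecMul, dotProduct, M] using this
    have h3 := Matrix.eq_zero_of_vecMul_eq_zero hy3 h2
    have h4 := congrFun h3 j
    simpa using h4.symm
  have hac' : ∀ᶠ u in 𝓝 x, ∀ j, a u j = a x j := by
    refine eventually_all.2 fun j => ?_
    have := IsNash.dense (𝓝 y₁) γ hT hd ((haN j).sub (isNash_const x (a x j)))
      ((hac j).mono fun y hy => sub_eq_zero.2 hy)
    exact this.mono fun u hu => sub_eq_zero.1 hu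
  let ℓ : (Fin g → ℂ) →L[ℂ] ℂ := ContinuousLinearMap.proj i₀ -
    ∑ j, a x j • (ContinuousLinearMap.proj (e j) : (Fin g → ℂ) →L[ℂ] ℂ)
  have hℓ : ∀ z, ℓ z = z i₀ - ∑ j, a x j * z (e j) := by
    intro z
    simp [ℓ]
  refine ⟨ℓ, ?_, ?_⟩
  · intro h0
    have := hℓ (Pi.single i₀ 1)
    rw [h0] at this
    simp [hi] at this
  · refine axa_const (fun u => ℓ (h u)) x ?_
    filter_upwards [hh.eventually_analyticAt, hR, hac'] with u hu1 hu2 hu3
    have h1 : HasFDerivAt (fun u => ℓ (h u)) (ℓ.comp (fderiv ℂ h u)) u :=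
      ℓ.hasFDerivAt.comp u hu1.differentiableAt.hasFDerivAt
    have h2 : ℓ.comp (fderiv ℂ h u) = 0 := by
      refine ContinuousLinearMap.ext fun w => ?_
      rw [ContinuousLinearMap.comp_apply, hℓ, hu2 w]
      simp [hu3]
    rwa [h2] at h1

theorem ax_lemma {ι : Type} [Fintype ι] {F : Type} [NormedAddCommGroup F] [NormedSpace ℂ F]
    [FiniteDimensional ℂ F] {g : ℕ} (h : (ι → ℂ) → Fin g → ℂ) (γ : F → ι → ℂ) (y₀ : F)
    (hcard : Fintype.card ι < g + Module.finrank ℂ F)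
    (H : ∀ᶠ y in 𝓝 y₀, AnalyticAt ℂ γ y ∧ Function.Injective (fderiv ℂ γ y) ∧
      AnalyticAt ℂ h (γ y) ∧ (∀ v i, IsNash (γ y) (fun u => fderiv ℂ h u v i)) ∧
      (∀ p : MvPolynomial ι ℂ, (∀ᶠ z in 𝓝 y, eval (γ z) p = 0) → p = 0) ∧
      h (γ y) = h (γ y₀)) :
    ∃ᶠ y in 𝓝 y₀, ∃ ℓ : (Fin g → ℂ) →L[ℂ] ℂ, ℓ ≠ 0 ∧
      ∀ᶠ u in 𝓝 (γ y), ℓ (h u) = ℓ (h (γ y)) := by
  classical
  rw [Filter.frequently_iff]
  intro U hU
  obtain ⟨O, hOs, hO, hy₀⟩ := mem_nhds_iff.1 (inter_mem hU H)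
  let Good : Finset (Fin g) → Prop := fun I => ∃ y ∈ O,
    Function.Surjective (fun (w : ι → ℂ) (j : I) => fderiv ℂ h (γ y) w j)
  have hG0 : Good ∅ := ⟨y₀, hy₀, fun t => ⟨0, Subsingleton.elim _ _⟩⟩
  obtain ⟨I, hI, hImax⟩ := Finset.exists_max_image (Finset.univ.filter Good) Finset.card
    ⟨∅, by simpa using hG0⟩
  obtain ⟨y₁, hy₁, hsurj⟩ : Good I := by simpa using hI
  obtain ⟨hγ, hinj, hh, hN, hd, -⟩ := (hOs hy₁).2
  have hc : ∀ᶠ y in 𝓝 y₁, h (γ y) = h (γ y₀) := by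
    filter_upwards [hO.mem_nhds hy₁] with y hy
    exact (hOs hy).2.2.2.2.2.2
  have hne : ∃ i₀, i₀ ∉ I := by
    by_contra hall
    push Not at hall
    have hD : (fderiv ℂ h (γ y₁)).comp (fderiv ℂ γ y₁) = 0 := by
      have h1 : HasFDerivAt (fun z => h (γ z)) ((fderiv ℂ h (γ y₁)).comp (fderiv ℂ γ y₁)) y₁ :=
        hh.differentiableAt.hasFDerivAt.comp y₁ hγ.differentiableAt.hasFDerivAt
      have h2 : HasFDerivAt (fun z => h (γ z)) (0 : F →L[ℂ] (Fin g → ℂ)) y₁ :=
        (hasFDerivAt_const (h (γ y₀)) y₁).congr_of_eventuallyEq hc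
      exact h1.unique h2
    set A : (ι → ℂ) →ₗ[ℂ] (Fin g → ℂ) := (fderiv ℂ h (γ y₁) : (ι → ℂ) →ₗ[ℂ] (Fin g → ℂ))
    set B : F →ₗ[ℂ] (ι → ℂ) := (fderiv ℂ γ y₁ : F →ₗ[ℂ] (ι → ℂ))
    have hA : LinearMap.range A = ⊤ := by
      rw [LinearMap.range_eq_top]
      intro t
      obtain ⟨w, hw⟩ := hsurj (fun j => t j)
      exact ⟨w, funext fun i => congrFun hw ⟨i, hall i⟩⟩
    have hB : LinearMap.range B ≤ LinearMap.ker A := by
      rintro _ ⟨ε, rfl⟩
      have := congrArg (fun T => T ε) hD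
      simpa [A, B] using this
    have h1 := LinearMap.finrank_range_add_finrank_ker A
    have h2 := Submodule.finrank_mono hB
    have h3 : Module.finrank ℂ (LinearMap.range B) = Module.finrank ℂ F :=
      LinearMap.finrank_range_of_inj hinj
    rw [hA, finrank_top] at h1
    simp only [Module.finrank_fintype_fun_eq_card, Fintype.card_fin] at h1
    omega
  obtain ⟨i₀, hi₀⟩ := hne
  choose v hv using fun k : I => hsurj (fun j => if j = k then 1 else 0)
  refine ⟨y₁, (hOs hy₁).1, axa_core h γ y₁ (h (γ y₀)) hγ hh hN hd hc (fun j : I => (j : Fin g))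
    i₀ (fun j hj => hi₀ (hj ▸ j.2)) v (fun j k => congrFun (hv k) j) ?_⟩
  filter_upwards [hO.mem_nhds hy₁] with y hy hs w hw
  by_contra h0
  have hgood : Good (insert i₀ I) := by
    refine ⟨y, hy, fun t => ?_⟩
    obtain ⟨w', hw'⟩ := hs (fun j => t ⟨j, Finset.mem_insert_of_mem j.2⟩)
    refine ⟨w' + ((t ⟨i₀, Finset.mem_insert_self _ _⟩ - fderiv ℂ h (γ y) w' i₀) /
      fderiv ℂ h (γ y) w i₀) • w, funext fun j => ?_⟩
    obtain ⟨j, hj⟩ := j
    simp only [map_add, map_smul, Pi.add_apply, Pi.smul_apply, smul_eq_mul]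
    rcases Finset.mem_insert.1 hj with rfl | hj'
    · field_simp
      ring
    · have e1 := hw ⟨j, hj'⟩
      have e2 := congrFun hw' ⟨j, hj'⟩
      simp only at e1 e2
      rw [e1, e2, mul_zero, add_zero]
  have := hImax (insert i₀ I) (by simpa using hgood)
  rw [Finset.card_insert_of_notMem hi₀] at this
  omega

end Pool.Agent.P.MP_f17f76_ag
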