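import Pool.Agent.P.MP_f17f76_ag.Alg

/-!
An etale chart of an affine variety over a transcendence basis of coordinates.
-/

namespace Pool.Agent.P.MP_f17f76_ag

open MvPolynomial Filter Topology

theorem chart_root {ι : Type} [Fintype ι] (f : Polynomial (MvPolynomial ι ℂ)) (u₀ : ι → ℂ)
    (s₀ : ℂ) (h0 : f.eval₂ (eval u₀) s₀ = 0)
    (h1 : (Polynomial.derivative f).eval₂ (eval u₀) s₀ ≠ 0) :
    ∃ a : (ι → ℂ) → ℂ, AnalyticAt ℂ a u₀ ∧ a u₀ = s₀ ∧
      (∀ᶠ u in 𝓝 u₀, f.eval₂ (eval u) (a u) = 0) ∧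
      ∀ᶠ v in 𝓝 (u₀, s₀), f.eval₂ (eval v.1) v.2 = 0 → a v.1 = v.2 := by
  let F : (ι → ℂ) × ℂ → ℂ := fun v => f.eval₂ (eval v.1) v.2
  have hF : AnalyticAt ℂ F (u₀, s₀) := by
    simp only [F, Polynomial.eval₂_eq_sum_range]
    refine Finset.analyticAt_fun_sum _ fun i _ => AnalyticAt.mul ?_ (analyticAt_snd.pow i)
    exact (AnalyticOnNhd.eval_mvPolynomial (f.coeff i) u₀ (Set.mem_univ _)).comp_of_eq
      analyticAt_fst rfl
  have hc : ContDiffAt ℂ ⊤ F (u₀, s₀) := hF.contDiffAt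
  have hinv : (fderiv ℂ F (u₀, s₀) ∘L ContinuousLinearMap.inr ℂ (ι → ℂ) ℂ).IsInvertible := by
    have e1 : HasFDerivAt (fun s => F (u₀, s))
        (fderiv ℂ F (u₀, s₀) ∘L ContinuousLinearMap.inr ℂ (ι → ℂ) ℂ) s₀ :=
      HasFDerivAt.comp s₀ (g := F) hF.differentiableAt.hasFDerivAt (hasFDerivAt_prodMk_right u₀ s₀)
    have e2 : HasDerivAt (fun s => F (u₀, s))
        ((Polynomial.derivative f).eval₂ (eval u₀) s₀) s₀ := by
      have := (f.map (eval u₀)).hasDerivAt s₀
      simpa only [Polynomial.derivative_map, Polynomial.eval_map] using this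
    rw [e1.unique e2.hasFDerivAt]
    exact ⟨ContinuousLinearEquiv.unitsEquivAut ℂ (Units.mk0 _ h1), by ext; simp⟩
  refine ⟨hc.implicitFunction (by simp) hinv,
    (hc.contDiffAt_implicitFunction (by simp) hinv).analyticAt,
    hc.implicitFunction_apply_self (by simp) hinv, ?_, ?_⟩
  · filter_upwards [hc.eventually_apply_implicitFunction (by simp) hinv] with u hu
    exact hu.trans h0
  · filter_upwards [hc.eventually_apply_eq_iff_implicitFunction (by simp) hinv] with v hv h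
    exact hv.mp (h.trans h0.symm)

theorem chart_sep {R : Type} [CommRing R] [IsNoetherianRing R] (J P : Ideal R) [hP : P.IsPrime]
    (hmin : ∀ Q : Ideal R, Q.IsPrime → J ≤ Q → Q ≤ P → P ≤ Q) :
    ∃ D, D ∉ P ∧ ∀ p ∈ P, D * p ∈ J.radical := by
  classical
  have hfin := Ideal.finite_minimalPrimes_of_isNoetherianRing R J
  have h1 : ∀ Q : Ideal R, ∃ d, d ∉ P ∧ (Q ∈ J.minimalPrimes → ∀ p ∈ P, d * p ∈ Q) := by
    intro Q
    by_cases hQ : Q ≤ P
    · refine ⟨1, (Ideal.ne_top_iff_one P).mp hP.ne_top, fun h p hp => ?_⟩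
      rw [one_mul]
      exact hmin Q h.1.1 h.1.2 hQ hp
    · obtain ⟨d, hd, hd'⟩ := Set.not_subset.mp hQ
      exact ⟨d, hd', fun _ p _ => Q.mul_mem_right p hd⟩
  choose d hd hd' using h1
  refine ⟨∏ Q ∈ hfin.toFinset, d Q, fun h => ?_, fun p hp => ?_⟩
  · obtain ⟨Q, _, hQ⟩ := Ideal.IsPrime.prod_mem_iff.mp h
    exact hd Q hQ
  · rw [← Ideal.sInf_minimalPrimes, Submodule.mem_sInf]
    intro Q hQ
    rw [← Finset.mul_prod_erase _ _ (hfin.mem_toFinset.mpr hQ), mul_right_comm]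
    exact Ideal.mul_mem_right _ Q (hd' Q hQ p hp)

/-- Substitution of the variable `k` in a polynomial over the coordinates in `T`. -/
noncomputable def chartEv {σ : Type} (T : Finset σ) (k : σ) (f : Polynomial (MvPolynomial T ℂ)) :
    MvPolynomial σ ℂ :=
  f.eval₂ (rename Subtype.val : MvPolynomial T ℂ →ₐ[ℂ] MvPolynomial σ ℂ).toRingHom (X k)

theorem chart_eval {σ : Type} (T : Finset σ) (k : σ) (f : Polynomial (MvPolynomial T ℂ))
    (q : σ → ℂ) : eval q (chartEv T k f) = f.eval₂ (eval fun i : T => q i) (q k) := by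
  rw [chartEv, Polynomial.hom_eval₂, eval_X]
  congr 1
  refine RingHom.ext fun p => ?_
  exact eval_rename _ _ _

theorem chart_self {σ : Type} (T : Finset σ) (i : T) (f : Polynomial (MvPolynomial T ℂ)) :
    chartEv T i f = rename Subtype.val (f.eval (X i)) := by
  have := Polynomial.hom_eval₂ f (RingHom.id _)
    (rename Subtype.val : MvPolynomial T ℂ →ₐ[ℂ] MvPolynomial σ ℂ).toRingHom (X i)
  rw [RingHom.comp_id, Polynomial.eval₂_id] at this
  rw [chartEv]
  simpa using this.symm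

theorem chart_min {σ : Type} {P : Ideal (MvPolynomial σ ℂ)} {T : Finset σ} (hT : Indep P T)
    (halg : AlgOver P T) (k : σ) : ∃ f : Polynomial (MvPolynomial T ℂ), f ≠ 0 ∧
      chartEv T k f ∈ P ∧ chartEv T k (Polynomial.derivative f) ∉ P := by
  classical
  have hex : ∃ n, ∃ f : Polynomial (MvPolynomial T ℂ), (f ≠ 0 ∧ chartEv T k f ∈ P) ∧
      f.natDegree = n := by
    obtain ⟨f, h⟩ := halg k
    exact ⟨_, f, h, rfl⟩
  obtain ⟨f, ⟨h0, h1⟩, hn⟩ := Nat.find_spec hex
  have hd : f.natDegree ≠ 0 := by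
    intro h
    rw [Polynomial.eq_C_of_natDegree_eq_zero h, chartEv, Polynomial.eval₂_C] at h1
    apply h0
    rw [Polynomial.eq_C_of_natDegree_eq_zero h, hT _ h1, map_zero]
  refine ⟨f, h0, h1, fun h => ?_⟩
  exact Nat.find_min hex (hn ▸ Polynomial.natDegree_derivative_lt hd)
    ⟨_, ⟨Polynomial.derivative_ne_zero.mpr hd, h⟩, rfl⟩

theorem chart {σ : Type} [Fintype σ] (P : Ideal (MvPolynomial σ ℂ)) [P.IsPrime]
    (T : Finset σ) (hT : Indep P T) (halg : AlgOver P T) :
    ∃ D : MvPolynomial σ ℂ, D ∉ P ∧ ∀ q : σ → ℂ, (∀ p ∈ P, eval q p = 0) → eval q D ≠ 0 →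
      ∃ ψ : (T → ℂ) → (σ → ℂ), ψ (fun i => q i) = q ∧
        (∀ k, IsEt (fun i : T => q i) (fun u => ψ u k)) ∧
        (∀ᶠ u in 𝓝 (fun i : T => q i), (∀ i : T, ψ u i = u i) ∧ ∀ p ∈ P, eval (ψ u) p = 0) ∧
        (∀ᶠ q' in 𝓝 q, (∀ p ∈ P, eval q' p = 0) → ψ (fun i => q' i) = q') := by
  choose f hf0 hf1 hf2 using chart_min hT halg
  let J : Ideal (MvPolynomial σ ℂ) := Ideal.span (Set.range fun k => chartEv T k (f k))
  obtain ⟨D1, hD1, hD1'⟩ := chart_sep J P fun Q hQ hJQ hQP p hp => by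
    by_contra hpQ
    obtain ⟨b, hb, c, hc⟩ := exists_const_mem Q T (fun p hp => hT p (hQP hp))
      (fun k => ⟨f k, hf0 k, hJQ (Ideal.subset_span ⟨k, rfl⟩)⟩) p hpQ
    refine hb (hT b ?_)
    have := P.add_mem (hQP hc) (P.mul_mem_left c hp)
    rwa [sub_add_cancel] at this
  refine ⟨(∏ k, chartEv T k (Polynomial.derivative (f k))) * D1, fun h => ?_, fun q hq hD => ?_⟩
  · rcases Ideal.IsPrime.mem_or_mem inferInstance h with h | h
    · obtain ⟨k, _, hk⟩ := Ideal.IsPrime.prod_mem_iff.mp h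
      exact hf2 k hk
    · exact hD1 h
  rw [map_mul, map_prod, mul_ne_zero_iff, Finset.prod_ne_zero_iff] at hD
  have hder : ∀ k, (Polynomial.derivative (f k)).eval₂ (eval fun i : T => q i) (q k) ≠ 0 :=
    fun k => chart_eval T k _ q ▸ hD.1 k (Finset.mem_univ k)
  choose a ha1 ha2 ha3 ha4 using fun k => chart_root (f k) (fun i : T => q i) (q k)
    (chart_eval T k _ q ▸ hq _ (hf1 k)) (hder k)
  have hq0 : (fun k => a k fun i : T => q i) = q := funext ha2
  refine ⟨fun u k => a k u, hq0, fun k => ⟨ha1 k, f k, ha3 k, ?_⟩, ?_, ?_⟩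
  · change (Polynomial.derivative (f k)).eval₂ _ (a k fun i : T => q i) ≠ 0
    rw [ha2]
    exact hder k
  · have e1 : ∀ᶠ u in 𝓝 (fun i : T => q i), ∀ i : T, a i u = u i := by
      refine eventually_all.mpr fun i => ?_
      have t1 : Tendsto (fun u : T → ℂ => (u, u i)) (𝓝 fun i : T => q i)
          (𝓝 (fun i : T => q i, q i)) :=
        (continuous_id.prodMk (continuous_apply i)).tendsto _
      filter_upwards [t1.eventually (ha4 i)] with u hu
      refine hu ?_
      have h1 : (f i).eval (X i) = 0 := hT _ (chart_self T i (f i) ▸ hf1 i)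
      have h2 := Polynomial.hom_eval₂ (f i) (RingHom.id _) (eval u) (X i)
      rw [RingHom.comp_id, Polynomial.eval₂_id, h1, map_zero, eval_X] at h2
      exact h2.symm
    have e2 : ∀ᶠ u in 𝓝 (fun i : T => q i), eval (fun k => a k u) D1 ≠ 0 := by
      have c1 : ContinuousAt (fun (u : T → ℂ) k => a k u) fun i : T => q i :=
        continuousAt_pi.mpr fun k => (ha1 k).continuousAt
      have c2 := (continuous_eval D1).continuousAt.comp c1
      refine c2.eventually_ne ?_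
      change eval (fun k => a k fun i : T => q i) D1 ≠ 0
      rw [hq0]
      exact hD.2
    filter_upwards [e1, e2, eventually_all.mpr ha3] with u h1 h2 h3
    refine ⟨h1, fun p hp => ?_⟩
    have h4 : J ≤ RingHom.ker (eval fun k => a k u) := by
      refine Ideal.span_le.mpr ?_
      rintro _ ⟨k, rfl⟩
      change eval (fun k => a k u) (chartEv T k (f k)) = 0
      rw [chart_eval, show (fun i : T => a i u) = u from funext h1]
      exact h3 k
    obtain ⟨n, hn⟩ := hD1' p hp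
    have h5 : eval (fun k => a k u) ((D1 * p) ^ n) = 0 := h4 hn
    rw [map_pow, map_mul] at h5
    exact (mul_eq_zero.mp (eq_zero_of_pow_eq_zero h5)).resolve_left h2
  · have e1 : ∀ k, ∀ᶠ q' in 𝓝 q, (f k).eval₂ (eval fun i : T => q' i) (q' k) = 0 →
        a k (fun i : T => q' i) = q' k := by
      intro k
      have t1 : Tendsto (fun q' : σ → ℂ => ((fun i : T => q' i), q' k)) (𝓝 q)
          (𝓝 (fun i : T => q i, q k)) :=
        (Continuous.prodMk (by fun_prop) (continuous_apply k)).tendsto _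
      exact t1.eventually (ha4 k)
    filter_upwards [eventually_all.mpr e1] with q' h1 h2
    funext k
    exact h1 k (chart_eval T k _ q' ▸ h2 _ (hf1 k))

end Pool.Agent.P.MP_f17f76_ag
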