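import Pool.Agent.P.MP_f17f76_ag.Nash2

/-!
The invariant differentials of an abelian variety are algebraic: the derivative of a local
logarithm of a Nash map to the cone is Nash.
-/

namespace Pool.Agent.P.MP_f17f76_ag

open MvPolynomial Filter Topology

/-- Derivatives at `0` of the coordinates of `v ↦ (y, θ v)`. -/
noncomputable def invD {g N : ℕ} (A : AbVar g N) : Fin N ⊕ Fin N → ((Fin g → ℂ) →L[ℂ] ℂ) :=
  Sum.elim (fun _ => 0) (fun l => (ContinuousLinearMap.proj l).comp (fderiv ℂ A.θ 0))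

theorem inv_theta_hasFDerivAt {g N : ℕ} (A : AbVar g N) (w : Fin g → ℂ) :
    HasFDerivAt A.θ (fderiv ℂ A.θ w) w :=
  (A.analytic w (Set.mem_univ _)).differentiableAt.hasFDerivAt

theorem inv_theta_coord {g N : ℕ} (A : AbVar g N) (w : Fin g → ℂ) (k : Fin N) :
    HasFDerivAt (fun v => A.θ (w + v) k)
      ((ContinuousLinearMap.proj k).comp (fderiv ℂ A.θ w)) 0 := by
  have h1 : HasFDerivAt A.θ (fderiv ℂ A.θ w) (w + 0) := by
    rw [add_zero]; exact inv_theta_hasFDerivAt A w
  have h2 : HasFDerivAt (fun v => A.θ (w + v)) (fderiv ℂ A.θ w) 0 := by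
    have := h1.comp (0 : Fin g → ℂ) ((hasFDerivAt_id (0 : Fin g → ℂ)).const_add w)
    simpa using this
  exact (hasFDerivAt_pi'.1 h2) k

theorem inv_Q_hasFDerivAt {g N : ℕ} (A : AbVar g N) (y : Fin N → ℂ)
    (p : MvPolynomial (Fin N ⊕ Fin N) ℂ) :
    HasFDerivAt (fun v => eval (Sum.elim y (A.θ v)) p)
      (∑ l, eval (Sum.elim y (A.θ 0)) (pderiv l p) • invD A l) 0 := by
  refine hasFDerivAt_eval p (fun v => Sum.elim y (A.θ v)) (invD A) ?_
  rintro (l | l)
  · exact hasFDerivAt_const _ _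
  · have := inv_theta_coord A 0 l
    simpa [invD] using this

/-- The differentiated addition law. -/
theorem inv_ident {g N : ℕ} (A : AbVar g N) (Q : Fin N → MvPolynomial (Fin N ⊕ Fin N) ℂ)
    (y : Fin N → ℂ) (w : Fin g → ℂ)
    (hQ : ∀ v, ∃ r : ℂ, (fun k => eval (Sum.elim y (A.θ v)) (Q k)) = r • A.θ (w + v))
    (e : Fin g → ℂ) (j k : Fin N) :
    (∑ l, eval (Sum.elim y (A.θ 0)) (pderiv l (Q k)) * invD A l e) * A.θ w j +
        eval (Sum.elim y (A.θ 0)) (Q k) * fderiv ℂ A.θ w e j =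
      (∑ l, eval (Sum.elim y (A.θ 0)) (pderiv l (Q j)) * invD A l e) * A.θ w k +
        eval (Sum.elim y (A.θ 0)) (Q j) * fderiv ℂ A.θ w e k := by
  have h1 := (inv_Q_hasFDerivAt A y (Q k)).mul (inv_theta_coord A w j)
  have h2 := (inv_Q_hasFDerivAt A y (Q j)).mul (inv_theta_coord A w k)
  have heq : ((fun v => eval (Sum.elim y (A.θ v)) (Q k)) * fun v => A.θ (w + v) j) =
      ((fun v => eval (Sum.elim y (A.θ v)) (Q j)) * fun v => A.θ (w + v) k) := by
    funext v
    obtain ⟨r, hr⟩ := hQ v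
    have hk := congrFun hr k
    have hj := congrFun hr j
    simp only [Pi.smul_apply, smul_eq_mul] at hk hj
    simp only [Pi.mul_apply, hk, hj]
    ring
  rw [heq] at h1
  have h3 := congrArg (fun L : (Fin g → ℂ) →L[ℂ] ℂ => L e) (h1.unique h2)
  simp only [ContinuousLinearMap.add_apply, ContinuousLinearMap.smul_apply,
    ContinuousLinearMap.sum_apply, ContinuousLinearMap.comp_apply,
    ContinuousLinearMap.proj_apply, smul_eq_mul, add_zero] at h3
  linear_combination h3

theorem inv_expand {g N : ℕ} (D : (Fin g → ℂ) →L[ℂ] (Fin N → ℂ)) (a : Fin g → ℂ) (k : Fin N) :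
    D a k = ∑ i, a i * D (Pi.single i 1) k := by
  have h : a = ∑ i, a i • (Pi.single i (1 : ℂ) : Fin g → ℂ) := by
    funext j
    simp [Finset.sum_apply, Pi.single_apply]
  conv_lhs => rw [h]
  simp [map_sum, Finset.sum_apply]

theorem AbVar.nash_fderiv {g N : ℕ} (A : AbVar g N) {ι : Type} [Fintype ι] (x : ι → ℂ)
    (w : (ι → ℂ) → Fin g → ℂ) (τ : (ι → ℂ) → ℂ) (Y : (ι → ℂ) → Fin N → ℂ)
    (hw : AnalyticAt ℂ w x) (hτ : AnalyticAt ℂ τ x) (hτ0 : τ x ≠ 0)
    (hY : ∀ k, IsEt x (fun u => Y u k)) (hc : ∀ᶠ u in 𝓝 x, Y u = τ u • A.θ (w u))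
    (v : ι → ℂ) (i : Fin g) : IsNash x (fun u => fderiv ℂ w u v i) := by
  classical
  obtain ⟨Q, hQ0, hQ⟩ := A.add (w x) 0
  set c : ℂ := (τ x)⁻¹ with hcdef
  set y : (ι → ℂ) → Fin N → ℂ := fun u => c • Y u with hy
  have hyN : ∀ k, IsNash x (fun u => y u k) := fun k =>
    (isNash_const x c).mul (hY k).isNash
  have hyc : ∀ᶠ u in 𝓝 x, y u = (c * τ u) • A.θ (w u) := by
    filter_upwards [hc] with u hu
    simp only [hy, hu, smul_smul]
  have hsx : c * τ x = 1 := inv_mul_cancel₀ hτ0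
  have hyx : y x = A.θ (w x) := by
    have := hyc.self_of_nhds
    rw [this, hsx, one_smul]
  have hadd : ∀ u, y u = (c * τ u) • A.θ (w u) → ∀ v',
      ∃ r : ℂ, (fun k => eval (Sum.elim (y u) (A.θ v')) (Q k)) = r • A.θ (w u + v') := by
    intro u hu v'
    obtain ⟨r, hr⟩ := hQ (w u) v' (c * τ u) 1
    rw [one_smul, ← hu] at hr
    exact ⟨r, hr⟩
  obtain ⟨j, hj⟩ : ∃ j, eval (Sum.elim (y x) (A.θ 0)) (Q j) ≠ 0 := by
    by_contra hcon
    push Not at hcon
    apply hQ0
    funext k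
    have := hcon k
    rw [hyx] at this
    exact this
  have hel : ∀ l, IsNash x (fun u => Sum.elim (y u) (A.θ 0) l) := by
    rintro (l | l)
    · exact hyN l
    · exact isNash_const x _
  set η : (ι → ℂ) → Fin N → ℂ := fun u k => eval (Sum.elim (y u) (A.θ 0)) (Q k) with hη
  set ξ : (ι → ℂ) → Fin g → Fin N → ℂ := fun u i k =>
    ∑ l, eval (Sum.elim (y u) (A.θ 0)) (pderiv l (Q k)) * invD A l (Pi.single i 1) with hξ
  have hηN : ∀ k, IsNash x (fun u => η u k) := fun k =>
    isNash_eval (Q k) (fun u => Sum.elim (y u) (A.θ 0)) hel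
  have hξN : ∀ i k, IsNash x (fun u => ξ u i k) := fun i k =>
    isNash_sum _ _ (fun l _ =>
      (isNash_eval (pderiv l (Q k)) (fun u => Sum.elim (y u) (A.θ 0)) hel).mul (isNash_const x _))
  set m : (ι → ℂ) → Fin g → Fin N → ℂ := fun u i k =>
    y u j * (y u j * ξ u i k - y u k * ξ u i j) with hm
  have hmN : ∀ i k, IsNash x (fun u => m u i k) := fun i k =>
    (hyN j).mul (((hyN j).mul (hξN i k)).sub ((hyN k).mul (hξN i j)))
  have hmform : ∀ u, y u = (c * τ u) • A.θ (w u) → ∀ i k, m u i k = (c * τ u) * η u j *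
      (y u j * fderiv ℂ A.θ (w u) (Pi.single i 1) k -
        y u k * fderiv ℂ A.θ (w u) (Pi.single i 1) j) := by
    intro u hu i k
    have hI := inv_ident A Q (y u) (w u) (hadd u hu) (Pi.single i 1) j k
    obtain ⟨r, hr⟩ := hadd u hu 0
    rw [add_zero] at hr
    have hk : η u k = r * A.θ (w u) k := congrFun hr k
    have hj' : η u j = r * A.θ (w u) j := congrFun hr j
    have hyk : y u k = (c * τ u) * A.θ (w u) k := congrFun hu k
    have hyj : y u j = (c * τ u) * A.θ (w u) j := congrFun hu j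
    change ξ u i k * A.θ (w u) j + η u k * _ = ξ u i j * A.θ (w u) k + η u j * _ at hI
    change y u j * (y u j * ξ u i k - y u k * ξ u i j) = _
    rw [hk, hj'] at hI
    rw [hyk, hyj, hj']
    linear_combination (c * τ u) ^ 2 * A.θ (w u) j * hI
  have hsum : ∀ u, y u = (c * τ u) • A.θ (w u) → ∀ (a : Fin g → ℂ) k,
      ∑ i, a i * m u i k = (c * τ u) * η u j *
        (y u j * fderiv ℂ A.θ (w u) a k - y u k * fderiv ℂ A.θ (w u) a j) := by
    intro u hu a k
    rw [inv_expand (fderiv ℂ A.θ (w u)) a k, inv_expand (fderiv ℂ A.θ (w u)) a j,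
      Finset.mul_sum, Finset.mul_sum, ← Finset.sum_sub_distrib, Finset.mul_sum]
    refine Finset.sum_congr rfl (fun i _ => ?_)
    rw [hmform u hu i k]
    ring
  have hli : LinearIndependent ℂ (m x) := by
    rw [Fintype.linearIndependent_iff]
    intro a ha
    have hx := hyc.self_of_nhds
    obtain ⟨r, hr⟩ := hadd x hx 0
    rw [add_zero] at hr
    have hj' : η x j = r * A.θ (w x) j := congrFun hr j
    have hηj : η x j ≠ 0 := hj
    have hθj : A.θ (w x) j ≠ 0 := by
      intro h0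
      apply hηj
      rw [hj', h0, mul_zero]
    have h0 : a = 0 := by
      apply A.imm (w x) a (fderiv ℂ A.θ (w x) a j / A.θ (w x) j)
      funext k
      have h1 := congrFun ha k
      simp only [Finset.sum_apply, Pi.smul_apply, smul_eq_mul, Pi.zero_apply] at h1
      rw [hsum x hx a k, hsx, one_mul, hyx] at h1
      have h2 := (mul_eq_zero.1 h1).resolve_left hηj
      simp only [Pi.smul_apply, smul_eq_mul]
      field_simp
      linear_combination h2
    intro i
    rw [h0]; rfl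
  refine nash_solve m hmN hli (fun u => fderiv ℂ w u v) (fun k => ?_) i
  have hdN : ∀ k, IsNash x (fun u => c * fderiv ℂ (fun u => Y u k) u v) := fun k =>
    (isNash_const x c).mul ((hY k).isNash_fderiv v)
  refine ((hηN j).mul (((hyN j).mul (hdN k)).sub ((hyN k).mul (hdN j)))).congr ?_
  filter_upwards [hyc, hc.eventually_nhds, hw.eventually_analyticAt, hτ.eventually_analyticAt]
    with u hu hcu hwu hτu
  have hd : ∀ k, fderiv ℂ (fun u => Y u k) u v =
      fderiv ℂ τ u v * A.θ (w u) k + τ u * fderiv ℂ A.θ (w u) (fderiv ℂ w u v) k := by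
    intro k
    have h1 : HasFDerivAt (fun u => A.θ (w u))
        ((fderiv ℂ A.θ (w u)).comp (fderiv ℂ w u)) u :=
      (inv_theta_hasFDerivAt A (w u)).comp u hwu.differentiableAt.hasFDerivAt
    have h2 := hτu.differentiableAt.hasFDerivAt.mul ((hasFDerivAt_pi'.1 h1) k)
    have h3 : (fun u => Y u k) =ᶠ[𝓝 u] (τ * fun u => A.θ (w u) k) := by
      filter_upwards [hcu] with u' hu'
      simp [hu']
    rw [h3.fderiv_eq, h2.fderiv]
    simp only [ContinuousLinearMap.add_apply, ContinuousLinearMap.smul_apply,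
      ContinuousLinearMap.comp_apply, ContinuousLinearMap.proj_apply, smul_eq_mul]
    ring
  rw [hsum u hu (fderiv ℂ w u v) k, hd k, hd j]
  have hyk : y u k = (c * τ u) * A.θ (w u) k := congrFun hu k
  have hyj : y u j = (c * τ u) * A.θ (w u) j := congrFun hu j
  rw [hyk, hyj]
  ring

end Pool.Agent.P.MP_f17f76_ag
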