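import Pool.Agent.P.MP_f17f76_ag.Rat

/-!
The last step: an affine subspace of the Lie algebra of a simple abelian variety is generic.
-/

namespace Pool.Agent.P.MP_f17f76_ag

open MvPolynomial Filter Topology

section

variable {g N : ℕ} (A : AbVar g N) {F : Type} [NormedAddCommGroup F] [NormedSpace ℂ F]

theorem end_an (u : F →L[ℂ] (Fin g → ℂ)) (a : Fin g → ℂ) (x : F) :
    AnalyticAt ℂ (fun y => A.θ (a + u y)) x :=
  (A.analytic _ (Set.mem_univ _)).fun_comp (analyticAt_const.add (u.analyticAt x))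

theorem end_fd (u : F →L[ℂ] (Fin g → ℂ)) (τ : F →L[ℂ] ℂ) (a : Fin g → ℂ) (x : F) (hx : τ x = 1) :
    ∃ D : F →L[ℂ] (Fin N → ℂ), HasFDerivAt (fun y => τ y • A.θ (a + u y)) D x ∧
      ∀ h, D h = 0 → u h = 0 ∧ τ h = 0 := by
  have h1 := (A.analytic (a + u x) (Set.mem_univ _)).differentiableAt.hasFDerivAt.comp x
    (u.hasFDerivAt.const_add a)
  refine ⟨_, τ.hasFDerivAt.smul h1, fun h e => ?_⟩
  simp only [hx, one_smul, add_apply, ContinuousLinearMap.comp_apply,
    ContinuousLinearMap.smulRight_apply] at e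
  have h2 : u h = 0 := A.imm _ _ (-τ h) (by rw [neg_smul]; exact eq_neg_of_add_eq_zero_left e)
  rw [h2, map_zero, zero_add] at e
  exact ⟨h2, (smul_eq_zero.1 e).resolve_right (A.ne_zero _)⟩

theorem end_eval {n : ℕ} (p : MvPolynomial (Fin n) ℂ) {f : F → Fin n → ℂ} {x : F}
    (h : AnalyticAt ℂ f x) : AnalyticAt ℂ (fun y => eval (f y) p) x :=
  (AnalyticOnNhd.eval_mvPolynomial p _ (Set.mem_univ _)).fun_comp h

end

theorem end_real {φ : ℂ → ℂ} (h : AnalyticOnNhd ℂ φ Set.univ) (h0 : ∀ τ : ℝ, φ τ = 0) (z : ℂ) :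
    φ z = 0 := by
  refine h.eqOn_zero_of_preconnected_of_frequently_eq_zero isPreconnected_univ
    (Set.mem_univ 0) ?_ (Set.mem_univ z)
  have h1 : Tendsto (fun n : ℕ => ((1 / ((n : ℝ) + 1) : ℝ) : ℂ)) atTop (𝓝[≠] 0) := by
    refine tendsto_nhdsWithin_iff.2 ⟨?_, Eventually.of_forall fun n => ?_⟩
    · exact (Complex.continuous_ofReal.tendsto' 0 0 rfl).comp
        tendsto_one_div_add_atTop_nhds_zero_nat
    · exact Complex.ofReal_ne_zero.2 (by positivity)
  exact h1.frequently (Frequently.of_forall fun n => h0 _)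

theorem end_poly {n : ℕ} (p : MvPolynomial (Fin n) ℂ) (b c : Fin n → ℂ) {x d : ℂ} (hd : d ≠ 0)
    (h : ∀ k : ℕ, eval (b + (x + k * d) • c) p = 0) (z : ℂ) : eval (b + z • c) p = 0 := by
  have key : ∀ z : ℂ, Polynomial.eval z
      (aeval (fun i => Polynomial.C (b i) + Polynomial.C (c i) * Polynomial.X) p) =
        eval (b + z • c) p := by
    intro z
    rw [← Polynomial.coe_aeval_eq_eval, comp_aeval_apply, ← coe_aeval_eq_eval,
      show (fun i => Polynomial.aeval z (Polynomial.C (b i) + Polynomial.C (c i) * Polynomial.X)) =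
        b + z • c from funext fun i => by
          rw [map_add, map_mul, Polynomial.aeval_C, Polynomial.aeval_C, Polynomial.aeval_X, mul_comm]
          rfl]
    rfl
  rw [← key, Polynomial.eq_zero_of_infinite_isRoot _ (Set.infinite_of_injective_forall_mem
    (f := fun k : ℕ => x + k * d) (fun i j e => by simpa [hd] using e)
    fun k => (key _).trans (h k)), Polynomial.eval_zero]

theorem AbVar.end_step {g N : ℕ} (A : AbVar g N) (hA : A.Simple) {r : ℕ} (hr : 0 < r)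
    (β : (Fin r → ℂ) →L[ℂ] (Fin g → ℂ)) (hβ : Function.Injective β) (a : Fin g → ℂ)
    (ℓ : (Fin g → ℂ) →L[ℂ] ℂ) (hℓ : ℓ ≠ 0)
    (hdep : ∀ π : (ℂ × (Fin N → ℂ)) →L[ℂ] (Fin (r + 2) → ℂ), ∃ p : MvPolynomial (Fin (r + 2)) ℂ,
      p ≠ 0 ∧ ∀ᶠ s in 𝓝 (0 : Fin r → ℂ), ∀ t : ℂ,
        eval (π (ℓ (a + β s), t • A.θ (a + β s))) p = 0) : False := by
  have hall : ∀ π : (ℂ × (Fin N → ℂ)) →L[ℂ] (Fin (r + 2) → ℂ),
      ∃ p : MvPolynomial (Fin (r + 2)) ℂ, p ≠ 0 ∧ ∀ (s : Fin r → ℂ) (t : ℂ),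
        eval (π (ℓ (a + β s), t • A.θ (a + β s))) p = 0 := by
    intro π
    obtain ⟨p, hp, h⟩ := hdep π
    refine ⟨p, hp, fun s t => ?_⟩
    have h1 : AnalyticOnNhd ℂ (fun s => eval (π (ℓ (a + β s), t • A.θ (a + β s))) p) Set.univ :=
      fun s _ => end_eval p ((π.analyticAt _).fun_comp
        (((ℓ.analyticAt _).fun_comp (analyticAt_const.add (β.analyticAt s))).prod
          (analyticAt_const.fun_smul (end_an A β a s))))
    exact h1.eqOn_zero_of_preconnected_of_eventuallyEq_zero isPreconnected_univ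
      (Set.mem_univ 0) (h.mono fun s hs => hs t) (Set.mem_univ s)
  have hfin : Module.finrank ℂ ((Fin r → ℂ) × ℂ × ℂ) = r + 2 := by simp
  let p1 := ContinuousLinearMap.fst ℂ (Fin r → ℂ) (ℂ × ℂ)
  let p2 := (ContinuousLinearMap.fst ℂ ℂ ℂ).comp (ContinuousLinearMap.snd ℂ (Fin r → ℂ) (ℂ × ℂ))
  let p3 := (ContinuousLinearMap.snd ℂ ℂ ℂ).comp (ContinuousLinearMap.snd ℂ (Fin r → ℂ) (ℂ × ℂ))
  rcases A.rat_or_line (LinearMap.range (β : (Fin r → ℂ) →ₗ[ℂ] (Fin g → ℂ))) with h | ⟨v, hv, h⟩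
  · have hs : Function.Surjective β := by
      rcases hA _ h with h | h
      · have h1 : β (fun _ => 1) = β 0 := by
          rw [map_zero]
          exact (Submodule.eq_bot_iff _).1 h _ ⟨_, rfl⟩
        exact absurd (congrFun (hβ h1) ⟨0, hr⟩) one_ne_zero
      · exact LinearMap.range_eq_top.1 h
    obtain ⟨m, hm, hm0⟩ : ∃ m ∈ A.Λ, ℓ m ≠ 0 := by
      by_contra hc
      push Not at hc
      refine hℓ (ContinuousLinearMap.ext fun w => ?_)
      have h1 : Submodule.span ℝ (A.Λ : Set (Fin g → ℂ)) ≤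
          LinearMap.ker ((ℓ : (Fin g → ℂ) →ₗ[ℂ] ℂ).restrictScalars ℝ) := Submodule.span_le.2 hc
      rw [A.spans] at h1
      exact h1 (Submodule.mem_top (x := w))
    obtain ⟨D, hD, hD0⟩ := end_fd A (β.comp p1) p3 a (0, 0, 1) rfl
    obtain ⟨π, hπ⟩ := open_dense
      (fun y : (Fin r → ℂ) × ℂ × ℂ => (p2 y, p3 y • A.θ (a + (β.comp p1) y))) (0, 0, 1)
      ((p2.analyticAt _).prod ((p3.analyticAt _).smul (end_an A _ a _)))
      (by
        rw [(p2.hasFDerivAt.prodMk hD).fderiv, injective_iff_map_eq_zero]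
        intro y e
        rw [ContinuousLinearMap.prod_apply, Prod.mk_eq_zero] at e
        obtain ⟨h1, h2⟩ := hD0 y e.2
        exact Prod.ext (hβ (h1.trans (map_zero β).symm)) (Prod.ext e.1 h2)) _ hfin
    obtain ⟨p, hp, hz⟩ := hall π
    refine hp (hπ p (Eventually.of_forall fun y => ?_))
    have e : ∀ (z : ℂ) (Y : Fin N → ℂ), π (z, Y) = π (0, Y) + z • π (1, 0) := by
      intro z Y
      rw [← map_smul, ← map_add]
      simp
    rw [e]
    refine end_poly p _ _ (x := ℓ (a + β y.1)) hm0 (fun k => ?_) _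
    obtain ⟨s, hs⟩ := hs (β y.1 + k • m)
    obtain ⟨c, hc⟩ := (A.per (a + β y.1) (a + β s)).2 (by
      rw [hs, add_sub_add_left_eq_sub, add_sub_cancel_left]
      exact nsmul_mem hm k)
    have hc0 : c ≠ 0 := by
      rintro rfl
      exact A.ne_zero _ (hc.trans (zero_smul _ _))
    have h1 := hz s (y.2.2 / c)
    rw [hc, smul_smul, div_mul_cancel₀ _ hc0, hs, ← add_assoc, map_add, map_nsmul, nsmul_eq_mul,
      e] at h1
    exact h1
  · obtain ⟨D, hD, hD0⟩ := end_fd A (β.comp p1 + p2.smulRight v) p3 a (0, 0, 1) rfl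
    obtain ⟨π, hπ⟩ := open_dense
      (fun y : (Fin r → ℂ) × ℂ × ℂ => p3 y • A.θ (a + (β.comp p1 + p2.smulRight v) y)) (0, 0, 1)
      ((p3.analyticAt _).smul (end_an A _ a _))
      (by
        rw [hD.fderiv, injective_iff_map_eq_zero]
        intro y e
        obtain ⟨h1, h2⟩ := hD0 y e
        change β y.1 + y.2.1 • v = 0 at h1
        have h3 : y.2.1 = 0 := by
          by_contra h3
          refine hv ((Submodule.smul_mem_iff _ h3).1 ⟨-y.1, ?_⟩)
          rw [map_neg]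
          exact neg_eq_of_add_eq_zero_right h1
        rw [h3, zero_smul, add_zero] at h1
        exact Prod.ext (hβ (h1.trans (map_zero β).symm)) (Prod.ext h3 h2)) _ hfin
    obtain ⟨p, hp, hz⟩ := hall (π.comp (ContinuousLinearMap.snd ℂ ℂ (Fin N → ℂ)))
    refine hp (hπ p (Eventually.of_forall fun y => ?_))
    have han : ∀ {F : Type} [NormedAddCommGroup F] [NormedSpace ℂ F] (u : F →L[ℂ] (Fin g → ℂ)),
        AnalyticOnNhd ℂ (fun x => eval (π (y.2.2 • A.θ (a + β y.1 + u x))) p) Set.univ :=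
      fun u x _ => end_eval p ((π.analyticAt _).fun_comp (analyticAt_const.fun_smul (end_an A u _ x)))
    have h1 := end_real (han ((ContinuousLinearMap.id ℂ ℂ).smulRight v)) (fun τ => ?_) y.2.1
    · rw [add_assoc] at h1
      exact h1
    refine closure_minimal (t := {x | eval (π (y.2.2 • A.θ (a + β y.1 + x))) p = 0}) ?_
      (isClosed_eq (han (ContinuousLinearMap.id ℂ _)).continuous continuous_const) (h τ)
    rintro _ ⟨_, ⟨s, rfl⟩, m, hm, rfl⟩
    obtain ⟨c, hc⟩ := (A.per (a + β (y.1 + s)) (a + β y.1 + (β s + m))).2 (by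
      rw [map_add, show a + β y.1 + (β s + m) - (a + (β y.1 + β s)) = m by abel]
      exact hm)
    change eval (π (y.2.2 • A.θ (a + β y.1 + (β s + m)))) p = 0
    rw [hc, smul_smul]
    exact hz _ _

end Pool.Agent.P.MP_f17f76_ag
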