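import Pool.Agent.P.MP_f17f76_ag.Nash2
import Pool.Agent.P.MP_f17f76_ag.End

/-!
Summing translates of an analytic germ fills an affine subspace of the Lie algebra.
-/

namespace Pool.Agent.P.MP_f17f76_ag

open MvPolynomial Filter Topology

/-- The germ `W` has a Nash lift to the affine cone. -/
def sumCN {g N r : ℕ} (A : AbVar g N) (W : (Fin r → ℂ) → Fin g → ℂ) : Prop :=
  ∃ Z : (Fin r → ℂ) → Fin N → ℂ, (∀ k, IsNash (0 : Fin r → ℂ) (fun s => Z s k)) ∧
    Z 0 = A.θ (W 0) ∧ ∀ᶠ s in 𝓝 (0 : Fin r → ℂ), ∃ t : ℂ, Z s = t • A.θ (W s)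

theorem sum_CN_zero {g N r : ℕ} (A : AbVar g N) :
    sumCN A (fun _ : Fin r → ℂ => (0 : Fin g → ℂ)) :=
  ⟨fun _ => A.θ 0, fun _ => isNash_const _ _, rfl,
    Eventually.of_forall fun _ => ⟨1, (one_smul _ _).symm⟩⟩

theorem sum_CN_add {g N r : ℕ} (A : AbVar g N) {W₁ W₂ : (Fin r → ℂ) → Fin g → ℂ}
    (h₁ : sumCN A W₁) (h₂ : sumCN A W₂) : sumCN A (fun s => W₁ s + W₂ s) := by
  obtain ⟨Z₁, hN₁, h01, he₁⟩ := h₁
  obtain ⟨Z₂, hN₂, h02, he₂⟩ := h₂
  obtain ⟨Q, hQ0, hQ⟩ := A.add (W₁ 0) (W₂ 0)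
  obtain ⟨ρ, hρ⟩ := hQ (W₁ 0) (W₂ 0) 1 1
  simp only [one_smul] at hρ
  have hρ0 : ρ ≠ 0 := by
    rintro rfl
    exact hQ0 (by rw [hρ, zero_smul])
  refine ⟨fun s k => ρ⁻¹ * eval (Sum.elim (Z₁ s) (Z₂ s)) (Q k), fun k => ?_, ?_, ?_⟩
  · refine (isNash_const _ _).mul (isNash_eval (Q k) (fun s => Sum.elim (Z₁ s) (Z₂ s)) ?_)
    rintro (j | j)
    · exact hN₁ j
    · exact hN₂ j
  · funext k
    have := congrFun hρ k
    simp only [h01, h02, this, Pi.smul_apply, smul_eq_mul]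
    field_simp
  · filter_upwards [he₁, he₂] with s hs₁ hs₂
    obtain ⟨t₁, ht₁⟩ := hs₁
    obtain ⟨t₂, ht₂⟩ := hs₂
    obtain ⟨ρ', hρ'⟩ := hQ (W₁ s) (W₂ s) t₁ t₂
    refine ⟨ρ⁻¹ * ρ', ?_⟩
    funext k
    have := congrFun hρ' k
    simp only [ht₁, ht₂, this, Pi.smul_apply, smul_eq_mul]
    ring

theorem sum_CN_sum {g N r : ℕ} (A : AbVar g N) {κ : Type} (S : Finset κ)
    (W : κ → (Fin r → ℂ) → Fin g → ℂ) (h : ∀ i ∈ S, sumCN A (W i)) :
    sumCN A (fun s => ∑ i ∈ S, W i s) := by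
  classical
  induction S using Finset.induction_on with
  | empty => simpa using sum_CN_zero A
  | insert a S ha ih =>
    simp only [Finset.sum_insert ha]
    exact sum_CN_add A (h a (Finset.mem_insert_self _ _))
      (ih fun i hi => h i (Finset.mem_insert_of_mem hi))

theorem sum_line_nash {ι : Type} [Fintype ι] {r : ℕ} (u v : ι → ℂ) (i : Fin r)
    {a : (ι → ℂ) → ℂ} (h : IsEt u a) :
    IsNash (0 : Fin r → ℂ) (fun s => a (u + s i • v)) := by
  have h' : IsEt (fun j => eval (0 : Fin r → ℂ)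
      ((C (u j) + C (v j) * X i : MvPolynomial (Fin r) ℂ))) a := by
    simpa using h
  have h2 := (IsEt.comp_poly (fun j => (C (u j) + C (v j) * X i : MvPolynomial (Fin r) ℂ))
    0 h').isNash
  refine h2.congr (Eventually.of_forall fun s => ?_)
  simp only [map_add, eval_C, map_mul, eval_X]
  congr 1
  funext j
  simp [mul_comm]

theorem sum_line_tendsto {ι : Type} [Fintype ι] {r : ℕ} (u v : ι → ℂ) (i : Fin r) :
    Tendsto (fun s : Fin r → ℂ => u + s i • v) (𝓝 0) (𝓝 u) := by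
  have hc : Continuous (fun s : Fin r → ℂ => u + s i • v) := by fun_prop
  simpa using hc.tendsto 0

theorem sum_CN_line {g N r : ℕ} (A : AbVar g N) {ι : Type} [Fintype ι] (u v : ι → ℂ)
    (i : Fin r) (w : (ι → ℂ) → Fin g → ℂ) (Y : (ι → ℂ) → Fin N → ℂ)
    (hY : ∀ k, IsEt u (fun u => Y u k)) (hY0 : Y u ≠ 0)
    (hc : ∀ᶠ u' in 𝓝 u, ∃ t : ℂ, Y u' = t • A.θ (w u')) :
    sumCN A (fun s : Fin r → ℂ => w (u + s i • v)) := by
  obtain ⟨t₀, ht₀⟩ := hc.self_of_nhds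
  have ht0 : t₀ ≠ 0 := by
    rintro rfl
    exact hY0 (by rw [ht₀, zero_smul])
  refine ⟨fun s k => t₀⁻¹ * Y (u + s i • v) k, fun k => ?_, ?_, ?_⟩
  · exact (isNash_const _ _).mul (sum_line_nash u v i (hY k))
  · funext k
    simp only [Pi.zero_apply, zero_smul, add_zero, ht₀, Pi.smul_apply, smul_eq_mul]
    field_simp
  · filter_upwards [(sum_line_tendsto u v i).eventually hc] with s hs
    obtain ⟨t, ht⟩ := hs
    refine ⟨t₀⁻¹ * t, ?_⟩
    funext k
    simp only [ht, Pi.smul_apply, smul_eq_mul]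
    ring

theorem sum_dep {g N r : ℕ} (A : AbVar g N) (σ : (Fin r → ℂ) → Fin g → ℂ)
    (hCN : sumCN A σ) (ℓ : (Fin g → ℂ) →L[ℂ] ℂ)
    (hℓ : IsNash (0 : Fin r → ℂ) (fun s => ℓ (σ s)))
    (π : (ℂ × (Fin N → ℂ)) →L[ℂ] (Fin (r + 2) → ℂ)) :
    ∃ p : MvPolynomial (Fin (r + 2)) ℂ, p ≠ 0 ∧ ∀ᶠ s in 𝓝 (0 : Fin r → ℂ), ∀ t : ℂ,
      eval (π (ℓ (σ s), t • A.θ (σ s))) p = 0 := by
  obtain ⟨Z, hN, h0, he⟩ := hCN
  let y₀ : Option (Fin r) → ℂ := fun o => o.elim 1 (fun _ => 0)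
  have hy : (fun i => y₀ (some i)) = (0 : Fin r → ℂ) := rfl
  let F : (Option (Fin r) → ℂ) → Option (Fin N) → ℂ := fun u o =>
    o.elim (ℓ (σ (fun i => u (some i)))) (fun k => u none * Z (fun i => u (some i)) k)
  have hF : ∀ o, IsNash y₀ (fun u => F u o) := by
    rintro (_ | k)
    · exact IsNash.comp_inj some (Option.some_injective _) y₀ (a := fun s => ℓ (σ s))
        (by rw [hy]; exact hℓ)
    · exact (isNash_coord y₀ none).mul
        (IsNash.comp_inj some (Option.some_injective _) y₀ (a := fun s => Z s k)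
          (by rw [hy]; exact hN k))
  let E : (Option (Fin N) → ℂ) →L[ℂ] (ℂ × (Fin N → ℂ)) :=
    (ContinuousLinearMap.proj none).prod
      (ContinuousLinearMap.pi fun k => ContinuousLinearMap.proj (some k))
  have hE : ∀ u, E (F u) =
      (ℓ (σ (fun i => u (some i))), u none • Z (fun i => u (some i))) := fun u => rfl
  have hf : ∀ j : Fin (r + 2), IsNash y₀ (fun u => π (E (F u)) j) := fun j =>
    isNash_clm ((ContinuousLinearMap.proj j).comp (π.comp E)) F hF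
  obtain ⟨p, hp, hpe⟩ := nash_dep (ι := Option (Fin r)) (J := Fin (r + 2)) (by simp)
    (fun j u => π (E (F u)) j) hf
  refine ⟨p, hp, ?_⟩
  let m : (Fin r → ℂ) × ℂ → Option (Fin r) → ℂ := fun q o => o.elim q.2 q.1
  have hm : Tendsto m (𝓝 (0, 1)) (𝓝 y₀) := by
    have hc : Continuous m := by
      refine continuous_pi ?_
      rintro (_ | i)
      · exact continuous_snd
      · exact (continuous_apply i).comp continuous_fst
    exact hc.tendsto (0, 1)
  have h1 := (hm.eventually hpe).curry_nhds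
  have hZc : ContinuousAt Z 0 := continuousAt_pi.2 fun k => (hN k).1.continuousAt
  have hZ0 : ∀ᶠ s in 𝓝 (0 : Fin r → ℂ), Z s ≠ 0 :=
    hZc.eventually_ne (by rw [h0]; exact A.ne_zero _)
  filter_upwards [h1, hZ0, he] with s hs hs0 hs1
  obtain ⟨t₀, ht₀⟩ := hs1
  have ht0 : t₀ ≠ 0 := by
    rintro rfl
    exact hs0 (by rw [ht₀, zero_smul])
  have han : AnalyticOnNhd ℂ (fun t : ℂ => eval (π (ℓ (σ s), t • Z s)) p) Set.univ := by
    intro t _
    refine analyticAt_eval p (fun t : ℂ => π (ℓ (σ s), t • Z s)) fun k => ?_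
    have h2 : AnalyticAt ℂ (fun t : ℂ => (ℓ (σ s), t • Z s)) t :=
      analyticAt_const.prod (analyticAt_id.smul analyticAt_const)
    exact (((ContinuousLinearMap.proj k).comp π).analyticAt _).comp h2
  have hall : (fun t : ℂ => eval (π (ℓ (σ s), t • Z s)) p) = fun _ => 0 :=
    han.eq_of_eventuallyEq analyticOnNhd_const (z₀ := 1) hs
  intro t
  have h3 := congrFun hall (t * t₀⁻¹)
  simp only [ht₀, smul_smul] at h3
  rwa [mul_assoc, inv_mul_cancel₀ ht0, mul_one] at h3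

theorem AbVar.sum_step {g N : ℕ} (A : AbVar g N) (hA : A.Simple) {ι : Type} [Fintype ι]
    (x : ι → ℂ) (w z : (ι → ℂ) → Fin g → ℂ) (Y : (ι → ℂ) → Fin N → ℂ)
    (ℓ : (Fin g → ℂ) →L[ℂ] ℂ) (hℓ : ℓ ≠ 0) (κ : ℂ)
    (hw : AnalyticAt ℂ w x) (hne : fderiv ℂ w x ≠ 0)
    (hY : ∀ k, IsEt x (fun u => Y u k)) (hY0 : Y x ≠ 0)
    (hc : ∀ᶠ u in 𝓝 x, ∃ t : ℂ, Y u = t • A.θ (w u))
    (hz : ∀ i, IsEt x (fun u => z u i))
    (hrel : ∀ᶠ u in 𝓝 x, ℓ (w u) = ℓ (z u) + κ) : False := by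
  have hYc : ContinuousAt Y x := continuousAt_pi.2 fun k => (hY k).1.continuousAt
  have hP : ∀ᶠ u in 𝓝 x, AnalyticAt ℂ w u ∧ (∀ k, IsEt u (fun u => Y u k)) ∧ Y u ≠ 0 ∧
      (∀ᶠ u' in 𝓝 u, ∃ t : ℂ, Y u' = t • A.θ (w u')) ∧ (∀ i, IsEt u (fun u => z u i)) ∧
      (∀ᶠ u' in 𝓝 u, ℓ (w u') = ℓ (z u') + κ) := by
    filter_upwards [hw.eventually_analyticAt, eventually_all.2 fun k => (hY k).eventually,
      hYc.eventually_ne hY0, hc.eventually_nhds, eventually_all.2 fun i => (hz i).eventually,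
      hrel.eventually_nhds] with u h1 h2 h3 h4 h5 h6
    exact ⟨h1, h2, h3, h4, h5, h6⟩
  obtain ⟨ε, hε, hB⟩ := Metric.eventually_nhds_iff_ball.1 hP
  let S : Set (Fin g → ℂ) := {y | ∃ u ∈ Metric.ball x ε, ∃ v, y = fderiv ℂ w u v}
  obtain ⟨b, hbS, hbspan, hbli⟩ := Submodule.exists_fun_fin_finrank_span_eq ℂ S
  generalize hr : Module.finrank ℂ (Submodule.span ℂ S) = r at b hbS hbspan hbli
  choose U hU V hUV using hbS
  let β : (Fin r → ℂ) →L[ℂ] (Fin g → ℂ) :=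
    LinearMap.toContinuousLinearMap (Fintype.linearCombination ℂ b)
  have hβapp : ∀ s, β s = ∑ i, s i • b i := fun s => Fintype.linearCombination_apply ℂ b s
  have hβinj : Function.Injective β := by
    rw [injective_iff_map_eq_zero]
    intro s hs
    rw [hβapp] at hs
    funext i
    exact Fintype.linearIndependent_iff.1 hbli s hs i
  have hβr : ∀ y ∈ S, ∃ s, β s = y := by
    intro y hy
    have h1 : y ∈ Submodule.span ℂ (Set.range b) := by
      rw [hbspan]; exact Submodule.subset_span hy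
    obtain ⟨s, hs⟩ := (Submodule.mem_span_range_iff_exists_fun ℂ).1 h1
    exact ⟨s, by rw [hβapp, hs]⟩
  have hr0 : 0 < r := by
    rcases Nat.eq_zero_or_pos r with h | h
    · exfalso
      subst h
      apply hne
      ext1 v
      obtain ⟨s, hs⟩ := hβr (fderiv ℂ w x v) ⟨x, Metric.mem_ball_self hε, v, rfl⟩
      rw [← hs, hβapp]
      simp
    · exact h
  obtain ⟨π₀', hπ₀'⟩ := LinearMap.exists_leftInverse_of_injective 
    (Fintype.linearCombination ℂ b) (LinearMap.ker_eq_bot.2 (by exact hβinj))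
  let π₀ : (Fin g → ℂ) →L[ℂ] (Fin r → ℂ) := LinearMap.toContinuousLinearMap π₀'
  have hπ₀ : ∀ s, π₀ (β s) = s := fun s => LinearMap.congr_fun hπ₀' s
  let Q : (Fin g → ℂ) →L[ℂ] (Fin g → ℂ) := ContinuousLinearMap.id ℂ _ - β.comp π₀
  have hQapp : ∀ y, Q y = y - β (π₀ y) := fun y => rfl
  have hQS : ∀ y ∈ S, Q y = 0 := by
    intro y hy
    obtain ⟨s, rfl⟩ := hβr y hy
    rw [hQapp, hπ₀, sub_self]
  have hQw : ∀ u ∈ Metric.ball x ε, ∀ u' ∈ Metric.ball x ε, Q (w u) = Q (w u') := by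
    intro u hu u' hu'
    have hd : ∀ y ∈ Metric.ball x ε, HasFDerivAt (fun y => Q (w y)) (Q.comp (fderiv ℂ w y)) y :=
      fun y hy => Q.hasFDerivAt.comp y (hB y hy).1.differentiableAt.hasFDerivAt
    refine Metric.isOpen_ball.is_const_of_fderiv_eq_zero (𝕜 := ℂ)
      (convex_ball x ε).isPreconnected
      (fun y hy => (hd y hy).differentiableAt.differentiableWithinAt) ?_ hu hu'
    intro y hy
    rw [(hd y hy).fderiv]
    ext1 v
    exact hQS _ ⟨y, hy, v, rfl⟩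
  let σ : (Fin r → ℂ) → Fin g → ℂ := fun s => ∑ i, w (U i + s i • V i)
  have hσ0 : σ 0 = ∑ i, w (U i) := by simp [σ]
  have hσd : HasStrictFDerivAt σ β 0 := by
    have h1 : ∀ i, HasStrictFDerivAt (fun s : Fin r → ℂ => w (U i + s i • V i))
        ((fderiv ℂ w (U i)).comp ((ContinuousLinearMap.proj i).smulRight (V i))) 0 := by
      intro i
      have h2 : HasStrictFDerivAt (fun s : Fin r → ℂ => U i + s i • V i)
          ((ContinuousLinearMap.proj i : (Fin r → ℂ) →L[ℂ] ℂ).smulRight (V i)) 0 :=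
        ((ContinuousLinearMap.proj i : (Fin r → ℂ) →L[ℂ] ℂ).smulRight
          (V i)).hasStrictFDerivAt.const_add (U i)
      have h3 : HasStrictFDerivAt w (fderiv ℂ w (U i)) (U i + (0 : Fin r → ℂ) i • V i) := by
        simpa using (hB _ (hU i)).1.hasStrictFDerivAt
      exact h3.comp (0 : Fin r → ℂ) h2
    have h4 := HasStrictFDerivAt.fun_sum (u := Finset.univ) fun i _ => h1 i
    have h5 : β = ∑ i, (fderiv ℂ w (U i)).comp ((ContinuousLinearMap.proj i).smulRight (V i)) := by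
      refine ContinuousLinearMap.ext fun s => ?_
      rw [hβapp]
      simp [hUV]
    rw [h5]
    exact h4
  let Φ : (Fin r → ℂ) → (Fin r → ℂ) := fun s => π₀ (σ s - σ 0)
  have hΦd : HasStrictFDerivAt Φ
      (ContinuousLinearEquiv.refl ℂ (Fin r → ℂ) : (Fin r → ℂ) →L[ℂ] (Fin r → ℂ)) 0 := by
    have h1 := π₀.hasStrictFDerivAt.comp (0 : Fin r → ℂ) (hσd.sub_const (σ 0))
    have h2 : (ContinuousLinearEquiv.refl ℂ (Fin r → ℂ) : (Fin r → ℂ) →L[ℂ] (Fin r → ℂ)) =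
        π₀.comp β := by
      refine ContinuousLinearMap.ext fun s => ?_
      simp [hπ₀]
    rw [h2]
    exact h1
  have hΦ0 : Φ 0 = 0 := by simp [Φ]
  have hmap : map Φ (𝓝 0) = 𝓝 0 := by
    have := hΦd.map_nhds_eq_of_equiv
    rwa [hΦ0] at this
  have hball : ∀ᶠ s in 𝓝 (0 : Fin r → ℂ), ∀ i, U i + s i • V i ∈ Metric.ball x ε :=
    eventually_all.2 fun i => (sum_line_tendsto (U i) (V i) i).eventually
      (Metric.isOpen_ball.mem_nhds (hU i))
  have hσΦ : ∀ᶠ s in 𝓝 (0 : Fin r → ℂ), σ 0 + β (Φ s) = σ s := by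
    filter_upwards [hball] with s hs
    have h1 : Q (σ s - σ 0) = 0 := by
      rw [map_sub, hσ0]
      simp only [σ, map_sum]
      rw [sub_eq_zero]
      exact Finset.sum_congr rfl fun i _ => hQw _ (hs i) _ (hU i)
    rw [hQapp, sub_eq_zero] at h1
    simp only [Φ]
    rw [← h1]
    abel
  have hCN : sumCN A σ := sum_CN_sum A Finset.univ (fun i s => w (U i + s i • V i))
    fun i _ => sum_CN_line A (U i) (V i) i w Y (hB _ (hU i)).2.1 (hB _ (hU i)).2.2.1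
      (hB _ (hU i)).2.2.2.1
  have hℓσ : IsNash (0 : Fin r → ℂ) (fun s => ℓ (σ s)) := by
    have h1 : IsNash (0 : Fin r → ℂ) (fun s => ∑ i, (ℓ (z (U i + s i • V i)) + κ)) :=
      isNash_sum Finset.univ (fun i s => ℓ (z (U i + s i • V i)) + κ) fun i _ =>
        (isNash_clm ℓ (fun s => z (U i + s i • V i)) fun j =>
          sum_line_nash (U i) (V i) i ((hB _ (hU i)).2.2.2.2.1 j)).add (isNash_const _ _)
    refine h1.congr ?_
    filter_upwards [hball] with s hs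
    simp only [σ, map_sum]
    exact Finset.sum_congr rfl fun i _ => ((hB _ (hs i)).2.2.2.2.2.self_of_nhds).symm
  refine A.end_step hA hr0 β hβinj (σ 0) ℓ hℓ fun π => ?_
  obtain ⟨p, hp, hpe⟩ := sum_dep A σ hCN ℓ hℓσ π
  refine ⟨p, hp, ?_⟩
  rw [← hmap, eventually_map]
  filter_upwards [hpe, hσΦ] with s hs hs'
  rw [hs']
  exact hs

end Pool.Agent.P.MP_f17f76_ag
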