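import Pool.Agent.P.MP_f17f76_ag.GermPrime
import Pool.Agent.P.MP_f17f76_ag.Chart
import Pool.Agent.P.MP_f17f76_ag.Inv
import Pool.Agent.P.MP_f17f76_ag.AxA
import Pool.Agent.P.MP_f17f76_ag.SumStep

namespace Pool.Agent.P.MP_f17f76_ag

open MvPolynomial Filter Topology

/-- a chart of `Z(P)` lifted to the universal cover -/
theorem AbVar.chart_lift {g N : ℕ} (A : AbVar g N) {P : Ideal (MvPolynomial (Fin g ⊕ Fin N) ℂ)}
    (hcone : ∀ x : Fin g ⊕ Fin N → ℂ, (∀ p ∈ P, eval x p = 0) →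
      ∃ (t : ℂ) (w : Fin g → ℂ), (fun k => x (Sum.inr k)) = t • A.θ w)
    {ι : Type} [Fintype ι] (x₀ : ι → ℂ) (ψ : (ι → ℂ) → (Fin g ⊕ Fin N → ℂ))
    (hψ : ∀ k, IsEt x₀ (fun u => ψ u k)) (hP : ∀ᶠ u in 𝓝 x₀, ∀ p ∈ P, eval (ψ u) p = 0)
    (w₀ : Fin g → ℂ) (t₀ : ℂ) (ht : t₀ ≠ 0) (h0 : (fun k => ψ x₀ (Sum.inr k)) = t₀ • A.θ w₀) :
    ∃ (ω : (Fin N → ℂ) → (Fin g → ℂ)) (τ : (ι → ℂ) → ℂ),
      AnalyticAt ℂ (fun u => ω (fun k => ψ u (Sum.inr k))) x₀ ∧ AnalyticAt ℂ τ x₀ ∧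
      ω (t₀ • A.θ w₀) = w₀ ∧ τ x₀ = t₀ ∧
      (∀ᶠ u in 𝓝 x₀, (fun k => ψ u (Sum.inr k)) = τ u • A.θ (ω (fun k => ψ u (Sum.inr k)))) ∧
      (∀ᶠ p in 𝓝 (w₀, t₀), ω (p.2 • A.θ p.1) = p.1) := by
  obtain ⟨ω, τ, hω, hτ, hω0, hτ0, h1, h2⟩ := A.lift w₀ t₀ ht
  have hY : AnalyticAt ℂ (fun u => fun k => ψ u (Sum.inr k)) x₀ :=
    analyticAt_pi_iff.2 fun k => (hψ (Sum.inr k)).1
  refine ⟨ω, fun u => τ (fun k => ψ u (Sum.inr k)), ?_, ?_, hω0, ?_, ?_, h2⟩
  · exact AnalyticAt.comp (g := ω) (f := fun u => fun k => ψ u (Sum.inr k)) (by rw [h0]; exact hω) hY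
  · exact AnalyticAt.comp (g := τ) (f := fun u => fun k => ψ u (Sum.inr k)) (by rw [h0]; exact hτ) hY
  · simp only [h0, hτ0]
  · have hc := hY.continuousAt.tendsto
    rw [h0] at hc
    filter_upwards [hc.eventually h1, hP] with u hu hu'
    exact hu (hcone _ hu')

theorem AbVar.ax_schanuel {g N : ℕ} (A : AbVar g N) (hA : A.Simple) (f : ℂ → Fin g → ℂ)
    (hf : AnalyticAt ℂ f 0) (hf' : deriv f 0 ≠ 0) (y : Fin g → ℂ)
    (hdep : ∀ J : Finset (Fin g ⊕ Fin N), J.card = g + 2 → ∃ p : MvPolynomial J ℂ, p ≠ 0 ∧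
      ∀ t : ℂ, ∀ᶠ s in 𝓝 (0 : ℂ),
        eval (fun j : J => Sum.elim (f s) (t • A.θ (f s - y)) j) p = 0) : False := by
  classical
  obtain ⟨ρ, hρ, hball⟩ : ∃ ρ > 0, ∀ s ∈ Metric.ball (0 : ℂ) ρ,
      AnalyticAt ℂ f s ∧ deriv f s ≠ 0 := by
    have h1 := hf.eventually_analyticAt
    have h2 := hf.deriv.continuousAt.eventually_ne hf'
    obtain ⟨ρ, hρ, h⟩ := Metric.eventually_nhds_iff_ball.1 (h1.and h2)
    exact ⟨ρ, hρ, h⟩
  set Ω : Set (ℂ × ℂ) := Metric.ball (0 : ℂ) ρ ×ˢ Set.univ with hΩ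
  have hΩo : IsOpen Ω := Metric.isOpen_ball.prod isOpen_univ
  have hΩc : IsPreconnected Ω :=
    (convex_ball (0 : ℂ) ρ).isPreconnected.prod isPreconnected_univ
  have h01 : ∀ t : ℂ, ((0 : ℂ), t) ∈ Ω := fun t => ⟨Metric.mem_ball_self hρ, trivial⟩
  set Z : ℂ × ℂ → (Fin g ⊕ Fin N → ℂ) := fun p => Sum.elim (f p.1) (p.2 • A.θ (f p.1 - y))
    with hZdef
  have hf1 : ∀ p ∈ Ω, AnalyticAt ℂ (fun p : ℂ × ℂ => f p.1) p := fun p hp =>
    AnalyticAt.comp (g := f) (f := fun p : ℂ × ℂ => p.1) (hball p.1 hp.1).1 analyticAt_fst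
  have hZ : ∀ p ∈ Ω, ∀ k, AnalyticAt ℂ (fun z => Z z k) p := by
    intro p hp k
    rcases k with i | k
    · exact (analyticAt_pi_iff.1 (hf1 p hp)) i
    · exact analyticAt_snd.mul (A.analyticAt_coord ((hf1 p hp).sub analyticAt_const) k)
  set P := vanI Ω Z with hPdef
  have hP : P.IsPrime := vanI_prime hΩo hΩc ⟨_, h01 0⟩ hZ
  obtain ⟨T, hT, hTa⟩ := exists_basis P
  have hTc : T.card ≤ g + 1 := by
    by_contra hlt
    obtain ⟨J, hJT, hJ⟩ := Finset.exists_subset_card_eq (s := T) (n := g + 2) (by omega)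
    obtain ⟨p, hp0, hp⟩ := hdep J hJ
    refine hp0 (hT.mono hJT p ?_)
    rintro ⟨s, t⟩ hst
    rw [eval_rename]
    have ha : AnalyticOnNhd ℂ (fun s => eval (fun j : J => Z (s, t) j) p) (Metric.ball 0 ρ) := by
      intro s' hs'
      refine analyticAt_eval p _ fun j => ?_
      exact AnalyticAt.comp (g := fun z => Z z j) (f := fun s : ℂ => (s, t))
        (hZ (s', t) ⟨hs', trivial⟩ j) (analyticAt_id.prod analyticAt_const)
    exact ha.eqOn_zero_of_preconnected_of_eventuallyEq_zero (convex_ball _ _).isPreconnected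
      (Metric.mem_ball_self hρ) (hp t) hst.1
  obtain ⟨D, hD, hch⟩ := chart P T hT hTa
  obtain ⟨j, hj⟩ : ∃ j, A.θ (f 0 - y) j ≠ 0 := Function.ne_iff.1 (A.ne_zero _)
  have hXj : (X (Sum.inr j) : MvPolynomial (Fin g ⊕ Fin N) ℂ) ∉ P := by
    intro h
    have := h _ (h01 1)
    simp [hZdef, hj] at this
  obtain ⟨y₀, hy₀, hne⟩ : ∃ y₀ ∈ Ω, eval (Z y₀) (D * X (Sum.inr j)) ≠ 0 := by
    by_contra hcon
    push Not at hcon
    rcases hP.mem_or_mem (show D * X (Sum.inr j) ∈ P from hcon) with h | h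
    exacts [hD h, hXj h]
  rw [map_mul] at hne
  have hD0 : eval (Z y₀) D ≠ 0 := left_ne_zero_of_mul hne
  have ht0 : y₀.2 ≠ 0 := by
    have := right_ne_zero_of_mul hne
    simp only [hZdef, eval_X, Sum.elim_inr, Pi.smul_apply, smul_eq_mul] at this
    exact left_ne_zero_of_mul this
  obtain ⟨ψ, hψ0, hψE, hψ1, hψ2⟩ := hch (Z y₀) (fun p hp => hp y₀ hy₀) hD0
  have hcone : ∀ x : Fin g ⊕ Fin N → ℂ, (∀ p ∈ P, eval x p = 0) →
      ∃ (t : ℂ) (w : Fin g → ℂ), (fun k => x (Sum.inr k)) = t • A.θ w := by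
    obtain ⟨J, hJ⟩ := A.closed
    intro x hx
    refine (hJ _).1 fun p hp => ?_
    have : rename Sum.inr p ∈ P := by
      intro z _
      rw [eval_rename]
      exact (hJ _).2 ⟨z.2, f z.1 - y, rfl⟩ p hp
    have := hx _ this
    rwa [eval_rename] at this
  set γ : ℂ × ℂ → (T → ℂ) := fun p i => Z p i with hγ
  obtain ⟨ω, τ, hw, hτ, hω0, hτ0, hY, hω⟩ := A.chart_lift hcone (γ y₀) ψ hψE
    (hψ1.mono fun u hu => hu.2) (f y₀.1 - y) y₀.2 ht0 (by rw [hγ]; simp only; rw [hψ0]; rfl)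
  set w : (T → ℂ) → Fin g → ℂ := fun u => ω (fun k => ψ u (Sum.inr k)) with hwdef
  set z : (T → ℂ) → Fin g → ℂ := fun u i => ψ u (Sum.inl i) with hzdef
  have hγa : ∀ p ∈ Ω, AnalyticAt ℂ γ p := fun p hp => analyticAt_pi_iff.2 fun i => hZ p hp i
  have hγt : Tendsto γ (𝓝 y₀) (𝓝 (γ y₀)) := (hγa y₀ hy₀).continuousAt
  have hZt : Tendsto Z (𝓝 y₀) (𝓝 (Z y₀)) :=
    (analyticAt_pi_iff.2 fun k => hZ y₀ hy₀ k : AnalyticAt ℂ Z y₀).continuousAt
  -- good points of the chart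
  have hgood : ∀ᶠ u in 𝓝 (γ y₀), (∀ k, IsEt u (fun u => ψ u k)) ∧ AnalyticAt ℂ w u ∧
      AnalyticAt ℂ τ u ∧ τ u ≠ 0 ∧
      ∀ᶠ u' in 𝓝 u, (fun k => ψ u' (Sum.inr k)) = τ u' • A.θ (w u') := by
    refine (eventually_all.2 fun k => (hψE k).eventually).and (hw.eventually_analyticAt.and
      (hτ.eventually_analyticAt.and (Filter.Eventually.and ?_ hY.eventually_nhds)))
    exact hτ.continuousAt.eventually_ne (by rw [hτ0]; exact ht0)
  -- identities along `γ`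
  have hid : ∀ᶠ p in 𝓝 y₀, z (γ p) = f p.1 ∧ w (γ p) = f p.1 - y ∧ τ (γ p) = p.2 := by
    have h1 : Tendsto (fun p : ℂ × ℂ => (f p.1 - y, p.2)) (𝓝 y₀) (𝓝 (f y₀.1 - y, y₀.2)) :=
      (((hf1 y₀ hy₀).continuousAt.sub continuousAt_const).prodMk continuousAt_snd)
    filter_upwards [hZt.eventually hψ2, hΩo.mem_nhds hy₀, h1.eventually hω,
      hγt.eventually hY] with p h2 hp h3 h4
    have h5 : ψ (γ p) = Z p := h2 fun q hq => hq p hp
    have h6 : w (γ p) = f p.1 - y := by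
      simp only [hwdef, h5]
      exact h3
    refine ⟨?_, h6, ?_⟩
    · funext i
      simp only [hzdef, h5, hZdef, Sum.elim_inl]
    · have h7 : p.2 • A.θ (f p.1 - y) = τ (γ p) • A.θ (f p.1 - y) := by
        have h8 : (fun k => ψ (γ p) (Sum.inr k)) = τ (γ p) • A.θ (w (γ p)) := h4
        rw [h6, h5] at h8
        exact h8
      exact (smul_left_injective ℂ (A.ne_zero _) h7).symm
  have hall : ∀ᶠ p in 𝓝 y₀, p ∈ Ω ∧ ((∀ k, IsEt (γ p) (fun u => ψ u k)) ∧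
      AnalyticAt ℂ w (γ p) ∧ AnalyticAt ℂ τ (γ p) ∧ τ (γ p) ≠ 0 ∧
      ∀ᶠ u' in 𝓝 (γ p), (fun k => ψ u' (Sum.inr k)) = τ u' • A.θ (w u')) ∧
      ∀ᶠ p' in 𝓝 p, z (γ p') = f p'.1 ∧ w (γ p') = f p'.1 - y ∧ τ (γ p') = p'.2 :=
    Filter.Eventually.and (hΩo.mem_nhds hy₀) ((hγt.eventually hgood).and hid.eventually_nhds)
  have hfd : ∀ p ∈ Ω, HasFDerivAt (fun p : ℂ × ℂ => f p.1)
      ((ContinuousLinearMap.toSpanSingleton ℂ (deriv f p.1)).comp
        (ContinuousLinearMap.fst ℂ ℂ ℂ)) p := fun p hp =>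
    HasFDerivAt.comp (g := f) (f := fun p : ℂ × ℂ => p.1) p
      (hball p.1 hp.1).1.differentiableAt.hasDerivAt.hasFDerivAt hasFDerivAt_fst
  have hfreq := ax_lemma (g := g) (fun u => w u - z u) γ y₀
    (by simp only [Fintype.card_coe, Module.finrank_prod, Module.finrank_self]; omega) (by
      filter_upwards [hall] with p ⟨hp, ⟨hE, hwp, hτp, hτp0, hYp⟩, hidp⟩
      have hzp : AnalyticAt ℂ z (γ p) := analyticAt_pi_iff.2 fun i => (hE (Sum.inl i)).1
      have hγd := (hγa p hp).differentiableAt.hasFDerivAt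
      refine ⟨hγa p hp, ?_, hwp.sub hzp, ?_, ?_, ?_⟩
      · rw [injective_iff_map_eq_zero]
        intro v hv
        have e1 := (hzp.differentiableAt.hasFDerivAt.comp p hγd).unique
          ((hfd p hp).congr_of_eventuallyEq (hidp.mono fun p' h => h.1))
        have e2 := (hτp.differentiableAt.hasFDerivAt.comp p hγd).unique
          ((hasFDerivAt_snd (𝕜 := ℂ) (p := p)).congr_of_eventuallyEq
            (hidp.mono fun p' h => h.2.2))
        have e3 := congrArg (fun L => L v) e1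
        have e4 := congrArg (fun L => L v) e2
        simp only [ContinuousLinearMap.comp_apply, hv, map_zero, ContinuousLinearMap.coe_fst',
          ContinuousLinearMap.coe_snd', ContinuousLinearMap.toSpanSingleton_apply] at e3 e4
        have e5 : v.1 = 0 := (smul_eq_zero.1 e3.symm).resolve_right (hball p.1 hp.1).2
        exact Prod.ext e5 e4.symm
      · intro v i
        have n1 := A.nash_fderiv (γ p) w τ (fun u k => ψ u (Sum.inr k)) hwp hτp hτp0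
          (fun k => hE (Sum.inr k)) hYp v i
        have n2 := (hE (Sum.inl i)).isNash_fderiv v
        refine (n1.sub n2).congr ?_
        filter_upwards [hwp.eventually_analyticAt, hzp.eventually_analyticAt] with u h1 h2
        have d1 := h1.differentiableAt.hasFDerivAt
        have d2 := h2.differentiableAt.hasFDerivAt
        have d3 : fderiv ℂ (fun u => ψ u (Sum.inl i)) u v = fderiv ℂ z u v i := by
          have := (hasFDerivAt_pi'.1 d2 i).fderiv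
          simp only [hzdef] at this ⊢
          rw [this]
          rfl
        have d4 : fderiv ℂ (fun u => w u - z u) u = fderiv ℂ w u - fderiv ℂ z u :=
          (d1.sub d2).fderiv
        rw [d3, d4]
        rfl
      · intro q hq
        refine hT q (mem_vanI_of_eventually hΩc hZ hp ?_)
        filter_upwards [hq] with p' hp'
        rw [eval_rename]
        exact hp'
      · have a1 := hidp.self_of_nhds
        have a2 := hid.self_of_nhds
        simp only [a1.1, a1.2.1, a2.1, a2.2.1]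
        abel)
  obtain ⟨p, ⟨ℓ, hℓ, hrel⟩, hp, ⟨hE, hwp, hτp, hτp0, hYp⟩, hidp⟩ :=
    (hfreq.and_eventually hall).exists
  refine A.sum_step hA (γ p) w z (fun u k => ψ u (Sum.inr k)) ℓ hℓ (ℓ (w (γ p) - z (γ p))) hwp ?_
    (fun k => hE (Sum.inr k)) ?_ (hYp.mono fun u hu => ⟨_, hu⟩) (fun i => hE (Sum.inl i)) ?_
  · intro h0
    have hγd := (hγa p hp).differentiableAt.hasFDerivAt
    have e1 := (hwp.differentiableAt.hasFDerivAt.comp p hγd).unique
      (((hfd p hp).sub_const y).congr_of_eventuallyEq (hidp.mono fun p' h => h.2.1))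
    have e3 := congrArg (fun L => L ((1 : ℂ), (0 : ℂ))) e1
    simp only [h0, ContinuousLinearMap.comp_apply, zero_apply,
      ContinuousLinearMap.coe_fst', ContinuousLinearMap.toSpanSingleton_apply, one_smul] at e3
    exact (hball p.1 hp.1).2 e3.symm
  · have := hYp.self_of_nhds
    show (fun k => ψ (γ p) (Sum.inr k)) ≠ 0
    rw [this]
    exact smul_ne_zero hτp0 (A.ne_zero _)
  · filter_upwards [hrel] with u hu
    rw [← hu, map_sub]
    ring

end Pool.Agent.P.MP_f17f76_ag
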