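import Pool.Agent.P.MP_f17f76_ag.Defs2

/-! Transcendence bases among the coordinates modulo a prime ideal. -/

namespace Pool.Agent.P.MP_f17f76_ag

open MvPolynomial Filter Topology

theorem Indep.mono {σ : Type} {P : Ideal (MvPolynomial σ ℂ)} {T T' : Finset σ}
    (h : Indep P T) (hT : T' ⊆ T) : Indep P T' := by
  intro p hp
  let i : T' → T := fun x => ⟨x.1, hT x.2⟩
  have hi : Function.Injective i := fun x y hxy =>
    Subtype.ext (congrArg (fun z : T => z.1) hxy)
  apply rename_injective i hi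
  rw [map_zero]
  apply h
  rw [rename_rename]
  exact hp

theorem alg_option {σ : Type} (T : Finset σ) (k : σ) (q : MvPolynomial (Option T) ℂ) :
    (optionEquivLeft ℂ T q).eval₂
      (rename Subtype.val : MvPolynomial T ℂ →ₐ[ℂ] MvPolynomial σ ℂ).toRingHom (X k) =
      rename (fun o : Option T => o.elim k Subtype.val) q := by
  induction q using MvPolynomial.induction_on with
  | C a => simp
  | add p q hp hq => rw [map_add, Polynomial.eval₂_add, hp, hq, map_add]
  | mul_X p o hp =>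
    rw [map_mul, Polynomial.eval₂_mul, hp, map_mul]
    cases o <;> simp

theorem algOver_of_max {σ : Type} [DecidableEq σ] (P : Ideal (MvPolynomial σ ℂ)) [P.IsPrime]
    (T : Finset σ) (hT : Indep P T) (hmax : ∀ k ∉ T, ¬ Indep P (insert k T)) :
    AlgOver P T := by
  intro k
  by_cases hk : k ∈ T
  · refine ⟨Polynomial.X - Polynomial.C (X ⟨k, hk⟩), Polynomial.X_sub_C_ne_zero _, ?_⟩
    simp [Polynomial.eval₂_sub]
  · have h1 := hmax k hk
    rw [Indep] at h1
    push Not at h1
    obtain ⟨p, hp, hp0⟩ := h1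
    let j : {i // i ∈ insert k T} → Option T := fun i =>
      if h : i.1 ∈ T then some ⟨i.1, h⟩ else none
    have hj : (fun o : Option T => o.elim k Subtype.val) ∘ j = Subtype.val := by
      funext i
      by_cases h : i.1 ∈ T
      · simp [j, h]
      · simpa [j, h] using ((Finset.mem_insert.1 i.2).resolve_right h).symm
    have hj' : Function.Injective j := Function.Injective.of_comp (hj ▸ Subtype.val_injective)
    refine ⟨optionEquivLeft ℂ T (rename j p), fun h => hp0 ?_, ?_⟩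
    · apply rename_injective j hj'
      rw [map_zero]
      exact (map_eq_zero_iff _ (optionEquivLeft ℂ T).injective).1 h
    · rw [alg_option, rename_rename, hj]
      exact hp

theorem alg_extend {σ : Type} [Fintype σ] (P : Ideal (MvPolynomial σ ℂ)) [P.IsPrime]
    (T₀ : Finset σ) (h : Indep P T₀) :
    ∃ T : Finset σ, T₀.card ≤ T.card ∧ Indep P T ∧ AlgOver P T := by
  classical
  obtain ⟨T, h1, h2⟩ := Finset.exists_max_image (Finset.univ.filter (Indep P)) Finset.card
    ⟨T₀, Finset.mem_filter.2 ⟨Finset.mem_univ _, h⟩⟩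
  have h3 := (Finset.mem_filter.1 h1).2
  refine ⟨T, h2 _ (Finset.mem_filter.2 ⟨Finset.mem_univ _, h⟩), h3,
    algOver_of_max P T h3 fun k hk h4 => ?_⟩
  have := h2 _ (Finset.mem_filter.2 ⟨Finset.mem_univ _, h4⟩)
  rw [Finset.card_insert_of_notMem hk] at this
  omega

theorem alg_empty {σ : Type} (P : Ideal (MvPolynomial σ ℂ)) [hP : P.IsPrime] : Indep P ∅ := by
  intro p hp
  rw [eq_C_of_isEmpty p] at hp ⊢
  rw [rename_C] at hp
  by_contra h
  have h0 : coeff 0 p ≠ 0 := fun h1 => h (by rw [h1, map_zero])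
  exact hP.ne_top (P.eq_top_of_isUnit_mem hp ((IsUnit.mk0 _ h0).map C))

theorem exists_basis {σ : Type} [Fintype σ] (P : Ideal (MvPolynomial σ ℂ)) [P.IsPrime] :
    ∃ T : Finset σ, Indep P T ∧ AlgOver P T := by
  obtain ⟨T, -, h⟩ := alg_extend P ∅ (alg_empty P)
  exact ⟨T, h⟩

theorem exists_const_mem {σ : Type} (P : Ideal (MvPolynomial σ ℂ)) [P.IsPrime]
    (T : Finset σ) (hT : Indep P T) (halg : AlgOver P T) (h : MvPolynomial σ ℂ) (hh : h ∉ P) :
    ∃ b : MvPolynomial T ℂ, b ≠ 0 ∧ ∃ c, rename Subtype.val b - c * h ∈ P := by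
  let _ : Algebra (MvPolynomial T ℂ) (MvPolynomial σ ℂ ⧸ P) := ((Ideal.Quotient.mk P).comp
    (rename Subtype.val : MvPolynomial T ℂ →ₐ[ℂ] MvPolynomial σ ℂ).toRingHom).toAlgebra
  have e : ∀ b : MvPolynomial T ℂ, algebraMap (MvPolynomial T ℂ) (MvPolynomial σ ℂ ⧸ P) b =
      Ideal.Quotient.mk P (rename Subtype.val b) := fun _ => rfl
  have h1 : ∀ q : MvPolynomial σ ℂ, IsAlgebraic (MvPolynomial T ℂ) (Ideal.Quotient.mk P q) := by
    intro q
    induction q using MvPolynomial.induction_on with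
    | C a =>
      have := isAlgebraic_algebraMap (A := MvPolynomial σ ℂ ⧸ P) (C a : MvPolynomial T ℂ)
      rwa [e, rename_C] at this
    | add p q hp hq => rw [map_add]; exact hp.add hq
    | mul_X p k hp =>
      rw [map_mul]
      refine hp.mul ?_
      obtain ⟨f, f0, hf⟩ := halg k
      refine ⟨f, f0, ?_⟩
      rw [← Ideal.Quotient.eq_zero_iff_mem, Polynomial.hom_eval₂] at hf
      exact hf
  obtain ⟨b, b0, c, hc⟩ := (h1 h).exists_nonzero_dvd
    (mem_nonZeroDivisors_of_ne_zero fun h0 => hh (Ideal.Quotient.eq_zero_iff_mem.1 h0))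
  obtain ⟨c, rfl⟩ := Ideal.Quotient.mk_surjective c
  refine ⟨b, b0, c, Ideal.Quotient.eq.1 ?_⟩
  rw [← e, hc, map_mul, mul_comm]

theorem alg_step {σ : Type} [DecidableEq σ] (P P' : Ideal (MvPolynomial σ ℂ)) [P.IsPrime]
    (hlt : P < P') (T : Finset σ) (hT : Indep P' T) : ∃ k ∉ T, Indep P (insert k T) := by
  by_contra hcon
  push Not at hcon
  have h1 : Indep P T := fun p hp => hT p (hlt.le hp)
  obtain ⟨h, h2, h3⟩ := SetLike.exists_of_lt hlt
  obtain ⟨b, b0, c, hc⟩ := exists_const_mem P T h1 (algOver_of_max P T h1 hcon) h h3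
  refine b0 (hT b ?_)
  simpa using P'.add_mem (hlt.le hc) (P'.mul_mem_left c h2)

theorem exists_prime_indep {σ : Type} [Fintype σ] (I : Ideal (MvPolynomial σ ℂ)) (n : ℕ)
    (h : (n : WithBot ℕ∞) ≤ ringKrullDim (MvPolynomial σ ℂ ⧸ I)) :
    ∃ P : Ideal (MvPolynomial σ ℂ), P.IsPrime ∧ I ≤ P ∧
      ∃ T : Finset σ, n ≤ T.card ∧ Indep P T ∧ AlgOver P T := by
  classical
  obtain ⟨l, rfl⟩ := Order.le_krullDim_iff.1 h
  let Q : Fin (l.length + 1) → Ideal (MvPolynomial σ ℂ) := fun i =>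
    (l i).asIdeal.comap (Ideal.Quotient.mk I)
  have hQ : ∀ i, (Q i).IsPrime := fun i => Ideal.comap_isPrime _ _
  have hlt : ∀ i j, i < j → Q i < Q j := fun i j hij => by
    have h1 : (l i).asIdeal < (l j).asIdeal := l.strictMono hij
    exact lt_of_le_of_ne (Ideal.comap_mono h1.le) fun h2 =>
      h1.ne (Ideal.comap_injective_of_surjective _ Ideal.Quotient.mk_surjective h2)
  have key : ∀ i : ℕ, i ≤ l.length →
      ∃ T : Finset σ, i ≤ T.card ∧ Indep (Q ⟨l.length - i, by omega⟩) T := by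
    intro i
    induction i with
    | zero => exact fun _ => ⟨∅, Nat.zero_le _, alg_empty _ (hP := hQ _)⟩
    | succ i ih =>
      intro hi
      obtain ⟨T, h1, h2⟩ := ih (by omega)
      have a : l.length - (i + 1) < l.length + 1 := by omega
      have := hQ ⟨l.length - (i + 1), a⟩
      obtain ⟨k, hk, h3⟩ := alg_step (Q ⟨l.length - (i + 1), a⟩)
        (Q ⟨l.length - i, by omega⟩) (hlt _ _ (Fin.mk_lt_mk.2 (by omega))) T h2
      exact ⟨insert k T, by rw [Finset.card_insert_of_notMem hk]; omega, h3⟩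
  obtain ⟨T, h1, h2⟩ := key l.length le_rfl
  have := hQ ⟨l.length - l.length, by omega⟩
  obtain ⟨T', h3, h4⟩ := alg_extend _ T h2
  refine ⟨_, this, fun p hp => ?_, T', h1.trans h3, h4⟩
  rw [Ideal.mem_comap, Ideal.Quotient.eq_zero_iff_mem.2 hp]
  exact Ideal.zero_mem _

end Pool.Agent.P.MP_f17f76_ag
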