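import Pool.Agent.P.MP_f17f76_ag.BrRot

/-!
The two last steps of the Ax-Schanuel theorem for an arbitrary abelian variety.
-/

namespace Pool.Agent.P.MP_f17f76_ag

open MvPolynomial Filter Topology

section

variable {F : Type} [NormedAddCommGroup F] [NormedSpace ℂ F] {g : ℕ} {Ω : Set F}
  {L : Submodule ℂ (Fin g → ℂ)} {G : F → Fin g → ℂ}

theorem sub_mem_of_eventually (hc : IsPreconnected Ω) (hG : ∀ y ∈ Ω, AnalyticAt ℂ G y) {x : F}
    (hx : x ∈ Ω) {c : Fin g → ℂ} (h : ∀ᶠ u in 𝓝 x, G u - c ∈ L) {y : F} (hy : y ∈ Ω) :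
    G y - c ∈ L := by
  refine (Subspace.forall_mem_dualAnnihilator_apply_eq_zero_iff L _).1 fun φ hφ => ?_
  let φ' : (Fin g → ℂ) →L[ℂ] ℂ := LinearMap.toContinuousLinearMap φ
  have ha : AnalyticOnNhd ℂ (fun u => φ' (G u - c)) Ω := fun u hu =>
    (φ'.analyticAt _).comp ((hG u hu).sub analyticAt_const)
  exact ha.eqOn_zero_of_preconnected_of_eventuallyEq_zero hc hx
    (h.mono fun u hu => (Submodule.mem_dualAnnihilator φ).1 hφ _ hu) hy

theorem fderiv_mem_of_sub_mem {x : F} (hG : DifferentiableAt ℂ G x) {c : Fin g → ℂ}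
    (h : ∀ᶠ u in 𝓝 x, G u - c ∈ L) (v : F) : fderiv ℂ G x v ∈ L := by
  refine (Subspace.forall_mem_dualAnnihilator_apply_eq_zero_iff L _).1 fun φ hφ => ?_
  let φ' : (Fin g → ℂ) →L[ℂ] ℂ := LinearMap.toContinuousLinearMap φ
  have h1 : HasFDerivAt (fun u => φ' (G u - c)) (φ'.comp (fderiv ℂ G x)) x :=
    φ'.hasFDerivAt.comp x (hG.hasFDerivAt.sub_const c)
  have h2 := h1.unique ((hasFDerivAt_const (0 : ℂ) x).congr_of_eventuallyEq
    (h.mono fun u hu => (Submodule.mem_dualAnnihilator φ).1 hφ _ hu))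
  exact congrArg (fun M => M v) h2

theorem fderiv_mem_of_eventually (ho : IsOpen Ω) (hc : IsPreconnected Ω)
    (hG : ∀ y ∈ Ω, AnalyticAt ℂ G y) {x : F} (hx : x ∈ Ω) {c : Fin g → ℂ}
    (h : ∀ᶠ u in 𝓝 x, G u - c ∈ L) {y : F} (hy : y ∈ Ω) (v : F) : fderiv ℂ G y v ∈ L :=
  fderiv_mem_of_sub_mem (hG y hy).differentiableAt (c := c) (by
    filter_upwards [ho.mem_nhds hy] with u hu using sub_mem_of_eventually hc hG hx h hu) v

end

/-- An affine subspace whose image is algebraic together with a linear form is rational, and the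
form vanishes on it. -/
theorem AbVar.end_gen {g N : ℕ} (A : AbVar g N) {r : ℕ}
    (β : (Fin r → ℂ) →L[ℂ] (Fin g → ℂ)) (hβ : Function.Injective β) (a : Fin g → ℂ)
    (ℓ : (Fin g → ℂ) →L[ℂ] ℂ)
    (hdep : ∀ π : (ℂ × (Fin N → ℂ)) →L[ℂ] (Fin (r + 2) → ℂ), ∃ p : MvPolynomial (Fin (r + 2)) ℂ,
      p ≠ 0 ∧ ∀ᶠ s in 𝓝 (0 : Fin r → ℂ), ∀ t : ℂ,
        eval (π (ℓ (a + β s), t • A.θ (a + β s))) p = 0) :
    A.IsLie (LinearMap.range (β : (Fin r → ℂ) →ₗ[ℂ] (Fin g → ℂ))) ∧ ∀ s, ℓ (β s) = 0 := by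
  have hall : ∀ π : (ℂ × (Fin N → ℂ)) →L[ℂ] (Fin (r + 2) → ℂ),
      ∃ p : MvPolynomial (Fin (r + 2)) ℂ, p ≠ 0 ∧ ∀ (s : Fin r → ℂ) (t : ℂ),
        eval (π (ℓ (a + β s), t • A.θ (a + β s))) p = 0 := by
    intro π
    obtain ⟨p, hp, h⟩ := hdep π
    refine ⟨p, hp, fun s t => ?_⟩
    have h1 : AnalyticOnNhd ℂ (fun s => eval (π (ℓ (a + β s), t • A.θ (a + β s))) p) Set.univ :=
      fun s _ => end_eval p ((π.analyticAt _).fun_comp
        (((ℓ.analyticAt _).fun_comp (analyticAt_const.add (β.analyticAt s))).prod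
          (analyticAt_const.fun_smul (end_an A β a s))))
    exact h1.eqOn_zero_of_preconnected_of_eventuallyEq_zero isPreconnected_univ
      (Set.mem_univ 0) (h.mono fun s hs => hs t) (Set.mem_univ s)
  have hfin : Module.finrank ℂ ((Fin r → ℂ) × ℂ × ℂ) = r + 2 := by simp
  let p1 := ContinuousLinearMap.fst ℂ (Fin r → ℂ) (ℂ × ℂ)
  let p2 := (ContinuousLinearMap.fst ℂ ℂ ℂ).comp (ContinuousLinearMap.snd ℂ (Fin r → ℂ) (ℂ × ℂ))
  let p3 := (ContinuousLinearMap.snd ℂ ℂ ℂ).comp (ContinuousLinearMap.snd ℂ (Fin r → ℂ) (ℂ × ℂ))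
  rcases A.rat_or_line (LinearMap.range (β : (Fin r → ℂ) →ₗ[ℂ] (Fin g → ℂ))) with h | ⟨v, hv, h⟩
  · refine ⟨h, ?_⟩
    by_contra hℓ
    obtain ⟨m, ⟨hm, s₀, hs₀⟩, hm0⟩ : ∃ m ∈ (A.Λ : Set (Fin g → ℂ)) ∩
        LinearMap.range (β : (Fin r → ℂ) →ₗ[ℂ] (Fin g → ℂ)), ℓ m ≠ 0 := by
      by_contra hc
      push Not at hc
      refine hℓ fun s => ?_
      exact (Submodule.span_le (p :=
        LinearMap.ker ((ℓ : (Fin g → ℂ) →ₗ[ℂ] ℂ).restrictScalars ℝ))).2 hc (h ⟨s, rfl⟩)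
    have hs : ∀ (y : Fin r → ℂ) (k : ℕ), ∃ s, β s = β y + k • m := fun y k =>
      ⟨y + k • s₀, by rw [map_add, map_nsmul, ← hs₀]; rfl⟩
    obtain ⟨D, hD, hD0⟩ := end_fd A (β.comp p1) p3 a (0, 0, 1) rfl
    obtain ⟨π, hπ⟩ := open_dense
      (fun y : (Fin r → ℂ) × ℂ × ℂ => (p2 y, p3 y • A.θ (a + (β.comp p1) y))) (0, 0, 1)
      ((p2.analyticAt _).prod ((p3.analyticAt _).smul (end_an A _ a _)))
      (by
        rw [(p2.hasFDerivAt.prodMk hD).fderiv, injective_iff_map_eq_zero]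
        intro y e
        rw [ContinuousLinearMap.prod_apply, Prod.mk_eq_zero] at e
        obtain ⟨h1, h2⟩ := hD0 y e.2
        exact Prod.ext (hβ (h1.trans (map_zero β).symm)) (Prod.ext e.1 h2)) _ hfin
    obtain ⟨p, hp, hz⟩ := hall π
    refine hp (hπ p (Eventually.of_forall fun y => ?_))
    have e : ∀ (z : ℂ) (Y : Fin N → ℂ), π (z, Y) = π (0, Y) + z • π (1, 0) := by
      intro z Y
      rw [← map_smul, ← map_add]
      simp
    rw [e]
    refine end_poly p _ _ (x := ℓ (a + β y.1)) hm0 (fun k => ?_) _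
    obtain ⟨s, hs⟩ := hs y.1 k
    obtain ⟨c, hc⟩ := (A.per (a + β y.1) (a + β s)).2 (by
      rw [hs, add_sub_add_left_eq_sub, add_sub_cancel_left]
      exact nsmul_mem hm k)
    have hc0 : c ≠ 0 := by
      rintro rfl
      exact A.ne_zero _ (hc.trans (zero_smul _ _))
    have h1 := hz s (y.2.2 / c)
    rw [hc, smul_smul, div_mul_cancel₀ _ hc0, hs, ← add_assoc, map_add, map_nsmul, nsmul_eq_mul,
      e] at h1
    exact h1
  · exfalso
    obtain ⟨D, hD, hD0⟩ := end_fd A (β.comp p1 + p2.smulRight v) p3 a (0, 0, 1) rfl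
    obtain ⟨π, hπ⟩ := open_dense
      (fun y : (Fin r → ℂ) × ℂ × ℂ => p3 y • A.θ (a + (β.comp p1 + p2.smulRight v) y)) (0, 0, 1)
      ((p3.analyticAt _).smul (end_an A _ a _))
      (by
        rw [hD.fderiv, injective_iff_map_eq_zero]
        intro y e
        obtain ⟨h1, h2⟩ := hD0 y e
        change β y.1 + y.2.1 • v = 0 at h1
        have h3 : y.2.1 = 0 := by
          by_contra h3
          refine hv ((Submodule.smul_mem_iff _ h3).1 ⟨-y.1, ?_⟩)
          rw [map_neg]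
          exact neg_eq_of_add_eq_zero_right h1
        rw [h3, zero_smul, add_zero] at h1
        exact Prod.ext (hβ (h1.trans (map_zero β).symm)) (Prod.ext h3 h2)) _ hfin
    obtain ⟨p, hp, hz⟩ := hall (π.comp (ContinuousLinearMap.snd ℂ ℂ (Fin N → ℂ)))
    refine hp (hπ p (Eventually.of_forall fun y => ?_))
    have han : ∀ {F : Type} [NormedAddCommGroup F] [NormedSpace ℂ F] (u : F →L[ℂ] (Fin g → ℂ)),
        AnalyticOnNhd ℂ (fun x => eval (π (y.2.2 • A.θ (a + β y.1 + u x))) p) Set.univ :=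
      fun u x _ => end_eval p ((π.analyticAt _).fun_comp (analyticAt_const.fun_smul (end_an A u _ x)))
    have h1 := end_real (han ((ContinuousLinearMap.id ℂ ℂ).smulRight v)) (fun τ => ?_) y.2.1
    · rw [add_assoc] at h1
      exact h1
    refine closure_minimal (t := {x | eval (π (y.2.2 • A.θ (a + β y.1 + x))) p = 0}) ?_
      (isClosed_eq (han (ContinuousLinearMap.id ℂ _)).continuous continuous_const) (h τ)
    rintro _ ⟨_, ⟨s, rfl⟩, m, hm, rfl⟩
    obtain ⟨c, hc⟩ := (A.per (a + β (y.1 + s)) (a + β y.1 + (β s + m))).2 (by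
      rw [map_add, show a + β y.1 + (β s + m) - (a + (β y.1 + β s)) = m by abel]
      exact hm)
    change eval (π (y.2.2 • A.θ (a + β y.1 + (β s + m)))) p = 0
    rw [hc, smul_smul]
    exact hz _ _

/-- The span of the differentials of the logarithm of an algebraic germ is rational, and every
linear form that is algebraic on the germ vanishes on it. -/
theorem AbVar.sum_gen {g N : ℕ} (A : AbVar g N) {ι : Type} [Fintype ι]
    (x : ι → ℂ) (w z : (ι → ℂ) → Fin g → ℂ) (Y : (ι → ℂ) → Fin N → ℂ)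
    (ℓ : (Fin g → ℂ) →L[ℂ] ℂ) (κ : ℂ) (hw : AnalyticAt ℂ w x)
    (hY : ∀ k, IsEt x (fun u => Y u k)) (hY0 : Y x ≠ 0)
    (hc : ∀ᶠ u in 𝓝 x, ∃ t : ℂ, Y u = t • A.θ (w u))
    (hz : ∀ i, IsEt x (fun u => z u i))
    (hrel : ∀ᶠ u in 𝓝 x, ℓ (w u) = ℓ (z u) + κ) :
    ∃ L₀, A.IsLie L₀ ∧ (∀ᶠ u in 𝓝 x, w u - w x ∈ L₀) ∧ (∀ v ∈ L₀, ℓ v = 0) ∧
      ∀ L : Submodule ℂ (Fin g → ℂ), (∀ᶠ u in 𝓝 x, w u - w x ∈ L) → L₀ ≤ L := by
  have hYc : ContinuousAt Y x := continuousAt_pi.2 fun k => (hY k).1.continuousAt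
  have hP : ∀ᶠ u in 𝓝 x, AnalyticAt ℂ w u ∧ (∀ k, IsEt u (fun u => Y u k)) ∧ Y u ≠ 0 ∧
      (∀ᶠ u' in 𝓝 u, ∃ t : ℂ, Y u' = t • A.θ (w u')) ∧ (∀ i, IsEt u (fun u => z u i)) ∧
      (∀ᶠ u' in 𝓝 u, ℓ (w u') = ℓ (z u') + κ) := by
    filter_upwards [hw.eventually_analyticAt, eventually_all.2 fun k => (hY k).eventually,
      hYc.eventually_ne hY0, hc.eventually_nhds, eventually_all.2 fun i => (hz i).eventually,
      hrel.eventually_nhds] with u h1 h2 h3 h4 h5 h6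
    exact ⟨h1, h2, h3, h4, h5, h6⟩
  obtain ⟨ε, hε, hB⟩ := Metric.eventually_nhds_iff_ball.1 hP
  let S : Set (Fin g → ℂ) := {y | ∃ u ∈ Metric.ball x ε, ∃ v, y = fderiv ℂ w u v}
  obtain ⟨b, hbS, hbspan, hbli⟩ := Submodule.exists_fun_fin_finrank_span_eq ℂ S
  generalize hr : Module.finrank ℂ (Submodule.span ℂ S) = r at b hbS hbspan hbli
  choose U hU V hUV using hbS
  let β : (Fin r → ℂ) →L[ℂ] (Fin g → ℂ) :=
    LinearMap.toContinuousLinearMap (Fintype.linearCombination ℂ b)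
  have hβapp : ∀ s, β s = ∑ i, s i • b i := fun s => Fintype.linearCombination_apply ℂ b s
  have hβinj : Function.Injective β := by
    rw [injective_iff_map_eq_zero]
    intro s hs
    rw [hβapp] at hs
    funext i
    exact Fintype.linearIndependent_iff.1 hbli s hs i
  have hβr : ∀ y ∈ S, ∃ s, β s = y := by
    intro y hy
    have h1 : y ∈ Submodule.span ℂ (Set.range b) := by
      rw [hbspan]; exact Submodule.subset_span hy
    obtain ⟨s, hs⟩ := (Submodule.mem_span_range_iff_exists_fun ℂ).1 h1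
    exact ⟨s, by rw [hβapp, hs]⟩
  obtain ⟨π₀', hπ₀'⟩ := LinearMap.exists_leftInverse_of_injective 
    (Fintype.linearCombination ℂ b) (LinearMap.ker_eq_bot.2 (by exact hβinj))
  let π₀ : (Fin g → ℂ) →L[ℂ] (Fin r → ℂ) := LinearMap.toContinuousLinearMap π₀'
  have hπ₀ : ∀ s, π₀ (β s) = s := fun s => LinearMap.congr_fun hπ₀' s
  let Q : (Fin g → ℂ) →L[ℂ] (Fin g → ℂ) := ContinuousLinearMap.id ℂ _ - β.comp π₀
  have hQapp : ∀ y, Q y = y - β (π₀ y) := fun y => rfl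
  have hQS : ∀ y ∈ S, Q y = 0 := by
    intro y hy
    obtain ⟨s, rfl⟩ := hβr y hy
    rw [hQapp, hπ₀, sub_self]
  have hQw : ∀ u ∈ Metric.ball x ε, ∀ u' ∈ Metric.ball x ε, Q (w u) = Q (w u') := by
    intro u hu u' hu'
    have hd : ∀ y ∈ Metric.ball x ε, HasFDerivAt (fun y => Q (w y)) (Q.comp (fderiv ℂ w y)) y :=
      fun y hy => Q.hasFDerivAt.comp y (hB y hy).1.differentiableAt.hasFDerivAt
    refine Metric.isOpen_ball.is_const_of_fderiv_eq_zero (𝕜 := ℂ)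
      (convex_ball x ε).isPreconnected
      (fun y hy => (hd y hy).differentiableAt.differentiableWithinAt) ?_ hu hu'
    intro y hy
    rw [(hd y hy).fderiv]
    ext1 v
    exact hQS _ ⟨y, hy, v, rfl⟩
  let σ : (Fin r → ℂ) → Fin g → ℂ := fun s => ∑ i, w (U i + s i • V i)
  have hσ0 : σ 0 = ∑ i, w (U i) := by simp [σ]
  have hσd : HasStrictFDerivAt σ β 0 := by
    have h1 : ∀ i, HasStrictFDerivAt (fun s : Fin r → ℂ => w (U i + s i • V i))
        ((fderiv ℂ w (U i)).comp ((ContinuousLinearMap.proj i).smulRight (V i))) 0 := by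
      intro i
      have h2 : HasStrictFDerivAt (fun s : Fin r → ℂ => U i + s i • V i)
          ((ContinuousLinearMap.proj i : (Fin r → ℂ) →L[ℂ] ℂ).smulRight (V i)) 0 :=
        ((ContinuousLinearMap.proj i : (Fin r → ℂ) →L[ℂ] ℂ).smulRight
          (V i)).hasStrictFDerivAt.const_add (U i)
      have h3 : HasStrictFDerivAt w (fderiv ℂ w (U i)) (U i + (0 : Fin r → ℂ) i • V i) := by
        simpa using (hB _ (hU i)).1.hasStrictFDerivAt
      exact h3.comp (0 : Fin r → ℂ) h2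
    have h4 := HasStrictFDerivAt.fun_sum (u := Finset.univ) fun i _ => h1 i
    have h5 : β = ∑ i, (fderiv ℂ w (U i)).comp ((ContinuousLinearMap.proj i).smulRight (V i)) := by
      refine ContinuousLinearMap.ext fun s => ?_
      rw [hβapp]
      simp [hUV]
    rw [h5]
    exact h4
  let Φ : (Fin r → ℂ) → (Fin r → ℂ) := fun s => π₀ (σ s - σ 0)
  have hΦd : HasStrictFDerivAt Φ
      (ContinuousLinearEquiv.refl ℂ (Fin r → ℂ) : (Fin r → ℂ) →L[ℂ] (Fin r → ℂ)) 0 := by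
    have h1 := π₀.hasStrictFDerivAt.comp (0 : Fin r → ℂ) (hσd.sub_const (σ 0))
    have h2 : (ContinuousLinearEquiv.refl ℂ (Fin r → ℂ) : (Fin r → ℂ) →L[ℂ] (Fin r → ℂ)) =
        π₀.comp β := by
      refine ContinuousLinearMap.ext fun s => ?_
      simp [hπ₀]
    rw [h2]
    exact h1
  have hΦ0 : Φ 0 = 0 := by simp [Φ]
  have hmap : map Φ (𝓝 0) = 𝓝 0 := by
    have := hΦd.map_nhds_eq_of_equiv
    rwa [hΦ0] at this
  have hball : ∀ᶠ s in 𝓝 (0 : Fin r → ℂ), ∀ i, U i + s i • V i ∈ Metric.ball x ε :=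
    eventually_all.2 fun i => (sum_line_tendsto (U i) (V i) i).eventually
      (Metric.isOpen_ball.mem_nhds (hU i))
  have hσΦ : ∀ᶠ s in 𝓝 (0 : Fin r → ℂ), σ 0 + β (Φ s) = σ s := by
    filter_upwards [hball] with s hs
    have h1 : Q (σ s - σ 0) = 0 := by
      rw [map_sub, hσ0]
      simp only [σ, map_sum]
      rw [sub_eq_zero]
      exact Finset.sum_congr rfl fun i _ => hQw _ (hs i) _ (hU i)
    rw [hQapp, sub_eq_zero] at h1
    simp only [Φ]
    rw [← h1]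
    abel
  have hCN : sumCN A σ := sum_CN_sum A Finset.univ (fun i s => w (U i + s i • V i))
    fun i _ => sum_CN_line A (U i) (V i) i w Y (hB _ (hU i)).2.1 (hB _ (hU i)).2.2.1
      (hB _ (hU i)).2.2.2.1
  have hℓσ : IsNash (0 : Fin r → ℂ) (fun s => ℓ (σ s)) := by
    have h1 : IsNash (0 : Fin r → ℂ) (fun s => ∑ i, (ℓ (z (U i + s i • V i)) + κ)) :=
      isNash_sum Finset.univ (fun i s => ℓ (z (U i + s i • V i)) + κ) fun i _ =>
        (isNash_clm ℓ (fun s => z (U i + s i • V i)) fun j =>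
          sum_line_nash (U i) (V i) i ((hB _ (hU i)).2.2.2.2.1 j)).add (isNash_const _ _)
    refine h1.congr ?_
    filter_upwards [hball] with s hs
    simp only [σ, map_sum]
    exact Finset.sum_congr rfl fun i _ => ((hB _ (hs i)).2.2.2.2.2.self_of_nhds).symm
  obtain ⟨h1, h2⟩ := A.end_gen β hβinj (σ 0) ℓ fun π => by
    obtain ⟨p, hp, hpe⟩ := sum_dep A σ hCN ℓ hℓσ π
    refine ⟨p, hp, ?_⟩
    rw [← hmap, eventually_map]
    filter_upwards [hpe, hσΦ] with s hs hs'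
    rw [hs']
    exact hs
  refine ⟨_, h1, ?_, ?_, fun L hL => ?_⟩
  · filter_upwards [Metric.ball_mem_nhds x hε] with u hu
    refine ⟨π₀ (w u - w x), ?_⟩
    have h3 : Q (w u - w x) = 0 := by
      rw [map_sub, hQw u hu x (Metric.mem_ball_self hε), sub_self]
    rw [hQapp, sub_eq_zero] at h3
    exact h3.symm
  · rintro _ ⟨s, rfl⟩
    exact h2 s
  · rintro _ ⟨s, rfl⟩
    change β s ∈ L
    rw [hβapp]
    refine L.sum_mem fun i _ => L.smul_mem _ ?_
    rw [hUV i]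
    exact fderiv_mem_of_eventually Metric.isOpen_ball (convex_ball x ε).isPreconnected
      (fun u hu => (hB u hu).1) (Metric.mem_ball_self hε) hL (hU i) _

end Pool.Agent.P.MP_f17f76_ag
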