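import Pool.Agent.P.MP_f17f76_ag.AxG1

/-!
The Ax-Schanuel theorem for an arbitrary abelian variety.
-/

namespace Pool.Agent.P.MP_f17f76_ag

open MvPolynomial Filter Topology

namespace AbVar

variable {g N : ℕ} {A : AbVar g N} {F : Type} [NormedAddCommGroup F] [NormedSpace ℂ F]
  {Ω : Set F} {Ψ γ : F → (Fin g → ℂ) × (Fin g → ℂ)} {V : Set ((Fin g → ℂ) × (Fin g → ℂ))}
  {P : Ideal (MvPolynomial (Fin g ⊕ Fin N) ℂ)}

theorem cone_an {y : F × ℂ} (h : AnalyticAt ℂ γ y.1) (k : Fin g ⊕ Fin N) :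
    AnalyticAt ℂ (fun y : F × ℂ => Sum.elim (γ y.1).1 (y.2 • A.θ (γ y.1).2) k) y := by
  have h1 : AnalyticAt ℂ (fun y : F × ℂ => γ y.1) y := AnalyticAt.comp (g := γ) h analyticAt_fst
  exact A.analyticAt_elim (analyticAt_fst.comp h1) (analyticAt_snd.comp h1) analyticAt_snd k

omit [NormedAddCommGroup F] [NormedSpace ℂ F] in
theorem idl_image (A : AbVar g N) (Ω : Set F) (γ : F → (Fin g → ℂ) × (Fin g → ℂ)) :
    A.idl (γ '' Ω) =
      vanI (Ω ×ˢ Set.univ) fun y : F × ℂ => Sum.elim (γ y.1).1 (y.2 • A.θ (γ y.1).2) := by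
  ext p
  rw [A.mem_idl, mem_vanI]
  refine ⟨fun h y hy => h _ ⟨y.1, hy.1, rfl⟩ y.2, ?_⟩
  rintro h _ ⟨y, hy, rfl⟩ t
  exact h (y, t) ⟨hy, trivial⟩

/-- The image of a connected open set under an analytic map is irreducible. -/
theorem irred_image (ho : IsOpen Ω) (hc : IsPreconnected Ω) (hne : Ω.Nonempty)
    (han : ∀ y ∈ Ω, AnalyticAt ℂ γ y) : A.Irred (γ '' Ω) := by
  change (A.idl (γ '' Ω)).IsPrime
  rw [idl_image]
  exact vanI_prime (ho.prod isOpen_univ) (hc.prod isPreconnected_univ)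
    (hne.prod Set.univ_nonempty) fun y hy => cone_an (han y.1 hy.1)

theorem IsPar.idl_eq (h : A.IsPar P Ω Ψ) : A.idl (Ψ '' Ω) = P := by
  ext p
  rw [A.mem_idl, h.mem]
  exact Set.forall_mem_image

theorem IsPar.isPrime (h : A.IsPar P Ω Ψ) : P.IsPrime :=
  h.idl_eq ▸ irred_image h.isOpen h.conn h.nonempty h.an

theorem exists_ne_zero_scale {z : Fin g → ℂ} {y : Fin N → ℂ} {t : ℂ}
    {D : MvPolynomial (Fin g ⊕ Fin N) ℂ} (h : eval (Sum.elim z (t • y)) D ≠ 0) :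
    ∃ s : ℂ, s ≠ 0 ∧ eval (Sum.elim z (s • y)) D ≠ 0 := by
  have hc : Continuous fun s : ℂ => eval (Sum.elim z (s • y)) D := by
    refine (continuous_eval D).comp (continuous_pi fun k => ?_)
    rcases k with k | k
    · exact continuous_const
    · exact continuous_id.mul continuous_const
  by_contra hcon
  push Not at hcon
  exact h (congrFun (hc.ext_on (dense_compl_singleton 0) continuous_const
    fun s hs => hcon s hs) t)

/-- The rank of an analytic map into the variety bounds its dimension from below. -/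
theorem finrank_lt_basis [FiniteDimensional ℂ F] (ho : IsOpen Ω) (hc : IsPreconnected Ω)
    (hne : Ω.Nonempty) (han : ∀ y ∈ Ω, AnalyticAt ℂ γ y)
    (himm : ∀ y ∈ Ω, Function.Injective (fderiv ℂ γ y)) {T : Finset (Fin g ⊕ Fin N)}
    (hT : Indep (A.idl (γ '' Ω)) T) (hTa : AlgOver (A.idl (γ '' Ω)) T) :
    Module.finrank ℂ F + 1 ≤ T.card := by
  have hP : (A.idl (γ '' Ω)).IsPrime := irred_image ho hc hne han
  obtain ⟨D, hD, hker⟩ := jac_ker (F := F × ℂ) _ hT hTa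
  obtain ⟨y, hy, t, ht⟩ : ∃ y ∈ Ω, ∃ t : ℂ,
      eval (Sum.elim (γ y).1 (t • A.θ (γ y).2)) D ≠ 0 := by
    by_contra hcon
    push Not at hcon
    exact hD (A.mem_idl.2 (Set.forall_mem_image.2 hcon))
  obtain ⟨s, hs, hs'⟩ := exists_ne_zero_scale ht
  let Z := fun y : F × ℂ => Sum.elim (γ y.1).1 (y.2 • A.θ (γ y.1).2)
  let Φ : (F × ℂ) →ₗ[ℂ] (T → ℂ) :=
    LinearMap.pi fun i => (fderiv ℂ (fun z => Z z i) (y, s)).toLinearMap
  have hinj : Function.Injective Φ := by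
    rw [← LinearMap.ker_eq_bot, LinearMap.ker_eq_bot']
    intro v hv
    have h1 := hker Z (y, s) (cone_an (han y hy)) (by
      filter_upwards [(continuousAt_fst (p := (y, s))).eventually (ho.mem_nhds hy)] with z hz p hp
      exact A.mem_idl.1 hp _ ⟨_, hz, rfl⟩ _) hs' v fun i hi => congrFun hv ⟨i, hi⟩
    have d0 : HasFDerivAt (fun z : F × ℂ => γ z.1) _ (y, s) :=
      HasFDerivAt.comp (g := γ) (y, s) (han y hy).differentiableAt.hasFDerivAt hasFDerivAt_fst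
    obtain ⟨e1, e2⟩ := A.cone_imm d0.snd.differentiableAt differentiableAt_snd hs v
      fun k => h1 (Sum.inr k)
    rw [d0.snd.fderiv] at e1
    rw [fderiv_snd] at e2
    have e3 : (fderiv ℂ γ y v.1).1 = 0 := funext fun i => by
      have := h1 (Sum.inl i)
      rwa [show (fun z => Z z (Sum.inl i)) = fun z : F × ℂ => (γ z.1).1 i from rfl,
        (hasFDerivAt_pi'.1 d0.fst i).fderiv] at this
    exact Prod.ext ((injective_iff_map_eq_zero _).1 (himm y hy) _ (Prod.ext e3 e1)) e2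
  simpa using LinearMap.finrank_le_finrank_of_injective hinj

theorem IsPar.exists_basis [FiniteDimensional ℂ F] (h : A.IsPar P Ω Ψ) :
    ∃ T, Indep P T ∧ AlgOver P T ∧ T.card = Module.finrank ℂ F + 1 := by
  have := h.isPrime
  obtain ⟨T, hT, hTa⟩ := Pool.Agent.P.MP_f17f76_ag.exists_basis P
  exact ⟨T, hT, hTa, le_antisymm (h.dim T hT) (finrank_lt_basis h.isOpen h.conn h.nonempty h.an
    h.imm (h.idl_eq ▸ hT) (h.idl_eq ▸ hTa))⟩

/-- The differential of the logarithmic difference of an algebraic chart is algebraic. -/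
theorem nash_diff {ι : Type} [Fintype ι] {Ψ : (ι → ℂ) → (Fin g → ℂ) × (Fin g → ℂ)}
    {τ : (ι → ℂ) → ℂ} {y : ι → ℂ} (hΨ : AnalyticAt ℂ Ψ y) (hτ : AnalyticAt ℂ τ y) (h0 : τ y ≠ 0)
    (hE : ∀ k, IsEt y fun u => Sum.elim (Ψ u).1 (τ u • A.θ (Ψ u).2) k) (v : ι → ℂ) (i : Fin g) :
    IsNash y (fun u => (fderiv ℂ Ψ u v).1 i) ∧ IsNash y fun u => (fderiv ℂ Ψ u v).2 i := by
  constructor
  · refine ((hE (Sum.inl i)).isNash_fderiv v).congr ?_
    filter_upwards [hΨ.eventually_analyticAt] with u hu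
    rw [show (fun u => Sum.elim (Ψ u).1 (τ u • A.θ (Ψ u).2) (Sum.inl i)) =
      fun u => (Ψ u).1 i from rfl,
      (hasFDerivAt_pi'.1 hu.differentiableAt.hasFDerivAt.fst i).fderiv]
    rfl
  · refine (A.nash_fderiv y (fun u => (Ψ u).2) τ (fun u => τ u • A.θ (Ψ u).2)
      (analyticAt_snd.comp hΨ) hτ h0 (fun k => hE (Sum.inr k))
      (Eventually.of_forall fun _ => rfl) v i).congr ?_
    filter_upwards [hΨ.eventually_analyticAt] with u hu
    rw [hu.differentiableAt.hasFDerivAt.snd.fderiv]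
    rfl

/-- Ax-Schanuel. Let `γ = (z, w)` be an analytic immersion along which `M (w - z)` is constant,
for a linear map `M` to `ℂ^k`. If the Zariski closure of `γ` in `ℂ^g × A` has dimension less than
`k + dim γ`, then `w` stays in a translate of the Lie algebra of an abelian subvariety killed by a
nonzero combination of the rows of `M`. -/
theorem ax_gen [FiniteDimensional ℂ F] (ho : IsOpen Ω) (hc : IsPreconnected Ω)
    (hne : Ω.Nonempty) (han : ∀ y ∈ Ω, AnalyticAt ℂ γ y)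
    (himm : ∀ y ∈ Ω, Function.Injective (fderiv ℂ γ y)) {k : ℕ}
    (M : (Fin g → ℂ) →L[ℂ] (Fin k → ℂ)) (c : Fin k → ℂ)
    (hM : ∀ y ∈ Ω, M ((γ y).2 - (γ y).1) = c)
    (hdim : ∀ T, Indep (A.idl (γ '' Ω)) T → T.card ≤ k + Module.finrank ℂ F) :
    ∃ ℓ : (Fin k → ℂ) →L[ℂ] ℂ, ℓ ≠ 0 ∧ ∃ L₀, A.IsLie L₀ ∧
      (∀ y ∈ Ω, ∀ y' ∈ Ω, (γ y).2 - (γ y').2 ∈ L₀) ∧ ∀ v ∈ L₀, ℓ (M v) = 0 := by
  obtain ⟨ι, _, D, hD, hpar⟩ := A.exists_par' (irred_image (A := A) ho hc hne han)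
  obtain ⟨y₀, hy₀, t, ht⟩ : ∃ y ∈ Ω, ∃ t : ℂ,
      eval (Sum.elim (γ y).1 (t • A.θ (γ y).2)) D ≠ 0 := by
    by_contra hcon
    push Not at hcon
    exact hD (A.mem_idl.2 (Set.forall_mem_image.2 hcon))
  obtain ⟨u₀, ε, Ψ, τ, κ, hε, hΨ, hΨ0, -, hτ, hκ, hκ0, hinv, hrat⟩ :=
    hpar (γ y₀) (A.subset_zeroSet_idl _ ⟨y₀, hy₀, rfl⟩) t ht
  obtain ⟨T, hT, -, hTc⟩ := hΨ.exists_basis
  have hγt := (han y₀ hy₀).continuousAt.tendsto
  have hall : ∀ᶠ y in 𝓝 y₀, y ∈ Ω ∧ AnalyticAt ℂ κ (γ y) ∧ κ (γ y) ∈ Metric.ball u₀ ε ∧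
      Ψ (κ (γ y)) = γ y := by
    filter_upwards [ho.mem_nhds hy₀, hγt.eventually hκ.eventually_analyticAt,
      (hκ.continuousAt.tendsto.comp hγt).eventually (hκ0 ▸ Metric.ball_mem_nhds u₀ hε),
      hγt.eventually hinv] with y h1 h2 h3 h4
    exact ⟨h1, h2, hκ0 ▸ h3, h4 (A.subset_zeroSet_idl _ ⟨y, h1, rfl⟩)⟩
  have hfreq := ax_lemma (g := k) (fun u => M ((Ψ u).2 - (Ψ u).1)) (fun y => κ (γ y)) y₀
    (by
      have := hdim T hT
      rw [Module.finrank_fintype_fun_eq_card] at hTc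
      omega) (by
      filter_upwards [hall.eventually_nhds] with y hy'
      obtain ⟨hy, h2, h3, h4⟩ := hy'.self_of_nhds
      have h5 : AnalyticAt ℂ (fun y => κ (γ y)) y := h2.comp (han y hy)
      have h6 := hΨ.an _ h3
      refine ⟨h5, ?_, (M.analyticAt _).comp ((analyticAt_snd.comp h6).sub
        (analyticAt_fst.comp h6)), fun v i => ?_, fun p hp => ?_, ?_⟩
      · have e1 := (h6.differentiableAt.hasFDerivAt.comp y
          h5.differentiableAt.hasFDerivAt).unique ((han y hy).differentiableAt.hasFDerivAt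
            |>.congr_of_eventuallyEq (hy'.mono fun z hz => hz.2.2.2))
        have e2 := himm y hy
        rw [← e1] at e2
        exact Function.Injective.of_comp e2
      · have n := nash_diff h6 (hτ _ h3).1 (hτ _ h3).2.1 (hτ _ h3).2.2 v
        refine (isNash_clm ((ContinuousLinearMap.proj i).comp M)
          (fun u => (fderiv ℂ Ψ u v).2 - (fderiv ℂ Ψ u v).1)
          fun j => (n j).2.sub (n j).1).congr ?_
        filter_upwards [h6.eventually_analyticAt] with u hu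
        have d := hu.differentiableAt.hasFDerivAt
        rw [show (fun u => M ((Ψ u).2 - (Ψ u).1)) = M ∘ fun u => (Ψ u).2 - (Ψ u).1 from rfl,
          (M.hasFDerivAt.comp u (d.snd.fun_sub d.fst)).fderiv]
        rfl
      · obtain ⟨p', hp'⟩ := hrat p
        have h7 : p' ∈ A.idl (γ '' Ω) := by
          rw [idl_image]
          refine mem_vanI_of_eventually (hc.prod isPreconnected_univ)
            (fun y hy => cone_an (han y.1 hy.1)) (y := (y, 1)) ⟨hy, trivial⟩ ?_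
          filter_upwards [(continuousAt_fst (p := (y, (1 : ℂ)))).eventually (hy'.and hp),
            (continuousAt_snd (p := (y, (1 : ℂ)))).eventually_ne one_ne_zero] with z h8 h9
          have := (hp' _ h8.1.2.2.1 z.2 h9).2 h8.2
          rwa [h8.1.2.2.2] at this
        refine nash1_poly_eq_zero (x := u₀) p ?_
        filter_upwards [Metric.ball_mem_nhds u₀ hε] with u hu
        exact (hp' u hu 1 one_ne_zero).1 ((hΨ.mem p').1 h7 u hu 1)
      · simp only [h4, hall.self_of_nhds.2.2.2, hM y hy, hM y₀ hy₀])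
  obtain ⟨y, ⟨ℓ, hℓ, hrel⟩, hy'⟩ := (hfreq.and_eventually hall.eventually_nhds).exists
  obtain ⟨hy, h2, h3, h4⟩ := hy'.self_of_nhds
  obtain ⟨L₀, hL₀, h5, h6, -⟩ := A.sum_gen (κ (γ y)) (fun u => (Ψ u).2) (fun u => (Ψ u).1)
    (fun u => τ u • A.θ (Ψ u).2) (ℓ.comp M) (ℓ (M ((Ψ (κ (γ y))).2 - (Ψ (κ (γ y))).1)))
    (analyticAt_snd.comp (hΨ.an _ h3)) (fun k => (hτ _ h3).2.2 (Sum.inr k))
    (smul_ne_zero (hτ _ h3).2.1 (A.ne_zero _)) (Eventually.of_forall fun u => ⟨_, rfl⟩)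
    (fun i => (hτ _ h3).2.2 (Sum.inl i)) (by
      filter_upwards [hrel] with u hu
      rw [← hu]
      simp)
  have h7 : ∀ z ∈ Ω, (γ z).2 - (γ y).2 ∈ L₀ := fun z hz =>
    sub_mem_of_eventually (G := fun z => (γ z).2) hc
      (fun z hz => analyticAt_snd.comp (han z hz)) hy (by
        filter_upwards [(h2.comp (han y hy)).continuousAt.tendsto.eventually h5, hy'] with z a b
        simpa only [Function.comp, b.2.2.2, h4] using a) hz
  refine ⟨ℓ, hℓ, L₀, hL₀, fun z hz z' hz' => ?_, h6⟩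
  simpa using L₀.sub_mem (h7 z hz) (h7 z' hz')

end AbVar

end Pool.Agent.P.MP_f17f76_ag
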