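import Pool.Agent.P.MP_f17f76_ag.BrJac

/-!
The image of a dominant polynomial map contains a nonempty open set; translations on `A` are
given by polynomials.
-/

namespace Pool.Agent.P.MP_f17f76_ag

open MvPolynomial Filter Topology

theorem eval_aeval' {σ τ : Type} (x : σ → ℂ) (G : τ → MvPolynomial σ ℂ) (p : MvPolynomial τ ℂ) :
    eval x (aeval G p) = eval (fun k => eval x (G k)) p := by
  rw [← aeval_eq_eval, ← aeval_eq_eval]
  exact comp_aeval_apply (f := G) (aeval x) p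

/-- Weak form of Chevalley's theorem. -/
theorem chevalley_open {σ τ : Type} [Fintype σ] [Fintype τ] (P : Ideal (MvPolynomial σ ℂ))
    [hP : P.IsPrime] (G : τ → MvPolynomial σ ℂ) :
    ∃ E : MvPolynomial τ ℂ, aeval G E ∉ P ∧ ∀ y' : τ → ℂ,
      (∀ p : MvPolynomial τ ℂ, aeval G p ∈ P → eval y' p = 0) → eval y' E ≠ 0 →
        ∃ y : σ → ℂ, (∀ p ∈ P, eval y p = 0) ∧ ∀ k, eval y (G k) = y' k := by
  let f : MvPolynomial τ ℂ →+* MvPolynomial σ ℂ := (aeval G).toRingHom
  have hft : f.FiniteType := by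
    refine RingHom.FiniteType.of_comp_finiteType (f := algebraMap ℂ (MvPolynomial τ ℂ)) ?_
    have : f.comp (algebraMap ℂ (MvPolynomial τ ℂ)) = algebraMap ℂ (MvPolynomial σ ℂ) :=
      RingHom.ext fun c => (aeval G).commutes c
    rw [this, RingHom.finiteType_algebraMap]
    infer_instance
  have hfp : f.FinitePresentation := RingHom.FinitePresentation.of_finiteType.1 hft
  have hc : Topology.IsConstructible
      (PrimeSpectrum.zeroLocus (P : Set (MvPolynomial σ ℂ))) := by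
    rw [← Topology.isConstructible_compl]
    exact (PrimeSpectrum.isRetrocompact_zeroLocus_compl_of_fg
      (IsNoetherian.noetherian _)).isConstructible (PrimeSpectrum.isClosed_zeroLocus _).isOpen_compl
  obtain ⟨T, hT⟩ := PrimeSpectrum.exists_constructibleSetData_iff.2
    (PrimeSpectrum.isConstructible_comap_image hfp hc)
  have hη : PrimeSpectrum.comap f ⟨P, hP⟩ ∈ T.toSet := hT ▸ ⟨⟨P, hP⟩, fun _ h => h, rfl⟩
  obtain ⟨c, hc1, hc2, hc3⟩ := Set.mem_iUnion₂.1 hη
  refine ⟨c.f, fun h => hc3 (Set.singleton_subset_iff.2 h), fun y' h1 h2 => ?_⟩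
  have hm : (⟨RingHom.ker (eval y'), RingHom.ker_isPrime _⟩ : PrimeSpectrum _) ∈ T.toSet := by
    refine Set.mem_iUnion₂.2 ⟨c, hc1, ?_, fun h => h2 (h (Set.mem_singleton _))⟩
    rintro _ ⟨i, rfl⟩
    exact h1 _ (hc2 ⟨i, rfl⟩)
  rw [hT] at hm
  obtain ⟨q, hq1, hq2⟩ := hm
  have := q.isPrime
  obtain ⟨y, hy, -⟩ := exists_point q.asIdeal 1 ((Ideal.ne_top_iff_one _).1 q.isPrime.ne_top)
  refine ⟨y, fun p hp => hy p (hq1 hp), fun k => ?_⟩
  have h3 : X k - C (y' k) ∈ (PrimeSpectrum.comap f q).asIdeal := by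
    rw [hq2]
    simp [RingHom.mem_ker]
  have h4 := hy _ (show f (X k - C (y' k)) ∈ q.asIdeal from h3)
  simpa [f, sub_eq_zero] using h4

namespace AbVar

variable {g N : ℕ} (A : AbVar g N)

/-- Translation by `b` is given by polynomials, normalised at a given point. -/
theorem transl (b w₁ : Fin g → ℂ) (t : ℂ) : ∃ Q : Fin N → MvPolynomial (Fin N) ℂ,
    (∀ w (s : ℂ), ∃ r : ℂ, (fun k => eval (s • A.θ w) (Q k)) = r • A.θ (w + b)) ∧
      (fun k => eval (A.θ w₁) (Q k)) = t • A.θ (w₁ + b) := by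
  obtain ⟨Q, hQ0, hQ⟩ := A.add w₁ b
  obtain ⟨r₁, hr₁⟩ := hQ w₁ b 1 1
  rw [one_smul, one_smul] at hr₁
  have hr : r₁ ≠ 0 := by
    rintro rfl
    exact hQ0 (by rw [hr₁, zero_smul])
  let G : Fin N ⊕ Fin N → MvPolynomial (Fin N) ℂ := Sum.elim X fun k => C (A.θ b k)
  have hG : ∀ y : Fin N → ℂ, (fun k => eval y (G k)) = Sum.elim y (A.θ b) := by
    intro y
    funext k
    rcases k with k | k <;> simp [G]
  refine ⟨fun k => C (t / r₁) * aeval G (Q k), fun w s => ?_, ?_⟩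
  · obtain ⟨r, h⟩ := hQ w b s 1
    rw [one_smul] at h
    refine ⟨t / r₁ * r, funext fun k => ?_⟩
    have := congrFun h k
    simp only [map_mul, eval_C, eval_aeval', hG, this, Pi.smul_apply, smul_eq_mul, mul_assoc]
  · funext k
    have := congrFun hr₁ k
    simp only [map_mul, eval_C, eval_aeval', hG, this, Pi.smul_apply, smul_eq_mul]
    field_simp

/-- Translation of a polynomial on `ℂ^g × A`. -/
theorem transl₂ (a b w₁ : Fin g → ℂ) (t : ℂ) (p : MvPolynomial (Fin g ⊕ Fin N) ℂ) :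
    ∃ p' : MvPolynomial (Fin g ⊕ Fin N) ℂ,
      (∀ z w (s : ℂ), ∃ r : ℂ, eval (Sum.elim z (s • A.θ w)) p' =
        eval (Sum.elim (z + a) (r • A.θ (w + b))) p) ∧
      ∀ z, eval (Sum.elim z (A.θ w₁)) p' = eval (Sum.elim (z + a) (t • A.θ (w₁ + b))) p := by
  obtain ⟨Q, hQ, hQ1⟩ := A.transl b w₁ t
  let G : Fin g ⊕ Fin N → MvPolynomial (Fin g ⊕ Fin N) ℂ :=
    Sum.elim (fun i => X (Sum.inl i) + C (a i)) fun k => rename Sum.inr (Q k)
  have hG : ∀ (z : Fin g → ℂ) (y : Fin N → ℂ), (fun k => eval (Sum.elim z y) (G k)) =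
      Sum.elim (z + a) fun k => eval y (Q k) := by
    intro z y
    funext k
    rcases k with k | k
    · simp [G]
    · simp only [G, Sum.elim_inr, eval_rename]
      rfl
  refine ⟨aeval G p, fun z w s => ?_, fun z => ?_⟩
  · obtain ⟨r, h⟩ := hQ w s
    exact ⟨r, by rw [eval_aeval', hG, h]⟩
  · rw [eval_aeval', hG, hQ1]

/-- Multiplication by a positive integer is given by polynomials near the origin. -/
theorem mul_poly (m : ℕ) : ∃ Q : Fin N → MvPolynomial (Fin N) ℂ,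
    (∀ w (s : ℂ), ∃ r : ℂ,
      (fun k => eval (s • A.θ w) (Q k)) = r • A.θ (((m + 1 : ℕ) : ℂ) • w)) ∧
      (fun k => eval (A.θ 0) (Q k)) = A.θ 0 := by
  induction m with
  | zero => exact ⟨X, fun w s => ⟨s, by funext k; simp⟩, by funext k; simp⟩
  | succ m ih =>
    obtain ⟨Q, hQ, hQ0⟩ := ih
    obtain ⟨R, hR0, hR⟩ := A.add 0 0
    obtain ⟨r₁, hr₁⟩ := hR 0 0 1 1
    rw [one_smul, add_zero] at hr₁
    have hr : r₁ ≠ 0 := by
      rintro rfl
      exact hR0 (by rw [hr₁, zero_smul])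
    let G : Fin N ⊕ Fin N → MvPolynomial (Fin N) ℂ := Sum.elim Q X
    have hG : ∀ y : Fin N → ℂ, (fun k => eval y (G k)) =
        Sum.elim (fun k => eval y (Q k)) y := by
      intro y
      funext k
      rcases k with k | k <;> simp [G]
    refine ⟨fun k => C r₁⁻¹ * aeval G (R k), fun w s => ?_, ?_⟩
    · obtain ⟨r, h⟩ := hQ w s
      obtain ⟨r', h'⟩ := hR (((m + 1 : ℕ) : ℂ) • w) w r s
      refine ⟨r₁⁻¹ * r', funext fun k => ?_⟩
      have h2 := congrFun h' k
      have h3 : ((m + 1 + 1 : ℕ) : ℂ) • w = ((m + 1 : ℕ) : ℂ) • w + w := by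
        rw [Nat.cast_succ (m + 1), add_smul, one_smul]
      simp only [map_mul, eval_C, eval_aeval', hG, h, h2, h3, Pi.smul_apply, smul_eq_mul,
        mul_assoc]
    · funext k
      have := congrFun hr₁ k
      simp only [map_mul, eval_C, eval_aeval', hG, hQ0, this, Pi.smul_apply, smul_eq_mul]
      field_simp

end AbVar

end Pool.Agent.P.MP_f17f76_ag
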