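import Pool.Agent.P.MP_f17f76_ag.GermPrime

/-!
Siegel's bound: homogeneous coordinates of a compact `l`-dimensional image satisfy a relation in
any `l + 2` coordinates.
-/

namespace Pool.Agent.P.MP_f17f76_ag

open MvPolynomial Filter Topology Asymptotics

/-- Taylor polynomial of an analytic function of several variables. -/
theorem sieg_taylor {ι : Type} [Fintype ι] [DecidableEq ι] {f : (ι → ℂ) → ℂ} {x : ι → ℂ}
    (hf : AnalyticAt ℂ f x) (m : ℕ) : ∃ T : MvPolynomial ι ℂ, (∀ i, T.degreeOf i < m + 1) ∧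
      (fun y => f (x + y) - eval y T) =O[𝓝 0] fun y => ‖y‖ ^ (m + 1) := by
  obtain ⟨p, hp⟩ := hf
  let U : ℕ → MvPolynomial ι ℂ := fun n =>
    ∑ r : Fin n → ι, C (p n fun k => Pi.single (r k) 1) * ∏ k, X (r k)
  have hU : ∀ n y, eval y (U n) = p n fun _ => y := by
    intro n y
    have hy : y = ∑ i, y i • (Pi.single i 1 : ι → ℂ) := by
      funext j
      simp [Finset.sum_apply, Pi.single_apply]
    have h1 : (p n fun _ => y) = p n fun _ => ∑ i, y i • (Pi.single i 1 : ι → ℂ) := by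
      rw [← hy]
    rw [h1, ContinuousMultilinearMap.map_sum]
    simp only [U, map_sum, map_mul, eval_C, map_prod, eval_X]
    refine Finset.sum_congr rfl fun r _ => ?_
    rw [ContinuousMultilinearMap.map_smul_univ, smul_eq_mul, mul_comm]
  have hd : ∀ n, (U n).totalDegree ≤ n := by
    intro n
    refine totalDegree_finsetSum_le fun r _ => ?_
    refine (totalDegree_mul _ _).trans ?_
    rw [totalDegree_C, zero_add]
    refine (totalDegree_finsetProd _ _).trans ?_
    simp [totalDegree_X]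
  refine ⟨∑ n ∈ Finset.range (m + 1), U n, fun i => ?_, ?_⟩
  · refine Nat.lt_succ_of_le ((degreeOf_le_totalDegree _ _).trans ?_)
    refine totalDegree_finsetSum_le fun n hn => (hd n).trans ?_
    exact Nat.lt_succ_iff.1 (Finset.mem_range.1 hn)
  · refine (hp.isBigO_sub_partialSum_pow (m + 1)).congr_left fun y => ?_
    simp only [FormalMultilinearSeries.partialSum, map_sum, hU]

/-- A nontrivial combination of many analytic functions vanishes to high order at given points. -/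
theorem sieg_comb {ι α κ : Type} [Fintype ι] [DecidableEq ι] [Fintype α] [Fintype κ]
    (f : α → (ι → ℂ) → ℂ) (x : κ → ι → ℂ) (hf : ∀ a k, AnalyticAt ℂ (f a) (x k)) (m : ℕ)
    (hc : Fintype.card κ * (m + 1) ^ Fintype.card ι < Fintype.card α) :
    ∃ c : α → ℂ, c ≠ 0 ∧ ∀ k,
      (fun y => ∑ a, c a * f a (x k + y)) =O[𝓝 0] fun y => ‖y‖ ^ (m + 1) := by
  classical
  choose T hT1 hT2 using fun a k => sieg_taylor (hf a k) m
  let Φ : (α → ℂ) →ₗ[ℂ] (κ × (ι → Fin (m + 1)) → ℂ) :=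
    { toFun := fun c q => ∑ a, c a * eval (fun i => ((q.2 i : ℕ) : ℂ)) (T a q.1)
      map_add' := fun c d => by
        funext q
        simp [add_mul, Finset.sum_add_distrib]
      map_smul' := fun s c => by
        funext q
        simp [Finset.mul_sum, mul_assoc] }
  have hk : LinearMap.ker Φ ≠ ⊥ := LinearMap.ker_ne_bot_of_finrank_lt (by
    simpa [Module.finrank_fintype_fun_eq_card] using hc)
  obtain ⟨c, hc1, hc0⟩ := Submodule.exists_mem_ne_zero_of_ne_bot hk
  refine ⟨c, hc0, fun k => ?_⟩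
  have h0 : ∑ a, C (c a) * T a k = 0 := by
    refine eq_zero_of_eval_zero_at_prod_finset _
      (fun _ => (Finset.range (m + 1)).image fun n : ℕ => (n : ℂ)) (fun i => ?_) fun y hy => ?_
    · rw [Finset.card_image_of_injective _ Nat.cast_injective, Finset.card_range]
      refine Nat.lt_succ_of_le ((degreeOf_sum_le _ _ _).trans (Finset.sup_le fun a _ => ?_))
      exact (degreeOf_C_mul_le _ _ _).trans (Nat.lt_succ_iff.1 (hT1 a k i))
    · choose n hn1 hn2 using fun i => Finset.mem_image.1 (hy i)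
      have h1 := congrFun (LinearMap.mem_ker.1 hc1)
        (k, fun i => ⟨n i, Finset.mem_range.1 (hn1 i)⟩)
      have hy' : y = fun i => ((n i : ℕ) : ℂ) := funext fun i => (hn2 i).symm
      rw [hy']
      simpa [Φ] using h1
  have h2 : (fun y => ∑ a, c a * (f a (x k + y) - eval y (T a k))) =O[𝓝 0]
      fun y => ‖y‖ ^ (m + 1) := IsBigO.fun_sum fun a _ => (hT2 a k).const_mul_left (c a)
  refine h2.congr_left fun y => ?_
  have h3 := congrArg (eval y) h0
  simp only [map_sum, map_mul, eval_C, map_zero] at h3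
  simp only [mul_sub, Finset.sum_sub_distrib, h3, sub_zero]

/-- Schwarz lemma of high order. -/
theorem sieg_schwarz {E : Type} [NormedAddCommGroup E] [NormedSpace ℂ E] {f : E → ℂ}
    (hf : Differentiable ℂ f) {x z : E} {m : ℕ} {M : ℝ}
    (hO : (fun y => f (x + y)) =O[𝓝 0] fun y => ‖y‖ ^ (m + 1))
    (hM : ∀ y ∈ Metric.ball x 2, ‖f y‖ ≤ M) (hz : z ∈ Metric.ball x 1) :
    ‖f z‖ ≤ M * (1 / 2) ^ (m + 1) := by
  have ho : (fun y : E => ‖y‖ ^ (m + 1)) =o[𝓝 0] fun y => ‖y‖ ^ m :=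
    (isLittleO_pow_pow (Nat.lt_succ_self m)).comp_tendsto tendsto_norm_zero
  have h1 := hO.trans_isLittleO ho
  have h0 : f x = 0 := by
    obtain ⟨c, hc⟩ := hO.bound
    simpa using hc.self_of_nhds
  have ht : Tendsto (fun w => w - x) (𝓝 x) (𝓝 0) := by
    have : Continuous fun w : E => w - x := by fun_prop
    simpa using this.tendsto x
  have h2 : (f · - f x) =o[𝓝 x] fun w => ‖w - x‖ ^ m := by
    refine (h1.comp_tendsto ht).congr_left fun w => ?_
    simp [h0]
  have hM0 : 0 ≤ M := (norm_nonneg _).trans (hM x (Metric.mem_ball_self two_pos))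
  have h3 := Complex.dist_le_mul_div_pow_of_mapsTo_ball_of_isLittleO (R₂ := M)
    hf.differentiableOn (fun y hy => by simpa [h0] using hM y hy) h2
    (Metric.ball_subset_ball one_le_two hz)
  rw [h0, dist_zero_right] at h3
  refine h3.trans (mul_le_mul_of_nonneg_left ?_ hM0)
  have : dist z x < 1 := hz
  gcongr

/-- the exponent with total degree `d` -/
noncomputable def siegEx {l k : ℕ} (a : Fin (l + 1) → Fin (k + 1)) : Fin (l + 2) →₀ ℕ :=
  Finsupp.equivFunOnFinite.symm (Fin.cons (k * (l + 1) - ∑ j, (a j : ℕ)) fun j => (a j : ℕ))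

theorem siegEx_inj {l k : ℕ} : Function.Injective (siegEx (l := l) (k := k)) := by
  intro a b h
  funext j
  have := congrArg (fun e : Fin (l + 2) →₀ ℕ => e j.succ) h
  exact Fin.ext (by simpa [siegEx] using this)

theorem siegEx_eval {l k : ℕ} (a : Fin (l + 1) → Fin (k + 1)) (t : ℂ) (y : Fin (l + 2) → ℂ) :
    ∏ j, (t * y j) ^ siegEx a j = t ^ (k * (l + 1)) * ∏ j, y j ^ siegEx a j := by
  have hs : ∑ j, (a j : ℕ) ≤ k * (l + 1) := by
    refine (Finset.sum_le_card_nsmul _ _ k fun j _ => Nat.lt_succ_iff.1 (a j).2).trans_eq ?_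
    simp [mul_comm]
  have h : ∑ j, siegEx a j = k * (l + 1) := by
    rw [Fin.sum_univ_succ]
    simp only [siegEx, Finsupp.equivFunOnFinite_symm_apply_apply, Fin.cons_zero, Fin.cons_succ]
    omega
  simp only [mul_pow, Finset.prod_mul_distrib, Finset.prod_pow_eq_pow_sum, h]

/-- Siegel's bound. -/
theorem siegel {l N : ℕ} (Θ : (Fin l → ℂ) → Fin N → ℂ) (hΘ : AnalyticOnNhd ℂ Θ Set.univ)
    (hne : ∀ x, Θ x ≠ 0) (R : ℝ) (hper : ∀ x, ∃ x', ‖x'‖ ≤ R ∧ ∃ t : ℂ, Θ x = t • Θ x')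
    (e : Fin (l + 2) → Fin N) :
    ∃ p : MvPolynomial (Fin (l + 2)) ℂ, p ≠ 0 ∧
      ∀ x (t : ℂ), eval (fun j => t * Θ x (e j)) p = 0 := by
  classical
  have hΘa : ∀ x, AnalyticAt ℂ Θ x := fun x => hΘ x trivial
  have hc : Continuous Θ := continuous_iff_continuousAt.2 fun x => (hΘa x).continuousAt
  have hR : 0 ≤ R := by
    obtain ⟨x', h, -⟩ := hper 0
    exact (norm_nonneg _).trans h
  have hK := isCompact_closedBall (0 : Fin l → ℂ) R
  have hK0 : (Metric.closedBall (0 : Fin l → ℂ) R).Nonempty := ⟨0, by simpa using hR⟩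
  obtain ⟨s, hs1, hs2, hs3⟩ := finite_cover_balls_of_compact hK one_pos
  obtain ⟨x₁, -, hx₁⟩ := hK.exists_isMinOn hK0 hc.norm.continuousOn
  obtain ⟨x₂, -, hx₂⟩ := (isCompact_closedBall (0 : Fin l → ℂ) (R + 2)).exists_isMaxOn
    ⟨0, by simp; linarith⟩ hc.norm.continuousOn
  set c₁ := ‖Θ x₁‖
  set c₂ := ‖Θ x₂‖
  have hc₁ : 0 < c₁ := norm_pos_iff.2 (hne _)
  obtain ⟨K, hKK⟩ := pow_unbounded_of_one_lt (c₂ / c₁) (one_lt_two (α := ℝ))
  have := hs2.fintype
  set k := Fintype.card s * (K * (l + 1) + 1) ^ l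
  set d := k * (l + 1)
  let f : (Fin (l + 1) → Fin (k + 1)) → (Fin l → ℂ) → ℂ := fun a x =>
    ∏ j, Θ x (e j) ^ siegEx a j
  have hf : ∀ a x, AnalyticAt ℂ (f a) x := fun a x =>
    Finset.analyticAt_fun_prod _ fun j _ => ((analyticAt_pi_iff.1 (hΘa x)) (e j)).pow _
  obtain ⟨c, hc0, hcO⟩ := sieg_comb f (fun i : s => (i : Fin l → ℂ)) (fun a i => hf a i) (K * d)
    (by
      simp only [Fintype.card_fin, Fintype.card_fun]
      have h1 : K * d + 1 ≤ (K * (l + 1) + 1) * (k + 1) := by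
        simp only [d]
        nlinarith [Nat.zero_le (K * (l + 1)), Nat.zero_le k]
      calc Fintype.card s * (K * d + 1) ^ l
          ≤ Fintype.card s * ((K * (l + 1) + 1) * (k + 1)) ^ l := by gcongr
        _ = k * (k + 1) ^ l := by rw [mul_pow, ← mul_assoc]
        _ < (k + 1) ^ (l + 1) := by
          rw [pow_succ']
          exact Nat.mul_lt_mul_of_pos_right (Nat.lt_succ_self k) (by positivity))
  let F : (Fin l → ℂ) → ℂ := fun x => ∑ a, c a * f a x
  have hFa : ∀ x, AnalyticAt ℂ F x := fun x =>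
    Finset.analyticAt_fun_sum _ fun a _ => analyticAt_const.mul (hf a x)
  have hFc : Continuous F := continuous_iff_continuousAt.2 fun x => (hFa x).continuousAt
  have hhom : ∀ x (t : ℂ), ∑ a, c a * ∏ j, (t * Θ x (e j)) ^ siegEx a j = t ^ d * F x := by
    intro x t
    simp only [siegEx_eval, F, f, Finset.mul_sum]
    exact Finset.sum_congr rfl fun a _ => by ring
  have hpos : ∀ x, 0 < ‖Θ x‖ ^ d := fun x => pow_pos (norm_pos_iff.2 (hne x)) _
  obtain ⟨x₀, hx₀K, hx₀⟩ := hK.exists_isMaxOn hK0 (f := fun x => ‖F x‖ / ‖Θ x‖ ^ d)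
    (hFc.norm.div (hc.norm.pow d) fun x => (hpos x).ne').continuousOn
  set M := ‖F x₀‖ / ‖Θ x₀‖ ^ d with hM
  have hM0 : 0 ≤ M := div_nonneg (norm_nonneg _) (hpos _).le
  have hall : ∀ x, ‖F x‖ ≤ M * ‖Θ x‖ ^ d := by
    intro x
    obtain ⟨x', h1, t, ht⟩ := hper x
    have h2 : F x = t ^ d * F x' := by
      rw [← hhom]
      simp only [F, f, ht, Pi.smul_apply, smul_eq_mul]
    have h3 : ‖F x'‖ / ‖Θ x'‖ ^ d ≤ M := hx₀ (mem_closedBall_zero_iff.2 h1)
    rw [div_le_iff₀ (hpos _)] at h3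
    rw [h2, ht, norm_mul, norm_pow, norm_smul, mul_pow, mul_left_comm]
    gcongr
  have hF0 : M = 0 := by
    obtain ⟨i, hi, hxi⟩ := Set.mem_iUnion₂.1 (hs3 hx₀K)
    have h1 := sieg_schwarz (M := M * c₂ ^ d) (fun x => (hFa x).differentiableAt) (hcO ⟨i, hi⟩)
      (fun y hy => (hall y).trans (by
        have hy' : y ∈ Metric.closedBall (0 : Fin l → ℂ) (R + 2) := by
          have h4 : ‖i‖ ≤ R := mem_closedBall_zero_iff.1 (hs1 hi)
          have h5 : ‖y - i‖ < 2 := mem_ball_iff_norm.1 hy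
          have h6 := norm_add_le (y - i) i
          rw [sub_add_cancel] at h6
          exact mem_closedBall_zero_iff.2 (by linarith)
        have h7 : ‖Θ y‖ ≤ c₂ := hx₂ hy'
        gcongr)) hxi
    have h2 : ‖F x₀‖ = M * ‖Θ x₀‖ ^ d := by rw [hM, div_mul_cancel₀ _ (hpos _).ne']
    have h3 : c₁ ^ d ≤ ‖Θ x₀‖ ^ d := by
      have : c₁ ≤ ‖Θ x₀‖ := hx₁ hx₀K
      gcongr
    have h4 : c₂ ^ d * (1 / 2) ^ (K * d) ≤ c₁ ^ d := by
      rw [pow_mul _ K d, ← mul_pow]
      have h5 : c₂ * (1 / 2) ^ K ≤ c₁ := by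
        rw [div_lt_iff₀ hc₁] at hKK
        rw [one_div, inv_pow, ← div_eq_mul_inv, div_le_iff₀ (by positivity)]
        linarith
      have h6 : 0 ≤ c₂ := norm_nonneg _
      gcongr
    have h5 : M * c₁ ^ d ≤ M * c₁ ^ d * (1 / 2) := by
      calc M * c₁ ^ d ≤ M * ‖Θ x₀‖ ^ d := by gcongr
        _ ≤ M * c₂ ^ d * (1 / 2) ^ (K * d + 1) := h2 ▸ h1
        _ = M * (c₂ ^ d * (1 / 2) ^ (K * d)) * (1 / 2) := by ring
        _ ≤ M * c₁ ^ d * (1 / 2) := by gcongr
    have h6 : M * c₁ ^ d ≤ 0 := by linarith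
    have h7 : 0 < c₁ ^ d := pow_pos hc₁ d
    nlinarith
  refine ⟨∑ a, monomial (siegEx a) (c a), fun h => hc0 (funext fun a => ?_), fun x t => ?_⟩
  · have := congrArg (coeff (siegEx a)) h
    simpa [coeff_sum, coeff_monomial, siegEx_inj.eq_iff] using this
  · have h1 : F x = 0 := by simpa [hF0] using hall x
    have h2 := hhom x t
    rw [h1, mul_zero] at h2
    simp only [map_sum, eval_monomial, Finsupp.prod_fintype, pow_zero, implies_true]
    exact h2

end Pool.Agent.P.MP_f17f76_ag
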