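import Pool.Agent.P.MP_f17f76_ag.Defs

/-!
Definitions for the full statement: Lie algebras of abelian subvarieties, irreducible, free and
rotund subvarieties of `ℂ^g × A`.
-/

namespace Pool.Agent.P.MP_f17f76_ag

namespace AbVar

variable {g N : ℕ}

/-- `L` is the Lie algebra of an abelian subvariety `B = exp_A L` of `A`: a complex subspace in
which `Λ ∩ L` is a full lattice. -/
def IsLie (A : AbVar g N) (L : Submodule ℂ (Fin g → ℂ)) : Prop :=
  (L : Set (Fin g → ℂ)) ⊆ Submodule.span ℝ ((A.Λ : Set (Fin g → ℂ)) ∩ L)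

/-- `V` is nonempty and irreducible: the vanishing ideal of its cone is prime. -/
def Irred (A : AbVar g N) (V : Set ((Fin g → ℂ) × (Fin g → ℂ))) : Prop :=
  (MvPolynomial.vanishingIdeal ℂ (A.cone V)).IsPrime

/-- `V` is free: for every proper abelian subvariety `B = exp_A L`, the projection `π₁ V` lies in
no translate `c + L` and the projection `π₂ V` lies in no translate `exp_A c + B`, whose
preimage under `exp_A` is `c + Λ + L`. -/
def Free (A : AbVar g N) (V : Set ((Fin g → ℂ) × (Fin g → ℂ))) : Prop :=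
  ∀ L : Submodule ℂ (Fin g → ℂ), A.IsLie L → L ≠ ⊤ → ∀ c : Fin g → ℂ,
    (¬ ∀ q ∈ V, q.1 - c ∈ L) ∧ ¬ ∀ q ∈ V, ∃ m ∈ A.Λ, q.2 - c - m ∈ L

/-- The set `V + (L × L)`. For `B = exp_A L` it is the lift of `V + (L × B)`, the preimage
under `π_B` of `π_B V`, whose dimension is `dim π_B V + 2 dim B`. -/
def sat (L : Submodule ℂ (Fin g → ℂ)) (V : Set ((Fin g → ℂ) × (Fin g → ℂ))) :
    Set ((Fin g → ℂ) × (Fin g → ℂ)) :=
  {q | ∃ p ∈ V, q.1 - p.1 ∈ L ∧ q.2 - p.2 ∈ L}

/-- `V` is rotund: `dim π_B V ≥ dim A/B = g - dim B` for every abelian subvariety `B = exp_A L`,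
written as `dim (V + (L × B)) ≥ (g - dim B) + 2 dim B`; the cone adds one dimension. -/
def Rotund (A : AbVar g N) (V : Set ((Fin g → ℂ) × (Fin g → ℂ))) : Prop :=
  ∀ L : Submodule ℂ (Fin g → ℂ), A.IsLie L →
    (((g - Module.finrank ℂ L) + 2 * Module.finrank ℂ L + 1 : ℕ) : WithBot ℕ∞) ≤
      A.coneDim (sat L V)

end AbVar

end Pool.Agent.P.MP_f17f76_ag
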