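import Pool.Agent.P.MP_f17f76_ag.Defs2

/-! Local analytic lifts through the exponential map. -/

namespace Pool.Agent.P.MP_f17f76_ag

open MvPolynomial Filter Topology

theorem AbVar.exists_bdd {g N : ℕ} (A : AbVar g N) :
    ∃ R : ℝ, ∀ w : Fin g → ℂ, ∃ m ∈ A.Λ, ‖w - m‖ ≤ R := by
  obtain ⟨s, h1, h2, h3⟩ := exists_linearIndependent ℝ (A.Λ : Set (Fin g → ℂ))
  let b : Module.Basis s ℝ (Fin g → ℂ) := Module.Basis.mk h3 (by simp [h2, A.spans])
  have : Fintype s := (h3.setFinite).fintype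
  refine ⟨∑ i, ‖b i‖, fun w => ⟨ZSpan.floor b w, ?_, ZSpan.norm_fract_le b w⟩⟩
  refine Submodule.span_le.2 ?_ (ZSpan.floor b w).2
  rintro _ ⟨i, rfl⟩
  simp only [b, Module.Basis.coe_mk]
  exact h1 i.2

/-- a map with injective derivative has an analytic local left inverse -/
theorem lift_inv {E F : Type} [NormedAddCommGroup E] [NormedSpace ℂ E] [FiniteDimensional ℂ E]
    [NormedAddCommGroup F] [NormedSpace ℂ F] [FiniteDimensional ℂ F] {Θ : E → F} {p : E}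
    (h : AnalyticAt ℂ Θ p) (hi : ∀ v, fderiv ℂ Θ p v = 0 → v = 0) :
    ∃ Ψ : F → E, AnalyticAt ℂ Ψ (Θ p) ∧ ∀ᶠ q in 𝓝 p, Ψ (Θ q) = q := by
  have : CompleteSpace E := FiniteDimensional.complete ℂ E
  obtain ⟨π, hπ⟩ := LinearMap.exists_leftInverse_of_injective (fderiv ℂ Θ p : E →ₗ[ℂ] F)
    (LinearMap.ker_eq_bot'.2 hi)
  let π' : F →L[ℂ] E := LinearMap.toContinuousLinearMap π
  have h1 : ContDiffAt ℂ ⊤ (π' ∘ Θ) p := ((π'.analyticAt _).comp h).contDiffAt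
  have h2 : HasFDerivAt (π' ∘ Θ) (ContinuousLinearEquiv.refl ℂ E : E →L[ℂ] E) p := by
    convert π'.hasFDerivAt.comp p h.differentiableAt.hasFDerivAt using 1
    ext v
    exact (LinearMap.congr_fun hπ v).symm
  refine ⟨h1.localInverse h2 (by simp) ∘ π', ?_,
    (h1.hasStrictFDerivAt' h2 (by simp)).eventually_left_inverse⟩
  exact AnalyticAt.comp (h1.to_localInverse h2 (by simp)).analyticAt (π'.analyticAt _)

theorem AbVar.lift {g N : ℕ} (A : AbVar g N) (w₀ : Fin g → ℂ) (t₀ : ℂ) (ht : t₀ ≠ 0) :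
    ∃ (ω : (Fin N → ℂ) → (Fin g → ℂ)) (τ : (Fin N → ℂ) → ℂ),
      AnalyticAt ℂ ω (t₀ • A.θ w₀) ∧ AnalyticAt ℂ τ (t₀ • A.θ w₀) ∧
      ω (t₀ • A.θ w₀) = w₀ ∧ τ (t₀ • A.θ w₀) = t₀ ∧
      (∀ᶠ y in 𝓝 (t₀ • A.θ w₀), (∃ (t : ℂ) (w : Fin g → ℂ), y = t • A.θ w) →
        y = τ y • A.θ (ω y)) ∧
      (∀ᶠ p in 𝓝 (w₀, t₀), ω (p.2 • A.θ p.1) = p.1) := by
  have hθ : ∀ w, AnalyticAt ℂ A.θ w := fun w => A.analytic w trivial
  have hc : Continuous A.θ := continuous_iff_continuousAt.2 fun w => (hθ w).continuousAt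
  have hΘ : AnalyticAt ℂ (fun p : (Fin g → ℂ) × ℂ => p.2 • A.θ p.1) (w₀, t₀) :=
    analyticAt_snd.smul (AnalyticAt.comp (f := Prod.fst) (hθ _) analyticAt_fst)
  have hd : HasFDerivAt (fun p : (Fin g → ℂ) × ℂ => p.2 • A.θ p.1) _ (w₀, t₀) :=
    (hasFDerivAt_snd (p := (w₀, t₀))).smul
      (HasFDerivAt.comp (f := Prod.fst) (w₀, t₀) (hθ w₀).differentiableAt.hasFDerivAt
        hasFDerivAt_fst)
  obtain ⟨Ψ, h1, h2⟩ := lift_inv hΘ fun v hv => by
    rw [hd.fderiv] at hv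
    have e : t₀ • fderiv ℂ A.θ w₀ v.1 + v.2 • A.θ w₀ = 0 := by simpa using hv
    have e1 : v.1 = 0 := A.imm w₀ v.1 (-(t₀⁻¹ * v.2)) (by
      rw [neg_smul, mul_smul, eq_neg_iff_add_eq_zero, ← inv_smul_smul₀ ht (fderiv ℂ A.θ w₀ v.1),
        ← smul_add, e, smul_zero])
    rw [e1, map_zero, smul_zero, zero_add] at e
    exact Prod.ext e1 ((smul_eq_zero.1 e).resolve_right (A.ne_zero w₀))
  have h3 : Ψ (t₀ • A.θ w₀) = (w₀, t₀) := h2.self_of_nhds
  refine ⟨fun y => (Ψ y).1, fun y => (Ψ y).2, analyticAt_fst.comp h1, analyticAt_snd.comp h1,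
    congrArg Prod.fst h3, congrArg Prod.snd h3, ?_, h2.mono fun p hp => congrArg Prod.fst hp⟩
  obtain ⟨R, hR⟩ := A.exists_bdd
  have key : ∀ᶠ y in 𝓝 (t₀ • A.θ w₀), ∀ w ∈ Metric.closedBall (0 : Fin g → ℂ) R,
      ∀ t : ℂ, y = t • A.θ w → y = (Ψ y).2 • A.θ (Ψ y).1 := by
    refine (isCompact_closedBall 0 R).eventually_forall_of_forall_eventually fun u _ => ?_
    by_cases hu : u - w₀ ∈ A.Λ
    · obtain ⟨j, hj⟩ : ∃ j, A.θ w₀ j ≠ 0 := Function.ne_iff.1 (A.ne_zero w₀)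
      have c1 : Continuous fun z : (Fin N → ℂ) × (Fin g → ℂ) => A.θ (z.2 - (u - w₀)) j := by
        fun_prop
      have e0 : u - (u - w₀) = w₀ := sub_sub_cancel u w₀
      have c2 : ContinuousAt (fun z : (Fin N → ℂ) × (Fin g → ℂ) =>
          (z.2 - (u - w₀), z.1 j / A.θ (z.2 - (u - w₀)) j)) (t₀ • A.θ w₀, u) := by
        refine ContinuousAt.prodMk (by fun_prop) (ContinuousAt.div (by fun_prop)
          c1.continuousAt ?_)
        simpa only [e0] using hj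
      have c3 : Tendsto (fun z : (Fin N → ℂ) × (Fin g → ℂ) =>
          (z.2 - (u - w₀), z.1 j / A.θ (z.2 - (u - w₀)) j)) (𝓝 (t₀ • A.θ w₀, u)) (𝓝 (w₀, t₀)) := by
        convert c2.tendsto using 3
        · exact e0.symm
        · simp only [e0, Pi.smul_apply, smul_eq_mul]
          exact (mul_div_cancel_right₀ t₀ hj).symm
      have c4 : A.θ (u - (u - w₀)) j ≠ 0 := by simpa only [e0] using hj
      filter_upwards [c3.eventually h2,
        (c1.continuousAt (x := (t₀ • A.θ w₀, u))).eventually_ne c4] with z a1 a2 t a3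
      obtain ⟨c, a4⟩ := (A.per (z.2 - (u - w₀)) z.2).2 (by simpa only [sub_sub_cancel] using hu)
      have a5 : (z.1 j / A.θ (z.2 - (u - w₀)) j) • A.θ (z.2 - (u - w₀)) = z.1 := by
        rw [a4, smul_smul] at a3
        rw [a3, Pi.smul_apply, smul_eq_mul, mul_div_cancel_right₀ _ a2]
      simp only [a5] at a1
      rw [a1]
      exact a5.symm
    · obtain ⟨j, hj⟩ : ∃ j, A.θ u j ≠ 0 := Function.ne_iff.1 (A.ne_zero u)
      have c1 : Continuous fun z : (Fin N → ℂ) × (Fin g → ℂ) =>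
          A.θ z.2 j • z.1 - z.1 j • A.θ z.2 := by fun_prop
      have c2 : A.θ u j • t₀ • A.θ w₀ - (t₀ • A.θ w₀) j • A.θ u ≠ 0 := by
        intro e
        refine hu ?_
        rw [← neg_sub]
        refine A.Λ.neg_mem ((A.per u w₀).1 ⟨(A.θ u j * t₀)⁻¹ * (t₀ • A.θ w₀) j, ?_⟩)
        rw [sub_eq_zero, smul_smul] at e
        rw [mul_smul, ← e, inv_smul_smul₀ (mul_ne_zero hj ht)]
      filter_upwards [(c1.continuousAt (x := (t₀ • A.θ w₀, u))).eventually_ne c2] with z a1 t a3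
      refine absurd ?_ a1
      rw [a3, Pi.smul_apply, smul_eq_mul, smul_smul, mul_comm, sub_self]
  filter_upwards [key] with y hy
  rintro ⟨t, w, e⟩
  obtain ⟨m, hm, hw⟩ := hR w
  obtain ⟨c, hc⟩ := (A.per (w - m) w).2 (by simpa only [sub_sub_cancel] using hm)
  exact hy (w - m) (mem_closedBall_zero_iff.2 hw) (t * c) (by rw [e, hc, smul_smul])

end Pool.Agent.P.MP_f17f76_ag
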