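import Pool.Agent.P.MP_f17f76_ag.BrChev
import Pool.Agent.P.MP_f17f76_ag.BrSiegel
import Pool.Agent.P.MP_f17f76_ag.Defs3
import Pool.Agent.P.MP_f17f76_ag.Lift

/-!
Complex subtori of `A` are algebraic: their cones have the expected dimension and are Zariski
closed.
-/

namespace Pool.Agent.P.MP_f17f76_ag

open MvPolynomial Filter Topology

theorem exists_lin_param {g : ℕ} (L : Submodule ℂ (Fin g → ℂ)) :
    ∃ (l : ℕ) (β : (Fin l → ℂ) →L[ℂ] (Fin g → ℂ)), Module.finrank ℂ L = l ∧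
      Function.Injective β ∧ ∀ x, x ∈ L ↔ ∃ u, β u = x := by
  let e : (Fin (Module.finrank ℂ L) → ℂ) ≃ₗ[ℂ] L := (Module.finBasis ℂ L).equivFun.symm
  refine ⟨_, LinearMap.toContinuousLinearMap (L.subtype ∘ₗ e.toLinearMap), rfl,
    L.injective_subtype.comp e.injective, fun x => ⟨fun hx => ⟨e.symm ⟨x, hx⟩, by simp⟩, ?_⟩⟩
  rintro ⟨u, rfl⟩
  exact (e u).2

namespace AbVar

variable {g N : ℕ} (A : AbVar g N)

theorem theta_continuous : Continuous A.θ :=
  continuous_iff_continuousAt.2 fun w => (A.analytic w trivial).continuousAt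

section

variable {F : Type} [NormedAddCommGroup F] [NormedSpace ℂ F]

theorem cone_fderiv {W : F → Fin g → ℂ} {τ : F → ℂ} {x : F} (hW : DifferentiableAt ℂ W x)
    (hτ : DifferentiableAt ℂ τ x) (v : F) (k : Fin N) :
    fderiv ℂ (fun z => (τ z • A.θ (W z)) k) x v =
      τ x * fderiv ℂ A.θ (W x) (fderiv ℂ W x v) k + fderiv ℂ τ x v * A.θ (W x) k := by
  have h1 := hτ.hasFDerivAt.smul
    ((A.analytic (W x) trivial).differentiableAt.hasFDerivAt.comp x hW.hasFDerivAt)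
  have h2 := (hasFDerivAt_pi'.1 h1) k
  rw [show (fun z => (τ z • A.θ (W z)) k) = fun z => (τ • (A.θ ∘ W)) z k from rfl, h2.fderiv]
  simp

theorem cone_imm {W : F → Fin g → ℂ} {τ : F → ℂ} {x : F} (hW : DifferentiableAt ℂ W x)
    (hτ : DifferentiableAt ℂ τ x) (h0 : τ x ≠ 0) (v : F)
    (hv : ∀ k, fderiv ℂ (fun z => (τ z • A.θ (W z)) k) x v = 0) :
    fderiv ℂ W x v = 0 ∧ fderiv ℂ τ x v = 0 := by
  simp only [A.cone_fderiv hW hτ] at hv
  have h1 : fderiv ℂ W x v = 0 := A.imm (W x) _ (-(fderiv ℂ τ x v / τ x)) (funext fun k => by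
    have := hv k
    simp only [Pi.smul_apply, smul_eq_mul]
    field_simp
    linear_combination this)
  refine ⟨h1, ?_⟩
  obtain ⟨k, hk⟩ := Function.ne_iff.1 (A.ne_zero (W x))
  have := hv k
  rw [h1, map_zero, Pi.zero_apply, mul_zero, zero_add] at this
  exact (mul_eq_zero.1 this).resolve_right hk

end

theorem IsLie.exists_bdd {A : AbVar g N} {L : Submodule ℂ (Fin g → ℂ)} (hL : A.IsLie L) :
    ∃ R : ℝ, ∀ x ∈ L, ∃ m ∈ A.Λ, m ∈ L ∧ ‖x - m‖ ≤ R := by
  obtain ⟨s, h1, h2, h3⟩ := exists_linearIndependent ℝ ((A.Λ : Set (Fin g → ℂ)) ∩ L)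
  have : Fintype s := (h3.setFinite).fintype
  refine ⟨∑ i : s, ‖(i : Fin g → ℂ)‖, fun x hx => ?_⟩
  have hx' : x ∈ Submodule.span ℝ (Set.range ((↑) : s → Fin g → ℂ)) := by
    rw [Subtype.range_coe, h2]
    exact hL hx
  obtain ⟨c, rfl⟩ := (Submodule.mem_span_range_iff_exists_fun ℝ).1 hx'
  refine ⟨∑ i : s, ⌊c i⌋ • (i : Fin g → ℂ),
    A.Λ.sum_mem fun i _ => A.Λ.smul_mem _ (h1 i.2).1,
    L.sum_mem fun i _ => L.smul_of_tower_mem _ (h1 i.2).2, ?_⟩
  rw [← Finset.sum_sub_distrib]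
  refine norm_sum_le_of_le _ fun i _ => ?_
  rw [← Int.cast_smul_eq_zsmul ℝ, ← sub_smul, norm_smul, Int.self_sub_floor]
  refine mul_le_of_le_one_left (norm_nonneg _) ?_
  rw [Real.norm_of_nonneg (Int.fract_nonneg _)]
  exact (Int.fract_lt_one _).le

/-- The cone over a translate of an abelian subvariety has dimension at most `dim L + 1`. -/
theorem siegel_lie {L : Submodule ℂ (Fin g → ℂ)} (hL : A.IsLie L) {l : ℕ}
    (β : (Fin l → ℂ) →L[ℂ] (Fin g → ℂ)) (hβ : Function.Injective β)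
    (hr : ∀ x, x ∈ L ↔ ∃ u, β u = x) (a : Fin g → ℂ) {T : Finset (Fin N)}
    (hT : Indep (vanI Set.univ fun p : (Fin l → ℂ) × ℂ => p.2 • A.θ (a + β p.1)) T) :
    T.card ≤ l + 1 := by
  by_contra hlt
  obtain ⟨e⟩ : Nonempty (Fin (l + 2) ↪ T) :=
    Function.Embedding.nonempty_of_card_le (by simp; omega)
  obtain ⟨R, hR⟩ := hL.exists_bdd
  obtain ⟨K, -, hK⟩ := (β : (Fin l → ℂ) →ₗ[ℂ] (Fin g → ℂ)).exists_antilipschitzWith
    (LinearMap.ker_eq_bot.2 hβ)
  obtain ⟨p, hp0, hp⟩ := siegel (fun x => A.θ (a + β x))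
    (fun x _ => (A.analytic _ trivial).fun_comp (analyticAt_const.add (β.analyticAt x)))
    (fun x => A.ne_zero _) (K * R) (fun x => by
      obtain ⟨m, hm, hmL, hb⟩ := hR (β x) ((hr _).2 ⟨x, rfl⟩)
      obtain ⟨y, rfl⟩ := (hr m).1 hmL
      refine ⟨x - y, ?_, (A.per _ _).2 (by simpa using hm)⟩
      have := hK.le_mul_dist x y
      rw [dist_eq_norm, dist_eq_norm] at this
      exact this.trans (mul_le_mul_of_nonneg_left hb K.2)) fun j => e j
  refine hp0 (rename_injective e e.injective ?_)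
  rw [map_zero]
  refine hT _ fun y _ => ?_
  rw [rename_rename, eval_rename]
  exact hp y.1 y.2

/-- The Zariski closure of `exp L`, pulled back to `ℂ^g`. -/
def zcl (L : Submodule ℂ (Fin g → ℂ)) : Set (Fin g → ℂ) :=
  {w | ∀ p : MvPolynomial (Fin N) ℂ, (∀ x ∈ L, ∀ t : ℂ, eval (t • A.θ x) p = 0) →
    ∀ t : ℂ, eval (t • A.θ w) p = 0}

variable {A} {L : Submodule ℂ (Fin g → ℂ)}

theorem mem_zcl {x : Fin g → ℂ} (hx : x ∈ L) : x ∈ A.zcl L := fun _ hp => hp x hx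

theorem zcl_per {w m : Fin g → ℂ} (hw : w ∈ A.zcl L) (hm : m ∈ A.Λ) : w + m ∈ A.zcl L := by
  intro p hp t
  obtain ⟨c, hc⟩ := (A.per w (w + m)).2 (by simpa using hm)
  rw [hc, smul_smul]
  exact hw p hp _

theorem zcl_transl {w b : Fin g → ℂ} (hw : w ∈ A.zcl L) {p : MvPolynomial (Fin N) ℂ}
    (hp : ∀ x ∈ L, ∀ t : ℂ, eval (t • A.θ (x + b)) p = 0) (t : ℂ) :
    eval (t • A.θ (w + b)) p = 0 := by
  obtain ⟨Q, hQ, hQ1⟩ := A.transl b w t
  have := hw (aeval Q p) (fun x hx s => by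
    obtain ⟨r, hr⟩ := hQ x s
    rw [eval_aeval', hr]
    exact hp x hx r) 1
  rwa [one_smul, eval_aeval', hQ1] at this

theorem zcl_add {w w' : Fin g → ℂ} (hw : w ∈ A.zcl L) (hw' : w' ∈ A.zcl L) :
    w + w' ∈ A.zcl L := fun p hp =>
  zcl_transl hw fun x hx t => by
    rw [add_comm]
    exact zcl_transl hw' (fun y hy => hp _ (L.add_mem hy hx)) t

theorem zcl_nsmul {w : Fin g → ℂ} (hw : w ∈ A.zcl L) (n : ℕ) : (n : ℂ) • w ∈ A.zcl L := by
  induction n with
  | zero => simpa using mem_zcl L.zero_mem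
  | succ n ih =>
    rw [Nat.cast_succ, add_smul, one_smul]
    exact zcl_add ih hw

theorem zcl_iff {l : ℕ} {β : (Fin l → ℂ) →L[ℂ] (Fin g → ℂ)} (hr : ∀ x, x ∈ L ↔ ∃ u, β u = x)
    (p : MvPolynomial (Fin N) ℂ) :
    p ∈ (vanI Set.univ fun y : (Fin l → ℂ) × ℂ => y.2 • A.θ (0 + β y.1)) ↔
      ∀ x ∈ L, ∀ t : ℂ, eval (t • A.θ x) p = 0 := by
  refine ⟨fun h x hx t => ?_, fun h y _ => h _ (by simpa using (hr _).2 ⟨y.1, rfl⟩) _⟩
  obtain ⟨u, rfl⟩ := (hr x).1 hx
  simpa using h (u, t) trivial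

theorem lie_analytic {l : ℕ} (β : (Fin l → ℂ) →L[ℂ] (Fin g → ℂ)) (a : Fin g → ℂ)
    (y : (Fin l → ℂ) × ℂ) (k : Fin N) :
    AnalyticAt ℂ (fun y : (Fin l → ℂ) × ℂ => (y.2 • A.θ (a + β y.1)) k) y :=
  analyticAt_snd.mul (A.analyticAt_coord
    (analyticAt_const.add ((β.analyticAt _).comp analyticAt_fst)) k)

theorem lie_imm {l : ℕ} {β : (Fin l → ℂ) →L[ℂ] (Fin g → ℂ)} (hβ : Function.Injective β)
    (a : Fin g → ℂ) {y : (Fin l → ℂ) × ℂ} (hy : y.2 ≠ 0) (v : (Fin l → ℂ) × ℂ)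
    (hv : ∀ k, fderiv ℂ (fun y : (Fin l → ℂ) × ℂ => (y.2 • A.θ (a + β y.1)) k) y v = 0) :
    v = 0 := by
  have h1 : HasFDerivAt (fun y : (Fin l → ℂ) × ℂ => a + β y.1)
      (β.comp (ContinuousLinearMap.fst ℂ _ _)) y :=
    (β.comp (ContinuousLinearMap.fst ℂ (Fin l → ℂ) ℂ)).hasFDerivAt.const_add a
  obtain ⟨h2, h3⟩ := A.cone_imm h1.differentiableAt differentiableAt_snd hy v hv
  rw [h1.fderiv] at h2
  rw [fderiv_snd] at h3
  exact Prod.ext (hβ (by simpa using h2)) h3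

/-- Near the origin, the closure adds nothing. -/
theorem zcl_local (hL : A.IsLie L) :
    ∀ᶠ w in 𝓝 (0 : Fin g → ℂ), w ∈ A.zcl L → ∃ m ∈ A.Λ, w - m ∈ L := by
  obtain ⟨l, β, -, hβ, hr⟩ := exists_lin_param L
  set Z := fun y : (Fin l → ℂ) × ℂ => y.2 • A.θ (0 + β y.1) with hZ
  have hP := vanI_prime isOpen_univ isPreconnected_univ Set.univ_nonempty
    (Z := Z) fun y _ => lie_analytic β 0 y
  obtain ⟨T, hT, hTa⟩ := exists_basis (vanI Set.univ Z)
  have hTc := A.siegel_lie hL β hβ hr 0 hT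
  obtain ⟨D, hD, hch⟩ := chart _ T hT hTa
  obtain ⟨D', hD', hker⟩ := jac_ker (F := (Fin l → ℂ) × ℂ) _ hT hTa
  obtain ⟨j, hj⟩ := Function.ne_iff.1 (A.ne_zero 0)
  have hX : X j ∉ vanI Set.univ Z := fun h => hj (by simpa [hZ] using h (0, 1) trivial)
  obtain ⟨y, hy⟩ : ∃ y, eval (Z y) (D * D' * X j) ≠ 0 := by
    by_contra hcon
    push Not at hcon
    rcases hP.mem_or_mem (show D * D' * X j ∈ vanI Set.univ Z from fun y _ => hcon y) with h | h
    · exact (hP.mem_or_mem h).elim hD hD'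
    · exact hX h
  rw [map_mul, map_mul, mul_ne_zero_iff, mul_ne_zero_iff, eval_X] at hy
  have hy2 : y.2 ≠ 0 := left_ne_zero_of_mul hy.2
  obtain ⟨ψ, -, -, -, hψ⟩ := hch (Z y) (fun p hp => hp y trivial) hy.1.1
  have hκ : HasStrictFDerivAt (fun y (i : T) => Z y i)
      (ContinuousLinearMap.pi fun i : T => fderiv ℂ (fun y => Z y i) y) y :=
    hasStrictFDerivAt_pi.2 fun i => (lie_analytic (A := A) β 0 y i.1).hasStrictFDerivAt
  have hinj : Function.Injective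
      (ContinuousLinearMap.pi fun i : T => fderiv ℂ (fun y => Z y i) y).toLinearMap := by
    rw [← LinearMap.ker_eq_bot, LinearMap.ker_eq_bot']
    intro v hv
    exact lie_imm hβ 0 hy2 v (hker Z y (lie_analytic β 0 y)
      (Eventually.of_forall fun z p hp => hp z trivial) hy.1.2 v fun i hi => congrFun hv ⟨i, hi⟩)
  have hle := LinearMap.finrank_le_finrank_of_injective hinj
  have hsurj := (LinearMap.injective_iff_surjective_of_finrank_eq_finrank (by
    simp only [Module.finrank_prod, Module.finrank_fintype_fun_eq_card, Fintype.card_coe,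
      Fintype.card_fin, Module.finrank_self] at hle ⊢
    omega)).1 hinj
  have hmap := hκ.map_nhds_eq_of_surj (LinearMap.range_eq_top.2 hsurj)
  have hZc : ContinuousAt Z y := continuousAt_pi.2 fun k => (lie_analytic β 0 y k).continuousAt
  have h1 : ∀ᶠ u in 𝓝 (fun i : T => Z y i), ∃ y', ψ u = Z y' := by
    rw [← hmap, eventually_map]
    filter_upwards [hZc.eventually hψ] with y' h
    exact ⟨y', h fun p hp => hp y' trivial⟩
  have hc : Tendsto (fun w => y.2 • A.θ (w + β y.1)) (𝓝 0) (𝓝 (Z y)) := by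
    have := A.theta_continuous
    exact Continuous.tendsto' (by fun_prop) _ _ rfl
  have hc' : Tendsto (fun w (i : T) => (y.2 • A.θ (w + β y.1)) i) (𝓝 0)
      (𝓝 fun i : T => Z y i) :=
    tendsto_pi_nhds.2 fun i => tendsto_pi_nhds.1 hc i
  filter_upwards [hc.eventually hψ, hc'.eventually h1] with w h2 ⟨y', h3⟩ hw
  have h4 : w + β y.1 ∈ A.zcl L := zcl_add hw (mem_zcl ((hr _).2 ⟨_, rfl⟩))
  rw [h2 fun p hp => h4 p ((zcl_iff hr p).1 hp) _] at h3
  refine ⟨_, (A.per (0 + β y'.1) (w + β y.1)).1 ⟨y.2⁻¹ * y'.2, ?_⟩, ?_⟩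
  · rw [mul_smul, show y'.2 • A.θ (0 + β y'.1) = Z y' from rfl, ← h3, inv_smul_smul₀ hy2]
  · exact (hr _).2 ⟨y'.1 - y.1, by rw [map_sub]; abel⟩

/-- A fixed multiple of the closure lies in `Λ + L`. -/
theorem zcl_mul (hL : A.IsLie L) : ∃ n : ℕ, ∀ w ∈ A.zcl L,
    ∃ m ∈ A.Λ, ((n + 1 : ℕ) : ℂ) • w - m ∈ L := by
  obtain ⟨ε, hε, hb⟩ := Metric.eventually_nhds_iff.1 (zcl_local hL)
  obtain ⟨R, hR⟩ := A.exists_bdd
  obtain ⟨s, -, hs, hc⟩ := finite_cover_balls_of_compact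
    (isCompact_closedBall (0 : Fin g → ℂ) R) (half_pos hε)
  have := hs.fintype
  refine ⟨(Fintype.card s).factorial - 1, fun w hw => ?_⟩
  rw [Nat.sub_add_cancel (Nat.factorial_pos _)]
  choose m hm hmR using fun k : ℕ => hR ((k : ℂ) • w)
  choose c hcs hcb using fun k : ℕ => Set.mem_iUnion₂.1 (hc (mem_closedBall_zero_iff.2 (hmR k)))
  have key : ∀ a b : ℕ, a < b → c a = c b → b ≤ Fintype.card s →
      ∃ μ ∈ A.Λ, ((Fintype.card s).factorial : ℂ) • w - μ ∈ L := by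
    intro a b hab hcab hb'
    have h1 : ((b - a : ℕ) : ℂ) • w + (m a - m b) ∈ A.zcl L :=
      zcl_per (zcl_nsmul hw _) (A.Λ.sub_mem (hm a) (hm b))
    obtain ⟨μ, hμ, hμL⟩ := hb (y := ((b - a : ℕ) : ℂ) • w + (m a - m b)) (by
      have h2 := hcb a
      have h3 := hcb b
      rw [hcab] at h2
      have h4 := dist_triangle_right ((b : ℂ) • w - m b) ((a : ℂ) • w - m a) (c b)
      rw [Metric.mem_ball] at h2 h3
      have h5 : ((b - a : ℕ) : ℂ) • w + (m a - m b) - 0 =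
          ((b : ℂ) • w - m b) - ((a : ℂ) • w - m a) := by
        rw [Nat.cast_sub hab.le, sub_smul]
        abel
      rw [dist_eq_norm, h5, ← dist_eq_norm]
      linarith) h1
    obtain ⟨d, hd⟩ := Nat.dvd_factorial (Nat.sub_pos_of_lt hab) ((Nat.sub_le b a).trans hb')
    refine ⟨(d : ℤ) • (μ - (m a - m b)), A.Λ.smul_mem _
      (A.Λ.sub_mem hμ (A.Λ.sub_mem (hm a) (hm b))), ?_⟩
    have h6 := L.smul_mem (d : ℂ) hμL
    convert h6 using 1
    rw [hd, ← Int.cast_smul_eq_zsmul ℂ, Int.cast_natCast, Nat.cast_mul, mul_comm, mul_smul]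
    simp only [smul_sub, smul_add]
    abel
  obtain ⟨a, b, hab, h⟩ := Fintype.exists_ne_map_eq_of_card_lt
    (fun k : Fin (Fintype.card s + 1) => (⟨c k, hcs k⟩ : s)) (by simp)
  have h' : c a = c b := congrArg Subtype.val h
  rcases lt_or_gt_of_ne hab with h1 | h1
  · exact key a b h1 h' (Nat.lt_succ_iff.1 b.2)
  · exact key b a h1 h'.symm (Nat.lt_succ_iff.1 a.2)

theorem zcl_neg (hL : A.IsLie L) {w : Fin g → ℂ} (hw : w ∈ A.zcl L) : -w ∈ A.zcl L := by
  obtain ⟨n, hn⟩ := zcl_mul hL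
  obtain ⟨m, hm, h⟩ := hn w hw
  have := zcl_per (zcl_add (zcl_nsmul hw n) (mem_zcl (L.neg_mem h))) (A.Λ.neg_mem hm)
  convert this using 1
  rw [Nat.cast_succ, add_smul, one_smul]
  abel

/-- Chow's theorem for subtori: `exp L` is Zariski closed. -/
theorem zcl_sub (hL : A.IsLie L) {w : Fin g → ℂ} (hw : w ∈ A.zcl L) :
    ∃ m ∈ A.Λ, w - m ∈ L := by
  obtain ⟨l, β, -, hβ, hr⟩ := exists_lin_param L
  obtain ⟨n, hn⟩ := zcl_mul hL
  obtain ⟨Q, hQ, hQ0⟩ := A.mul_poly n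
  -- the cone times a line, parametrised
  set Z : ((Fin l → ℂ) × ℂ) × ℂ → Option (Fin N) → ℂ := fun y o =>
    o.elim y.2 (y.1.2 • A.θ (0 + β y.1.1)) with hZ
  have hZa : ∀ y k, AnalyticAt ℂ (fun y => Z y k) y := by
    intro y k
    cases k with
    | none => exact analyticAt_snd
    | some k => exact (lie_analytic β 0 y.1 k).comp analyticAt_fst
  have hP := vanI_prime isOpen_univ isPreconnected_univ Set.univ_nonempty
    (Z := Z) fun y _ => hZa y
  let G : Fin N → MvPolynomial (Option (Fin N)) ℂ := fun k => X none * rename some (Q k)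
  have hG : ∀ y : Option (Fin N) → ℂ, (fun k => eval y (G k)) =
      y none • fun k => eval (fun i => y (some i)) (Q k) := by
    intro y
    funext k
    simp only [G, map_mul, eval_X, eval_rename, Pi.smul_apply, smul_eq_mul]
    rfl
  have hJ : ∀ p : MvPolynomial (Fin N) ℂ, aeval G p ∈ vanI Set.univ Z ↔
      ∀ x ∈ L, ∀ t : ℂ, eval (t • A.θ x) p = 0 := by
    intro p
    refine ⟨fun h => ?_, fun h y _ => ?_⟩
    · rw [← zcl_iff hr]
      refine mem_vanI_of_eventually isPreconnected_univ (fun y _ => lie_analytic β 0 y)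
        (y := (0, 1)) trivial ?_
      obtain ⟨j, hj⟩ := Function.ne_iff.1 (A.ne_zero 0)
      have hn0 : ((n + 1 : ℕ) : ℂ) ≠ 0 := Nat.cast_ne_zero.2 (Nat.succ_ne_zero n)
      have hc : Continuous fun y : (Fin l → ℂ) × ℂ =>
          eval (A.θ (β (((n + 1 : ℕ) : ℂ)⁻¹ • y.1))) (Q j) := by
        exact (continuous_eval (Q j)).comp (A.theta_continuous.comp
          (β.continuous.comp (by fun_prop)))
      filter_upwards [(hc.continuousAt (x := (0, 1))).eventually_ne (y := 0) (by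
        simpa [congrFun hQ0 j] using hj)] with y hy
      obtain ⟨r, hr'⟩ := hQ (β (((n + 1 : ℕ) : ℂ)⁻¹ • y.1)) 1
      rw [one_smul, map_smul, smul_inv_smul₀ hn0, ← map_smul] at hr'
      have hr0 : r ≠ 0 := by
        rintro rfl
        exact hy (by simpa using congrFun hr' j)
      have h1 := h ((((n + 1 : ℕ) : ℂ)⁻¹ • y.1, 1), y.2 / r) trivial
      rw [eval_aeval', hG] at h1
      simp only [hZ, Option.elim_none, Option.elim_some, one_smul, zero_add] at h1 ⊢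
      rwa [hr', smul_smul, div_mul_cancel₀ _ hr0] at h1
    · obtain ⟨r, hr'⟩ := hQ (0 + β y.1.1) y.1.2
      rw [eval_aeval', hG]
      simp only [hZ, Option.elim_none, Option.elim_some]
      rw [hr', smul_smul]
      exact h _ (L.smul_mem _ (by simpa using (hr _).2 ⟨y.1.1, rfl⟩)) _
  obtain ⟨E, hE, hch⟩ := chevalley_open (vanI Set.univ Z) G
  rw [hJ] at hE
  obtain ⟨x, hx, t, ht, hxt⟩ : ∃ x ∈ L, ∃ t : ℂ, t ≠ 0 ∧ eval (t • A.θ (x + w)) E ≠ 0 := by
    by_contra hcon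
    push Not at hcon
    refine hE fun x hx t => ?_
    have h1 := zcl_transl (b := w) (zcl_add (mem_zcl hx) (zcl_neg hL hw)) (p := E)
      (fun x hx t => by
        have hc : Continuous fun t : ℂ => eval (t • A.θ (x + w)) E :=
          (continuous_eval E).comp (by fun_prop)
        have hd : Dense ({0}ᶜ : Set ℂ) := dense_compl_singleton 0
        exact congrFun (hc.ext_on hd continuous_const fun s hs => hcon x hx s hs) t) t
    rwa [neg_add_cancel_right] at h1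
  have hxw := zcl_add (mem_zcl hx) hw
  obtain ⟨y, hy1, hy2⟩ := hch (t • A.θ (x + w)) (fun p hp => hxw p ((hJ p).1 hp) t) hxt
  obtain ⟨J, hJ'⟩ := A.closed
  have hy3 : ∀ p : MvPolynomial (Fin N) ℂ, (∀ x ∈ L, ∀ t : ℂ, eval (t • A.θ x) p = 0) →
      eval (fun i => y (some i)) p = 0 := by
    intro p hp
    have := hy1 (rename some p) fun z _ => by
      rw [eval_rename]
      exact hp _ (by simpa using (hr _).2 ⟨z.1.1, rfl⟩) _
    rwa [eval_rename] at this
  obtain ⟨s, u, hu⟩ := (hJ' fun i => y (some i)).1 fun p hp =>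
    hy3 p fun x _ t => (hJ' _).2 ⟨t, x, rfl⟩ p hp
  obtain ⟨u', hu', hu''⟩ : ∃ u' ∈ A.zcl L, (fun i => y (some i)) = s • A.θ u' := by
    by_cases hs : s = 0
    · exact ⟨0, mem_zcl L.zero_mem, by rw [hu, hs, zero_smul, zero_smul]⟩
    · refine ⟨u, fun p hp t' => ?_, hu⟩
      have := hy3 (aeval (fun k => C (t' / s) * X k) p) fun x hx t'' => by
        rw [eval_aeval']
        have := hp x hx (t' / s * t'')
        simpa [Pi.smul_def, mul_assoc] using this
      rw [eval_aeval', hu] at this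
      convert this using 3
      funext k
      simp only [map_mul, eval_C, eval_X, Pi.smul_apply, smul_eq_mul]
      field_simp
  obtain ⟨r, hr'⟩ := hQ u' s
  have h5 : t • A.θ (x + w) = (y none * r) • A.θ (((n + 1 : ℕ) : ℂ) • u') := by
    rw [mul_smul, ← hr', ← hu'', ← hG]
    exact (funext hy2).symm
  obtain ⟨m, hm, hmL⟩ := hn u' hu'
  have h6 := (A.per (((n + 1 : ℕ) : ℂ) • u') (x + w)).1 ⟨t⁻¹ * (y none * r), by
    rw [mul_smul, ← h5, inv_smul_smul₀ ht]⟩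
  refine ⟨_, A.Λ.add_mem h6 hm, ?_⟩
  convert L.sub_mem hmL hx using 1
  abel

end AbVar

end Pool.Agent.P.MP_f17f76_ag
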