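import Pool.Agent.P.MP_f17f76_ag.BrRank2

/-!
Freeness through transcendence degrees, and generic hyperplane sections: reduction of a free
rotund variety to dimension `g`.
-/

namespace Pool.Agent.P.MP_f17f76_ag

open MvPolynomial Filter Topology Module

/-- A hyperplane in general position with respect to countably many subspaces. -/
theorem exists_hyperplane {F G : Type} [NormedAddCommGroup F] [NormedSpace ℂ F]
    [FiniteDimensional ℂ F] [AddCommGroup G] [Module ℂ G] [FiniteDimensional ℂ G]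
    (M : F →ₗ[ℂ] G) (hM : Function.Injective M) (hF : 0 < finrank ℂ F)
    {𝒮 : Set (Submodule ℂ G)} (h𝒮 : 𝒮.Countable) :
    ∃ ℓ : F →L[ℂ] ℂ, ℓ ≠ 0 ∧ ∀ S ∈ 𝒮,
      min (finrank ℂ ↥(LinearMap.range M ⊔ S)) (finrank ℂ F - 1 + finrank ℂ S) ≤
        finrank ℂ ↥((LinearMap.ker ℓ.toLinearMap).map M ⊔ S) := by
  have key : ∀ v : F, v ≠ 0 → ∀ᶠ ℓ in residual (F →L[ℂ] ℂ), ℓ v ≠ 0 := by
    intro v hv
    refine residual_of_dense_open
      (isOpen_ne_fun (ContinuousLinearMap.apply ℂ ℂ v).continuous continuous_const) ?_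
    obtain ⟨φ, hφ⟩ := Module.Projective.exists_dual_ne_zero ℂ hv
    have : (LinearMap.ker (ContinuousLinearMap.apply ℂ ℂ v).toLinearMap :
        Submodule ℂ (F →L[ℂ] ℂ)) ≠ ⊤ := fun h => hφ (by
      have h1 : LinearMap.toContinuousLinearMap φ ∈
        LinearMap.ker (ContinuousLinearMap.apply ℂ ℂ v).toLinearMap := h ▸ trivial
      simpa using h1)
    have h2 := interior_eq_empty_iff_dense_compl.1 (Set.not_nonempty_iff_eq_empty.1 fun h =>
      this (Submodule.eq_top_of_nonempty_interior' _ h))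
    exact h2
  obtain ⟨v₀, hv₀⟩ := Module.finrank_pos_iff_exists_ne_zero.1 hF
  have h1 : ∀ S ∈ 𝒮, ∀ᶠ ℓ in residual (F →L[ℂ] ℂ), S.comap M = ⊥ ∨ ∃ v ∈ S.comap M, ℓ v ≠ 0 := by
    intro S _
    by_cases h : S.comap M = ⊥
    · exact Eventually.of_forall fun _ => Or.inl h
    · obtain ⟨v, hv, hv0⟩ := Submodule.exists_mem_ne_zero_of_ne_bot h
      exact (key v hv0).mono fun ℓ hl => Or.inr ⟨v, hv, hl⟩
  obtain ⟨ℓ, -, h2, h3⟩ := AbVar.exists_of_residual isOpen_univ Set.univ_nonempty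
    ((key v₀ hv₀).and ((eventually_countable_ball h𝒮).2 h1))
  have hl : ℓ ≠ 0 := fun h => h2 (by simp [h])
  refine ⟨ℓ, hl, fun S hS => ?_⟩
  rcases h3 S hS with h | ⟨v, hv, hlv⟩
  · refine (min_le_right _ _).trans ?_
    have h4 := Submodule.finrank_sup_add_finrank_inf_eq
      ((LinearMap.ker ℓ.toLinearMap).map M) S
    have h5 : (LinearMap.ker ℓ.toLinearMap).map M ⊓ S = ⊥ := by
      rw [eq_bot_iff]
      rintro _ ⟨⟨u, -, rfl⟩, hu⟩
      have : u ∈ S.comap M := hu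
      rw [h] at this
      simp [(Submodule.mem_bot ℂ).1 this]
    have h6 := (Submodule.equivMapOfInjective M hM (LinearMap.ker ℓ.toLinearMap)).finrank_eq
    have h7 := ℓ.toLinearMap.finrank_range_add_finrank_ker
    have h8 := (LinearMap.range ℓ.toLinearMap).finrank_le
    rw [h5, finrank_bot] at h4
    rw [Module.finrank_self] at h8
    omega
  · refine (min_le_left _ _).trans (Submodule.finrank_mono (sup_le ?_ le_sup_right))
    rintro _ ⟨u, rfl⟩
    have : M u = M (u - (ℓ u / ℓ v) • v) + (ℓ u / ℓ v) • M v := by simp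
    rw [this]
    refine Submodule.add_mem_sup ⟨_, ?_, rfl⟩ (S.smul_mem _ hv)
    simp [div_mul_cancel₀ _ hlv]

namespace AbVar

variable {g N : ℕ} {A : AbVar g N} {F : Type} [NormedAddCommGroup F] [NormedSpace ℂ F]
  {Ω : Set F} {Ψ γ : F → (Fin g → ℂ) × (Fin g → ℂ)} {V W : Set ((Fin g → ℂ) × (Fin g → ℂ))}
  {P : Ideal (MvPolynomial (Fin g ⊕ Fin N) ℂ)} {K L : Submodule ℂ (Fin g → ℂ)}

theorem idl_anti (h : V ⊆ W) : A.idl W ≤ A.idl V :=
  fun _ hp => A.mem_idl.2 fun q hq => A.mem_idl.1 hp q (h hq)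

theorem idl_zeroSet_idl (V : Set ((Fin g → ℂ) × (Fin g → ℂ))) :
    A.idl (A.zeroSet (A.idl V)) = A.idl V :=
  le_antisymm (idl_anti (A.subset_zeroSet_idl V)) fun p hp => A.mem_idl.2 fun _ hq => hq p hp

theorem idl_le_iff : A.idl W ≤ A.idl V ↔ V ⊆ A.zeroSet (A.idl W) :=
  ⟨fun h q hq _ hp => A.mem_idl.1 (h hp) q hq, fun h p hp => A.mem_idl.2 fun _ hq => h hq p hp⟩

theorem idl_sat₂_mono (h : A.idl W ≤ A.idl V) (K L : Submodule ℂ (Fin g → ℂ)) :
    A.idl (sat₂ K L W) ≤ A.idl (sat₂ K L V) := by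
  refine idl_le_iff.2 ?_
  rintro q ⟨p, hp, h1, h2⟩
  have := add_mem_zeroSet_sat₂ (idl_le_iff.1 h hp) h1 h2
  rwa [show p + (q.1 - p.1, q.2 - p.2) = q from Prod.ext (by simp) (by simp)] at this

theorem idl_sat₂_congr (h : A.idl W = A.idl V) (K L : Submodule ℂ (Fin g → ℂ)) :
    A.idl (sat₂ K L W) = A.idl (sat₂ K L V) :=
  le_antisymm (idl_sat₂_mono h.le K L) (idl_sat₂_mono h.ge K L)

theorem sat₂_bot (V : Set ((Fin g → ℂ) × (Fin g → ℂ))) : sat₂ ⊥ ⊥ V = V := by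
  refine Set.Subset.antisymm ?_ fun q hq => ⟨q, hq, by simp, by simp⟩
  rintro q ⟨p, hp, h1, h2⟩
  rw [Submodule.mem_bot, sub_eq_zero] at h1 h2
  rwa [Prod.ext h1 h2]

theorem zeroSet_per {I : Set (MvPolynomial (Fin g ⊕ Fin N) ℂ)} {z w m : Fin g → ℂ}
    (h : (z, w) ∈ A.zeroSet I) (hm : m ∈ A.Λ) : (z, w + m) ∈ A.zeroSet I := by
  intro p hp t
  obtain ⟨s, hs⟩ := (A.per w (w + m)).2 (by simpa using hm)
  have := h p hp (t * s)
  rwa [mul_smul, ← hs] at this

/-- An analytic immersion whose image has small Zariski closure is a parametrisation. -/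
theorem isPar_of_tdeg (ho : IsOpen Ω) (hc : IsPreconnected Ω) (hne : Ω.Nonempty)
    (han : ∀ y ∈ Ω, AnalyticAt ℂ γ y) (himm : ∀ y ∈ Ω, Function.Injective (fderiv ℂ γ y))
    (hd : tdeg (A.idl (γ '' Ω)) ≤ finrank ℂ F + 1) : A.IsPar (A.idl (γ '' Ω)) Ω γ where
  isOpen := ho
  conn := hc
  nonempty := hne
  an := han
  imm := himm
  mem _ := A.mem_idl.trans Set.forall_mem_image
  dim _ hT := hT.le_tdeg.trans hd

theorem tdeg_point (A : AbVar g N) (q : (Fin g → ℂ) × (Fin g → ℂ)) : tdeg (A.idl {q}) ≤ 1 := by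
  classical
  refine tdeg_le fun T hT => Finset.card_le_one.2 fun i hi j hj => ?_
  by_contra hij
  let a : Fin g ⊕ Fin N → ℂ := Sum.elim q.1 0
  let b : Fin g ⊕ Fin N → ℂ := Sum.elim 0 (A.θ q.2)
  have hab : ∀ (t : ℂ) k, Sum.elim q.1 (t • A.θ q.2) k = a k + t * b k := by
    rintro t (k | k) <;> simp [a, b]
  have h1 := hT (C (b j) * (X ⟨i, hi⟩ - C (a i)) - C (b i) * (X ⟨j, hj⟩ - C (a j)))
    (A.mem_idl.2 fun q' hq' t => by
      rw [Set.mem_singleton_iff.1 hq']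
      simp only [map_sub, map_mul, rename_C, rename_X, eval_C, eval_X, hab]
      ring)
  have h2 := congrArg (eval fun k : T => if k.1 = i then a i + 1 else a k) h1
  simp only [map_sub, map_mul, eval_C, eval_X, if_true, if_neg (Ne.symm hij), map_zero] at h2
  have h3 := hT (X ⟨j, hj⟩ - C (a j)) (A.mem_idl.2 fun q' hq' t => by
    rw [Set.mem_singleton_iff.1 hq']
    simp only [map_sub, rename_C, rename_X, eval_C, eval_X, hab]
    linear_combination t * h2)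
  simpa using congrArg (eval fun _ : T => a j + 1) h3

theorem isPar_point (A : AbVar g N) (q : (Fin g → ℂ) × (Fin g → ℂ)) :
    A.IsPar (A.idl {q}) Set.univ fun _ : Fin 0 → ℂ => q := by
  have h : (fun _ : Fin 0 → ℂ => q) '' Set.univ = {q} := Set.univ_nonempty.image_const q
  rw [← h]
  refine isPar_of_tdeg isOpen_univ isPreconnected_univ ⟨0, trivial⟩ (fun _ _ => analyticAt_const)
    (fun _ _ _ _ _ => Subsingleton.elim _ _) ?_
  rw [h]
  exact (A.tdeg_point q).trans (Nat.le_add_left _ _)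

theorem finrank_prod' (K L : Submodule ℂ (Fin g → ℂ)) :
    finrank ℂ (K.prod L) = finrank ℂ K + finrank ℂ L := by
  rw [← Module.finrank_prod, ← LinearMap.finrank_range_of_inj (f := K.subtype.prodMap L.subtype)
    (K.injective_subtype.prodMap L.injective_subtype), LinearMap.range_prodMap,
    Submodule.range_subtype, Submodule.range_subtype]

theorem tdeg_sat₂_le (hV : A.Irred V) (K : Submodule ℂ (Fin g → ℂ)) (hL : A.IsLie L) :
    tdeg (A.idl (sat₂ K L V)) ≤ tdeg (A.idl V) + finrank ℂ K + finrank ℂ L := by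
  obtain ⟨ι, _, Ω, Ψ, h⟩ := hV.exists_isPar
  obtain ⟨y, -, h1⟩ := h.exists_rank_eq K hL
  have h2 := Submodule.finrank_add_le_finrank_add_finrank
    (LinearMap.range (fderiv ℂ Ψ y).toLinearMap) (K.prod L)
  have h3 := (fderiv ℂ Ψ y).toLinearMap.finrank_range_le
  rw [finrank_prod'] at h2
  rw [h.tdeg_eq]
  omega

theorem tdeg_coset (K : Submodule ℂ (Fin g → ℂ)) (hL : A.IsLie L)
    (q : (Fin g → ℂ) × (Fin g → ℂ)) :
    tdeg (A.idl (sat₂ K L {q})) = finrank ℂ K + finrank ℂ L + 1 := by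
  obtain ⟨y, -, h1⟩ := (A.isPar_point q).exists_rank_eq K hL
  rw [← h1, ← finrank_prod', fderiv_fun_const, Pi.zero_apply,
    ContinuousLinearMap.toLinearMap_zero, LinearMap.range_zero, bot_sup_eq]

/-- Freeness in terms of transcendence degrees. -/
theorem free_iff (hV : A.Irred V) : A.Free V ↔ ∀ L, A.IsLie L → L ≠ ⊤ →
    g + finrank ℂ L + 2 ≤ tdeg (A.idl (sat₂ L ⊤ V)) ∧
      g + finrank ℂ L + 2 ≤ tdeg (A.idl (sat₂ ⊤ L V)) := by
  have ht : finrank ℂ (⊤ : Submodule ℂ (Fin g → ℂ)) = g := by simp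
  refine ⟨fun h L hL hL' => ?_, fun h L hL hL' c => ⟨fun hc => ?_, fun hc => ?_⟩⟩
  · obtain ⟨ι, _, Ω, Ψ, hΨ⟩ := hV.exists_isPar
    obtain ⟨⟨y, hy, v, hv⟩, y', hy', v', hv'⟩ := hΨ.free h hL hL'
    have h1 := hΨ.rank_le₂ L ⊤ hy
    have h2 := hΨ.rank_le₂ ⊤ L hy'
    have h3 := Submodule.finrank_lt_finrank_of_lt (lt_of_le_of_ne (le_sup_right :
      L.prod ⊤ ≤ LinearMap.range (fderiv ℂ Ψ y).toLinearMap ⊔ L.prod ⊤) fun e =>
        hv (e ▸ Submodule.mem_sup_left ⟨v, rfl⟩ : _ ∈ L.prod ⊤).1)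
    have h4 := Submodule.finrank_lt_finrank_of_lt (lt_of_le_of_ne (le_sup_right :
      (⊤ : Submodule ℂ _).prod L ≤ LinearMap.range (fderiv ℂ Ψ y').toLinearMap ⊔ .prod ⊤ L)
        fun e => hv' (e ▸ Submodule.mem_sup_left ⟨v', rfl⟩ : _ ∈ Submodule.prod ⊤ L).2)
    rw [finrank_prod', ht] at h3 h4
    omega
  · have h1 := (h L hL hL').1.trans (tdeg_anti (idl_anti (A := A)
      (W := sat₂ L ⊤ {(c, 0)}) ?_))
    · rw [tdeg_coset L isLie_top, ht] at h1
      omega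
    · rintro q ⟨p, hp, h2, -⟩
      exact ⟨_, rfl, by simpa using L.add_mem h2 (hc p hp), trivial⟩
  · have h1 := (h L hL hL').2.trans (tdeg_anti ((idl_le_iff (A := A)
      (W := sat₂ ⊤ L {(0, c)})).2 ?_))
    · rw [tdeg_coset ⊤ hL, ht] at h1
      omega
    · rintro q ⟨p, hp, -, h2⟩
      obtain ⟨m, hm, h3⟩ := hc p hp
      have h4 : (q.1, q.2 - m) ∈ sat₂ ⊤ L {((0 : Fin g → ℂ), c)} := by
        refine ⟨_, rfl, trivial, ?_⟩
        convert L.add_mem h2 h3 using 1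
        simp only
        abel
      simpa using zeroSet_per (A.subset_zeroSet_idl _ h4) hm

/-- A very general hyperplane section. -/
theorem cut (hV : A.Irred V) {D : MvPolynomial (Fin g ⊕ Fin N) ℂ} (hD : D ∉ A.idl V)
    (h2 : 2 ≤ tdeg (A.idl V)) : ∃ W, A.Irred W ∧ A.idl V ≤ A.idl W ∧ D ∉ A.idl W ∧
      tdeg (A.idl W) + 1 = tdeg (A.idl V) ∧ ∀ K L, A.IsLie K → A.IsLie L →
        tdeg (A.idl (sat₂ K L W)) = min (tdeg (A.idl (sat₂ K L V)))
          (tdeg (A.idl V) - 1 + finrank ℂ K + finrank ℂ L) := by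
  classical
  obtain ⟨ι, _, D₀, hD₀, h⟩ := A.exists_par' hV
  obtain ⟨q, hq, t, ht⟩ : ∃ q ∈ V, ∃ t : ℂ, eval (Sum.elim q.1 (t • A.θ q.2)) D₀ ≠ 0 := by
    by_contra hcon
    push Not at hcon
    exact hD₀ (A.mem_idl.2 hcon)
  obtain ⟨u₀, ε, Ψ, -, -, -, hΨ, -, -, -, -, -, -, hrat⟩ := h q (A.subset_zeroSet_idl V hq) t ht
  obtain ⟨y₁, hy₁, s, hs⟩ : ∃ y ∈ Metric.ball u₀ ε, ∃ s : ℂ,
      eval (Sum.elim (Ψ y).1 (s • A.θ (Ψ y).2)) D ≠ 0 := by
    by_contra hcon
    push Not at hcon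
    exact hD ((hΨ.mem D).2 hcon)
  obtain ⟨U, hU, hUo, hU₁⟩ := eventually_nhds_iff.1
    (((hΨ.an_eval D s y₁ hy₁).continuousAt.eventually_ne hs).and (hΨ.isOpen.mem_nhds hy₁))
  obtain ⟨y, hyU, hy⟩ := exists_of_residual hUo ⟨_, hU₁⟩ hΨ.generic_residual
  have hyΩ := (hU y hyU).2
  have hdim := hΨ.tdeg_eq
  obtain ⟨ℓ, hl0, hl⟩ := exists_hyperplane (fderiv ℂ Ψ y).toLinearMap (hΨ.imm y hyΩ) (by omega)
    ((A.countable_isLie.prod A.countable_isLie).image fun x => x.1.prod x.2)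
  set H := LinearMap.ker ℓ.toLinearMap with hH
  have hHd : finrank ℂ H + 1 = finrank ℂ (ι → ℂ) := by
    have h7 := ℓ.toLinearMap.finrank_range_add_finrank_ker
    have h8 : LinearMap.range ℓ.toLinearMap = ⊤ := LinearMap.range_eq_top.2
      (ℓ.toLinearMap.surjective_iff_ne_zero.2 fun e => hl0 (by ext1 v; exact congr($e v)))
    rw [h8, finrank_top, Module.finrank_self, ← hH] at h7
    omega
  obtain ⟨δ, hδ, hb⟩ := Metric.isOpen_iff.1 hΨ.isOpen y hyΩ
  have hm : ∀ c ∈ Metric.ball (0 : H) δ, y + c.1 ∈ Metric.ball u₀ ε := fun c hc =>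
    hb (by simpa using hc)
  have hf : ∀ c ∈ Metric.ball (0 : H) δ, HasFDerivAt (fun c : H => Ψ (y + c.1))
      ((fderiv ℂ Ψ (y + c.1)).comp H.subtypeL) c := fun c hc =>
    HasFDerivAt.comp (g := Ψ) c (hΨ.an _ (hm c hc)).differentiableAt.hasFDerivAt
      (H.subtypeL.hasFDerivAt.const_add y)
  have han : ∀ c ∈ Metric.ball (0 : H) δ, AnalyticAt ℂ (fun c : H => Ψ (y + c.1)) c := fun c hc =>
    AnalyticAt.comp (g := Ψ) (hΨ.an _ (hm c hc)) (analyticAt_const.add (H.subtypeL.analyticAt c))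
  have h0 : (0 : H) ∈ Metric.ball (0 : H) δ := Metric.mem_ball_self hδ
  set W := (fun c : H => Ψ (y + c.1)) '' Metric.ball 0 δ with hW
  have hWi : A.Irred W := irred_image Metric.isOpen_ball (convex_ball _ _).isPreconnected
    ⟨_, h0⟩ han
  have hle : A.idl V ≤ A.idl W := idl_le_iff.2
    (Set.image_subset_iff.2 fun c hc => hΨ.mem_zeroSet (hm c hc))
  have hlt : tdeg (A.idl W) < tdeg (A.idl V) := by
    have : (A.idl W).IsPrime := hWi
    have : (A.idl V).IsPrime := hV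
    let p : MvPolynomial ι ℂ := ∑ i, C (ℓ.toLinearMap (Pi.single i 1)) * (X i - C (y i))
    have hp : ∀ z : ι → ℂ, eval z p = ℓ (z - y) := by
      intro z
      rw [show ℓ (z - y) = ℓ.toLinearMap (z - y) from rfl, LinearMap.pi_apply_eq_sum_univ]
      simp only [p, map_sum, map_mul, eval_C, map_sub, eval_X, Pi.sub_apply, smul_eq_mul]
      refine Finset.sum_congr rfl fun i _ => ?_
      rw [mul_comm]
      congr 2
      funext k
      simp [Pi.single_apply, eq_comm]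
    obtain ⟨p', hp'⟩ := hrat p
    refine tdeg_lt (lt_of_le_of_ne hle fun e => ?_)
    have h3 : p' ∈ A.idl W := A.mem_idl.2 (Set.forall_mem_image.2 fun c hc r => by
      by_contra hcon
      obtain ⟨r', h4, h5⟩ := exists_ne_zero_scale hcon
      refine h5 ((hp' _ (hm c hc) r' h4).2 ?_)
      rw [hp, add_sub_cancel_left]
      exact c.2)
    rw [← e] at h3
    have h4 : ∀ᶠ z in 𝓝 y, ℓ (z - y) = 0 := by
      filter_upwards [hΨ.isOpen.mem_nhds hyΩ] with z hz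
      rw [← hp]
      exact (hp' z hz 1 one_ne_zero).1 ((hΨ.mem p').1 h3 z hz 1)
    have h5 : HasFDerivAt (fun z => ℓ (z - y)) ℓ y :=
      ℓ.hasFDerivAt.comp y ((hasFDerivAt_id y).sub_const y)
    exact hl0 (h5.unique ((hasFDerivAt_const (0 : ℂ) y).congr_of_eventuallyEq h4))
  have hWp : A.IsPar (A.idl W) (Metric.ball 0 δ) fun c : H => Ψ (y + c.1) :=
    isPar_of_tdeg Metric.isOpen_ball (convex_ball _ _).isPreconnected ⟨_, h0⟩ han
      (fun c hc => by
        rw [(hf c hc).fderiv]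
        exact (hΨ.imm _ (hm c hc)).comp Subtype.val_injective) (by rw [← hW]; omega)
  have hWd := hWp.tdeg_eq
  refine ⟨W, hWi, hle, fun h3 => (hU y hyU).1 ?_, by omega, fun K L hK hL => le_antisymm
    (le_min (tdeg_anti (idl_sat₂_mono hle K L)) ?_) ?_⟩
  · simpa using A.mem_idl.1 h3 _ ⟨0, h0, rfl⟩ s
  · have := tdeg_sat₂_le hWi K hL
    omega
  · have h3 := hWp.rank_le₂ K L h0
    have h4 := hl _ ⟨(K, L), ⟨hK, hL⟩, rfl⟩
    have h5 := hy hyΩ K L hK hL
    have h6 : LinearMap.range (fderiv ℂ (fun c : H => Ψ (y + c.1)) 0).toLinearMap =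
        H.map (fderiv ℂ Ψ y).toLinearMap := by
      rw [(hf 0 h0).fderiv]
      simp [LinearMap.range_comp]
    rw [h6] at h3
    simp only [finrank_prod'] at h4
    omega

/-- Reduction to dimension `g`, keeping a given open condition. -/
theorem exists_cut (hV : A.Irred V) (hf : A.Free V) (hr : A.Rotund V)
    {D : MvPolynomial (Fin g ⊕ Fin N) ℂ} (hD : D ∉ A.idl V) :
    ∃ W, A.Irred W ∧ A.Free W ∧ A.Rotund W ∧ A.idl V ≤ A.idl W ∧ D ∉ A.idl W ∧
      tdeg (A.idl W) = g + 1 := by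
  have h0 : g + 1 ≤ tdeg (A.idl V) := by
    simpa [sat_eq, sat₂_bot] using (rotund_iff hV).1 hr ⊥ isLie_bot
  obtain ⟨n, hn⟩ := Nat.exists_eq_add_of_le h0
  clear h0
  induction n generalizing V with
  | zero => exact ⟨V, hV, hf, hr, le_rfl, hD, hn⟩
  | succ n ih =>
    obtain ⟨W, h1, h2, h3, h4, h5⟩ := cut hV hD (by omega)
    have ht : finrank ℂ (⊤ : Submodule ℂ (Fin g → ℂ)) = g := by simp
    refine (ih h1 ((free_iff h1).2 fun L hL hL' => ?_) ((rotund_iff h1).2 fun L hL => ?_) h3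
      (by omega)).imp fun W' h => ⟨h.1, h.2.1, h.2.2.1, h2.trans h.2.2.2.1, h.2.2.2.2⟩
    · have h11 := (free_iff hV).1 hf L hL hL'
      have h12 := Submodule.finrank_lt hL'
      rw [Module.finrank_fin_fun] at h12
      rw [h5 L ⊤ hL isLie_top, h5 ⊤ L isLie_top hL, ht]
      omega
    · have h11 := (rotund_iff hV).1 hr L hL
      rw [sat_eq] at h11 ⊢
      rw [h5 L L hL hL]
      omega

theorem free_zeroSet (hV : A.Irred V) : A.Free (A.zeroSet (A.idl V)) ↔ A.Free V := by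
  have h : A.Irred (A.zeroSet (A.idl V)) := by
    change (A.idl _).IsPrime
    rwa [idl_zeroSet_idl]
  simp only [free_iff h, free_iff hV, idl_sat₂_congr (idl_zeroSet_idl V)]

theorem rotund_zeroSet (hV : A.Irred V) : A.Rotund (A.zeroSet (A.idl V)) ↔ A.Rotund V := by
  have h : A.Irred (A.zeroSet (A.idl V)) := by
    change (A.idl _).IsPrime
    rwa [idl_zeroSet_idl]
  simp only [rotund_iff h, rotund_iff hV, sat_eq, idl_sat₂_congr (idl_zeroSet_idl V)]

end AbVar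

end Pool.Agent.P.MP_f17f76_ag
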