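import Pool.Agent.P.MP_f17f76_ag.BrLeaf

/-!
Regular points of a parametrisation, fibres along rational subspaces, and the Lovász type formula
for the intersection of the generic tangent space with a complex subspace.
-/

namespace Pool.Agent.P.MP_f17f76_ag

open MvPolynomial Filter Topology Module

namespace AbVar

variable {g N : ℕ} {A : AbVar g N} {F F' : Type} [NormedAddCommGroup F] [NormedSpace ℂ F]
  [NormedAddCommGroup F'] [NormedSpace ℂ F'] {Ω : Set F} {Ω' : Set F'}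
  {Ψ : F → (Fin g → ℂ) × (Fin g → ℂ)} {V W : Set ((Fin g → ℂ) × (Fin g → ℂ))}
  {P : Ideal (MvPolynomial (Fin g ⊕ Fin N) ℂ)} {K L : Submodule ℂ (Fin g → ℂ)} {y : F}

/-- Near `Ψ y` the variety is the image of `Ψ`, with an analytic local inverse. -/
def Reg (A : AbVar g N) (P : Ideal (MvPolynomial (Fin g ⊕ Fin N) ℂ))
    (Ψ : F → (Fin g → ℂ) × (Fin g → ℂ)) (y : F) : Prop :=
  ∃ κ : (Fin g → ℂ) × (Fin g → ℂ) → F, AnalyticAt ℂ κ (Ψ y) ∧ (∀ᶠ z in 𝓝 y, κ (Ψ z) = z) ∧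
    ∀ᶠ q in 𝓝 (Ψ y), q ∈ A.zeroSet P → Ψ (κ q) = q

theorem Reg.eventually [FiniteDimensional ℂ F] (h : A.Reg P Ψ y) (hc : ContinuousAt Ψ y) :
    ∀ᶠ z in 𝓝 y, A.Reg P Ψ z := by
  have := FiniteDimensional.complete ℂ F
  obtain ⟨κ, h1, h2, h3⟩ := h
  filter_upwards [hc.eventually h1.eventually_analyticAt, h2.eventually_nhds,
    hc.eventually h3.eventually_nhds] with z h4 h5 h6 using ⟨κ, h4, h5, h6⟩

theorem IsPar.exists_reg [FiniteDimensional ℂ F] (h : A.IsPar (A.idl V) Ω Ψ) :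
    ∃ D ∉ A.idl V, ∀ y ∈ Ω, ∀ t : ℂ, eval (Sum.elim (Ψ y).1 (t • A.θ (Ψ y).2)) D ≠ 0 →
      A.Reg (A.idl V) Ψ y := by
  obtain ⟨ι, _, D, hD, h1⟩ := A.exists_par (V := V) h.isPrime
  refine ⟨D, hD, fun y hy t ht => ?_⟩
  obtain ⟨u₀, ε, Ψ₀, -, κ, hε, h2, -, -, -, h3, h4, h5⟩ := h1 _ (h.mem_zeroSet hy) t ht
  have ha := h.an y hy
  have h6 : ∀ᶠ z in 𝓝 y, Ψ₀ (κ (Ψ z)) = Ψ z := by
    filter_upwards [ha.continuousAt.eventually h5, h.isOpen.mem_nhds hy] with z hz hz'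
    exact hz (h.mem_zeroSet hz')
  have h7 : AnalyticAt ℂ Ψ₀ (κ (Ψ y)) := h4 ▸ h2.an _ (Metric.mem_ball_self hε)
  have h8 := (h7.differentiableAt.hasFDerivAt.comp y
    (h3.comp ha).differentiableAt.hasFDerivAt).unique
      (ha.differentiableAt.hasFDerivAt.congr_of_eventuallyEq h6)
  obtain ⟨χ, h9, h10, h11⟩ := exists_local_inv (h3.comp ha) (Function.Injective.of_comp
    (f := fderiv ℂ Ψ₀ (κ (Ψ y))) (by
      rw [← ContinuousLinearMap.coe_comp, h8]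
      exact h.imm y hy)) (by have := h.tdeg_eq; have := h2.tdeg_eq; omega)
  have h9' : AnalyticAt ℂ (χ ∘ κ) (Ψ y) := AnalyticAt.comp h9 h3
  refine ⟨χ ∘ κ, h9', h10, ?_⟩
  have h12 : Tendsto (χ ∘ κ) (𝓝 (Ψ y)) (𝓝 y) := by
    have := h9'.continuousAt.tendsto
    rwa [show (χ ∘ κ) (Ψ y) = y from h10.self_of_nhds] at this
  filter_upwards [h5, h12.eventually h6, h3.continuousAt.eventually h11] with q h13 h14 h15 hq
  rw [← h14, ← h13 hq]
  exact congrArg Ψ₀ (by rw [h13 hq]; exact h15)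

/-- A polynomial outside the ideal does not vanish on a residual set of parameters. -/
theorem IsPar.ne_residual (h : A.IsPar P Ω Ψ) {D : MvPolynomial (Fin g ⊕ Fin N) ℂ}
    (hD : D ∉ P) : ∀ᶠ y in residual F, y ∈ Ω →
      ∃ t : ℂ, eval (Sum.elim (Ψ y).1 (t • A.θ (Ψ y).2)) D ≠ 0 := by
  refine mem_of_superset (residual_of_dense_open (s := {y | y ∈ Ω ∧
    ∃ t : ℂ, eval (Sum.elim (Ψ y).1 (t • A.θ (Ψ y).2)) D ≠ 0} ∪ (closure Ω)ᶜ)
    (IsOpen.union ?_ isClosed_closure.isOpen_compl)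
    (dense_iff_inter_open.2 fun U hU hne => ?_)) ?_
  · refine isOpen_iff_mem_nhds.2 fun y ⟨hy, t, ht⟩ => ?_
    filter_upwards [h.isOpen.mem_nhds hy,
      (h.an_eval D t y hy).continuousAt.eventually_ne ht] with z hz h1 using ⟨hz, t, h1⟩
  · obtain ⟨x, hx⟩ := hne
    by_cases hc : x ∈ closure Ω
    · obtain ⟨y, hy⟩ := mem_closure_iff.1 hc U hU hx
      by_contra hcon
      refine hD (h.mem_of_eventually hy.2 fun t => ?_)
      filter_upwards [(hU.inter h.isOpen).mem_nhds hy] with z hz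
      by_contra h1
      exact hcon ⟨z, hz.1, Or.inl ⟨hz.2, t, h1⟩⟩
    · exact ⟨x, hx, Or.inr hc⟩
  · rintro y (hy | hy) hy'
    · exact hy.2
    · exact absurd (subset_closure hy') hy

theorem IsPar.reg_residual [FiniteDimensional ℂ F] (h : A.IsPar (A.idl V) Ω Ψ) :
    ∀ᶠ y in residual F, y ∈ Ω → A.Reg (A.idl V) Ψ y := by
  obtain ⟨D, hD, h1⟩ := h.exists_reg
  filter_upwards [h.ne_residual hD] with y hy hyΩ
  obtain ⟨t, ht⟩ := hy hyΩ
  exact h1 y hyΩ t ht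

/-- At a regular point every analytic map into the variety is tangent to the parametrisation. -/
theorem Reg.range_le (h : A.Reg P Ψ y) (ha : DifferentiableAt ℂ Ψ y)
    {γ : F' → (Fin g → ℂ) × (Fin g → ℂ)} {x : F'} (hγ : DifferentiableAt ℂ γ x) (hx : γ x = Ψ y)
    (hP : ∀ᶠ u in 𝓝 x, γ u ∈ A.zeroSet P) :
    LinearMap.range (fderiv ℂ γ x).toLinearMap ≤ LinearMap.range (fderiv ℂ Ψ y).toLinearMap := by
  obtain ⟨κ, h1, h2, h3⟩ := h
  rw [← hx] at h1 h3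
  have h4 : κ (γ x) = y := hx ▸ h2.self_of_nhds
  have h5 : HasFDerivAt Ψ (fderiv ℂ Ψ y) (κ (γ x)) := by rw [h4]; exact ha.hasFDerivAt
  have h6 := (h5.comp x (h1.differentiableAt.hasFDerivAt.comp x hγ.hasFDerivAt)).unique
    (hγ.hasFDerivAt.congr_of_eventuallyEq (by
      filter_upwards [hγ.continuousAt.eventually h3, hP] with u h6 h7 using h6 h7))
  rintro _ ⟨v, rfl⟩
  exact ⟨_, congrArg (fun M => M v) h6⟩

/-- The Zariski closure of a coset of `K × L`. -/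
theorem mem_zeroSet_coset (hL : A.IsLie L) {q₀ q : (Fin g → ℂ) × (Fin g → ℂ)} :
    q ∈ A.zeroSet (A.idl (sat₂ K L {q₀})) ↔ q.1 - q₀.1 ∈ K ∧ ∃ m ∈ A.Λ, q.2 - q₀.2 - m ∈ L := by
  refine ⟨fun hq => ⟨?_, zcl_sub hL fun p hp t => ?_⟩, fun ⟨h1, m, hm, h2⟩ => ?_⟩
  · refine (Subspace.forall_mem_dualAnnihilator_apply_eq_zero_iff K _).1 fun φ hφ => ?_
    let p : MvPolynomial (Fin g ⊕ Fin N) ℂ :=
      ∑ i, C (φ (Pi.single i 1)) * (X (Sum.inl i) - C (q₀.1 i))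
    have hp : ∀ (z : Fin g → ℂ) (y : Fin N → ℂ), eval (Sum.elim z y) p = φ (z - q₀.1) := by
      intro z y
      rw [LinearMap.pi_apply_eq_sum_univ φ]
      simp only [p, map_sum, map_mul, eval_C, map_sub, eval_X, Sum.elim_inl, Pi.sub_apply,
        smul_eq_mul]
      refine Finset.sum_congr rfl fun i _ => ?_
      rw [mul_comm]
      congr 2
      funext k
      simp [Pi.single_apply, eq_comm]
    rw [← hp]
    refine hq p (A.mem_idl.2 ?_) 1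
    rintro q' ⟨_, rfl, h, -⟩ t
    rw [hp]
    exact (Submodule.mem_dualAnnihilator φ).1 hφ _ h
  · obtain ⟨p', h1, h2⟩ := A.transl₂ 0 (-q₀.2) q.2 t (rename Sum.inr p)
    have h4 := hq p' (A.mem_idl.2 ?_) 1
    · rw [one_smul, h2, eval_rename] at h4
      rwa [sub_eq_add_neg]
    · rintro q' ⟨_, rfl, -, h⟩ s
      obtain ⟨r, hr⟩ := h1 q'.1 q'.2 s
      rw [hr, eval_rename, ← sub_eq_add_neg]
      exact hp _ h r
  · have h4 : (q.1, q.2 - m) ∈ sat₂ K L {q₀} := ⟨_, rfl, h1, by rwa [sub_right_comm]⟩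
    simpa using zeroSet_per (A.subset_zeroSet_idl _ h4) hm

/-- An analytic map into the Zariski closure of a coset is tangent to the coset. -/
theorem fderiv_mem_coset (hL : A.IsLie L) {q₀ : (Fin g → ℂ) × (Fin g → ℂ)}
    (ha : DifferentiableAt ℂ Ψ y)
    (h : ∀ᶠ z in 𝓝 y, Ψ z ∈ A.zeroSet (A.idl (sat₂ K L {q₀}))) :
    ∀ᶠ z in 𝓝 y, Ψ z - Ψ y ∈ K.prod L := by
  obtain ⟨ε, hε, h1⟩ := hL.mem_of_closure
  obtain ⟨h2, m, hm, h3⟩ := (mem_zeroSet_coset hL).1 h.self_of_nhds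
  filter_upwards [h, Metric.tendsto_nhds.1 ha.continuousAt.snd ε hε] with z hz hz'
  obtain ⟨h4, m', hm', h5⟩ := (mem_zeroSet_coset hL).1 hz
  refine ⟨by simpa using K.sub_mem h4 h2, h1 _ (by rwa [dist_eq_norm] at hz')
    (subset_closure ⟨_, L.sub_mem h5 h3, m' - m, A.Λ.sub_mem hm' hm, ?_⟩)⟩
  simp only [Prod.snd_sub]
  abel

theorem finrank_inf_add (T S : Submodule ℂ ((Fin g → ℂ) × (Fin g → ℂ))) :
    finrank ℂ ↥(T ⊓ S) + finrank ℂ ↥(T ⊔ S) = finrank ℂ T + finrank ℂ S := by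
  rw [add_comm, Submodule.finrank_sup_add_finrank_inf_eq]

/-- A germ in `V` through a regular point lying in a coset of `K × L` has Zariski closure of
dimension at most that of the intersection of the tangent space with `K × L`. -/
theorem IsPar.tdeg_germ_le [FiniteDimensional ℂ F] (h : A.IsPar P Ω Ψ) (hy : y ∈ Ω)
    (hreg : A.Reg P Ψ y) (hL : A.IsLie L) (ho : IsOpen Ω') (hc : IsPreconnected Ω') {σ : F' → F}
    {x : F'} (hx : x ∈ Ω') (hσ : ∀ u ∈ Ω', AnalyticAt ℂ σ u ∧ σ u ∈ Ω) (h0 : σ x = y)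
    (hS : ∀ u ∈ Ω', Ψ (σ u) - Ψ y ∈ K.prod L) :
    tdeg (A.idl ((fun u => Ψ (σ u)) '' Ω')) ≤
      finrank ℂ ↥(LinearMap.range (fderiv ℂ Ψ y).toLinearMap ⊓ K.prod L) + 1 := by
  have han : ∀ u ∈ Ω', AnalyticAt ℂ (fun u => Ψ (σ u)) u := fun u hu =>
    (h.an _ (hσ u hu).2).comp (hσ u hu).1
  obtain ⟨ι, _, D, hD, h1⟩ := A.exists_par (irred_image ho hc ⟨x, hx⟩ han)
  have ht : Tendsto σ (𝓝 x) (𝓝 y) := h0 ▸ (hσ x hx).1.continuousAt.tendsto
  obtain ⟨u, hu, h2, h3, t, h4⟩ : ∃ u ∈ Ω', A.Reg P Ψ (σ u) ∧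
      finrank ℂ ↥(LinearMap.range (fderiv ℂ Ψ y).toLinearMap ⊔ K.prod L) ≤
        finrank ℂ ↥(LinearMap.range (fderiv ℂ Ψ (σ u)).toLinearMap ⊔ K.prod L) ∧
      ∃ t : ℂ, eval (Sum.elim (Ψ (σ u)).1 (t • A.θ (Ψ (σ u)).2)) D ≠ 0 := by
    by_contra hcon
    push Not at hcon
    refine hD (A.mem_idl.2 (Set.forall_mem_image.2 fun u hu t => ?_))
    have ha : AnalyticOnNhd ℂ (fun u => eval (Sum.elim (Ψ (σ u)).1 (t • A.θ (Ψ (σ u)).2)) D) Ω' :=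
      fun u hu => (h.an_eval D t _ (hσ u hu).2).comp (hσ u hu).1
    refine ha.eqOn_zero_of_preconnected_of_eventuallyEq_zero hc hx ?_ hu
    filter_upwards [ho.mem_nhds hx, ht.eventually (hreg.eventually (h.an y hy).continuousAt),
      ht.eventually (isOpen_rank (h.an y hy).fderiv.continuousAt (K.prod L))] with u h2 h3 h4
    exact hcon u h2 h3 h4 t
  obtain ⟨u₀, ε, Ψ₀, -, -, hε, h5, h6, -⟩ := h1 _ (A.subset_zeroSet_idl _ ⟨u, hu, rfl⟩) t h4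
  have h7 := Metric.mem_ball_self (x := u₀) hε
  have h8 := (h5.an _ h7).differentiableAt
  have h9 := h2.range_le (h.an _ (hσ u hu).2).differentiableAt h8 h6 (by
    filter_upwards [h5.isOpen.mem_nhds h7] with z hz p hp
    exact h5.mem_zeroSet hz p (A.mem_idl.2 (Set.forall_mem_image.2 fun u hu =>
      h.mem_zeroSet (hσ u hu).2 p hp)))
  have h10 := fderiv_mem_of_sub_mem' h8 (fderiv_mem_coset (K := K) (q₀ := Ψ y) hL h8 (by
    filter_upwards [h5.isOpen.mem_nhds h7] with z hz p hp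
    exact h5.mem_zeroSet hz p (idl_anti (W := sat₂ K L {Ψ y}) (Set.image_subset_iff.2
      fun u hu => ⟨_, rfl, hS u hu⟩) hp)))
  have h11 := Submodule.finrank_mono (le_inf h9 (by rintro _ ⟨v, rfl⟩; exact h10 v))
  have h12 := finrank_inf_add (LinearMap.range (fderiv ℂ Ψ y).toLinearMap) (K.prod L)
  have h13 := finrank_inf_add (LinearMap.range (fderiv ℂ Ψ (σ u)).toLinearMap) (K.prod L)
  rw [LinearMap.finrank_range_of_inj (h.imm y hy)] at h12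
  rw [LinearMap.finrank_range_of_inj (h.imm _ (hσ u hu).2)] at h13
  rw [LinearMap.finrank_range_of_inj (h5.imm _ h7)] at h11
  rw [h5.tdeg_eq]
  omega

/-- A leaf on a ball. -/
theorem IsPar.exists_leaf [FiniteDimensional ℂ F] (h : A.IsPar P Ω Ψ) (hy : y ∈ Ω)
    (S : Submodule ℂ ((Fin g → ℂ) × (Fin g → ℂ)))
    (hmax : ∀ᶠ z in 𝓝 y, finrank ℂ ↥(LinearMap.range (fderiv ℂ Ψ z).toLinearMap ⊔ S) ≤
      finrank ℂ ↥(LinearMap.range (fderiv ℂ Ψ y).toLinearMap ⊔ S)) :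
    ∃ (σ : S.comap (fderiv ℂ Ψ y).toLinearMap → F) (δ : ℝ), 0 < δ ∧ σ 0 = y ∧
      (∀ v, fderiv ℂ σ 0 v = v) ∧ (∀ u ∈ Metric.ball 0 δ, (AnalyticAt ℂ σ u ∧ σ u ∈ Ω) ∧
        Ψ (σ u) - Ψ y ∈ S ∧ Function.Injective (fderiv ℂ (fun u => Ψ (σ u)) u)) ∧
      (∀ᶠ z in 𝓝 y, Ψ z - Ψ y ∈ S → ∃ u ∈ Metric.ball 0 δ, σ u = z) ∧
      LinearMap.range (fderiv ℂ (fun u => Ψ (σ u)) 0).toLinearMap =
        LinearMap.range (fderiv ℂ Ψ y).toLinearMap ⊓ S := by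
  obtain ⟨σ, h1, h2, h3, h4, π, h5⟩ := Pool.Agent.P.MP_f17f76_ag.exists_leaf (h.an y hy) S hmax
  have h6 : AnalyticAt ℂ Ψ (σ 0) := by rw [h2]; exact h.an y hy
  have h7 : ∀ v, fderiv ℂ (fun u => Ψ (σ u)) 0 v = fderiv ℂ Ψ y v := by
    intro v
    have : HasFDerivAt (fun u => Ψ (σ u)) _ 0 :=
      h6.differentiableAt.hasFDerivAt.comp 0 h1.differentiableAt.hasFDerivAt
    rw [this.fderiv, h2, ContinuousLinearMap.comp_apply, h3]
  have := FiniteDimensional.complete ℂ (S.comap (fderiv ℂ Ψ y).toLinearMap)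
  have h8 : ∀ᶠ u in 𝓝 0, Function.Injective (fderiv ℂ (fun u => Ψ (σ u)) u) :=
    (h6.comp h1).fderiv.continuousAt.eventually
      (ContinuousLinearMap.isOpen_injective.mem_nhds fun a b hab => Subtype.ext (h.imm y hy
        ((h7 a).symm.trans (hab.trans (h7 b)))))
  obtain ⟨δ, hδ, hb⟩ := Metric.eventually_nhds_iff_ball.1 ((h1.eventually_analyticAt.and
    (h1.continuousAt.eventually (h.isOpen.mem_nhds (by rwa [h2])))).and (h4.and h8))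
  refine ⟨σ, δ, hδ, h2, h3, hb, ?_, le_antisymm ?_ ?_⟩
  · have h9 : Tendsto (fun z => π (z - y)) (𝓝 y) (𝓝 0) :=
      (π.continuous.comp (continuous_id.sub continuous_const)).tendsto' _ _ (by simp)
    filter_upwards [h5, h9.eventually (Metric.ball_mem_nhds 0 hδ)] with z h10 h11 h12
    exact ⟨_, h11, h10 h12⟩
  · rintro _ ⟨v, rfl⟩
    exact ⟨⟨v, (h7 v).symm⟩, (h7 v).symm ▸ v.2⟩
  · rintro _ ⟨⟨v, rfl⟩, hv⟩
    exact ⟨⟨v, hv⟩, h7 _⟩

/-- The component through a regular point of maximal rank of the fibre along `K × L`. -/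
theorem IsPar.exists_fibre [FiniteDimensional ℂ F] (h : A.IsPar P Ω Ψ) (hy : y ∈ Ω)
    (hreg : A.Reg P Ψ y) (hL : A.IsLie L)
    (hmax : ∀ᶠ z in 𝓝 y, finrank ℂ ↥(LinearMap.range (fderiv ℂ Ψ z).toLinearMap ⊔ K.prod L) ≤
      finrank ℂ ↥(LinearMap.range (fderiv ℂ Ψ y).toLinearMap ⊔ K.prod L)) :
    ∃ (σ : (K.prod L).comap (fderiv ℂ Ψ y).toLinearMap → F) (δ : ℝ), 0 < δ ∧ σ 0 = y ∧
      (∀ v, fderiv ℂ σ 0 v = v) ∧ (∀ u ∈ Metric.ball 0 δ, (AnalyticAt ℂ σ u ∧ σ u ∈ Ω) ∧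
        Ψ (σ u) - Ψ y ∈ K.prod L) ∧
      (∀ᶠ z in 𝓝 y, Ψ z - Ψ y ∈ K.prod L → ∃ u ∈ Metric.ball 0 δ, σ u = z) ∧
      LinearMap.range (fderiv ℂ (fun u => Ψ (σ u)) 0).toLinearMap =
        LinearMap.range (fderiv ℂ Ψ y).toLinearMap ⊓ K.prod L ∧
      A.IsPar (A.idl ((fun u => Ψ (σ u)) '' Metric.ball 0 δ)) (Metric.ball 0 δ)
        fun u => Ψ (σ u) := by
  obtain ⟨σ, δ, hδ, h1, h2, h3, h4, h5⟩ := h.exists_leaf hy _ hmax
  have h0 := Metric.mem_ball_self (x := (0 : (K.prod L).comap (fderiv ℂ Ψ y).toLinearMap)) hδ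
  refine ⟨σ, δ, hδ, h1, h2, fun u hu => ⟨(h3 u hu).1, (h3 u hu).2.1⟩, h4, h5,
    isPar_of_tdeg Metric.isOpen_ball (convex_ball _ _).isPreconnected ⟨_, h0⟩
      (fun u hu => (h.an _ (h3 u hu).1.2).comp (h3 u hu).1.1) (fun u hu => (h3 u hu).2.2) ?_⟩
  rw [← LinearMap.finrank_range_of_inj (h3 0 h0).2.2, h5]
  exact h.tdeg_germ_le hy hreg hL Metric.isOpen_ball (convex_ball _ _).isPreconnected h0
    (fun u hu => (h3 u hu).1) h1 fun u hu => (h3 u hu).2.1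

/-- The subspace of pairs `(z, w)` with `w - z ∈ K`. -/
def diag (K : Submodule ℂ (Fin g → ℂ)) : Submodule ℂ ((Fin g → ℂ) × (Fin g → ℂ)) :=
  K.comap (LinearMap.snd ℂ _ _ - LinearMap.fst ℂ _ _)

theorem mem_diag {v : (Fin g → ℂ) × (Fin g → ℂ)} : v ∈ diag K ↔ v.2 - v.1 ∈ K := Iff.rfl

theorem exists_quot_map (K H : Submodule ℂ (Fin g → ℂ)) :
    ∃ (k : ℕ) (M : (Fin g → ℂ) →L[ℂ] (Fin k → ℂ)), k + finrank ℂ ↥(K ⊓ H) = finrank ℂ H ∧
      (∀ v ∈ K, M v = 0) ∧ ∀ c, ∃ v ∈ H, M v = c := by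
  set R := H.map K.mkQ
  obtain ⟨ρ, hρ⟩ := LinearMap.exists_leftInverse_of_injective R.subtype R.ker_subtype
  let e := (Module.finBasis ℂ R).equivFun
  refine ⟨_, LinearMap.toContinuousLinearMap (e.toLinearMap.comp (ρ.comp K.mkQ)), ?_,
    fun v hv => by simp [(Submodule.Quotient.mk_eq_zero K).2 hv], fun c => ?_⟩
  · have h1 := (K.mkQ.domRestrict H).finrank_range_add_finrank_ker
    rwa [LinearMap.range_domRestrict, LinearMap.ker_domRestrict, Submodule.ker_mkQ,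
      show K.comap H.subtype = (K ⊓ H).comap H.subtype by simp,
      (Submodule.comapSubtypeEquivOfLe inf_le_right).finrank_eq] at h1
  · obtain ⟨⟨_, v, hv, rfl⟩, rfl⟩ := e.surjective c
    exact ⟨v, hv, congrArg e (LinearMap.congr_fun hρ ⟨_, v, hv, rfl⟩)⟩

/-- Ax-Schanuel on tangent spaces: the leaves of `w - z` modulo a complex subspace `K` are
explained by a rational subspace `H`. -/
theorem IsPar.lovasz [FiniteDimensional ℂ F] (h : A.IsPar P Ω Ψ) (hy : y ∈ Ω)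
    (hreg : A.Reg P Ψ y) (K : Submodule ℂ (Fin g → ℂ))
    (hmax : ∀ᶠ z in 𝓝 y, finrank ℂ ↥(LinearMap.range (fderiv ℂ Ψ z).toLinearMap ⊔ diag K) ≤
      finrank ℂ ↥(LinearMap.range (fderiv ℂ Ψ y).toLinearMap ⊔ diag K)) :
    ∃ H, A.IsLie H ∧ LinearMap.range (fderiv ℂ Ψ y).toLinearMap ⊓ diag K ≤ (H ⊔ K).prod H ∧
      finrank ℂ ↥(LinearMap.range (fderiv ℂ Ψ y).toLinearMap ⊓ diag K) + finrank ℂ H ≤
        finrank ℂ ↥(LinearMap.range (fderiv ℂ Ψ y).toLinearMap ⊓ (H ⊔ K).prod H) +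
          finrank ℂ ↥(K ⊓ H) := by
  obtain ⟨σ, δ, hδ, h1, -, h3, -, h5⟩ := h.exists_leaf hy _ hmax
  have h0 := Metric.mem_ball_self (x := (0 : (diag K).comap (fderiv ℂ Ψ y).toLinearMap)) hδ
  obtain ⟨H, hH, h6, h7⟩ := A.exists_hull
    ((fun u => (Ψ (σ u)).2 - (Ψ y).2) '' Metric.ball 0 δ)
  have h8 : ∀ u ∈ Metric.ball 0 δ, Ψ (σ u) - Ψ y ∈ (H ⊔ K).prod H := by
    intro u hu
    have h8 : (Ψ (σ u)).2 - (Ψ y).2 ∈ H := h6 ⟨u, hu, rfl⟩
    refine ⟨?_, h8⟩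
    simpa using Submodule.sub_mem _ (Submodule.mem_sup_left (T := K) h8)
      (Submodule.mem_sup_right (mem_diag.1 (h3 u hu).2.1))
  have han : ∀ u ∈ Metric.ball 0 δ, AnalyticAt ℂ (fun u => Ψ (σ u)) u := fun u hu =>
    (h.an _ (h3 u hu).1.2).comp (h3 u hu).1.1
  have h9 := h.tdeg_germ_le hy hreg hH Metric.isOpen_ball (convex_ball _ _).isPreconnected h0
    (fun u hu => (h3 u hu).1) h1 h8
  obtain ⟨k, M, h10, h11, h12⟩ := exists_quot_map K H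
  refine ⟨H, hH, ?_, ?_⟩
  · rw [← h5]
    rintro _ ⟨v, rfl⟩
    exact fderiv_mem_of_sub_mem' (han 0 h0).differentiableAt
      (Eventually.mono (Metric.ball_mem_nhds 0 hδ) h8) v
  by_contra hcon
  rw [← h5, LinearMap.finrank_range_of_inj (h3 0 h0).2.2] at hcon
  obtain ⟨ℓ, hl, L₀, h13, h14, h15⟩ := ax_gen (A := A) Metric.isOpen_ball
    (convex_ball _ _).isPreconnected ⟨_, h0⟩ han (fun u hu => (h3 u hu).2.2) M
    (M ((Ψ y).2 - (Ψ y).1)) (fun u hu => by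
      rw [← sub_eq_zero, ← map_sub]
      refine h11 _ ?_
      convert mem_diag.1 (h3 u hu).2.1 using 1
      simp only [Prod.snd_sub, Prod.fst_sub]
      abel) fun T hT => by have := hT.le_tdeg; omega
  refine hl (ContinuousLinearMap.ext fun c => ?_)
  obtain ⟨v, hv, rfl⟩ := h12 c
  refine h15 v (h7 L₀ h13 ?_ hv)
  rintro _ ⟨u, hu, rfl⟩
  have h16 := h14 u hu 0 h0
  rwa [h1] at h16

end AbVar

end Pool.Agent.P.MP_f17f76_ag
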