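import Pool.Agent.P.MP_f17f76_ag.PZero
import Pool.Agent.P.MP_f17f76_ag.Alg

/-!
Transcendence degree bounds and the Jacobian criterion for analytic parametrisations.
-/

namespace Pool.Agent.P.MP_f17f76_ag

open MvPolynomial Filter Topology

theorem algInd_iff {σ τ : Type} (P : Ideal (MvPolynomial σ ℂ)) (G : τ → MvPolynomial σ ℂ) :
    AlgebraicIndependent ℂ (fun j => Ideal.Quotient.mk P (G j)) ↔
      ∀ p : MvPolynomial τ ℂ, aeval G p ∈ P → p = 0 := by
  rw [algebraicIndependent_iff]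
  refine forall_congr' fun p => ?_
  have : aeval (fun j => Ideal.Quotient.mk P (G j)) p = Ideal.Quotient.mk P (aeval G p) :=
    (comp_aeval_apply (f := G) (Ideal.Quotient.mkₐ ℂ P) p).symm
  rw [this, Ideal.Quotient.eq_zero_iff_mem]

theorem rename_eq_aeval' {σ τ : Type} (e : τ → σ) (p : MvPolynomial τ ℂ) :
    aeval (fun j => (X (e j) : MvPolynomial σ ℂ)) p = rename e p := by
  have : (aeval fun j => (X (e j) : MvPolynomial σ ℂ)) = rename e := by
    ext i
    simp
  rw [this]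

/-- An algebraically independent family modulo `P` has at most as many members as a basis. -/
theorem card_le_of_basis {σ τ : Type} [Fintype τ] (P : Ideal (MvPolynomial σ ℂ)) [P.IsPrime]
    {T : Finset σ} (hT : Indep P T) (halg : AlgOver P T) (G : τ → MvPolynomial σ ℂ)
    (hG : ∀ p : MvPolynomial τ ℂ, aeval G p ∈ P → p = 0) : Fintype.card τ ≤ T.card := by
  classical
  let x : T → MvPolynomial σ ℂ ⧸ P := fun i => Ideal.Quotient.mk P (X i.1)
  have hx : AlgebraicIndependent ℂ x := (algInd_iff P fun i : T => X i.1).2 fun p hp =>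
    hT p (by rwa [rename_eq_aeval'] at hp)
  let S := Algebra.adjoin ℂ (Set.range x)
  let φ : MvPolynomial T ℂ →ₐ[ℂ] S := hx.aevalEquiv.toAlgHom
  have hφ : ∀ b, (φ b : MvPolynomial σ ℂ ⧸ P) = Ideal.Quotient.mk P (rename Subtype.val b) := by
    intro b
    have h1 : (φ b : MvPolynomial σ ℂ ⧸ P) = aeval x b := hx.algebraMap_aevalEquiv b
    rw [h1, ← rename_eq_aeval']
    exact (comp_aeval_apply (f := fun i : T => (X i.1 : MvPolynomial σ ℂ))
      (Ideal.Quotient.mkₐ ℂ P) b).symm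
  have : IsDomain S := inferInstance
  have halg' : Algebra.IsAlgebraic S (MvPolynomial σ ℂ ⧸ P) := ⟨fun r => by
    obtain ⟨q, rfl⟩ := Ideal.Quotient.mk_surjective r
    induction q using MvPolynomial.induction_on with
    | C a => exact isAlgebraic_algebraMap (algebraMap ℂ S a)
    | add p q hp hq => rw [map_add]; exact hp.add hq
    | mul_X p k hp =>
      rw [map_mul]
      refine hp.mul ?_
      obtain ⟨f, f0, hf⟩ := halg k
      refine ⟨f.map φ.toRingHom, ?_, ?_⟩
      · exact (Polynomial.map_ne_zero_iff hx.aevalEquiv.injective).2 f0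
      · rw [← Ideal.Quotient.eq_zero_iff_mem, Polynomial.hom_eval₂] at hf
        rw [Polynomial.aeval_def, Polynomial.eval₂_map, ← hf]
        congr 1
        exact RingHom.ext hφ⟩
  have h1 := ((algInd_iff P G).2 hG).cardinalMk_le_trdeg
  have h2 := Algebra.IsAlgebraic.trdeg_le_cardinalMk ℂ (Set.range x)
    (A := MvPolynomial σ ℂ ⧸ P)
  have h3 := h1.trans (h2.trans Cardinal.mk_range_le)
  simpa using h3

theorem Indep.card_le {σ : Type} {P : Ideal (MvPolynomial σ ℂ)} [P.IsPrime] {T J : Finset σ}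
    (hT : Indep P T) (halg : AlgOver P T) (hJ : Indep P J) : J.card ≤ T.card := by
  simpa using card_le_of_basis P hT halg (fun i : J => X i.1) fun p hp =>
    hJ p (by rwa [rename_eq_aeval'] at hp)

theorem alg_extend' {σ : Type} [Fintype σ] (P : Ideal (MvPolynomial σ ℂ)) [P.IsPrime]
    (T₀ : Finset σ) (h : Indep P T₀) :
    ∃ T : Finset σ, T₀ ⊆ T ∧ Indep P T ∧ AlgOver P T := by
  classical
  obtain ⟨T, h1, h2⟩ := Finset.exists_max_image
    (Finset.univ.filter fun T => T₀ ⊆ T ∧ Indep P T) Finset.card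
    ⟨T₀, Finset.mem_filter.2 ⟨Finset.mem_univ _, subset_rfl, h⟩⟩
  obtain ⟨h3, h4⟩ := (Finset.mem_filter.1 h1).2
  refine ⟨T, h3, h4, algOver_of_max P T h4 fun k hk h5 => ?_⟩
  have := h2 _ (Finset.mem_filter.2
    ⟨Finset.mem_univ _, h3.trans (Finset.subset_insert k T), h5⟩)
  rw [Finset.card_insert_of_notMem hk] at this
  omega

/-- The image of a chart is Zariski dense. -/
theorem mem_of_chart {σ : Type} (P : Ideal (MvPolynomial σ ℂ)) [P.IsPrime] {T : Finset σ}
    (hT : Indep P T) (halg : AlgOver P T) {ψ : (T → ℂ) → σ → ℂ} {u₀ : T → ℂ}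
    (hψ : ∀ᶠ u in 𝓝 u₀, (∀ i : T, ψ u i = u i) ∧ ∀ p ∈ P, eval (ψ u) p = 0)
    {p : MvPolynomial σ ℂ} (hp : ∀ᶠ u in 𝓝 u₀, eval (ψ u) p = 0) : p ∈ P := by
  by_contra hn
  obtain ⟨b, hb, c, hc⟩ := exists_const_mem P T hT halg p hn
  refine hb (nash1_poly_eq_zero (x := u₀) b ?_)
  filter_upwards [hψ, hp] with u h1 h2
  have h3 := h1.2 _ hc
  rw [map_sub, map_mul, h2, mul_zero, sub_zero, eval_rename] at h3
  rwa [show ψ u ∘ Subtype.val = u from funext h1.1] at h3

variable {F : Type} [NormedAddCommGroup F] [NormedSpace ℂ F]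

/-- Off a proper closed subset, the differentials of the basis coordinates determine all. -/
theorem jac_ker {σ : Type} [Fintype σ] (P : Ideal (MvPolynomial σ ℂ)) [P.IsPrime]
    {T : Finset σ} (hT : Indep P T) (halg : AlgOver P T) :
    ∃ D : MvPolynomial σ ℂ, D ∉ P ∧ ∀ (Z : F → σ → ℂ) (y : F),
      (∀ k, AnalyticAt ℂ (fun z => Z z k) y) → (∀ᶠ z in 𝓝 y, ∀ p ∈ P, eval (Z z) p = 0) →
      eval (Z y) D ≠ 0 → ∀ v, (∀ i ∈ T, fderiv ℂ (fun z => Z z i) y v = 0) →
        ∀ k, fderiv ℂ (fun z => Z z k) y v = 0 := by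
  obtain ⟨D, hD, hch⟩ := chart P T hT halg
  refine ⟨D, hD, fun Z y hZ hP hne v hv k => ?_⟩
  obtain ⟨ψ, -, hψE, -, hψ2⟩ := hch (Z y) hP.self_of_nhds hne
  have hc : ContinuousAt Z y := continuousAt_pi.2 fun k => (hZ k).continuousAt
  have he : (fun z => Z z k) =ᶠ[𝓝 y] fun z => ψ (fun i : T => Z z i) k := by
    filter_upwards [hc.eventually hψ2, hP] with z h1 h2
    rw [h1 h2]
  have hd : HasFDerivAt (fun z (i : T) => Z z i)
      (ContinuousLinearMap.pi fun i : T => fderiv ℂ (fun z => Z z i) y) y :=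
    hasFDerivAt_pi.2 fun i => (hZ i).differentiableAt.hasFDerivAt
  have h2 := (hψE k).1.differentiableAt.hasFDerivAt.comp y hd
  rw [he.fderiv_eq, show (fun z => ψ (fun i : T => Z z i) k) =
    (fun u => ψ u k) ∘ fun z (i : T) => Z z i from rfl, h2.fderiv]
  have h3 : (ContinuousLinearMap.pi fun i : T => fderiv ℂ (fun z => Z z i) y) v = 0 :=
    funext fun i => hv i i.2
  rw [ContinuousLinearMap.comp_apply, h3, map_zero]

/-- Jacobian criterion: along an immersion whose image has the expected transcendence degree,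
independent polynomials have independent differentials off a proper closed subset. -/
theorem jac_surj [FiniteDimensional ℂ F] {σ τ : Type} [Fintype σ] [Fintype τ] {Ω : Set F}
    (ho : IsOpen Ω) (hc : IsPreconnected Ω) (hne : Ω.Nonempty) {Z : F → σ → ℂ}
    (hZ : ∀ y ∈ Ω, ∀ k, AnalyticAt ℂ (fun z => Z z k) y)
    (himm : ∀ y ∈ Ω, ∀ v, (∀ k, fderiv ℂ (fun z => Z z k) y v = 0) → v = 0)
    (hdim : ∀ T : Finset σ, Indep (vanI Ω Z) T → T.card ≤ Module.finrank ℂ F)
    (G : τ → MvPolynomial σ ℂ) (hG : ∀ p : MvPolynomial τ ℂ, aeval G p ∈ vanI Ω Z → p = 0) :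
    ∃ D : MvPolynomial σ ℂ, D ∉ vanI Ω Z ∧ ∀ y ∈ Ω, eval (Z y) D ≠ 0 → ∀ c : τ → ℂ,
      ∃ v, ∀ j, fderiv ℂ (fun z => eval (Z z) (G j)) y v = c j := by
  classical
  have hP := vanI_prime ho hc hne hZ
  let G' : τ ⊕ σ → MvPolynomial σ ℂ := Sum.elim G X
  let Z' : F → τ ⊕ σ → ℂ := fun z k => eval (Z z) (G' k)
  have hZ' : ∀ y ∈ Ω, ∀ k, AnalyticAt ℂ (fun z => Z' z k) y := fun y hy k =>
    analyticAt_eval _ Z (hZ y hy)
  have hev : ∀ z (p : MvPolynomial (τ ⊕ σ) ℂ), eval (Z z) (aeval G' p) = eval (Z' z) p := by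
    intro z p
    rw [← aeval_eq_eval, ← aeval_eq_eval]
    exact comp_aeval_apply (f := G') (aeval (Z z)) p
  have hmem : ∀ p, p ∈ vanI Ω Z' ↔ aeval G' p ∈ vanI Ω Z := fun p => by
    simp only [mem_vanI, hev]
  have hP' := vanI_prime ho hc hne hZ'
  obtain ⟨T, hT, hTa⟩ := exists_basis (vanI Ω Z)
  have h0 : Indep (vanI Ω Z') (Finset.univ.map ⟨Sum.inl, Sum.inl_injective⟩) := by
    intro p hp
    let e : τ ≃ (Finset.univ.map ⟨Sum.inl, Sum.inl_injective⟩ : Finset (τ ⊕ σ)) :=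
      Equiv.ofBijective (fun j => ⟨Sum.inl j, by simp⟩) ⟨fun a b h => by simpa using h, by
        rintro ⟨k, hk⟩
        obtain ⟨j, -, rfl⟩ := Finset.mem_map.1 hk
        exact ⟨j, rfl⟩⟩
    obtain ⟨q, rfl⟩ := rename_surjective e e.surjective p
    rw [hG q, map_zero]
    rw [hmem, rename_rename, aeval_rename] at hp
    exact hp
  obtain ⟨T', hT0, hT', hTa'⟩ := alg_extend' _ _ h0
  have hcard : T'.card ≤ Module.finrank ℂ F := by
    have := card_le_of_basis (vanI Ω Z) hT hTa (fun i : T' => G' i.1) fun p hp => hT' p (by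
      rw [hmem, aeval_rename]
      exact hp)
    rw [Fintype.card_coe] at this
    exact this.trans (hdim T hT)
  obtain ⟨D, hD, hker⟩ := jac_ker (F := F) (vanI Ω Z') hT' hTa'
  refine ⟨aeval G' D, fun h => hD ((hmem D).2 h), fun y hy hDy c => ?_⟩
  rw [hev] at hDy
  let Φ : F →ₗ[ℂ] (T' → ℂ) := LinearMap.pi fun i => (fderiv ℂ (fun z => Z' z i) y).toLinearMap
  have hinj : Function.Injective Φ := by
    rw [← LinearMap.ker_eq_bot, LinearMap.ker_eq_bot']
    intro v hv
    refine himm y hy v fun k => ?_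
    have := hker Z' y (hZ' y hy) (by
      filter_upwards [ho.mem_nhds hy] with z hz p hp using hp z hz) hDy v
      (fun i hi => congrFun hv ⟨i, hi⟩) (Sum.inr k)
    simpa [Z', G'] using this
  have hle := LinearMap.finrank_le_finrank_of_injective hinj
  have hsurj : Function.Surjective Φ :=
    (LinearMap.injective_iff_surjective_of_finrank_eq_finrank (by
      simp only [Module.finrank_fintype_fun_eq_card, Fintype.card_coe] at hle ⊢
      omega)).1 hinj
  obtain ⟨v, hv⟩ := hsurj fun i => Sum.elim c 0 i.1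
  exact ⟨v, fun j => congrFun hv ⟨Sum.inl j, hT0 (by simp)⟩⟩

omit [NormedAddCommGroup F] [NormedSpace ℂ F] in
/-- Independence passes to a block of coordinates. -/
theorem Indep.block {F₁ σ σ₁ : Type} {Ω : Set F} {Ω₁ : Set F₁} {Z : F → σ → ℂ}
    {Z₁ : F₁ → σ₁ → ℂ} (e : σ₁ → σ) (he : Function.Injective e)
    (h : ∀ y ∈ Ω, ∃ y₁ ∈ Ω₁, ∀ k, Z y (e k) = Z₁ y₁ k) {T : Finset σ}
    (hT : Indep (vanI Ω Z) T) : Indep (vanI Ω₁ Z₁) (T.preimage e he.injOn) := by
  intro p hp
  let i : (T.preimage e he.injOn) → T := fun k => ⟨e k.1, Finset.mem_preimage.1 k.2⟩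
  have hi : Function.Injective i := fun a b hab =>
    Subtype.ext (he (congrArg (fun z : T => z.1) hab))
  apply rename_injective i hi
  rw [map_zero]
  refine hT _ fun y hy => ?_
  obtain ⟨y₁, h1, h2⟩ := h y hy
  have := hp y₁ h1
  rw [eval_rename] at this
  rw [rename_rename, eval_rename, ← this]
  congr 2
  funext k
  exact h2 k

theorem card_sum_preimage {σ₁ σ₂ : Type} (T : Finset (σ₁ ⊕ σ₂)) :
    T.card = (T.preimage Sum.inl Sum.inl_injective.injOn).card +
      (T.preimage Sum.inr Sum.inr_injective.injOn).card := by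
  rw [← Finset.card_toLeft_add_card_toRight]
  congr 2 <;> ext <;> simp

end Pool.Agent.P.MP_f17f76_ag
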