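import Pool.Agent.P.MP_f17f76_ag.Lift

/-!
A subspace is rational or its sum with the lattice accumulates along a real line; an analytic
immersion has a projection with Zariski dense image.
-/

namespace Pool.Agent.P.MP_f17f76_ag

open MvPolynomial Filter Topology

theorem rat_reps {E : Type} [NormedAddCommGroup E] [ProperSpace E] (Λ : Submodule ℤ E)
    (p : E →+ E) {ε : ℝ} (hε : 0 < ε) (h : ∀ m ∈ Λ, ‖p m‖ < ε → p m = 0) (R : ℝ) :
    ∃ C : ℝ, ∀ m ∈ Λ, ‖p m‖ ≤ R → ∃ μ ∈ Λ, ‖μ‖ ≤ C ∧ p (m - μ) = 0 := by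
  obtain ⟨t, -, ht, hc⟩ := finite_cover_balls_of_compact (isCompact_closedBall (0 : E) R)
    (half_pos hε)
  have ch : ∀ c : E, ∃ μ ∈ Λ, (∃ m ∈ Λ, p m ∈ Metric.ball c (ε / 2)) →
      p μ ∈ Metric.ball c (ε / 2) := fun c => by
    by_cases hc : ∃ m ∈ Λ, p m ∈ Metric.ball c (ε / 2)
    · obtain ⟨m, h1, h2⟩ := hc
      exact ⟨m, h1, fun _ => h2⟩
    · exact ⟨0, Λ.zero_mem, fun h => absurd h hc⟩
  choose μ hμ1 hμ2 using ch
  obtain ⟨C, hC⟩ := (ht.image fun c => ‖μ c‖).bddAbove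
  refine ⟨C, fun m hm hR => ?_⟩
  obtain ⟨c, hct, hmc⟩ := Set.mem_iUnion₂.mp (hc (mem_closedBall_zero_iff.mpr hR))
  refine ⟨μ c, hμ1 c, hC ⟨c, hct, rfl⟩, h _ (Λ.sub_mem hm (hμ1 c)) ?_⟩
  have h2 := hμ2 c ⟨m, hm, hmc⟩
  rw [map_sub, ← dist_eq_norm]
  exact dist_triangle_right _ _ c |>.trans_lt (by
    rw [Metric.mem_ball] at hmc h2
    linarith)

theorem rat_floor (τ : ℝ) {a : ℕ → ℝ} (ha : ∀ n, 0 < a n) (h : Tendsto a atTop (𝓝 0)) :
    Tendsto (fun n => (⌊τ / a n⌋ : ℝ) * a n) atTop (𝓝 τ) := by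
  have h1 : Tendsto (fun n => τ - a n) atTop (𝓝 τ) := by simpa using h.const_sub τ
  refine tendsto_of_tendsto_of_tendsto_of_le_of_le h1 tendsto_const_nhds (fun n => ?_) fun n => ?_
  · have := Int.lt_floor_add_one (τ / a n)
    rw [div_lt_iff₀ (ha n)] at this
    beta_reduce
    linarith
  · exact (le_div_iff₀ (ha n)).mp (Int.floor_le _)

theorem AbVar.rat_or_line {g N : ℕ} (A : AbVar g N) (L : Submodule ℂ (Fin g → ℂ)) :
    (L : Set (Fin g → ℂ)) ⊆ Submodule.span ℝ ((A.Λ : Set (Fin g → ℂ)) ∩ L) ∨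
      ∃ v, v ∉ L ∧ ∀ τ : ℝ, (τ : ℂ) • v ∈ closure {x | ∃ l ∈ L, ∃ m ∈ A.Λ, x = l + m} := by
  obtain ⟨L', hL⟩ := L.exists_isCompl
  set p : (Fin g → ℂ) →ₗ[ℂ] (Fin g → ℂ) := L'.projection L hL.symm with hp
  have hp0 : ∀ x, p x = 0 ↔ x ∈ L := fun x => Submodule.projection_apply_eq_zero_iff hL.symm
  have hp1 : ∀ x, x - p x ∈ L := fun x => Submodule.sub_projection_mem hL.symm x
  have hp2 : ∀ x, p x ∈ L' := fun x => Submodule.projection_apply_mem hL.symm x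
  by_cases hc : ∃ ε > 0, ∀ m ∈ A.Λ, ‖p m‖ < ε → p m = 0
  · left
    obtain ⟨ε, hε, h⟩ := hc
    obtain ⟨R, hR⟩ := A.exists_bdd
    obtain ⟨C, hC⟩ := rat_reps A.Λ p.toAddMonoidHom hε h (‖p.toContinuousLinearMap‖ * R)
    intro x hx
    have hcl := (Submodule.span ℝ ((A.Λ : Set (Fin g → ℂ)) ∩ L)).closed_of_finiteDimensional
    rw [← hcl.closure_eq, Metric.mem_closure_iff]
    intro δ hδ
    obtain ⟨n, hn⟩ := exists_nat_gt (max 0 ((R + C) / δ))
    have hn0 : (0 : ℝ) < n := (le_max_left _ _).trans_lt hn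
    have hn1 : R + C < n * δ := (div_lt_iff₀ hδ).mp ((le_max_right _ _).trans_lt hn)
    obtain ⟨m, hm, hb⟩ := hR ((n : ℝ) • x)
    have hx' : p ((n : ℝ) • x) = 0 := (hp0 _).mpr (L.smul_of_tower_mem _ hx)
    obtain ⟨μ, hμ, hμC, hμ0⟩ := hC m hm (by
      have e : p m = -p ((n : ℝ) • x - m) := by rw [map_sub, hx']; simp
      change ‖p m‖ ≤ _
      rw [e, norm_neg]
      exact (p.toContinuousLinearMap.le_opNorm _).trans
        (mul_le_mul_of_nonneg_left hb (norm_nonneg _)))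
    refine ⟨(n : ℝ)⁻¹ • (m - μ), Submodule.smul_mem _ _
      (Submodule.subset_span ⟨A.Λ.sub_mem hm hμ, (hp0 _).mp hμ0⟩), ?_⟩
    have e : x - (n : ℝ)⁻¹ • (m - μ) = (n : ℝ)⁻¹ • (((n : ℝ) • x - m) + μ) := by
      rw [smul_add, smul_sub, smul_sub, smul_smul, inv_mul_cancel₀ hn0.ne', one_smul]
      abel
    rw [dist_eq_norm, e, norm_smul, norm_inv, Real.norm_of_nonneg hn0.le, inv_mul_lt_iff₀ hn0]
    exact ((norm_add_le _ _).trans (add_le_add hb hμC)).trans_lt hn1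
  · right
    push Not at hc
    choose m hm1 hm2 hm3 using fun n : ℕ => hc (1 / ((n : ℝ) + 1)) Nat.one_div_pos_of_nat
    have hpos : ∀ n, 0 < ‖p (m n)‖ := fun n => norm_pos_iff.mpr (hm3 n)
    have ha : Tendsto (fun n => ‖p (m n)‖) atTop (𝓝 0) :=
      squeeze_zero (fun n => norm_nonneg _) (fun n => (hm2 n).le)
        tendsto_one_div_add_atTop_nhds_zero_nat
    obtain ⟨v, hv, φ, hφ, hlim⟩ := (isCompact_sphere (0 : Fin g → ℂ) 1).tendsto_subseq
      (x := fun n => ‖p (m n)‖⁻¹ • p (m n)) fun n => by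
        rw [mem_sphere_zero_iff_norm, norm_smul, norm_inv, norm_norm,
          inv_mul_cancel₀ (hpos n).ne']
    have hvL' : v ∈ L' := L'.closed_of_finiteDimensional.mem_of_tendsto hlim
      (Eventually.of_forall fun n => L'.smul_of_tower_mem _ (hp2 _))
    refine ⟨v, fun hvL => ?_, fun τ => ?_⟩
    · have : v = 0 := Submodule.disjoint_def.mp hL.disjoint v hvL hvL'
      rw [this] at hv
      simp at hv
    · have h1 := (rat_floor τ (fun n => hpos (φ n)) (ha.comp hφ.tendsto_atTop)).smul hlim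
      rw [Complex.coe_smul]
      refine mem_closure_of_tendsto h1 (Eventually.of_forall fun n => ?_)
      refine ⟨⌊τ / ‖p (m (φ n))‖⌋ • -(m (φ n) - p (m (φ n))),
        L.smul_of_tower_mem _ (L.neg_mem (hp1 _)), ⌊τ / ‖p (m (φ n))‖⌋ • m (φ n),
        A.Λ.smul_mem _ (hm1 _), ?_⟩
      rw [Function.comp_apply, smul_smul, mul_inv_cancel_right₀ (hpos _).ne', Int.cast_smul_eq_zsmul,
        ← smul_add, neg_sub, sub_add_cancel]

theorem rat_poly {n : ℕ} (p : MvPolynomial (Fin n) ℂ) (c : Fin n → ℂ)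
    (h : ∀ᶠ u in 𝓝 c, eval u p = 0) : p = 0 := by
  obtain ⟨r, hr, h⟩ := Metric.eventually_nhds_iff_ball.mp h
  refine funext_set (fun i => Metric.ball (c i) r)
    (fun i => infinite_of_mem_nhds (c i) (Metric.ball_mem_nhds _ hr)) fun u hu => ?_
  rw [map_zero]
  exact h u (by rw [ball_pi _ hr]; exact hu)

theorem open_dense {F E : Type} [NormedAddCommGroup F] [NormedSpace ℂ F] [FiniteDimensional ℂ F]
    [NormedAddCommGroup E] [NormedSpace ℂ E] [FiniteDimensional ℂ E]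
    (G : F → E) (x : F) (hG : AnalyticAt ℂ G x) (hinj : Function.Injective (fderiv ℂ G x))
    (n : ℕ) (hn : Module.finrank ℂ F = n) :
    ∃ π : E →L[ℂ] (Fin n → ℂ), ∀ p : MvPolynomial (Fin n) ℂ,
      (∀ᶠ y in 𝓝 x, eval (π (G y)) p = 0) → p = 0 := by
  have := FiniteDimensional.complete ℂ F
  obtain ⟨π₀, hπ₀⟩ := (fderiv ℂ G x).toLinearMap.exists_leftInverse_of_injective
    (LinearMap.ker_eq_bot.mpr hinj)
  let e : F ≃L[ℂ] (Fin n → ℂ) :=
    ContinuousLinearEquiv.ofFinrankEq (by rw [hn, Module.finrank_fin_fun])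
  let π : E →L[ℂ] (Fin n → ℂ) := (e : F →L[ℂ] (Fin n → ℂ)).comp π₀.toContinuousLinearMap
  have hd : HasStrictFDerivAt (fun y => π (G y)) (e : F →L[ℂ] (Fin n → ℂ)) x := by
    have h1 := π.hasStrictFDerivAt.comp x hG.hasStrictFDerivAt
    have h2 : π.comp (fderiv ℂ G x) = (e : F →L[ℂ] (Fin n → ℂ)) := by
      ext1 v
      exact congrArg e (LinearMap.congr_fun hπ₀ v)
    rwa [h2] at h1
  refine ⟨π, fun p hp => rat_poly p (π (G x)) ?_⟩
  rw [← hd.map_nhds_eq_of_equiv, eventually_map]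
  exact hp

end Pool.Agent.P.MP_f17f76_ag
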