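import Pool.Agent.P.MP_f17f76_ag.BrChow
import Pool.Agent.P.MP_f17f76_ag.Rat

/-!
The Lie algebras of abelian subvarieties form a countable sublattice of the subspaces of `ℂ^g`.
-/

namespace Pool.Agent.P.MP_f17f76_ag

open Filter Topology

namespace AbVar

variable {g N : ℕ} {A : AbVar g N} {L L₁ L₂ : Submodule ℂ (Fin g → ℂ)}

theorem isLie_bot : A.IsLie ⊥ := by
  intro x hx
  obtain rfl : x = 0 := hx
  exact Submodule.zero_mem _

theorem isLie_top : A.IsLie ⊤ := by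
  intro x _
  simp [A.spans]

theorem IsLie.sup (h₁ : A.IsLie L₁) (h₂ : A.IsLie L₂) : A.IsLie (L₁ ⊔ L₂) := by
  intro x hx
  obtain ⟨a, ha, b, hb, rfl⟩ := Submodule.mem_sup.1 hx
  have e₁ : (A.Λ : Set (Fin g → ℂ)) ∩ L₁ ⊆ (A.Λ : Set (Fin g → ℂ)) ∩ ↑(L₁ ⊔ L₂) :=
    fun y hy => ⟨hy.1, Submodule.mem_sup_left hy.2⟩
  have e₂ : (A.Λ : Set (Fin g → ℂ)) ∩ L₂ ⊆ (A.Λ : Set (Fin g → ℂ)) ∩ ↑(L₁ ⊔ L₂) :=
    fun y hy => ⟨hy.1, Submodule.mem_sup_right hy.2⟩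
  exact Submodule.add_mem (Submodule.span ℝ _) (Submodule.span_mono e₁ (h₁ ha))
    (Submodule.span_mono e₂ (h₂ hb))

theorem finite_lattice (A : AbVar g N) (R : ℝ) :
    {m : Fin g → ℂ | m ∈ A.Λ ∧ ‖m‖ ≤ R}.Finite := by
  have := A.discrete
  have hd : DiscreteTopology A.Λ.toAddSubgroup := A.discrete
  have h1 : IsClosed (A.Λ : Set (Fin g → ℂ)) := AddSubgroup.isClosed_of_discrete
    (H := A.Λ.toAddSubgroup)
  have h2 := ((isCompact_closedBall (0 : Fin g → ℂ) R).inter_left h1).finite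
    (IsDiscrete.mono (isDiscrete_iff_discreteTopology.2 A.discrete) Set.inter_subset_left)
  exact h2.subset fun m hm => ⟨hm.1, mem_closedBall_zero_iff.2 hm.2⟩

theorem countable_lattice (A : AbVar g N) : (A.Λ : Set (Fin g → ℂ)).Countable := by
  refine (Set.countable_iUnion fun n : ℕ => (A.finite_lattice n).countable).mono fun m hm => ?_
  obtain ⟨n, hn⟩ := exists_nat_ge ‖m‖
  exact Set.mem_iUnion.2 ⟨n, hm, hn⟩

/-- The image of the lattice in `ℂ^g / L` is discrete. -/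
theorem IsLie.discrete (hL : A.IsLie L) :
    ∃ ε > 0, ∀ m ∈ A.Λ, ∀ l ∈ L, ‖m - l‖ < ε → m ∈ L := by
  obtain ⟨R, hR⟩ := hL.exists_bdd
  have hc : IsClosed (L : Set (Fin g → ℂ)) := L.closed_of_finiteDimensional
  have h1 : ∀ᶠ ε in 𝓝[>] (0 : ℝ), ∀ m ∈ {m : Fin g → ℂ | m ∈ A.Λ ∧ ‖m‖ ≤ R + 1},
      ∀ l ∈ L, ‖m - l‖ < ε → m ∈ L := by
    refine (eventually_all_finite (A.finite_lattice _)).2 fun m _ => ?_
    by_cases hm : m ∈ L
    · exact Eventually.of_forall fun _ _ _ _ => hm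
    · obtain ⟨δ, hδ, h⟩ := Metric.isOpen_iff.1 hc.isOpen_compl m hm
      filter_upwards [Ioo_mem_nhdsGT hδ] with ε hε l hl hlt
      refine absurd hl (h ?_)
      rw [mem_ball_iff_norm', ]
      exact hlt.trans hε.2
  obtain ⟨ε, h2, h3⟩ := (h1.and (Ioo_mem_nhdsGT one_pos)).exists
  refine ⟨ε, h3.1, fun m hm l hl hlt => ?_⟩
  obtain ⟨μ, hμ, hμL, hb⟩ := hR l hl
  have h4 : m - μ - (l - μ) = m - l := by abel
  have h5 : m - μ ∈ L := h2 (m - μ) ⟨A.Λ.sub_mem hm hμ, by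
    have := norm_add_le (m - l) (l - μ)
    rw [sub_add_sub_cancel] at this
    linarith [h3.2]⟩ (l - μ) (L.sub_mem hl hμL) (h4 ▸ hlt)
  simpa using L.add_mem h5 hμL

/-- Near the origin the closure of `L + Λ` is `L`. -/
theorem IsLie.mem_of_closure (hL : A.IsLie L) : ∃ ε > 0, ∀ x, ‖x‖ < ε →
    x ∈ closure {x | ∃ l ∈ L, ∃ m ∈ A.Λ, x = l + m} → x ∈ L := by
  obtain ⟨ε, hε, h⟩ := hL.discrete
  refine ⟨ε / 2, half_pos hε, fun x hx hcl => ?_⟩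
  have hc : IsClosed (L : Set (Fin g → ℂ)) := L.closed_of_finiteDimensional
  rw [← SetLike.mem_coe, ← hc.closure_eq, Metric.mem_closure_iff]
  intro δ hδ
  obtain ⟨_, ⟨l, hl, m, hm, rfl⟩, hd⟩ := Metric.mem_closure_iff.1 hcl _ (lt_min hδ (half_pos hε))
  refine ⟨l + m, L.add_mem hl (h m hm (-l) (L.neg_mem hl) ?_), hd.trans_le (min_le_left _ _)⟩
  have h1 := norm_sub_le x (x - (l + m))
  have h2 : dist x (l + m) < ε / 2 := hd.trans_le (min_le_right _ _)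
  rw [dist_eq_norm] at h2
  rw [sub_sub_cancel] at h1
  rw [sub_neg_eq_add, add_comm]
  linarith

theorem IsLie.mem_of_line (hL : A.IsLie L) {L' : Submodule ℂ (Fin g → ℂ)} (hle : L' ≤ L)
    {v : Fin g → ℂ}
    (hv : ∀ τ : ℝ, (τ : ℂ) • v ∈ closure {x | ∃ l ∈ L', ∃ m ∈ A.Λ, x = l + m}) : v ∈ L := by
  obtain ⟨ε, hε, h⟩ := hL.mem_of_closure
  have hp : 0 < ‖v‖ + 1 := by positivity
  have h1 : ((ε / (‖v‖ + 1) : ℝ) : ℂ) ≠ 0 := Complex.ofReal_ne_zero.2 (div_pos hε hp).ne'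
  refine (L.smul_mem_iff h1).1 (h _ ?_ (closure_mono ?_ (hv _)))
  · rw [norm_smul, Complex.norm_real, Real.norm_of_nonneg (div_pos hε hp).le, div_mul_eq_mul_div,
      div_lt_iff₀ hp]
    nlinarith
  · rintro _ ⟨l, hl, m, hm, rfl⟩
    exact ⟨l, hle hl, m, hm, rfl⟩

theorem IsLie.inf (h₁ : A.IsLie L₁) (h₂ : A.IsLie L₂) : A.IsLie (L₁ ⊓ L₂) := by
  rcases A.rat_or_line (L₁ ⊓ L₂) with h | ⟨v, hv, h⟩
  · exact h
  · exact absurd ⟨h₁.mem_of_line inf_le_left h, h₂.mem_of_line inf_le_right h⟩ hv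

theorem IsLie.exists_finset (hL : A.IsLie L) : ∃ s : Finset (Fin g → ℂ),
    (s : Set (Fin g → ℂ)) ⊆ A.Λ ∧ Submodule.span ℂ (s : Set (Fin g → ℂ)) = L := by
  obtain ⟨s, h1, h2, h3⟩ := exists_linearIndependent ℝ ((A.Λ : Set (Fin g → ℂ)) ∩ L)
  refine ⟨h3.setFinite.toFinset, by simpa using h1.trans Set.inter_subset_left, ?_⟩
  rw [Set.Finite.coe_toFinset]
  refine le_antisymm (Submodule.span_le.2 (h1.trans Set.inter_subset_right)) fun x hx => ?_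
  exact Submodule.span_le_restrictScalars ℝ ℂ s (h2 ▸ hL hx)

theorem countable_isLie (A : AbVar g N) : {L | A.IsLie L}.Countable := by
  refine ((Set.countable_ofPred_finite_subset A.countable_lattice).image
    (Submodule.span ℂ)).mono fun L hL => ?_
  obtain ⟨s, h1, h2⟩ := IsLie.exists_finset hL
  exact ⟨s, ⟨s.finite_toSet, h1⟩, h2⟩

/-- The smallest Lie algebra of an abelian subvariety containing a given set. -/
theorem exists_hull (A : AbVar g N) (S : Set (Fin g → ℂ)) :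
    ∃ H, A.IsLie H ∧ S ⊆ H ∧ ∀ L, A.IsLie L → S ⊆ L → H ≤ L := by
  obtain ⟨H, ⟨h1, h2⟩, h3⟩ := exists_minimalFor_of_wellFoundedLT
    (fun L : Submodule ℂ (Fin g → ℂ) => A.IsLie L ∧ S ⊆ L) (fun L => Module.finrank ℂ L)
    ⟨⊤, isLie_top, Set.subset_univ _⟩
  refine ⟨H, h1, h2, fun L hL hS => ?_⟩
  have h4 : Module.finrank ℂ ↥(H ⊓ L) ≤ Module.finrank ℂ H := Submodule.finrank_mono inf_le_left
  have h5 := h3 (j := H ⊓ L) ⟨h1.inf hL, Set.subset_inter h2 hS⟩ h4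
  exact inf_eq_left.1 (Submodule.eq_of_le_of_finrank_le inf_le_left h5)

/-- The largest Lie algebra of an abelian subvariety inside a given subspace. -/
theorem exists_core (A : AbVar g N) (U : Submodule ℂ (Fin g → ℂ)) :
    ∃ H, A.IsLie H ∧ H ≤ U ∧ ∀ L, A.IsLie L → L ≤ U → L ≤ H := by
  obtain ⟨H, ⟨h1, h2⟩, h3⟩ := exists_maximalFor_of_wellFoundedGT
    (fun L : Submodule ℂ (Fin g → ℂ) => A.IsLie L ∧ L ≤ U) id ⟨⊥, isLie_bot, bot_le⟩
  refine ⟨H, h1, h2, fun L hL hU => ?_⟩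
  exact le_sup_right.trans (h3 (j := H ⊔ L) ⟨h1.sup hL, sup_le h2 hU⟩ le_sup_left)

end AbVar

end Pool.Agent.P.MP_f17f76_ag
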