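import Pool.Agent.P.MP_f17f76_ag.BrCut

/-!
Constant rank theorem (leaves of an analytic map modulo a subspace), regular points of a
parametrisation, fibres along rational subspaces, and the Lovász type formula.
-/

namespace Pool.Agent.P.MP_f17f76_ag

open MvPolynomial Filter Topology Module

section

variable {F G : Type} [NormedAddCommGroup F] [NormedSpace ℂ F] [NormedAddCommGroup G]
  [NormedSpace ℂ G]

theorem mem_of_rank {G E : Type} [AddCommGroup G] [Module ℂ G] [FiniteDimensional ℂ G]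
    [AddCommGroup E] [Module ℂ E] (p : G →ₗ[ℂ] E) {S R : Submodule ℂ G} (hS : ∀ x ∈ S, p x = 0)
    (hSR : S ≤ R) (hp : ∀ e, ∃ x ∈ R, p x = e) (hd : finrank ℂ R ≤ finrank ℂ E + finrank ℂ S)
    {x : G} (hx : x ∈ R) (h0 : p x = 0) : x ∈ S := by
  have h1 := (p.domRestrict R).finrank_range_add_finrank_ker
  have h2 : LinearMap.range (p.domRestrict R) = ⊤ := LinearMap.range_eq_top.2 fun e => by
    obtain ⟨x, hx, h⟩ := hp e
    exact ⟨⟨x, hx⟩, h⟩
  have h3 := (Submodule.comapSubtypeEquivOfLe hSR).finrank_eq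
  rw [h2, finrank_top] at h1
  have h4 : S.comap R.subtype = LinearMap.ker (p.domRestrict R) :=
    Submodule.eq_of_le_of_finrank_le (fun y hy => hS _ hy) (by omega)
  exact (h4.ge (show (⟨x, hx⟩ : R) ∈ LinearMap.ker (p.domRestrict R) from h0) :)

theorem sub_mem_of_fderiv_mem [FiniteDimensional ℂ G] {Ω : Set F} {f : F → G}
    {S : Submodule ℂ G} (ho : IsOpen Ω) (hc : IsPreconnected Ω)
    (hf : ∀ y ∈ Ω, DifferentiableAt ℂ f y) (hS : ∀ y ∈ Ω, ∀ v, fderiv ℂ f y v ∈ S) {y y' : F}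
    (hy : y ∈ Ω) (hy' : y' ∈ Ω) : f y - f y' ∈ S := by
  refine (Subspace.forall_mem_dualAnnihilator_apply_eq_zero_iff S _).1 fun φ hφ => ?_
  let φ' : G →L[ℂ] ℂ := LinearMap.toContinuousLinearMap φ
  have hd : ∀ z ∈ Ω, HasFDerivAt (fun u => φ' (f u)) (φ'.comp (fderiv ℂ f z)) z := fun z hz =>
    φ'.hasFDerivAt.comp z (hf z hz).hasFDerivAt
  have := ho.is_const_of_fderiv_eq_zero (𝕜 := ℂ) (f := fun u => φ' (f u)) hc
    (fun z hz => (hd z hz).differentiableAt.differentiableWithinAt) (fun z hz => by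
      rw [(hd z hz).fderiv]
      ext v
      exact (Submodule.mem_dualAnnihilator φ).1 hφ _ (hS z hz v)) hy hy'
  rw [map_sub]
  exact sub_eq_zero.2 this

theorem fderiv_mem_of_sub_mem' [FiniteDimensional ℂ G] {f : F → G} {S : Submodule ℂ G} {x : F}
    (hf : DifferentiableAt ℂ f x) {c : G} (h : ∀ᶠ u in 𝓝 x, f u - c ∈ S) (v : F) :
    fderiv ℂ f x v ∈ S := by
  refine (Subspace.forall_mem_dualAnnihilator_apply_eq_zero_iff S _).1 fun φ hφ => ?_
  let φ' : G →L[ℂ] ℂ := LinearMap.toContinuousLinearMap φ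
  have h1 : HasFDerivAt (fun u => φ' (f u - c)) (φ'.comp (fderiv ℂ f x)) x :=
    φ'.hasFDerivAt.comp x (hf.hasFDerivAt.sub_const c)
  have h2 := h1.unique ((hasFDerivAt_const (0 : ℂ) x).congr_of_eventuallyEq
    (h.mono fun u hu => (Submodule.mem_dualAnnihilator φ).1 hφ _ hu))
  exact congrArg (fun M => M v) h2

/-- Analytic inverse function theorem in finite dimension. -/
theorem exists_local_inv [FiniteDimensional ℂ F] [FiniteDimensional ℂ G] {Θ : F → G} {y : F}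
    (h : AnalyticAt ℂ Θ y) (hi : Function.Injective (fderiv ℂ Θ y))
    (hd : finrank ℂ F = finrank ℂ G) : ∃ χ : G → F, AnalyticAt ℂ χ (Θ y) ∧
      (∀ᶠ z in 𝓝 y, χ (Θ z) = z) ∧ ∀ᶠ x in 𝓝 (Θ y), Θ (χ x) = x := by
  have := FiniteDimensional.complete ℂ F
  let e : F ≃L[ℂ] G :=
    (LinearMap.linearEquivOfInjective (fderiv ℂ Θ y).toLinearMap hi hd).toContinuousLinearEquiv
  have h1 : ContDiffAt ℂ ⊤ Θ y := h.contDiffAt
  have h2 : HasFDerivAt Θ (e : F →L[ℂ] G) y := by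
    convert h.differentiableAt.hasFDerivAt using 1
    ext v
    rfl
  exact ⟨h1.localInverse h2 (by simp), (h1.to_localInverse h2 (by simp)).analyticAt,
    (h1.hasStrictFDerivAt' h2 (by simp)).eventually_left_inverse,
    (h1.hasStrictFDerivAt' h2 (by simp)).eventually_right_inverse⟩

theorem finrank_comap_add [FiniteDimensional ℂ F] [FiniteDimensional ℂ G] (M : F →ₗ[ℂ] G)
    (S : Submodule ℂ G) : finrank ℂ (S.comap M) + finrank ℂ ↥(LinearMap.range M ⊔ S) =
      finrank ℂ F + finrank ℂ S := by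
  have h1 := (S.mkQ.comp M).finrank_range_add_finrank_ker
  have h2 := (S.mkQ.domRestrict (LinearMap.range M ⊔ S)).finrank_range_add_finrank_ker
  rw [LinearMap.ker_comp, Submodule.ker_mkQ] at h1
  rw [LinearMap.range_domRestrict, LinearMap.ker_domRestrict, Submodule.ker_mkQ,
    (Submodule.comapSubtypeEquivOfLe le_sup_right).finrank_eq, Submodule.map_sup,
    Submodule.mkQ_map_self, sup_bot_eq, ← LinearMap.range_comp] at h2
  omega

/-- The constant rank theorem: local product structure along the leaves of `Ψ` modulo `S`. -/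
theorem exists_box [FiniteDimensional ℂ F] [FiniteDimensional ℂ G] {Ψ : F → G} {y : F}
    (han : AnalyticAt ℂ Ψ y) (S : Submodule ℂ G)
    (hmax : ∀ᶠ z in 𝓝 y, finrank ℂ ↥(LinearMap.range (fderiv ℂ Ψ z).toLinearMap ⊔ S) ≤
      finrank ℂ ↥(LinearMap.range (fderiv ℂ Ψ y).toLinearMap ⊔ S)) :
    ∃ (r : ℕ) (p : G →L[ℂ] Fin r → ℂ) (π : F →L[ℂ] S.comap (fderiv ℂ Ψ y).toLinearMap)
      (χ : S.comap (fderiv ℂ Ψ y).toLinearMap × (Fin r → ℂ) → F),
      r + finrank ℂ S = finrank ℂ ↥(LinearMap.range (fderiv ℂ Ψ y).toLinearMap ⊔ S) ∧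
      (∀ x ∈ S, p x = 0) ∧ AnalyticAt ℂ χ 0 ∧ χ 0 = y ∧ (∀ v, fderiv ℂ χ 0 (v, 0) = v) ∧
      (∀ᶠ z in 𝓝 y, χ (π (z - y), p (Ψ z - Ψ y)) = z) ∧
      ∀ᶠ x in 𝓝 0, π (χ x - y) = x.1 ∧ p (Ψ (χ x) - Ψ y) = x.2 ∧
        Ψ (χ x) - Ψ (χ (0, x.2)) ∈ S := by
  set M := (fderiv ℂ Ψ y).toLinearMap with hM
  set K := S.comap M with hK
  set R := LinearMap.range (S.mkQ.comp M)
  obtain ⟨ρ, hρ⟩ := LinearMap.exists_leftInverse_of_injective R.subtype R.ker_subtype
  obtain ⟨π₀, hπ⟩ := LinearMap.exists_leftInverse_of_injective K.subtype K.ker_subtype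
  let e := (Module.finBasis ℂ R).equivFun
  let p : G →L[ℂ] Fin (finrank ℂ R) → ℂ :=
    LinearMap.toContinuousLinearMap (e.toLinearMap.comp (ρ.comp S.mkQ))
  let π : F →L[ℂ] K := LinearMap.toContinuousLinearMap π₀
  have hp : ∀ v, p (M v) = e ⟨S.mkQ (M v), v, rfl⟩ := fun v =>
    congrArg e (LinearMap.congr_fun hρ ⟨_, v, rfl⟩)
  have hpS : ∀ x ∈ S, p x = 0 := fun x hx => by
    simp [p, (Submodule.Quotient.mk_eq_zero S).2 hx]
  have hd : finrank ℂ F = finrank ℂ (K × (Fin (finrank ℂ R) → ℂ)) := by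
    have h1 := (S.mkQ.comp M).finrank_range_add_finrank_ker
    rw [LinearMap.ker_comp, Submodule.ker_mkQ] at h1
    rw [Module.finrank_prod, Module.finrank_fin_fun, ← h1, add_comm]
  have hr : finrank ℂ R + finrank ℂ S = finrank ℂ ↥(LinearMap.range M ⊔ S) := by
    have h1 := finrank_comap_add M S
    rw [Module.finrank_prod, Module.finrank_fin_fun] at hd
    rw [← hK] at h1
    omega
  have hΘ : HasFDerivAt (fun z => (π (z - y), p (Ψ z - Ψ y)))
      (π.prod (p.comp (fderiv ℂ Ψ y))) y :=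
    (π.hasFDerivAt.comp y ((hasFDerivAt_id y).sub_const y)).prodMk
      (p.hasFDerivAt.comp y (han.differentiableAt.hasFDerivAt.sub_const _))
  have hinj : Function.Injective (π.prod (p.comp (fderiv ℂ Ψ y))) := by
    rw [injective_iff_map_eq_zero]
    intro v hv
    have h1 : p (M v) = 0 := congrArg Prod.snd hv
    rw [hp, e.map_eq_zero_iff] at h1
    have h2 : v ∈ K := (Submodule.Quotient.mk_eq_zero S).1 (congrArg Subtype.val h1)
    have h3 : π₀ v = ⟨v, h2⟩ := LinearMap.congr_fun hπ ⟨v, h2⟩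
    exact congrArg Subtype.val (h3.symm.trans (congrArg Prod.fst hv))
  obtain ⟨χ, h1, h2, h3⟩ := exists_local_inv (Θ := fun z => (π (z - y), p (Ψ z - Ψ y)))
    (((π.analyticAt _).comp (analyticAt_id.sub analyticAt_const)).prod
      ((p.analyticAt _).comp (han.sub analyticAt_const))) (hΘ.fderiv ▸ hinj) hd
  have h0 : ((π (y - y), p (Ψ y - Ψ y)) : K × _) = 0 := by simp
  rw [h0] at h1 h3
  have h4 : χ 0 = y := h0 ▸ h2.self_of_nhds
  have ht : Tendsto χ (𝓝 0) (𝓝 y) := h4 ▸ h1.continuousAt.tendsto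
  refine ⟨_, p, π, χ, hr, hpS, h1, h4, fun v => ?_, h2, ?_⟩
  · have hΘ' : HasFDerivAt (fun z => (π (z - y), p (Ψ z - Ψ y)))
        (π.prod (p.comp (fderiv ℂ Ψ y))) (χ 0) := by rw [h4]; exact hΘ
    have h5 := (hΘ'.comp 0 h1.differentiableAt.hasFDerivAt).unique
      ((hasFDerivAt_id (0 : K × _)).congr_of_eventuallyEq h3)
    refine hinj ((congrArg (fun M => M (v, 0)) h5).trans (Prod.ext ?_ ?_))
    · exact (LinearMap.congr_fun hπ v).symm
    · exact (hpS _ v.2).symm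
  · obtain ⟨ε, hε, hb⟩ := Metric.eventually_nhds_iff_ball.1 (h1.eventually_analyticAt.and
      ((ht.eventually (han.eventually_analyticAt.and hmax)).and h3.eventually_nhds))
    have key : ∀ x ∈ Metric.ball (0 : K × (Fin (finrank ℂ R) → ℂ)) ε, ∀ v : K,
        fderiv ℂ Ψ (χ x) (fderiv ℂ χ x (v, 0)) ∈ S := by
      intro x hx v
      obtain ⟨h5, ⟨h6, h7⟩, h8⟩ := hb x hx
      have h9 := (p.hasFDerivAt.comp x ((h6.differentiableAt.hasFDerivAt.comp x
        h5.differentiableAt.hasFDerivAt).sub_const (Ψ y))).unique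
        (hasFDerivAt_snd.congr_of_eventuallyEq (h8.mono fun z hz => congrArg Prod.snd hz))
      refine mem_of_rank (R := LinearMap.range (fderiv ℂ Ψ (χ x)).toLinearMap ⊔ S) p.toLinearMap
        hpS le_sup_right (fun c => ⟨_, Submodule.mem_sup_left
        ⟨fderiv ℂ χ x (0, c), rfl⟩, congrArg (fun M => M (0, c)) h9⟩) (h7.trans ?_)
        (Submodule.mem_sup_left ⟨_, rfl⟩) (congrArg (fun M => M (v, 0)) h9)
      rw [Module.finrank_fin_fun, hr]
    filter_upwards [h3, Metric.ball_mem_nhds 0 hε] with x hx hxb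
    refine ⟨congrArg Prod.fst hx, congrArg Prod.snd hx, ?_⟩
    have hm : ∀ u ∈ Metric.ball (0 : K) ε, (u, x.2) ∈ Metric.ball (0 : K × _) ε := by
      intro u hu
      rw [← ball_prod_same] at hxb ⊢
      exact ⟨hu, hxb.2⟩
    have hd : ∀ u ∈ Metric.ball (0 : K) ε, HasFDerivAt (fun u : K => Ψ (χ (u, x.2)))
        (((fderiv ℂ Ψ (χ (u, x.2))).comp (fderiv ℂ χ (u, x.2))).comp
          (ContinuousLinearMap.inl ℂ _ _)) u :=
      fun u hu => HasFDerivAt.comp (g := Ψ ∘ χ) u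
        ((hb _ (hm u hu)).2.1.1.differentiableAt.hasFDerivAt.comp _
        (hb _ (hm u hu)).1.differentiableAt.hasFDerivAt) (hasFDerivAt_prodMk_left u x.2)
    refine sub_mem_of_fderiv_mem (f := fun u : K => Ψ (χ (u, x.2))) Metric.isOpen_ball
      (convex_ball _ _).isPreconnected (fun u hu => (hd u hu).differentiableAt)
      (fun u hu v => ?_) (y := x.1) ?_ (Metric.mem_ball_self hε)
    · rw [(hd u hu).fderiv]
      exact key _ (hm u hu) v
    · rw [← ball_prod_same] at hxb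
      exact hxb.1

/-- The leaf through a point of locally maximal rank. -/
theorem exists_leaf [FiniteDimensional ℂ F] [FiniteDimensional ℂ G] {Ψ : F → G} {y : F}
    (han : AnalyticAt ℂ Ψ y) (S : Submodule ℂ G)
    (hmax : ∀ᶠ z in 𝓝 y, finrank ℂ ↥(LinearMap.range (fderiv ℂ Ψ z).toLinearMap ⊔ S) ≤
      finrank ℂ ↥(LinearMap.range (fderiv ℂ Ψ y).toLinearMap ⊔ S)) :
    ∃ σ : S.comap (fderiv ℂ Ψ y).toLinearMap → F, AnalyticAt ℂ σ 0 ∧ σ 0 = y ∧
      (∀ v, fderiv ℂ σ 0 v = v) ∧ (∀ᶠ u in 𝓝 0, Ψ (σ u) - Ψ y ∈ S) ∧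
      ∃ π : F →L[ℂ] S.comap (fderiv ℂ Ψ y).toLinearMap,
        ∀ᶠ z in 𝓝 y, Ψ z - Ψ y ∈ S → σ (π (z - y)) = z := by
  obtain ⟨r, p, π, χ, -, h1, h2, h3, h4, h5, h6⟩ := exists_box han S hmax
  refine ⟨fun u => χ (u, 0), AnalyticAt.comp (g := χ) h2 (analyticAt_id.prod analyticAt_const),
    h3, fun v => ?_, ?_, π, h5.mono fun z hz h => by simpa only [h1 _ h] using hz⟩
  · have h7 : HasFDerivAt (fun u => χ (u, 0)) _ 0 := HasFDerivAt.comp (g := χ) 0
      h2.differentiableAt.hasFDerivAt (hasFDerivAt_prodMk_left 0 0)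
    rw [h7.fderiv]
    exact h4 v
  · filter_upwards [(Continuous.prodMk_left (0 : Fin r → ℂ)).continuousAt.eventually h6] with u hu
    have h7 : Ψ (χ (u, 0)) - Ψ (χ 0) ∈ S := hu.2.2
    rwa [h3] at h7

end

end Pool.Agent.P.MP_f17f76_ag
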