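import Pool.Agent.P.MP_f17f76_ag.Defs2

/-!
Curve selection: an analytic arc inside the analytic closure of a set without isolated points.
-/

namespace Pool.Agent.P.MP_f17f76_ag

open MvPolynomial Filter Topology

theorem cs_caseA {E : Type} [NormedAddCommGroup E] [NormedSpace ℂ E] [CompleteSpace E]
    (U : Set E) (hU : IsOpen U) (C : Set E) (hCU : C ⊆ U)
    (hA : ∀ h : E → ℂ, AnalyticOnNhd ℂ h U → (∀ x ∈ C, h x = 0) → ∀ x ∈ C, fderiv ℂ h x = 0)
    (p : E) (hp : p ∈ C) (v : E) (h : E → ℂ) (hh : AnalyticOnNhd ℂ h U)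
    (h0 : ∀ x ∈ C, h x = 0) : ∀ᶠ s in 𝓝 (0 : ℂ), h (p + s • v) = 0 := by
  have hl : ∀ s : ℂ, HasDerivAt (fun s : ℂ => p + s • v) v s := by
    intro s
    simpa using ((hasDerivAt_id s).smul_const v).const_add p
  have hlc : Continuous (fun s : ℂ => p + s • v) := by fun_prop
  have hmem : ∀ᶠ s in 𝓝 (0 : ℂ), p + s • v ∈ U := by
    apply hlc.continuousAt.preimage_mem_nhds
    simpa using hU.mem_nhds (hCU hp)
  have key : ∀ k : ℕ, ∀ h : E → ℂ, AnalyticOnNhd ℂ h U → (∀ x ∈ C, h x = 0) →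
      iteratedDeriv k (fun s : ℂ => h (p + s • v)) 0 = 0 := by
    intro k
    induction k with
    | zero =>
      intro h _ h0
      simpa using h0 p hp
    | succ k ih =>
      intro h hh h0
      rw [iteratedDeriv_succ']
      have h1 : AnalyticOnNhd ℂ (fun u => fderiv ℂ h u v) U := by
        intro x hx
        exact ((ContinuousLinearMap.apply ℂ ℂ v).analyticAt _).comp (hh.fderiv x hx)
      have h2 : deriv (fun s : ℂ => h (p + s • v)) =ᶠ[𝓝 0]
          fun s : ℂ => fderiv ℂ h (p + s • v) v := by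
        filter_upwards [hmem] with s hs
        exact ((hh _ hs).differentiableAt.hasFDerivAt.comp_hasDerivAt s (hl s)).deriv
      rw [h2.iteratedDeriv_eq k]
      apply ih (fun u => fderiv ℂ h u v) h1
      intro x hx
      simp [hA h hh h0 x hx]
  have hla : AnalyticAt ℂ (fun s : ℂ => p + s • v) 0 := by fun_prop
  have han : AnalyticAt ℂ (fun s : ℂ => h (p + s • v)) 0 := by
    have : AnalyticAt ℂ h (p + (0 : ℂ) • v) := by simpa using hh p (hCU hp)
    exact AnalyticAt.comp (f := fun s : ℂ => p + s • v) this hla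
  rw [← analyticOrderAt_eq_top, ENat.eq_top_iff_forall_ge]
  intro m
  rw [natCast_le_analyticOrderAt_iff_iteratedDeriv_eq_zero han]
  intro i _
  exact key i h hh h0

theorem cs_local (n : ℕ) : ∀ (E : Type) [NormedAddCommGroup E] [NormedSpace ℂ E]
    [FiniteDimensional ℂ E], Module.finrank ℂ E = n → ∀ (U : Set E), IsOpen U →
    ∀ C : Set E, C ⊆ U → C.Nonempty → (∀ x ∈ C, ∀ N ∈ 𝓝 x, ∃ x' ∈ C, x' ≠ x ∧ x' ∈ N) →
    ∃ f : ℂ → E, AnalyticAt ℂ f 0 ∧ deriv f 0 ≠ 0 ∧ f 0 ∈ U ∧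
      ∀ h : E → ℂ, AnalyticOnNhd ℂ h U → (∀ x ∈ C, h x = 0) →
        ∀ᶠ s in 𝓝 (0 : ℂ), h (f s) = 0 := by
  induction n using Nat.strong_induction_on with
  | _ n ih =>
  intro E _ _ _ hn U hU C hCU hne hacc
  have : CompleteSpace E := FiniteDimensional.complete ℂ E
  by_cases hA : ∀ h : E → ℂ, AnalyticOnNhd ℂ h U → (∀ x ∈ C, h x = 0) →
      ∀ x ∈ C, fderiv ℂ h x = 0
  · obtain ⟨p, hp⟩ := hne
    obtain ⟨q, -, hqp, -⟩ := hacc p hp Set.univ univ_mem
    refine ⟨fun s => p + s • (q - p), by fun_prop, ?_, by simpa using hCU hp, ?_⟩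
    · have hl : HasDerivAt (fun s : ℂ => p + s • (q - p)) (q - p) 0 := by
        simpa using ((hasDerivAt_id (0 : ℂ)).smul_const (q - p)).const_add p
      rw [hl.deriv]
      exact sub_ne_zero.2 hqp
    · intro h hh h0
      exact cs_caseA U hU C hCU hA p hp (q - p) h hh h0
  · push Not at hA
    obtain ⟨g, hg, hg0, p, hp, hL⟩ := hA
    set L : E →L[ℂ] ℂ := fderiv ℂ g p with hLdef
    obtain ⟨e, he⟩ : ∃ e : E, L e = 1 := by
      obtain ⟨w, hw⟩ : ∃ w : E, L w ≠ 0 := by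
        by_contra hc
        push Not at hc
        exact hL (ContinuousLinearMap.ext hc)
      exact ⟨(L w)⁻¹ • w, by simp [hw]⟩
    let K : Submodule ℂ E := LinearMap.ker (L : E →ₗ[ℂ] ℂ)
    have hK : Module.finrank ℂ K < n := by
      rw [← hn]
      apply Submodule.finrank_lt
      intro htop
      have : e ∈ K := by rw [htop]; trivial
      have h2 : L e = 0 := this
      rw [he] at h2
      exact one_ne_zero h2
    let π : E →L[ℂ] K := (ContinuousLinearMap.id ℂ E - L.smulRight e).codRestrict K (by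
      intro x
      show L (x - L x • e) = 0
      simp [he])
    have hπ : ∀ x, (π x : E) = x - L x • e := fun x => rfl
    let i : E ≃L[ℂ] ℂ × K := ContinuousLinearEquiv.equivOfInverse (L.prod π)
      ((ContinuousLinearMap.fst ℂ ℂ K).smulRight e + K.subtypeL ∘L ContinuousLinearMap.snd ℂ ℂ K)
      (by
        intro x
        show L x • e + (π x : E) = x
        rw [hπ]; abel)
      (by
        rintro ⟨t, k⟩
        have hk : L (k : E) = 0 := k.2
        have h1 : L (t • e + (k : E)) = t := by simp [he, hk]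
        refine Prod.ext h1 (Subtype.ext ?_)
        show (π (t • e + (k : E)) : E) = k
        rw [hπ, h1]; abel)
    let Φ : E → ℂ × K := fun u => (g u, π u)
    have hgp : AnalyticAt ℂ g p := hg p (hCU hp)
    have hΦa : AnalyticAt ℂ Φ p := hgp.prod (π.analyticAt p)
    have hΦd : HasStrictFDerivAt Φ (i : E →L[ℂ] ℂ × K) p :=
      hgp.hasStrictFDerivAt.prodMk π.hasStrictFDerivAt
    let φ := hΦd.toOpenPartialHomeomorph Φ
    have hφ : (φ : E → ℂ × K) = Φ := rfl
    have hps : p ∈ φ.source := hΦd.mem_toOpenPartialHomeomorph_source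
    have hΨa : AnalyticAt ℂ φ.symm (φ p) :=
      φ.analyticAt_symm' hps hΦa hΦd.hasFDerivAt.fderiv
    have hev : ∀ᶠ y in 𝓝 (φ p), AnalyticAt ℂ φ.symm y ∧ y ∈ φ.target ∧ φ.symm y ∈ U := by
      refine hΨa.eventually_analyticAt.and (Filter.Eventually.and ?_ ?_)
      · exact φ.open_target.mem_nhds (φ.map_source hps)
      · exact (φ.tendsto_symm hps).eventually (hU.mem_nhds (hCU hp))
    obtain ⟨V, hV, hVo, hpV⟩ := eventually_nhds_iff.1 hev
    let W : Set E := φ.source ∩ φ ⁻¹' V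
    have hWo : IsOpen W := φ.isOpen_inter_preimage hVo
    let U' : Set K := {k | ((0 : ℂ), k) ∈ V}
    have hU'o : IsOpen U' := hVo.preimage (by fun_prop : Continuous fun k : K => ((0 : ℂ), k))
    have hΦC : ∀ x ∈ C, φ x = (0, π x) := by
      intro x hx
      show (g x, π x) = (0, π x)
      rw [hg0 x hx]
    obtain ⟨f', hf'a, hf'd, hf'U, hf'h⟩ := ih _ hK K rfl U' hU'o (π '' (C ∩ W))
      (by
        rintro _ ⟨x, ⟨hxC, hxW⟩, rfl⟩
        show ((0 : ℂ), π x) ∈ V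
        rw [← hΦC x hxC]
        exact hxW.2)
      ⟨π p, p, ⟨hp, hps, hpV⟩, rfl⟩
      (by
        rintro _ ⟨x, ⟨hxC, hxW⟩, rfl⟩ N hN
        obtain ⟨x', hx'C, hne', hx'N, hx'W⟩ := hacc x hxC (π ⁻¹' N ∩ W)
          (inter_mem (π.continuous.continuousAt.preimage_mem_nhds hN) (hWo.mem_nhds hxW))
        refine ⟨π x', ⟨x', ⟨hx'C, hx'W⟩, rfl⟩, ?_, hx'N⟩
        intro heq
        apply hne'
        apply φ.injOn hx'W.1 hxW.1
        rw [hΦC x' hx'C, hΦC x hxC, heq])
    have hcomp : ∀ k ∈ U', AnalyticAt ℂ (fun k : K => φ.symm ((0 : ℂ), k)) k := by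
      intro k hk
      exact AnalyticAt.comp (f := fun k : K => ((0 : ℂ), k)) (hV _ hk).1
        (analyticAt_const.prod analyticAt_id)
    have hfa : AnalyticAt ℂ (fun s => φ.symm ((0 : ℂ), f' s)) 0 :=
      AnalyticAt.comp (g := fun k : K => φ.symm ((0 : ℂ), k)) (f := f') (hcomp _ hf'U) hf'a
    refine ⟨fun s => φ.symm ((0 : ℂ), f' s), hfa, ?_, (hV _ hf'U).2.2, ?_⟩
    · intro hd
      apply hf'd
      have h1 : f' =ᶠ[𝓝 0] fun s => π (φ.symm ((0 : ℂ), f' s)) := by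
        have : ∀ᶠ s in 𝓝 (0 : ℂ), f' s ∈ U' :=
          hf'a.continuousAt.preimage_mem_nhds (hU'o.mem_nhds hf'U)
        filter_upwards [this] with s hs
        have h2 := φ.right_inv (hV _ hs).2.1
        exact (congrArg Prod.snd h2).symm
      rw [h1.deriv_eq]
      have h3 := π.hasFDerivAt.comp_hasDerivAt (0 : ℂ) hfa.differentiableAt.hasDerivAt
      rw [hd, map_zero] at h3
      exact h3.deriv
    · intro h hh h0
      apply hf'h (fun k => h (φ.symm ((0 : ℂ), k)))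
      · intro k hk
        exact AnalyticAt.comp (f := fun k : K => φ.symm ((0 : ℂ), k)) (hh _ (hV _ hk).2.2)
          (hcomp k hk)
      · rintro _ ⟨x, ⟨hxC, hxW⟩, rfl⟩
        show h (φ.symm ((0 : ℂ), π x)) = 0
        rw [← hΦC x hxC, φ.left_inv hxW.1]
        exact h0 x hxC

theorem curve_selection {n : ℕ} (C : Set (Fin n → ℂ)) (hne : C.Nonempty)
    (hacc : ∀ x ∈ C, ∀ ε > 0, ∃ x' ∈ C, x' ≠ x ∧ dist x' x < ε) :
    ∃ f : ℂ → (Fin n → ℂ), AnalyticAt ℂ f 0 ∧ deriv f 0 ≠ 0 ∧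
      ∀ h : (Fin n → ℂ) → ℂ, AnalyticOnNhd ℂ h Set.univ → (∀ x ∈ C, h x = 0) →
        ∀ᶠ s in 𝓝 (0 : ℂ), h (f s) = 0 := by
  obtain ⟨f, hf1, hf2, -, hf3⟩ := cs_local _ (Fin n → ℂ) rfl Set.univ isOpen_univ C
    (Set.subset_univ _) hne (by
      intro x hx N hN
      obtain ⟨ε, hε, hb⟩ := Metric.mem_nhds_iff.1 hN
      obtain ⟨x', h1, h2, h3⟩ := hacc x hx ε hε
      exact ⟨x', h1, h2, hb h3⟩)
  exact ⟨f, hf1, hf2, hf3⟩

end Pool.Agent.P.MP_f17f76_ag
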