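import Pool.Agent.P.MP_f17f76_ag.Defs2

/-! The minimum modulus principle on the closure of a set with many tangent discs. -/

namespace Pool.Agent.P.MP_f17f76_ag

open MvPolynomial Filter Topology
open scoped InnerProductSpace

theorem maxp_proj {V : Type} [NormedAddCommGroup V] [InnerProductSpace ℂ V] (g : ℂ → V)
    (hg : AnalyticAt ℂ g 0) (h0 : g 0 ≠ 0) (t : ℂ) (ht : deriv g 0 = t • g 0) {η : ℝ}
    (hη : 0 < η) : ∃ α : ℂ → ℂ, AnalyticAt ℂ α 0 ∧ α 0 = 1 ∧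
      ∀ᶠ s in 𝓝 (0 : ℂ), ‖g s‖ ^ 2 ≤ (‖α s‖ * ‖g 0‖) ^ 2 * Real.exp (η ^ 2 * ‖s‖ ^ 2) := by
  have hn : 0 < ‖g 0‖ := norm_pos_iff.2 h0
  have hn' : ((‖g 0‖ : ℂ) ^ 2) ≠ 0 := pow_ne_zero _ (by exact_mod_cast hn.ne')
  set L : V →L[ℂ] ℂ := ((‖g 0‖ : ℂ) ^ 2)⁻¹ • innerSL ℂ (g 0) with hL
  have hLa : ∀ w, L w = ((‖g 0‖ : ℂ) ^ 2)⁻¹ * ⟪g 0, w⟫_ℂ := fun w => by simp [hL]
  have hL0 : L (g 0) = 1 := by
    rw [hLa, inner_self_eq_norm_sq_to_K]
    exact inv_mul_cancel₀ hn'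
  have hα : AnalyticAt ℂ (fun s => L (g s)) 0 := (L.analyticAt _).comp hg
  refine ⟨fun s => L (g s), hα, hL0, ?_⟩
  have hd := hg.differentiableAt.hasDerivAt
  have hρ : HasDerivAt (fun s => g s - L (g s) • g 0) 0 0 := by
    have := hd.sub ((L.hasFDerivAt.comp_hasDerivAt 0 hd).smul_const (g 0))
    rw [ht, map_smul, hL0, smul_eq_mul, mul_one, sub_self] at this
    exact this
  have h1 := hρ.isLittleO.bound (c := ‖g 0‖ * η / 2) (by positivity)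
  have h2 : ∀ᶠ s in 𝓝 (0 : ℂ), 1 / 2 < ‖L (g s)‖ :=
    hα.continuousAt.norm.eventually (lt_mem_nhds (by simp only [hL0]; norm_num))
  filter_upwards [h1, h2] with s h1 h2
  simp only [hL0, one_smul, sub_self, sub_zero, smul_zero] at h1
  have h3 : ⟪L (g s) • g 0, g s - L (g s) • g 0⟫_ℂ = 0 := by
    rw [inner_smul_left, inner_sub_right, inner_smul_right, inner_self_eq_norm_sq_to_K, hLa,
      mul_comm _ ⟪g 0, g s⟫_ℂ, mul_assoc]
    erw [inv_mul_cancel₀ hn']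
    simp
  have h4 := norm_add_sq_eq_norm_sq_add_norm_sq_of_inner_eq_zero _ _ h3
  rw [add_sub_cancel, norm_smul] at h4
  have h5 : ‖g s - L (g s) • g 0‖ ≤ ‖L (g s)‖ * ‖g 0‖ * (η * ‖s‖) := by
    refine h1.trans ?_
    have : 0 ≤ ‖g 0‖ * η * ‖s‖ := by positivity
    nlinarith
  have h6 := mul_self_le_mul_self (norm_nonneg _) h5
  have h7 := Real.add_one_le_exp (η ^ 2 * ‖s‖ ^ 2)
  have h8 : 0 ≤ (‖L (g s)‖ * ‖g 0‖) ^ 2 := by positivity
  nlinarith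

theorem maxp_local {V F : Type} [NormedAddCommGroup V] [InnerProductSpace ℂ V]
    [NormedAddCommGroup F] [InnerProductSpace ℂ F] (d : ℂ → ℂ) (hd : AnalyticAt ℂ d 0)
    (hd0 : d 0 ≠ 0) (x : ℂ → F) (hx : AnalyticAt ℂ x 0) (hx' : deriv x 0 ≠ 0) (g : ℂ → V)
    (hg : AnalyticAt ℂ g 0) (h0 : g 0 ≠ 0) (t : ℂ) (ht : deriv g 0 = t • g 0) (m : ℕ)
    (hmax : ∀ᶠ s in 𝓝 (0 : ℂ), ‖d s‖ * Real.exp (‖x s‖ ^ 2) / (‖g s‖ ^ 2) ^ m ≤
      ‖d 0‖ * Real.exp (‖x 0‖ ^ 2) / (‖g 0‖ ^ 2) ^ m) : False := by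
  have hv : 0 < ‖deriv x 0‖ := norm_pos_iff.2 hx'
  have hn : 0 < ‖g 0‖ := norm_pos_iff.2 h0
  obtain ⟨η, hη⟩ : ∃ η, η = ‖deriv x 0‖ / (2 * (m + 1)) := ⟨_, rfl⟩
  have hη0 : 0 < η := by rw [hη]; positivity
  obtain ⟨α, hα, hα0, hαg⟩ := maxp_proj g hg h0 t ht hη0
  set H : ℂ → ℂ := fun s => d s * Complex.exp ((‖x 0‖ ^ 2 : ℝ) + 2 * innerSL ℂ (x 0) (x s - x 0)) /
    ((α s * (‖g 0‖ : ℝ)) ^ 2) ^ m with hH
  have hHa : AnalyticAt ℂ H 0 := by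
    refine (hd.mul (analyticAt_const.add (analyticAt_const.mul
      (((innerSL ℂ (x 0)).analyticAt _).comp (hx.sub analyticAt_const)))).cexp).div
      (((hα.mul analyticAt_const).pow 2).pow m) ?_
    rw [hα0, one_mul]
    exact pow_ne_zero _ (pow_ne_zero _ (by exact_mod_cast hn.ne'))
  have hHn : ∀ s, ‖H s‖ = ‖d s‖ * Real.exp (‖x s‖ ^ 2 - ‖x s - x 0‖ ^ 2) /
      ((‖α s‖ * ‖g 0‖) ^ 2) ^ m := by
    intro s
    have h1 := norm_add_sq (𝕜 := ℂ) (x 0) (x s - x 0)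
    rw [add_sub_cancel] at h1
    simp only [hH, norm_div, norm_mul, norm_pow, Complex.norm_exp, Complex.norm_real, norm_norm]
    congr 3
    rw [h1]
    simp only [Complex.add_re, Complex.ofReal_re, innerSL_apply_apply, Complex.mul_re,
      Complex.re_ofNat, Complex.im_ofNat, zero_mul, sub_zero, RCLike.re_to_complex]
    ring
  have hH0 : ‖H 0‖ = ‖d 0‖ * Real.exp (‖x 0‖ ^ 2) / (‖g 0‖ ^ 2) ^ m := by
    rw [hHn, hα0]
    simp
  have hH0' : 0 < ‖H 0‖ := by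
    rw [hH0]
    have := norm_pos_iff.2 hd0
    positivity
  have h1 := hx.differentiableAt.hasDerivAt.isLittleO.bound (c := ‖deriv x 0‖ / 2) (by positivity)
  have h2 : ∀ᶠ s in 𝓝 (0 : ℂ), g s ≠ 0 := hg.continuousAt.eventually_ne h0
  have h2' : ∀ᶠ s in 𝓝 (0 : ℂ), α s ≠ 0 :=
    hα.continuousAt.eventually_ne (by rw [hα0]; exact one_ne_zero)
  have h3 : ∀ᶠ s in 𝓝 (0 : ℂ), ‖H s‖ * Real.exp (η ^ 2 * ‖s‖ ^ 2) ≤ ‖H 0‖ := by
    filter_upwards [h1, h2, h2', hαg, hmax] with s h1 h2 h2' h3 h4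
    rw [hH0]
    refine le_trans ?_ h4
    have h5 : ‖deriv x 0‖ / 2 * ‖s‖ ≤ ‖x s - x 0‖ := by
      rw [sub_zero] at h1
      have := norm_sub_norm_le (s • deriv x 0) (x s - x 0)
      rw [norm_sub_rev (s • _), norm_smul] at this
      linarith
    have h6 : ‖deriv x 0‖ / 2 = (m + 1) * η := by rw [hη]; field_simp
    have h7 : (m + 1) * (η ^ 2 * ‖s‖ ^ 2) ≤ ‖x s - x 0‖ ^ 2 := by
      have h8 := pow_le_pow_left₀ (by positivity) h5 2
      rw [h6] at h8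
      refine le_trans ?_ h8
      have h9 : (0 : ℝ) ≤ m := Nat.cast_nonneg m
      have h10 : 0 ≤ η ^ 2 * ‖s‖ ^ 2 := by positivity
      nlinarith [mul_nonneg (mul_nonneg h9 (add_nonneg h9 zero_le_one)) h10]
    have hg' : 0 < ‖g s‖ := norm_pos_iff.2 h2
    have hα' : 0 < ‖α s‖ := norm_pos_iff.2 h2'
    have h8 : (‖g s‖ ^ 2) ^ m ≤
        ((‖α s‖ * ‖g 0‖) ^ 2) ^ m * Real.exp (m * (η ^ 2 * ‖s‖ ^ 2)) := by
      rw [Real.exp_nat_mul, ← mul_pow]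
      exact pow_le_pow_left₀ (by positivity) h3 m
    rw [hHn]
    calc _ = ‖d s‖ * Real.exp (‖x s‖ ^ 2 - ‖x s - x 0‖ ^ 2 + (m + 1) * (η ^ 2 * ‖s‖ ^ 2)) /
          (((‖α s‖ * ‖g 0‖) ^ 2) ^ m * Real.exp (m * (η ^ 2 * ‖s‖ ^ 2))) := by
          rw [add_mul (m : ℝ), one_mul, Real.exp_add, Real.exp_add]
          field_simp
      _ ≤ _ := by
          gcongr
          linarith
  have h4 : IsLocalMax (norm ∘ H) 0 := by
    filter_upwards [h3] with s h3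
    exact le_trans (le_mul_of_one_le_right (norm_nonneg _) (Real.one_le_exp (by positivity))) h3
  have h5 := Complex.eventually_eq_of_isLocalMax_norm
    (hHa.eventually_analyticAt.mono fun s hs => hs.differentiableAt) h4
  obtain ⟨s, ⟨h6, h7⟩, h8⟩ := (((h3.and h5).filter_mono nhdsWithin_le_nhds).and
    (self_mem_nhdsWithin (s := ({0}ᶜ : Set ℂ)))).exists
  have h9 : 0 < ‖s‖ := norm_pos_iff.2 h8
  rw [h7] at h6
  have h10 := Real.one_lt_exp_iff.2 (by positivity : 0 < η ^ 2 * ‖s‖ ^ 2)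
  nlinarith

theorem maxp_quot {k : ℕ} (a : EuclideanSpace ℂ (Fin k)) (ha : a ≠ 0) :
    ∃ m < k, ∃ B : EuclideanSpace ℂ (Fin k) →ₗ[ℂ] (Fin m → ℂ), ∀ w, B w = 0 →
      ∃ t : ℂ, w = t • a := by
  have h1 := (ℂ ∙ a).finrank_quotient_add_finrank
  rw [finrank_span_singleton ha, finrank_euclideanSpace_fin] at h1
  refine ⟨_, by omega, (Module.finBasis ℂ (EuclideanSpace ℂ (Fin k) ⧸ (ℂ ∙ a))).equivFun.toLinearMap
    ∘ₗ (ℂ ∙ a).mkQ, fun w hw => ?_⟩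
  rw [LinearMap.comp_apply, LinearEquiv.coe_coe, LinearEquiv.map_eq_zero_iff, Submodule.mkQ_apply,
    Submodule.Quotient.mk_eq_zero, Submodule.mem_span_singleton] at hw
  obtain ⟨t, ht⟩ := hw
  exact ⟨t, ht.symm⟩

theorem mp_closure {E : Type} [NormedAddCommGroup E] [NormedSpace ℂ E] [FiniteDimensional ℂ E]
    (k : ℕ) (S₀ : Set E) (D : E → ℂ) (hD : AnalyticOnNhd ℂ D Set.univ)
    (hne : ∀ q ∈ S₀, D q ≠ 0) (hcl : ∀ q ∈ closure S₀, D q ≠ 0 → q ∈ S₀)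
    (htan : ∀ q ∈ S₀, ∀ m < k, ∀ B : E →ₗ[ℂ] (Fin m → ℂ), ∃ γ : ℂ → E, AnalyticAt ℂ γ 0 ∧
      γ 0 = q ∧ (∀ᶠ s in 𝓝 (0 : ℂ), γ s ∈ S₀) ∧ deriv γ 0 ≠ 0 ∧ B (deriv γ 0) = 0) :
    MP k (closure S₀) := by
  intro G hG c r p hp hG0
  by_contra hcon
  push Not at hcon
  have := FiniteDimensional.proper ℂ E
  have hGc : Continuous G := continuousOn_univ.1 hG.continuousOn
  have hDc : Continuous D := continuousOn_univ.1 hD.continuousOn
  have ha : 0 < ‖G p‖ := norm_pos_iff.2 (hG0 p hp)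
  have hK : IsCompact (closure S₀ ∩ Metric.closedBall c r) :=
    (isCompact_closedBall c r).inter_left isClosed_closure
  have hKs : IsCompact (closure S₀ ∩ Metric.sphere c r) :=
    (isCompact_sphere c r).inter_left isClosed_closure
  obtain ⟨b, hb, hbs⟩ : ∃ b, ‖G p‖ < b ∧ ∀ q ∈ closure S₀ ∩ Metric.sphere c r, b ≤ ‖G q‖ := by
    rcases (closure S₀ ∩ Metric.sphere c r).eq_empty_or_nonempty with h | h
    · exact ⟨‖G p‖ + 1, by linarith, by simp [h]⟩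
    · obtain ⟨q, hq, hq'⟩ := hKs.exists_isMinOn h hGc.norm.continuousOn
      exact ⟨‖G q‖, hcon q hq, fun q' h' => hq' h'⟩
  obtain ⟨p', ⟨hp1, hp2⟩, hp3⟩ := mem_closure_iff.1 hp.1 (Metric.ball c r ∩ {q | ‖G q‖ < b})
    (Metric.isOpen_ball.inter (isOpen_lt hGc.norm continuous_const)) ⟨hp.2, hb⟩
  have hb' : 0 < ‖G p'‖ := norm_pos_iff.2 (hG0 p' ⟨subset_closure hp3, hp1⟩)
  have hp2' : ‖G p'‖ < b := hp2
  let ι : E ≃L[ℂ] EuclideanSpace ℂ (Fin (Module.finrank ℂ E)) :=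
    ContinuousLinearEquiv.ofFinrankEq (by simp)
  set w : E → ℝ := fun q => ‖D q‖ * Real.exp (‖ι q‖ ^ 2) with hw
  have hwc : Continuous w := by fun_prop
  have hw0 : 0 < w p' := mul_pos (norm_pos_iff.2 (hne p' hp3)) (Real.exp_pos _)
  obtain ⟨M, hM⟩ := hKs.bddAbove_image hwc.continuousOn
  obtain ⟨m, hm⟩ := pow_unbounded_of_one_lt (M / w p') (y := b ^ 2 / ‖G p'‖ ^ 2)
    ((one_lt_div (by positivity)).2 (by gcongr))
  have hGK : ∀ q ∈ closure S₀ ∩ Metric.closedBall c r, G q ≠ 0 := by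
    intro q hq
    rcases (Metric.mem_closedBall.1 hq.2).eq_or_lt with h | h
    · exact norm_pos_iff.1 (ha.trans (hcon q ⟨hq.1, h⟩))
    · exact hG0 q ⟨hq.1, h⟩
  have hp'K : p' ∈ closure S₀ ∩ Metric.closedBall c r :=
    ⟨subset_closure hp3, Metric.ball_subset_closedBall hp1⟩
  obtain ⟨q, hq, hq'⟩ := hK.exists_isMaxOn ⟨p', hp'K⟩ (f := fun q => w q / (‖G q‖ ^ 2) ^ m)
    (hwc.continuousOn.div (by fun_prop) fun q hq =>
      pow_ne_zero _ (pow_ne_zero _ (norm_ne_zero_iff.2 (hGK q hq))))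
  have h1 : w p' / (‖G p'‖ ^ 2) ^ m ≤ w q / (‖G q‖ ^ 2) ^ m := hq' hp'K
  have hDq : D q ≠ 0 := by
    intro h
    have h2 : 0 < w p' / (‖G p'‖ ^ 2) ^ m := by positivity
    simp only [hw, h, norm_zero, zero_mul, zero_div] at h1 h2
    linarith
  have hqS := hcl q hq.1 hDq
  have hqb : q ∈ Metric.ball c r := by
    rcases (Metric.mem_closedBall.1 hq.2).eq_or_lt with h | h
    · have h2 : w q ≤ M := hM ⟨q, ⟨hq.1, h⟩, rfl⟩
      have h3 := hbs q ⟨hq.1, h⟩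
      have hb0 : 0 < b := ha.trans hb
      have h4 : w q / (‖G q‖ ^ 2) ^ m ≤ M / (b ^ 2) ^ m := by
        have : 0 ≤ w q := by positivity
        gcongr
        linarith
      rw [div_pow, div_lt_div_iff₀ hw0 (by positivity)] at hm
      have h5 := h1.trans h4
      rw [div_le_div_iff₀ (by positivity) (by positivity)] at h5
      linarith
    · exact h
  obtain ⟨n, hn, B, hB⟩ := maxp_quot (G q) (hGK q hq)
  obtain ⟨γ, hγ, rfl, hγS, hγ', hγB⟩ := htan q hqS n hn (B ∘ₗ (fderiv ℂ G q).toLinearMap)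
  obtain ⟨t, ht⟩ := hB _ hγB
  have hγd := hγ.differentiableAt.hasDerivAt
  refine maxp_local (fun s => D (γ s)) ((hD _ trivial).comp hγ) hDq (fun s => ι (γ s))
    ((ι.analyticAt _).comp hγ) ?_ (fun s => G (γ s)) ((hG _ trivial).comp hγ) (hGK _ hq) t ?_ m ?_
  · rw [show deriv (fun s => ι (γ s)) 0 = ι (deriv γ 0) from
      (ι.hasFDerivAt.comp_hasDerivAt 0 hγd).deriv]
    exact fun h => hγ' (ι.map_eq_zero_iff.1 h)
  · exact ((hG _ trivial).differentiableAt.hasFDerivAt.comp_hasDerivAt 0 hγd).deriv.trans ht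
  · filter_upwards [hγS, hγ.continuousAt.eventually (Metric.isOpen_ball.mem_nhds hqb)] with s h2 h3
    exact hq' ⟨subset_closure h2, Metric.ball_subset_closedBall h3⟩

end Pool.Agent.P.MP_f17f76_ag
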