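import Pool.Agent.P.MP_f17f76_ag.GermPrime
import Pool.Agent.P.MP_f17f76_ag.Chart

namespace Pool.Agent.P.MP_f17f76_ag

open MvPolynomial Filter Topology

theorem exists_point {σ : Type} [Fintype σ] (P : Ideal (MvPolynomial σ ℂ)) [P.IsPrime]
    (D : MvPolynomial σ ℂ) (hD : D ∉ P) :
    ∃ q : σ → ℂ, (∀ p ∈ P, eval q p = 0) ∧ eval q D ≠ 0 := by
  by_contra hcon
  push Not at hcon
  apply hD
  rw [← IsPrime.vanishingIdeal_zeroLocus (K := ℂ) P, mem_vanishingIdeal_iff]
  intro x hx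
  rw [mem_zeroLocus_iff] at hx
  exact hcon x hx

theorem Indep.X_notMem {σ : Type} {P : Ideal (MvPolynomial σ ℂ)} {T : Finset σ} (h : Indep P T)
    {k : σ} (hk : k ∈ T) : (X k : MvPolynomial σ ℂ) ∉ P := by
  intro hX
  have := h (X ⟨k, hk⟩) (by simpa using hX)
  exact X_ne_zero _ this

theorem exists_inr_mem {g N : ℕ} {T : Finset (Fin g ⊕ Fin N)} (h : g + 1 ≤ T.card) :
    ∃ j, Sum.inr j ∈ T := by
  classical
  by_contra hcon
  push Not at hcon
  have : T ⊆ Finset.univ.image Sum.inl := by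
    rintro (i | k) hi
    · simp
    · exact absurd hi (hcon k)
  have h2 := (Finset.card_le_card this).trans Finset.card_image_le
  simp at h2
  omega

/-- scaling the `y` variables -/
theorem eval_scale {g N : ℕ} (z : Fin g → ℂ) (y : Fin N → ℂ) (t : ℂ)
    (p : MvPolynomial (Fin g ⊕ Fin N) ℂ) :
    eval (Sum.elim z y) (bind₁ (Sum.elim (fun i => X (Sum.inl i))
      (fun k => C t * X (Sum.inr k))) p) = eval (Sum.elim z (t • y)) p := by
  induction p using MvPolynomial.induction_on with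
  | C a => simp
  | add p q hp hq => simp only [map_add, hp, hq]
  | mul_X p i hp =>
    rw [map_mul, map_mul, map_mul, hp]
    rcases i with i | k <;> simp

theorem exists_P0 {g N : ℕ} (I₀ : Ideal (MvPolynomial (Fin g ⊕ Fin N) ℂ))
    (hsc : ∀ (z : Fin g → ℂ) (y : Fin N → ℂ) (t : ℂ), (∀ p ∈ I₀, eval (Sum.elim z y) p = 0) →
      ∀ p ∈ I₀, eval (Sum.elim z (t • y)) p = 0)
    (hdim : ((g + 1 : ℕ) : WithBot ℕ∞) ≤ ringKrullDim (MvPolynomial (Fin g ⊕ Fin N) ℂ ⧸ I₀)) :
    ∃ P : Ideal (MvPolynomial (Fin g ⊕ Fin N) ℂ), P.IsPrime ∧ I₀ ≤ P ∧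
      (∀ (z : Fin g → ℂ) (y : Fin N → ℂ) (t : ℂ), (∀ p ∈ P, eval (Sum.elim z y) p = 0) →
        ∀ p ∈ P, eval (Sum.elim z (t • y)) p = 0) ∧
      ∃ T : Finset (Fin g ⊕ Fin N), T.card = g + 1 ∧ Indep P T ∧
        ∀ J : Finset (Fin g ⊕ Fin N), J.card = g + 2 → ¬ Indep P J := by
  classical
  obtain ⟨P₁, hP₁, hI, T₁, hc, hT₁, hA₁⟩ := exists_prime_indep I₀ (g + 1) hdim
  obtain ⟨j, hj⟩ := exists_inr_mem hc
  obtain ⟨D, hD, hch⟩ := chart P₁ T₁ hT₁ hA₁
  obtain ⟨q, hq, hne⟩ := exists_point P₁ (D * X (Sum.inr j))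
    (fun h => (hP₁.mem_or_mem h).elim hD (hT₁.X_notMem hj))
  rw [map_mul, eval_X] at hne
  have hqj : q (Sum.inr j) ≠ 0 := right_ne_zero_of_mul hne
  obtain ⟨ψ, hψ0, hψE, hψ1, -⟩ := hch q hq (left_ne_zero_of_mul hne)
  obtain ⟨T, hjT, hTT, hTc⟩ := Finset.exists_subsuperset_card_eq (s := {Sum.inr j}) (t := T₁)
    (n := g + 1) (by simpa using hj) (by simp) hc
  have hjT' : Sum.inr j ∈ T := hjT (Finset.mem_singleton_self _)
  set j' : T := ⟨Sum.inr j, hjT'⟩ with hj'
  obtain ⟨G, hG⟩ : ∃ G : T₁ → MvPolynomial T ℂ, G = fun i : T₁ =>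
      if h : i.1 ∈ T ∧ i.1 ≠ Sum.inr j then X ⟨i.1, h.1⟩ else C (q i.1) := ⟨_, rfl⟩
  obtain ⟨gm, hgm⟩ : ∃ gm : (T → ℂ) → (T₁ → ℂ), gm = fun u i => eval u (G i) := ⟨_, rfl⟩
  have hgm1 : ∀ u (i : T₁) (h : i.1 ∈ T), i.1 ≠ Sum.inr j → gm u i = u ⟨i.1, h⟩ := by
    intro u i h h'
    simp [hgm, hG, h, h']
  have hgm2 : ∀ u (i : T₁), ¬ (i.1 ∈ T ∧ i.1 ≠ Sum.inr j) → gm u i = q i := by
    intro u i h
    simp only [hgm, hG, dif_neg h, eval_C]
  obtain ⟨ε, hε, hball⟩ : ∃ ε > 0, ∀ v ∈ Metric.ball (fun i : T₁ => q i) ε,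
      (∀ k, IsEt v (fun u => ψ u k)) ∧ (∀ i : T₁, ψ v i = v i) ∧ ∀ p ∈ P₁, eval (ψ v) p = 0 :=
    Metric.eventually_nhds_iff_ball.1
      ((eventually_all.2 fun k => (hψE k).eventually).and hψ1)
  set Ω : Set (T → ℂ) := Set.pi {i | i ≠ j'} (fun i => Metric.ball (q i) ε) with hΩ
  have hΩo : IsOpen Ω := isOpen_set_pi (Set.toFinite _) fun i _ => Metric.isOpen_ball
  have hΩc : IsPreconnected Ω :=
    (convex_pi (𝕜 := ℝ) fun i _ => convex_ball (q i.1) ε).isPreconnected
  have hgb : ∀ u ∈ Ω, gm u ∈ Metric.ball (fun i : T₁ => q i) ε := by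
    intro u hu
    rw [Metric.mem_ball, dist_pi_lt_iff hε]
    intro i
    by_cases h : i.1 ∈ T ∧ i.1 ≠ Sum.inr j
    · rw [hgm1 u i h.1 h.2]
      exact hu ⟨i.1, h.1⟩ (fun h' => h.2 (congrArg Subtype.val h'))
    · rw [hgm2 u i h]
      simpa using hε
  obtain ⟨Z, hZ⟩ : ∃ Z : (T → ℂ) → (Fin g ⊕ Fin N → ℂ), Z = fun u =>
      Sum.elim (fun i => ψ (gm u) (Sum.inl i)) (u j' • fun k => ψ (gm u) (Sum.inr k)) := ⟨_, rfl⟩
  have hZN : ∀ u ∈ Ω, ∀ k, IsNash u (fun u => Z u k) := by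
    intro u hu k
    have h1 : ∀ k, IsNash u (fun u => ψ (gm u) k) := by
      intro k
      have h2 := (hball _ (hgb u hu)).1 k
      rw [hgm] at h2 ⊢
      exact (IsEt.comp_poly G u h2).isNash
    rcases k with i | k
    · simpa [hZ] using h1 (Sum.inl i)
    · simpa [hZ] using (isNash_coord u j').mul (h1 (Sum.inr k))
  have hZa : ∀ u ∈ Ω, ∀ k, AnalyticAt ℂ (fun u => Z u k) u := fun u hu k => (hZN u hu k).1
  obtain ⟨x', hx'⟩ : ∃ x' : T → ℂ, x' = Function.update (fun i : T => q i) j' 1 := ⟨_, rfl⟩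
  have hx'Ω : x' ∈ Ω := by
    intro i hi
    rw [hx', Function.update_of_ne hi]
    exact Metric.mem_ball_self hε
  refine ⟨vanI Ω Z, vanI_prime hΩo hΩc ⟨x', hx'Ω⟩ hZa, ?_, ?_, T, hTc, ?_, ?_⟩
  · intro p hp u hu
    rw [hZ]
    refine hsc _ _ _ (fun p hp => ?_) p hp
    have := (hball _ (hgb u hu)).2.2 p (hI hp)
    convert this
    funext k
    rcases k with i | k <;> rfl
  · intro z y t hzy p hp
    rw [← eval_scale]
    refine hzy _ fun u hu => ?_
    have h1 : Function.update u j' (t * u j') ∈ Ω := by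
      intro i hi
      rw [Function.update_of_ne hi]
      exact hu i hi
    have h2 : gm (Function.update u j' (t * u j')) = gm u := by
      funext i
      by_cases h : i.1 ∈ T ∧ i.1 ≠ Sum.inr j
      · rw [hgm1 _ i h.1 h.2, hgm1 _ i h.1 h.2, Function.update_of_ne]
        exact fun h' => h.2 (congrArg Subtype.val h')
      · rw [hgm2 _ i h, hgm2 _ i h]
    have h3 := hp _ h1
    rw [hZ] at h3 ⊢
    simp only [h2, Function.update_self] at h3 ⊢
    rw [eval_scale, smul_smul]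
    exact h3
  · intro p hp
    obtain ⟨Ψ, hΨ⟩ : ∃ Ψ : (T → ℂ) → (T → ℂ), Ψ = fun v => Function.update
        (fun i : T => Sum.elim (fun _ => v i) (fun _ => v i * q (Sum.inr j) / v j') i.1) j'
          (v j' / q (Sum.inr j)) := ⟨_, rfl⟩
    have hq' : (fun i : T => q i) j' ≠ 0 := hqj
    have hΨc : ContinuousAt Ψ (fun i : T => q i) := by
      rw [hΨ]
      refine continuousAt_pi.2 fun i => ?_
      by_cases hi : i = j'
      · subst hi
        simp only [Function.update_self]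
        exact (continuousAt_apply _ _).div_const _
      · simp only [Function.update_of_ne hi]
        obtain ⟨i | i, hi'⟩ := i
        · simp only [Sum.elim_inl]
          exact continuousAt_apply _ _
        · simp only [Sum.elim_inr]
          exact ((continuousAt_apply _ _).mul continuousAt_const).div (continuousAt_apply _ _) hq'
    have hΨ0 : Ψ (fun i : T => q i) = x' := by
      rw [hΨ, hx']
      funext i
      by_cases hi : i = j'
      · subst hi
        simp only [Function.update_self]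
        exact div_self hqj
      · simp only [Function.update_of_ne hi]
        obtain ⟨i | i, hi'⟩ := i
        · rfl
        · exact mul_div_cancel_right₀ _ hqj
    refine nash1_poly_eq_zero (x := fun i : T => q i) p ?_
    filter_upwards [hΨc.eventually (by rw [hΨ0]; exact hΩo.mem_nhds hx'Ω),
      (continuousAt_apply j' (fun i : T => q i)).eventually_ne hq'] with v hv hv'
    have h1 := hp _ hv
    rw [eval_rename] at h1
    convert h1
    funext i
    have hψi := (hball _ (hgb _ hv)).2.1 ⟨i.1, hTT i.2⟩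
    by_cases hi : i = j'
    · subst hi
      rw [hgm2 _ _ (fun h => h.2 rfl)] at hψi
      have e1 : Ψ v j' = v j' / q (Sum.inr j) := by
        rw [hΨ]
        simp only [Function.update_self]
      have e2 : ψ (gm (Ψ v)) (Sum.inr j) = q (Sum.inr j) := hψi
      have e3 : (Z (Ψ v) ∘ Subtype.val) j' = Ψ v j' * ψ (gm (Ψ v)) (Sum.inr j) := by
        rw [hZ]
        rfl
      rw [e3, e1, e2]
      field_simp
    · rw [hgm1 _ _ i.2 (fun h => hi (Subtype.ext h))] at hψi
      obtain ⟨i | i, hi'⟩ := i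
      · simp only [hZ, Function.comp, Sum.elim_inl] at hψi ⊢
        rw [hψi, hΨ]
        simp only [Function.update_of_ne hi, Sum.elim_inl]
      · simp only [hZ, Function.comp, Sum.elim_inr, Pi.smul_apply, smul_eq_mul] at hψi ⊢
        rw [hψi, hΨ]
        simp only [Function.update_of_ne hi, Sum.elim_inr, Function.update_self]
        field_simp
  · intro J hJ hind
    obtain ⟨p, hp0, hp⟩ := nash_dep (x := x') (J := J) (by simp [hJ, hTc])
      (fun k u => Z u k) (fun k => hZN x' hx'Ω k)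
    refine hp0 (hind p (mem_vanI_of_eventually hΩc hZa hx'Ω ?_))
    filter_upwards [hp] with u hu
    rw [eval_rename]
    exact hu

end Pool.Agent.P.MP_f17f76_ag
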