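import Pool.Agent.P.MP_f17f76_ag.Defs2

/-!
Persistence of isolated solutions along an ultrafilter, and limits of shifted polynomials.
-/

namespace Pool.Agent.P.MP_f17f76_ag

open MvPolynomial Filter Topology

theorem MP.translate {E : Type} [NormedAddCommGroup E] [NormedSpace ℂ E] {k : ℕ} {S : Set E}
    (h : MP k S) (v : E) : MP k {q | q + v ∈ S} := by
  intro G hG c r p hp h0
  obtain ⟨q, hq, h1⟩ := h (fun x => G (x - v))
    (fun x _ => (hG _ trivial).comp (analyticAt_id.sub analyticAt_const)) (c + v) r (p + v)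
    ⟨hp.1, by simpa using hp.2⟩ fun q hq => h0 _ ⟨by simpa using hq.1, by
      have := hq.2
      rwa [Metric.mem_ball, dist_eq_norm, ← sub_sub, sub_right_comm, ← dist_eq_norm] at this⟩
  refine ⟨q - v, ⟨by simpa using hq.1, ?_⟩, by simpa using h1⟩
  have := hq.2
  rwa [Metric.mem_sphere, dist_eq_norm, ← sub_sub, sub_right_comm, ← dist_eq_norm] at this

theorem persist_bound {E F : Type} [NormedAddCommGroup E] [NormedAddCommGroup F]
    (𝒰 : Ultrafilter ℕ) (S : ℕ → Set E) {G : E → F} (hG : Continuous G) {K : Set E}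
    (hK : IsCompact K) (h : ∀ q ∈ K, q ∈ ulim 𝒰 S → G q ≠ 0) :
    ∃ δ > 0, ∀ᶠ n in (𝒰 : Filter ℕ), ∀ q ∈ S n ∩ K, δ ≤ ‖G q‖ := by
  refine hK.induction_on (p := fun s => ∃ δ > 0, ∀ᶠ n in (𝒰 : Filter ℕ), ∀ q ∈ S n ∩ s, δ ≤ ‖G q‖)
    ⟨1, one_pos, .of_forall fun _ _ hq => hq.2.elim⟩ ?_ ?_ fun q hq => ?_
  · rintro s t hst ⟨δ, h0, h1⟩
    exact ⟨δ, h0, h1.mono fun n hn q hq => hn q ⟨hq.1, hst hq.2⟩⟩
  · rintro s t ⟨δ, h0, h1⟩ ⟨δ', h0', h1'⟩
    refine ⟨min δ δ', lt_min h0 h0', (h1.and h1').mono fun n hn q hq => ?_⟩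
    exact hq.2.elim (fun h2 => (min_le_left _ _).trans (hn.1 q ⟨hq.1, h2⟩))
      fun h2 => (min_le_right _ _).trans (hn.2 q ⟨hq.1, h2⟩)
  · by_cases hu : q ∈ ulim 𝒰 S
    · have h0 := half_pos (norm_pos_iff.2 (h q hq hu))
      exact ⟨{x | ‖G q‖ / 2 < ‖G x‖}, mem_nhdsWithin_of_mem_nhds
        ((isOpen_lt continuous_const hG.norm).mem_nhds (by simp only [Set.mem_ofPred_eq]; linarith)),
        _, h0, .of_forall fun _ _ hx => le_of_lt hx.2⟩
    · simp only [ulim, Set.mem_ofPred_eq, not_forall] at hu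
      obtain ⟨ε, hε, hu⟩ := hu
      exact ⟨Metric.ball q ε, mem_nhdsWithin_of_mem_nhds (Metric.ball_mem_nhds q hε), 1, one_pos,
        (Ultrafilter.eventually_not.2 hu).mono fun n hn x hx => absurd ⟨x, hx.1, hx.2⟩ hn⟩

theorem persist {E : Type} [NormedAddCommGroup E] [NormedSpace ℂ E] [FiniteDimensional ℂ E]
    {k : ℕ} (𝒰 : Ultrafilter ℕ) (S : ℕ → Set E) (hS : ∀ n, MP k (S n))
    (G : E → EuclideanSpace ℂ (Fin k)) (hG : AnalyticOnNhd ℂ G Set.univ)
    (p : E) (hp : p ∈ ulim 𝒰 S) (r : ℝ) (hr : 0 < r)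
    (hiso : ∀ q ∈ ulim 𝒰 S, G q = G p → dist q p < r → q = p) :
    ∃ δ > 0, ∀ y, ‖y - G p‖ < δ → ∃ n, ∃ q ∈ S n, G q = y := by
  have := FiniteDimensional.proper ℂ E
  have hc : Continuous G := hG.continuous
  obtain ⟨δ, h0, h1⟩ := persist_bound 𝒰 S (G := fun q => G q - G p) (hc.sub continuous_const)
    (isCompact_sphere p (r / 2)) fun q hq hu e => by
      have h2 : dist q p = r / 2 := hq
      rw [hiso q hu (sub_eq_zero.1 e) (by linarith), dist_self] at h2
      linarith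
  obtain ⟨ε, hε, h2⟩ := Metric.continuousAt_iff.1 (hc.continuousAt (x := p)) (δ / 3) (by linarith)
  obtain ⟨n, h3, x, hx, h4⟩ := (h1.and (hp _ (lt_min hε (half_pos hr)))).exists
  refine ⟨δ / 3, by linarith, fun y hy => ⟨n, by_contra fun hn => ?_⟩⟩
  obtain ⟨q, hq, h5⟩ := hS n (fun q => G q - y) (hG.sub analyticOnNhd_const) p (r / 2) x
    ⟨hx, h4.trans_le (min_le_right _ _)⟩ fun q hq e => hn ⟨q, hq.1, sub_eq_zero.1 e⟩
  have h6 := h2 (h4.trans_le (min_le_left _ _))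
  have h7 := h3 q hq
  have h8 := norm_sub_le_norm_sub_add_norm_sub (G q) y (G p)
  have h9 := norm_sub_le_norm_sub_add_norm_sub (G x) (G p) y
  rw [dist_eq_norm] at h6
  rw [norm_sub_rev (G p)] at h9
  linarith

theorem persist_eval {J : Type} [Fintype J] {D : Finset (J →₀ ℕ)} {f : MvPolynomial J ℂ}
    (h : f.support ⊆ D) (x : J → ℂ) :
    eval x f = ∑ m : D, coeff m.1 f * ∏ j, x j ^ m.1 j := by
  rw [eval_eq', Finset.sum_coe_sort D fun m => coeff m f * ∏ j, x j ^ m j]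
  exact Finset.sum_subset h fun m _ hm => by rw [notMem_support_iff.1 hm, zero_mul]

theorem lim_poly_shift {J : Type} [Fintype J] (𝒰 : Ultrafilter ℕ) (p : MvPolynomial J ℂ)
    (hp : p ≠ 0) (c : ℕ → J → ℂ) :
    ∃ P : MvPolynomial J ℂ, P ≠ 0 ∧ ∀ x : J → ℂ,
      (∀ ε > 0, ∀ᶠ n in (𝒰 : Filter ℕ), ∃ x', dist x' x < ε ∧ eval (x' + c n) p = 0) →
        eval x P = 0 := by
  classical
  obtain ⟨Q, hQ⟩ : ∃ Q : MvPolynomial J (MvPolynomial J ℂ),
      ∀ x v : J → ℂ, eval x (map (eval v) Q) = eval (x + v) p := by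
    refine ⟨aeval (fun j => X j + C (X j)) p, fun x v => ?_⟩
    clear hp
    induction p using MvPolynomial.induction_on with
    | C a => simp
    | add p q h1 h2 => simp only [map_add, h1, h2]
    | mul_X p j h1 =>
      simp only [map_mul, h1]
      simp
  let b : ℕ → Q.support → ℂ := fun n m => coeff m.1 (map (eval (c n)) Q)
  have hb : ∀ n x, eval (x + c n) p = ∑ m : Q.support, b n m * ∏ j, x j ^ m.1 j := fun n x => by
    rw [← hQ, persist_eval (support_map_subset _ _)]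
  have hb0 : ∀ n, ‖b n‖ ≠ 0 := fun n e => hp (MvPolynomial.funext fun x => by
    have := hb n (x - c n)
    rw [sub_add_cancel, norm_eq_zero.1 e] at this
    simpa using this)
  let a : ℕ → Q.support → ℂ := fun n => (‖b n‖⁻¹ : ℂ) • b n
  have ha : ∀ n, a n ∈ Metric.sphere (0 : Q.support → ℂ) 1 := fun n => by
    simp [a, norm_smul, hb0 n]
  obtain ⟨l, hl, hlim⟩ := (isCompact_sphere (0 : Q.support → ℂ) 1).ultrafilter_le_nhds (𝒰.map a)
    (by rw [le_principal_iff, Ultrafilter.coe_map, mem_map]; exact univ_mem' ha)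
  have hco : ∀ m : Q.support, coeff m.1 (∑ m : Q.support, monomial m.1 (l m)) = l m := fun m => by
    rw [coeff_sum, Finset.sum_eq_single m]
    · simp
    · intro m' _ h
      rw [coeff_monomial, if_neg fun e => h (Subtype.ext e)]
    · simp
  refine ⟨∑ m : Q.support, monomial m.1 (l m), fun e => ?_, fun x hx => ?_⟩
  · have : l = 0 := funext fun m => by rw [← hco m, e]; rfl
    simp [this] at hl
  · have hcl : IsClosed {z : (Q.support → ℂ) × (J → ℂ) |
        ∑ m : Q.support, z.1 m * ∏ j, z.2 j ^ m.1 j = 0} :=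
      isClosed_eq (by fun_prop) continuous_const
    have : (l, x) ∈ closure {z : (Q.support → ℂ) × (J → ℂ) |
        ∑ m : Q.support, z.1 m * ∏ j, z.2 j ^ m.1 j = 0} := by
      refine Metric.mem_closure_iff.2 fun ε hε => ?_
      obtain ⟨n, h1, x', h2, h3⟩ :=
        ((Metric.tendsto_nhds.1 (show Tendsto a 𝒰 (𝓝 l) from hlim) ε hε).and (hx ε hε)).exists
      refine ⟨(a n, x'), ?_, by rw [dist_comm, Prod.dist_eq]; exact max_lt h1 h2⟩
      simp only [Set.mem_ofPred_eq, a, Pi.smul_apply, smul_eq_mul, mul_assoc]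
      rw [← Finset.mul_sum, ← hb, h3, mul_zero]
    rw [hcl.closure_eq] at this
    rw [map_sum]
    simpa [eval_monomial, Finsupp.prod_fintype] using this

end Pool.Agent.P.MP_f17f76_ag
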