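import Pool.Agent.P.MP_f17f76_ag.AS
import Pool.Agent.P.MP_f17f76_ag.PZero
import Pool.Agent.P.MP_f17f76_ag.MaxP
import Pool.Agent.P.MP_f17f76_ag.Persist
import Pool.Agent.P.MP_f17f76_ag.CS

namespace Pool.Agent.P.MP_f17f76_ag

open MvPolynomial Filter Topology

theorem AbVar.analyticAt_elim {g N : ℕ} (A : AbVar g N) {F : Type} [NormedAddCommGroup F]
    [NormedSpace ℂ F] {z w : F → Fin g → ℂ} {t : F → ℂ} {y : F} (hz : AnalyticAt ℂ z y)
    (hw : AnalyticAt ℂ w y) (ht : AnalyticAt ℂ t y) (k : Fin g ⊕ Fin N) :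
    AnalyticAt ℂ (fun x => Sum.elim (z x) (t x • A.θ (w x)) k) y := by
  rcases k with i | k
  · exact analyticAt_pi_iff.1 hz i
  · exact ht.mul (A.analyticAt_coord hw k)

theorem AbVar.exists_MP {g N : ℕ} (A : AbVar g N) (P : Ideal (MvPolynomial (Fin g ⊕ Fin N) ℂ))
    [hP : P.IsPrime]
    (hcone : ∀ x : Fin g ⊕ Fin N → ℂ, (∀ p ∈ P, eval x p = 0) →
      ∃ (t : ℂ) (w : Fin g → ℂ), (fun k => x (Sum.inr k)) = t • A.θ w)
    (hsc : ∀ (z : Fin g → ℂ) (y : Fin N → ℂ) (t : ℂ), (∀ p ∈ P, eval (Sum.elim z y) p = 0) →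
        ∀ p ∈ P, eval (Sum.elim z (t • y)) p = 0)
    (T : Finset (Fin g ⊕ Fin N)) (hTc : T.card = g + 1) (hT : Indep P T) (hTa : AlgOver P T) :
    ∃ S : Set ((Fin g → ℂ) × (Fin g → ℂ)), S.Nonempty ∧ MP g S ∧
      ∀ q ∈ S, ∀ p ∈ P, ∀ t : ℂ, eval (Sum.elim q.1 (t • A.θ q.2)) p = 0 := by
  classical
  obtain ⟨j, hj⟩ := exists_inr_mem hTc.ge
  obtain ⟨D, hD, hch⟩ := chart P T hT hTa
  obtain ⟨q₀, hq₀, hne⟩ := exists_point P (D * X (Sum.inr j))
    (fun h => (hP.mem_or_mem h).elim hD (hT.X_notMem hj))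
  rw [map_mul, eval_X] at hne
  obtain ⟨t₀, w₀, h0⟩ := hcone q₀ hq₀
  have ht₀ : t₀ ≠ 0 := by
    rintro rfl
    have := congrFun h0 j
    simp only [zero_smul, Pi.zero_apply] at this
    exact right_ne_zero_of_mul hne this
  obtain ⟨Θ, hΘ⟩ : ∃ Θ : ((Fin g → ℂ) × (Fin g → ℂ)) × ℂ → (Fin g ⊕ Fin N → ℂ),
      Θ = fun x => Sum.elim x.1.1 (x.2 • A.θ x.1.2) := ⟨_, rfl⟩
  have hΘa : ∀ x k, AnalyticAt ℂ (fun x => Θ x k) x := by
    intro x k
    rw [hΘ]
    exact A.analyticAt_elim (analyticAt_fst.comp analyticAt_fst)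
      (analyticAt_snd.comp analyticAt_fst) analyticAt_snd k
  have hΘ1 : ∀ q k, AnalyticAt ℂ (fun q => Θ (q, t₀) k) q := fun q k =>
    AnalyticAt.comp (g := fun x => Θ x k) (f := fun q => (q, t₀)) (hΘa _ k)
      (analyticAt_id.prod analyticAt_const)
  have hev : ∀ p : MvPolynomial (Fin g ⊕ Fin N) ℂ,
      AnalyticOnNhd ℂ (fun q => eval (Θ (q, t₀)) p) Set.univ :=
    fun p q _ => analyticAt_eval p _ (hΘ1 q)
  have hscale : ∀ q (t t' : ℂ), t ≠ 0 → (∀ p ∈ P, eval (Θ (q, t)) p = 0) →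
      ∀ p ∈ P, eval (Θ (q, t')) p = 0 := by
    intro q t t' ht h p hp
    rw [hΘ] at h ⊢
    have := hsc _ _ (t' / t) h p hp
    rwa [smul_smul, div_mul_cancel₀ _ ht] at this
  set S₀ : Set ((Fin g → ℂ) × (Fin g → ℂ)) :=
    {q | (∀ p ∈ P, eval (Θ (q, t₀)) p = 0) ∧ eval (Θ (q, t₀)) D ≠ 0} with hS₀
  have hcl : ∀ q ∈ closure S₀, ∀ p ∈ P, eval (Θ (q, t₀)) p = 0 := by
    intro q hq p hp
    have hc : IsClosed {q | eval (Θ (q, t₀)) p = 0} :=
      isClosed_eq (continuousOn_univ.1 (hev p).continuousOn) continuous_const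
    exact closure_minimal (fun q' hq' => hq'.1 p hp) hc hq
  refine ⟨closure S₀, ⟨(fun i => q₀ (Sum.inl i), w₀), subset_closure ?_⟩, ?_, ?_⟩
  · have : Θ ((fun i => q₀ (Sum.inl i), w₀), t₀) = q₀ := by
      rw [hΘ]
      funext k
      rcases k with i | k
      · rfl
      · exact (congrFun h0 k).symm
    simp only [hS₀, Set.mem_setOf_eq, this]
    exact ⟨hq₀, left_ne_zero_of_mul hne⟩
  · refine mp_closure g S₀ (fun q => eval (Θ (q, t₀)) D) (hev D) (fun q hq => hq.2)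
      (fun q hq h => ⟨hcl q hq, h⟩) ?_
    intro q hq m hm B
    obtain ⟨ψ, hψ0, hψE, hψ1, -⟩ := hch (Θ (q, t₀)) hq.1 hq.2
    set x₀ : T → ℂ := fun i => Θ (q, t₀) i with hx₀
    obtain ⟨ω, τ, hw, hτ, hω0, hτ0, hY, -⟩ := A.chart_lift hcone x₀ ψ hψE
      (hψ1.mono fun u hu => hu.2) q.2 t₀ ht₀ (by rw [hψ0, hΘ]; rfl)
    obtain ⟨Ψ, hΨ⟩ : ∃ Ψ : (T → ℂ) → (Fin g → ℂ) × (Fin g → ℂ), Ψ = fun u =>
        (fun i => ψ u (Sum.inl i), ω (fun k => ψ u (Sum.inr k))) := ⟨_, rfl⟩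
    have hΨa : AnalyticAt ℂ Ψ x₀ := by
      rw [hΨ]
      exact (analyticAt_pi_iff.2 fun i => (hψE (Sum.inl i)).1).prod hw
    have hΨ0 : Ψ x₀ = q := by
      rw [hΨ]
      simp only [hψ0]
      rw [hΘ]
      exact Prod.ext rfl hω0
    have hψΘ : ∀ᶠ u in 𝓝 x₀, ψ u = Θ (Ψ u, τ u) := by
      filter_upwards [hY] with u hu
      rw [hΘ, hΨ]
      funext k
      rcases k with i | k
      · rfl
      · exact congrFun hu k
    have hmem : ∀ᶠ u in 𝓝 x₀, Ψ u ∈ S₀ := by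
      have h1 : ContinuousAt (fun u => eval (Θ (Ψ u, t₀)) D) x₀ :=
        ContinuousAt.comp (g := fun q => eval (Θ (q, t₀)) D) (hev D _ trivial).continuousAt
          hΨa.continuousAt
      filter_upwards [hψΘ, hψ1, h1.eventually_ne (by simp only [hΨ0]; exact hq.2),
        hτ.continuousAt.eventually_ne (by rw [hτ0]; exact ht₀)] with u h2 h3 h4 h5
      exact ⟨hscale _ _ _ h5 (by rw [← h2]; exact h3.2), h4⟩
    obtain ⟨v, hv, hv0⟩ : ∃ v : T → ℂ, v ∈ LinearMap.ker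
        ((B ∘ₗ (fderiv ℂ Ψ x₀).toLinearMap).prod (fderiv ℂ τ x₀).toLinearMap) ∧ v ≠ 0 := by
      refine Submodule.exists_mem_ne_zero_of_ne_bot (LinearMap.ker_ne_bot_of_finrank_lt ?_)
      simp [hTc]
      omega
    rw [LinearMap.mem_ker, LinearMap.prod_apply] at hv
    have hv1 : B (fderiv ℂ Ψ x₀ v) = 0 := congrArg Prod.fst hv
    have hv2 : fderiv ℂ τ x₀ v = 0 := congrArg Prod.snd hv
    have hl : AnalyticAt ℂ (fun s : ℂ => x₀ + s • v) 0 :=
      analyticAt_const.add (analyticAt_id.smul analyticAt_const)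
    have hl0 : x₀ + (0 : ℂ) • v = x₀ := by simp
    have hld : HasDerivAt (fun s : ℂ => x₀ + s • v) v 0 := by
      simpa using ((hasDerivAt_id (0 : ℂ)).smul_const v).const_add x₀
    have hγd : HasDerivAt (fun s : ℂ => Ψ (x₀ + s • v)) (fderiv ℂ Ψ x₀ v) 0 :=
      HasFDerivAt.comp_hasDerivAt_of_eq (0 : ℂ) hΨa.differentiableAt.hasFDerivAt hld hl0.symm
    refine ⟨fun s => Ψ (x₀ + s • v), ?_, by simpa using hΨ0, ?_, ?_, ?_⟩
    · exact AnalyticAt.comp (g := Ψ) (f := fun s : ℂ => x₀ + s • v) (by rw [hl0]; exact hΨa) hl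
    · have := hl.continuousAt.tendsto
      rw [hl0] at this
      exact this.eventually hmem
    · rw [hγd.deriv]
      intro h0
      apply hv0
      funext i
      have d1 := hΨa.differentiableAt.hasFDerivAt.prodMk hτ.differentiableAt.hasFDerivAt
      have d2 := (hΘa (Ψ x₀, τ x₀) i).differentiableAt.hasFDerivAt.comp x₀ d1
      have d3 : HasFDerivAt (fun u : T → ℂ => u i) (ContinuousLinearMap.proj (R := ℂ) i) x₀ :=
        (ContinuousLinearMap.proj (R := ℂ) (φ := fun _ : T => ℂ) i).hasFDerivAt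
      have d4 := d2.unique (d3.congr_of_eventuallyEq (by
        filter_upwards [hψΘ, hψ1] with u h2 h3
        simp only [Function.comp]
        rw [← h2, h3.1 i]))
      have d5 := congrArg (fun L => L v) d4
      simp only [ContinuousLinearMap.comp_apply, ContinuousLinearMap.prod_apply, h0, hv2,
        ContinuousLinearMap.proj_apply] at d5
      rw [← d5]
      exact map_zero _
    · rw [hγd.deriv]
      exact hv1
  · intro q hq p hp t
    have := hscale q t₀ t ht₀ (hcl q hq) p hp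
    rwa [hΘ] at this

theorem AbVar.main {g N : ℕ} (A : AbVar g N) (hA : A.Simple)
    (P : Ideal (MvPolynomial (Fin g ⊕ Fin N) ℂ))
    (hdep : ∀ J : Finset (Fin g ⊕ Fin N), J.card = g + 2 → ¬ Indep P J)
    (S : Set ((Fin g → ℂ) × (Fin g → ℂ))) (hne : S.Nonempty) (hMP : MP g S)
    (hS : ∀ q ∈ S, ∀ p ∈ P, ∀ t : ℂ, eval (Sum.elim q.1 (t • A.θ q.2)) p = 0) :
    ∃ q ∈ S, q.1 = q.2 := by
  classical
  obtain ⟨F, hF⟩ : ∃ F : ((Fin g → ℂ) × (Fin g → ℂ)) →L[ℂ] EuclideanSpace ℂ (Fin g),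
      ∀ q, F q = WithLp.toLp 2 (q.1 - q.2) :=
    ⟨((EuclideanSpace.equiv (Fin g) ℂ).symm : (Fin g → ℂ) →L[ℂ] _).comp
      (ContinuousLinearMap.fst ℂ _ _ - ContinuousLinearMap.snd ℂ _ _), fun q => rfl⟩
  have hFinj : ∀ q q', F q = F q' → q.1 - q.2 = q'.1 - q'.2 := by
    intro q q' h
    rw [hF, hF] at h
    exact WithLp.toLp_injective 2 h
  have hFle : ∀ q, ‖q.1 - q.2‖ ≤ ‖F q‖ := by
    intro q
    refine (pi_norm_le_iff_of_nonneg (norm_nonneg _)).2 fun i => ?_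
    have := PiLp.norm_apply_le (F q) i
    rwa [hF] at this ⊢
  have hFd : ∀ q (m : Fin g → ℂ), F (q + (m, m)) = F q := by
    intro q m
    rw [hF, hF]
    congr 1
    simp
  set m := sInf ((fun q => ‖F q‖) '' S) with hm
  have hbdd : BddBelow ((fun q => ‖F q‖) '' S) := ⟨0, by rintro _ ⟨q, -, rfl⟩; exact norm_nonneg _⟩
  have hmle : ∀ q ∈ S, m ≤ ‖F q‖ := fun q hq => csInf_le hbdd ⟨q, hq, rfl⟩
  have hseq : ∀ n : ℕ, ∃ q ∈ S, ‖F q‖ < m + 1 / ((n : ℝ) + 1) := by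
    intro n
    obtain ⟨_, ⟨q, hq, rfl⟩, h⟩ := exists_lt_of_csInf_lt (hne.image fun q => ‖F q‖)
      (show m < m + 1 / ((n : ℝ) + 1) by simpa using Nat.cast_add_one_pos n)
    exact ⟨q, hq, h⟩
  choose pn hpn hpn' using hseq
  obtain ⟨R, hR⟩ := A.exists_bdd
  choose lam hlam hlam' using fun n => hR (pn n).2
  set Sn : ℕ → Set ((Fin g → ℂ) × (Fin g → ℂ)) := fun n => {q | q + (lam n, lam n) ∈ S} with hSn
  set pn' : ℕ → (Fin g → ℂ) × (Fin g → ℂ) := fun n => pn n - (lam n, lam n) with hpn'def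
  have hmem : ∀ n, pn' n ∈ Sn n := fun n => by simpa [hSn, hpn'def] using hpn n
  have hFpn : ∀ n, F (pn' n) = F (pn n) := fun n => by
    rw [← hFd (pn' n) (lam n)]
    simp [hpn'def]
  have hb : ∀ n, pn' n ∈ Metric.closedBall (0 : (Fin g → ℂ) × (Fin g → ℂ)) (|R| + |m| + 1) := by
    intro n
    rw [mem_closedBall_zero_iff, Prod.norm_def]
    have h1 : ‖(pn' n).2‖ ≤ R := hlam' n
    have h2 := hFle (pn' n)
    have h3 := hpn' n
    have h4 : 1 / ((n : ℝ) + 1) ≤ 1 := by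
      rw [div_le_one (by positivity)]
      have : (0 : ℝ) ≤ n := Nat.cast_nonneg n
      linarith
    have h5 := norm_add_le ((pn' n).1 - (pn' n).2) (pn' n).2
    rw [sub_add_cancel] at h5
    rw [hFpn] at h2
    have h6 := le_abs_self R
    have h7 := le_abs_self m
    have h8 := abs_nonneg m
    exact max_le (by linarith) (by linarith)
  set 𝒰 : Ultrafilter ℕ := hyperfilter ℕ with h𝒰
  obtain ⟨p, -, hp⟩ := (isCompact_closedBall (0 : (Fin g → ℂ) × (Fin g → ℂ))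
    (|R| + |m| + 1)).ultrafilter_le_nhds (𝒰.map pn')
    (by rw [Ultrafilter.coe_map, le_principal_iff, mem_map]; exact Eventually.of_forall hb)
  have hpt : Tendsto pn' 𝒰 (𝓝 p) := hp
  have hpu : p ∈ ulim 𝒰 Sn := fun ε hε =>
    (Metric.tendsto_nhds.1 hpt ε hε).mono fun n hn => ⟨_, hmem n, hn⟩
  have hpm : ‖F p‖ ≤ m := by
    have h1 : Tendsto (fun n => ‖F (pn' n)‖) 𝒰 (𝓝 ‖F p‖) :=
      ((F.continuous.tendsto p).comp hpt).norm
    have h2 : Tendsto (fun n : ℕ => m + 1 / ((n : ℝ) + 1)) 𝒰 (𝓝 (m + 0)) :=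
      (tendsto_const_nhds.add tendsto_one_div_add_atTop_nhds_zero_nat).mono_left
        Nat.hyperfilter_le_atTop
    rw [add_zero] at h2
    exact le_of_tendsto_of_tendsto' h1 h2 fun n => by rw [hFpn]; exact (hpn' n).le
  by_cases hiso : ∃ q ∈ ulim 𝒰 Sn, F q = F p ∧ ∃ r > 0,
      ∀ q' ∈ ulim 𝒰 Sn, F q' = F q → dist q' q < r → q' = q
  · obtain ⟨q, hq, hFq, r, hr, hiso⟩ := hiso
    obtain ⟨δ, hδ, h⟩ := persist 𝒰 Sn (fun n => hMP.translate _) F
      (fun x _ => F.analyticAt x) q hq r hr hiso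
    set η : ℝ := min (1 / 2) (δ / (‖F p‖ + 1)) with hη
    have hη0 : 0 < η := lt_min (by norm_num) (by positivity)
    have hη1 : η ≤ 1 / 2 := min_le_left _ _
    have hη2 : η * ‖F p‖ < δ := by
      have h1 : η ≤ δ / (‖F p‖ + 1) := min_le_right _ _
      rw [le_div_iff₀ (by positivity)] at h1
      nlinarith
    obtain ⟨n, q', hq', hFq'⟩ := h ((1 - η) • F p) (by
      rw [hFq, sub_smul, one_smul, sub_sub_cancel_left, norm_neg, norm_smul, Real.norm_eq_abs,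
        abs_of_pos hη0]
      exact hη2)
    have h1 := hmle _ hq'
    rw [hFd, hFq', norm_smul, Real.norm_eq_abs, abs_of_pos (by linarith)] at h1
    have h2 : ‖F p‖ ≤ 0 := by nlinarith
    have h3 : F p = 0 := norm_le_zero_iff.1 h2
    refine ⟨_, hq', ?_⟩
    have h4 := hFle (q' + (lam n, lam n))
    rw [hFd, hFq', h3, smul_zero, norm_zero] at h4
    exact sub_eq_zero.1 (norm_le_zero_iff.1 h4)
  · exfalso
    push Not at hiso
    set y := p.1 - p.2 with hy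
    obtain ⟨f, hf, hf', hfz⟩ := curve_selection {z | (z, z - y) ∈ ulim 𝒰 Sn}
      ⟨p.1, by simpa [hy] using hpu⟩ (by
        intro x hx ε hε
        obtain ⟨q', hq', h1, h2, h3⟩ := hiso (x, x - y) hx (by rw [hF, hF]; simp [hy]) ε hε
        have h4 := hFinj _ _ h1
        have h5 : q' = (q'.1, q'.1 - y) := by
          refine Prod.ext rfl ?_
          simp only [sub_sub_cancel] at h4
          simp [← h4]
        refine ⟨q'.1, by rw [Set.mem_setOf_eq, ← h5]; exact hq', fun h => h3 ?_, ?_⟩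
        · rw [h5, h]
        · exact lt_of_le_of_lt (le_max_left _ _) h2)
    refine A.ax_schanuel hA f hf hf' y fun J hJ => ?_
    obtain ⟨p₀, hp₀, hp₀0⟩ : ∃ p₀ : MvPolynomial J ℂ, rename Subtype.val p₀ ∈ P ∧ p₀ ≠ 0 := by
      have := hdep J hJ
      unfold Indep at this
      push Not at this
      exact this
    obtain ⟨Q, hQ0, hQ⟩ := lim_poly_shift 𝒰 p₀ hp₀0
      (fun n j => Sum.elim (lam n) (0 : Fin N → ℂ) j.1)
    refine ⟨Q, hQ0, fun t => hfz (fun z => eval (fun j : J => Sum.elim z (t • A.θ (z - y)) j) Q)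
      (fun z _ => analyticAt_eval Q _ fun j => A.analyticAt_elim analyticAt_id
        (analyticAt_id.sub analyticAt_const) analyticAt_const j) fun z hz => hQ _ fun ε hε => ?_⟩
    have hc : ContinuousAt (fun q : (Fin g → ℂ) × (Fin g → ℂ) =>
        fun j : J => Sum.elim q.1 (t • A.θ q.2) j) (z, z - y) :=
      continuousAt_pi.2 fun j =>
        (A.analyticAt_elim analyticAt_fst analyticAt_snd analyticAt_const j.1).continuousAt
    obtain ⟨δ, hδ, hδ'⟩ := Metric.continuousAt_iff.1 hc ε hε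
    filter_upwards [hz δ hδ] with n ⟨q, hq, hd⟩
    refine ⟨_, hδ' hd, ?_⟩
    obtain ⟨c, hc⟩ := (A.per (q.2 + lam n) q.2).2 (by simpa using hlam n)
    have h1 := hS _ hq _ hp₀ (t * c)
    rw [eval_rename] at h1
    convert h1
    funext j
    obtain ⟨i | k, hj⟩ := j
    · simp
    · simp [hc, mul_assoc]

theorem AbVar.eac_simple {g N : ℕ} (A : AbVar g N) (hA : A.Simple)
    (I : Set (MvPolynomial (Fin g ⊕ Fin N) ℂ))
    (hdim : ((g + 1 : ℕ) : WithBot ℕ∞) ≤ A.coneDim (A.zeroSet I)) :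
    ∃ z, (z, z) ∈ A.zeroSet I := by
  classical
  obtain ⟨P, hP, hI, hsc, T, hTc, hT, hdep⟩ := exists_P0
    (vanishingIdeal ℂ (A.cone (A.zeroSet I))) (by
      intro z y t h p hp
      rw [← eval_scale]
      refine h _ ?_
      rintro _ ⟨q, hq, s, rfl⟩
      have := hp _ ⟨q, hq, t * s, rfl⟩
      rw [aeval_eq_eval] at this ⊢
      rw [eval_scale, smul_smul]
      exact this) hdim
  have hcone : ∀ x : Fin g ⊕ Fin N → ℂ, (∀ p ∈ P, eval x p = 0) →
      ∃ (t : ℂ) (w : Fin g → ℂ), (fun k => x (Sum.inr k)) = t • A.θ w := by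
    obtain ⟨J, hJ⟩ := A.closed
    intro x hx
    refine (hJ _).1 fun p hp => ?_
    have : rename Sum.inr p ∈ P := by
      apply hI
      rintro _ ⟨q, hq, s, rfl⟩
      rw [aeval_eq_eval, eval_rename]
      exact (hJ _).2 ⟨s, q.2, rfl⟩ p hp
    have := hx _ this
    rwa [eval_rename] at this
  obtain ⟨S, hne, hMP, hS⟩ := A.exists_MP P hcone hsc T hTc hT
    (algOver_of_max P T hT fun k hk => hdep _ (by rw [Finset.card_insert_of_notMem hk, hTc]))
  obtain ⟨q, hq, h⟩ := A.main hA P hdep S hne hMP hS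
  refine ⟨q.1, fun p hp t => ?_⟩
  have := hS q hq p (hI ?_) t
  · rwa [← h] at this
  · rintro _ ⟨q', hq', s, rfl⟩
    rw [aeval_eq_eval]
    exact hq' p hp s

end Pool.Agent.P.MP_f17f76_ag
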