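import Pool.Agent.P.MP_f17f76_ag.BrChow
import Pool.Agent.P.MP_f17f76_ag.Main

/-!
Analytic parametrisations of an irreducible subvariety of `ℂ^g × A` near a generic point.
-/

namespace Pool.Agent.P.MP_f17f76_ag

open MvPolynomial Filter Topology

namespace AbVar

variable {g N : ℕ} (A : AbVar g N)

/-- The ideal of the cone over `V`. -/
noncomputable abbrev idl (V : Set ((Fin g → ℂ) × (Fin g → ℂ))) :
    Ideal (MvPolynomial (Fin g ⊕ Fin N) ℂ) := vanishingIdeal ℂ (A.cone V)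

theorem mem_idl {V : Set ((Fin g → ℂ) × (Fin g → ℂ))} {p : MvPolynomial (Fin g ⊕ Fin N) ℂ} :
    p ∈ A.idl V ↔ ∀ q ∈ V, ∀ t : ℂ, eval (Sum.elim q.1 (t • A.θ q.2)) p = 0 := by
  refine ⟨fun h q hq t => ?_, fun h => ?_⟩
  · have := h _ ⟨q, hq, t, rfl⟩
    rwa [aeval_eq_eval] at this
  · rintro _ ⟨q, hq, t, rfl⟩
    rw [aeval_eq_eval]
    exact h q hq t

theorem zeroSet_idl (I : Set (MvPolynomial (Fin g ⊕ Fin N) ℂ)) :
    A.zeroSet (A.idl (A.zeroSet I)) = A.zeroSet I :=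
  Set.Subset.antisymm (fun _ hq p hp => hq p (A.mem_idl.2 fun _ h => h p hp))
    fun q hq _ hp => A.mem_idl.1 hp q hq

theorem subset_zeroSet_idl (V : Set ((Fin g → ℂ) × (Fin g → ℂ))) : V ⊆ A.zeroSet (A.idl V) :=
  fun q hq _ hp => A.mem_idl.1 hp q hq

theorem idl_scale (V : Set ((Fin g → ℂ) × (Fin g → ℂ))) (z : Fin g → ℂ) (y : Fin N → ℂ) (t : ℂ)
    (h : ∀ p ∈ A.idl V, eval (Sum.elim z y) p = 0) :
    ∀ p ∈ A.idl V, eval (Sum.elim z (t • y)) p = 0 := by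
  intro p hp
  rw [← eval_scale]
  refine h _ (A.mem_idl.2 fun q hq s => ?_)
  rw [eval_scale, smul_smul]
  exact A.mem_idl.1 hp q hq _

theorem idl_cone (V : Set ((Fin g → ℂ) × (Fin g → ℂ))) (x : Fin g ⊕ Fin N → ℂ)
    (hx : ∀ p ∈ A.idl V, eval x p = 0) :
    ∃ (t : ℂ) (w : Fin g → ℂ), (fun k => x (Sum.inr k)) = t • A.θ w := by
  obtain ⟨J, hJ⟩ := A.closed
  refine (hJ _).1 fun p hp => ?_
  have := hx (rename Sum.inr p) (A.mem_idl.2 fun q _ s => by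
    rw [eval_rename]
    exact (hJ _).2 ⟨s, q.2, rfl⟩ p hp)
  rwa [eval_rename] at this

theorem Irred.nonempty {A : AbVar g N} {V : Set ((Fin g → ℂ) × (Fin g → ℂ))} (h : A.Irred V) :
    V.Nonempty := by
  rcases V.eq_empty_or_nonempty with rfl | h'
  · exact absurd ((Ideal.eq_top_iff_one _).2 (A.mem_idl.2 fun _ hq => hq.elim)) h.ne_top
  · exact h'

/-- `Ψ` is an analytic immersion of a connected open set onto a Zariski dense piece of the
variety with ideal `P`, of the full dimension. -/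
structure IsPar (P : Ideal (MvPolynomial (Fin g ⊕ Fin N) ℂ)) {F : Type} [NormedAddCommGroup F]
    [NormedSpace ℂ F] (Ω : Set F) (Ψ : F → (Fin g → ℂ) × (Fin g → ℂ)) : Prop where
  isOpen : IsOpen Ω
  conn : IsPreconnected Ω
  nonempty : Ω.Nonempty
  an : ∀ y ∈ Ω, AnalyticAt ℂ Ψ y
  imm : ∀ y ∈ Ω, Function.Injective (fderiv ℂ Ψ y)
  mem : ∀ p, p ∈ P ↔ ∀ y ∈ Ω, ∀ t : ℂ, eval (Sum.elim (Ψ y).1 (t • A.θ (Ψ y).2)) p = 0
  dim : ∀ T, Indep P T → T.card ≤ Module.finrank ℂ F + 1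

section

variable {A} {P : Ideal (MvPolynomial (Fin g ⊕ Fin N) ℂ)} {F : Type} [NormedAddCommGroup F]
  [NormedSpace ℂ F] {Ω : Set F} {Ψ : F → (Fin g → ℂ) × (Fin g → ℂ)}

theorem IsPar.an_eval (h : A.IsPar P Ω Ψ) (p : MvPolynomial (Fin g ⊕ Fin N) ℂ) (t : ℂ) :
    AnalyticOnNhd ℂ (fun y => eval (Sum.elim (Ψ y).1 (t • A.θ (Ψ y).2)) p) Ω := fun y hy =>
  analyticAt_eval p _ (A.analyticAt_elim (analyticAt_fst.comp (h.an y hy))
    (analyticAt_snd.comp (h.an y hy)) analyticAt_const)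

theorem IsPar.mem_of_eventually (h : A.IsPar P Ω Ψ) {y : F} (hy : y ∈ Ω)
    {p : MvPolynomial (Fin g ⊕ Fin N) ℂ}
    (hp : ∀ t : ℂ, ∀ᶠ z in 𝓝 y, eval (Sum.elim (Ψ z).1 (t • A.θ (Ψ z).2)) p = 0) : p ∈ P :=
  (h.mem p).2 fun _ hz t =>
    (h.an_eval p t).eqOn_zero_of_preconnected_of_eventuallyEq_zero h.conn hy (hp t) hz

theorem IsPar.mono (h : A.IsPar P Ω Ψ) {Ω' : Set F} (ho : IsOpen Ω') (hc : IsPreconnected Ω')
    (hne : Ω'.Nonempty) (hs : Ω' ⊆ Ω) : A.IsPar P Ω' Ψ where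
  isOpen := ho
  conn := hc
  nonempty := hne
  an y hy := h.an y (hs hy)
  imm y hy := h.imm y (hs hy)
  mem p := ⟨fun hp y hy => (h.mem p).1 hp y (hs hy), fun hp => by
    obtain ⟨y, hy⟩ := hne
    refine h.mem_of_eventually (hs hy) fun t => ?_
    filter_upwards [ho.mem_nhds hy] with z hz using hp z hz t⟩
  dim := h.dim

theorem IsPar.mem_zeroSet (h : A.IsPar P Ω Ψ) {y : F} (hy : y ∈ Ω) : Ψ y ∈ A.zeroSet P :=
  fun p hp => (h.mem p).1 hp y hy

end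

theorem exists_homog {ι : Type} (e : ι → Fin g ⊕ Fin N) (j : Fin N) (c : ℂ)
    (p : MvPolynomial ι ℂ) : ∃ (d : ℕ) (p' : MvPolynomial (Fin g ⊕ Fin N) ℂ),
      ∀ (z : Fin g → ℂ) (y : Fin N → ℂ), y j ≠ 0 → eval (Sum.elim z y) p' =
        y j ^ d * eval (fun i => Sum.elim z ((c / y j) • y) (e i)) p := by
  induction p using MvPolynomial.induction_on with
  | C a => exact ⟨0, C a, fun z y _ => by simp⟩
  | add p q hp hq =>
    obtain ⟨d, p', hp⟩ := hp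
    obtain ⟨d', q', hq⟩ := hq
    refine ⟨d + d', X (Sum.inr j) ^ d' * p' + X (Sum.inr j) ^ d * q', fun z y hy => ?_⟩
    simp only [map_add, map_mul, map_pow, eval_X, Sum.elim_inr, hp z y hy, hq z y hy]
    ring
  | mul_X p i hp =>
    obtain ⟨d, p', hp⟩ := hp
    rcases h : e i with k | k
    · refine ⟨d, p' * X (Sum.inl k), fun z y hy => ?_⟩
      simp only [map_mul, eval_X, hp z y hy, h, Sum.elim_inl]
      ring
    · refine ⟨d + 1, p' * (C c * X (Sum.inr k)), fun z y hy => ?_⟩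
      simp only [map_mul, eval_X, eval_C, hp z y hy, h, Sum.elim_inr, Pi.smul_apply, smul_eq_mul]
      field_simp
      ring

/-- Near every point off a proper closed subset, an irreducible variety has a parametrisation
by algebraic functions, with an analytic local inverse; the parameters are rational functions. -/
theorem exists_par' {V : Set ((Fin g → ℂ) × (Fin g → ℂ))} (hV : A.Irred V) :
    ∃ (ι : Type) (_ : Fintype ι) (D : MvPolynomial (Fin g ⊕ Fin N) ℂ), D ∉ A.idl V ∧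
      ∀ q ∈ A.zeroSet (A.idl V), ∀ t : ℂ, eval (Sum.elim q.1 (t • A.θ q.2)) D ≠ 0 →
        ∃ (u₀ : ι → ℂ) (ε : ℝ) (Ψ : (ι → ℂ) → (Fin g → ℂ) × (Fin g → ℂ)) (τ : (ι → ℂ) → ℂ)
          (κ : (Fin g → ℂ) × (Fin g → ℂ) → ι → ℂ), 0 < ε ∧
          A.IsPar (A.idl V) (Metric.ball u₀ ε) Ψ ∧ Ψ u₀ = q ∧ τ u₀ = t ∧
          (∀ y ∈ Metric.ball u₀ ε, AnalyticAt ℂ τ y ∧ τ y ≠ 0 ∧
            ∀ k, IsEt y fun u => Sum.elim (Ψ u).1 (τ u • A.θ (Ψ u).2) k) ∧
          AnalyticAt ℂ κ q ∧ κ q = u₀ ∧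
          (∀ᶠ q' in 𝓝 q, q' ∈ A.zeroSet (A.idl V) → Ψ (κ q') = q') ∧
          ∀ p : MvPolynomial ι ℂ, ∃ p' : MvPolynomial (Fin g ⊕ Fin N) ℂ,
            ∀ y ∈ Metric.ball u₀ ε, ∀ s : ℂ, s ≠ 0 →
              (eval (Sum.elim (Ψ y).1 (s • A.θ (Ψ y).2)) p' = 0 ↔ eval y p = 0) := by
  classical
  have hP : (A.idl V).IsPrime := hV
  obtain ⟨q₀, hq₀⟩ := hV.nonempty
  obtain ⟨j, hj⟩ := Function.ne_iff.1 (A.ne_zero q₀.2)
  have hj1 : Indep (A.idl V) {Sum.inr j} := by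
    intro p hp
    refine MvPolynomial.funext fun x => ?_
    have h1 := A.mem_idl.1 hp q₀ hq₀ (x ⟨_, Finset.mem_singleton_self _⟩ / A.θ q₀.2 j)
    rw [eval_rename] at h1
    rw [map_zero, ← h1]
    congr 2
    funext i
    obtain ⟨i, hi⟩ := i
    obtain rfl := Finset.mem_singleton.1 hi
    exact (div_mul_cancel₀ _ hj).symm
  obtain ⟨T, hjT, hT, hTa⟩ := alg_extend' _ _ hj1
  have hjT' : Sum.inr j ∈ T := hjT (Finset.mem_singleton_self _)
  obtain ⟨D, hD, hch⟩ := chart _ T hT hTa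
  refine ⟨T.erase (Sum.inr j), inferInstance, D * X (Sum.inr j),
    fun h => (hP.mem_or_mem h).elim hD (hT.X_notMem hjT'), fun q hq t hne => ?_⟩
  obtain ⟨x, hx⟩ : ∃ x : Fin g ⊕ Fin N → ℂ, x = Sum.elim q.1 (t • A.θ q.2) := ⟨_, rfl⟩
  rw [← hx, map_mul, eval_X] at hne
  have hxj : x (Sum.inr j) ≠ 0 := right_ne_zero_of_mul hne
  have ht : t ≠ 0 := by
    rw [hx] at hxj
    exact left_ne_zero_of_mul hxj
  have hθj : A.θ q.2 j ≠ 0 := by
    rw [hx] at hxj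
    exact right_ne_zero_of_mul hxj
  obtain ⟨ψ, hψ0, hψE, hψ1, hψ2⟩ := hch x (fun p hp => hx ▸ hq p hp t) (left_ne_zero_of_mul hne)
  obtain ⟨G, hG⟩ : ∃ G : T → MvPolynomial (T.erase (Sum.inr j)) ℂ, G = fun i : T =>
      if h : i.1 = Sum.inr j then C (x i.1) else X ⟨i.1, Finset.mem_erase.2 ⟨h, i.2⟩⟩ := ⟨_, rfl⟩
  obtain ⟨gm, hgm⟩ : ∃ gm : (T.erase (Sum.inr j) → ℂ) → T → ℂ, gm = fun u i => eval u (G i) :=
    ⟨_, rfl⟩
  have hgm1 : ∀ (y : Fin g ⊕ Fin N → ℂ), y (Sum.inr j) = x (Sum.inr j) →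
      gm (fun i => y i) = fun i : T => y i := by
    intro y hy
    funext i
    by_cases h : i.1 = Sum.inr j
    · simp only [hgm, hG, dif_pos h, eval_C]
      rw [h, hy]
    · simp only [hgm, hG, dif_neg h, eval_X]
  have hgm2 : ∀ u (i : T.erase (Sum.inr j)), gm u ⟨i.1, Finset.mem_of_mem_erase i.2⟩ = u i := by
    intro u i
    simp only [hgm, hG, dif_neg (Finset.ne_of_mem_erase i.2), eval_X]
  have hgm3 : ∀ u, gm u ⟨_, hjT'⟩ = x (Sum.inr j) := by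
    intro u
    simp only [hgm, hG, dif_pos, eval_C]
  obtain ⟨u₀, hu₀⟩ : ∃ u₀ : T.erase (Sum.inr j) → ℂ, u₀ = fun i => x i.1 := ⟨_, rfl⟩
  have h0 : gm u₀ = fun i : T => x i := hu₀ ▸ hgm1 x rfl
  have hgc : Tendsto gm (𝓝 u₀) (𝓝 fun i : T => x i) := by
    refine Continuous.tendsto' ?_ _ _ h0
    rw [hgm]
    exact continuous_pi fun i => continuous_eval (G i)
  have hE : ∀ k, IsEt u₀ fun u => ψ (gm u) k := by
    intro k
    have h2 := hψE k
    rw [← h0, hgm] at h2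
    rw [hgm]
    exact IsEt.comp_poly G u₀ h2
  obtain ⟨ω, τ, hw, hτ, hω0, hτ0, hY, hω⟩ := A.chart_lift (A.idl_cone V) u₀ (fun u => ψ (gm u))
    hE ((hgc.eventually hψ1).mono fun u hu => hu.2) q.2 t ht (by rw [h0, hψ0, hx]; rfl)
  obtain ⟨Ψ, hΨ⟩ : ∃ Ψ : (T.erase (Sum.inr j) → ℂ) → (Fin g → ℂ) × (Fin g → ℂ), Ψ = fun u =>
      (fun i => ψ (gm u) (Sum.inl i), ω fun k => ψ (gm u) (Sum.inr k)) := ⟨_, rfl⟩
  have hΨa : AnalyticAt ℂ Ψ u₀ := by
    rw [hΨ]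
    exact (analyticAt_pi_iff.2 fun i => (hE (Sum.inl i)).1).prod hw
  have hΨ0 : Ψ u₀ = q := by
    rw [hΨ]
    simp only [h0, hψ0]
    rw [hx]
    exact Prod.ext rfl hω0
  have hψΘ : ∀ᶠ u in 𝓝 u₀, ψ (gm u) = Sum.elim (Ψ u).1 (τ u • A.θ (Ψ u).2) := by
    filter_upwards [hY] with u hu
    rw [hΨ]
    funext k
    rcases k with i | k
    · rfl
    · exact congrFun hu k
  obtain ⟨ε, hε, hball⟩ : ∃ ε > 0, ∀ y ∈ Metric.ball u₀ ε, AnalyticAt ℂ Ψ y ∧
      AnalyticAt ℂ τ y ∧ τ y ≠ 0 ∧ (∀ k, IsEt y fun u => ψ (gm u) k) ∧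
      (∀ᶠ u in 𝓝 y, ψ (gm u) = Sum.elim (Ψ u).1 (τ u • A.θ (Ψ u).2)) ∧
      ∀ᶠ u in 𝓝 y, (∀ i : T, ψ (gm u) i = gm u i) ∧ ∀ p ∈ A.idl V, eval (ψ (gm u)) p = 0 :=
    Metric.eventually_nhds_iff_ball.1 (hΨa.eventually_analyticAt.and
      (hτ.eventually_analyticAt.and ((hτ.continuousAt.eventually_ne (hτ0 ▸ ht)).and
      ((eventually_all.2 fun k => (hE k).eventually).and (hψΘ.eventually_nhds.and
      (hgc.eventually hψ1).eventually_nhds)))))
  -- rescaling to the slice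
  obtain ⟨ρ, hρ⟩ : ∃ ρ : (Fin g ⊕ Fin N → ℂ) → Fin g ⊕ Fin N → ℂ, ρ = fun y =>
      Sum.elim (fun i => y (Sum.inl i))
        ((x (Sum.inr j) / y (Sum.inr j)) • fun k => y (Sum.inr k)) := ⟨_, rfl⟩
  have hρa : AnalyticAt ℂ ρ x := by
    rw [hρ]
    have hc : ∀ k, AnalyticAt ℂ (fun y : Fin g ⊕ Fin N → ℂ => y k) x := nash1_analytic_coord x
    refine analyticAt_pi_iff.2 fun k => ?_
    rcases k with i | k
    · exact hc _
    · exact (analyticAt_const.div (hc _) hxj).mul (hc _)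
  have hρ0 : ρ x = x := by
    rw [hρ]
    funext k
    rcases k with i | k
    · rfl
    · simp [div_self hxj]
  have hρt : Tendsto ρ (𝓝 x) (𝓝 x) := by simpa only [hρ0] using hρa.continuousAt.tendsto
  have hρu : Tendsto (fun y (i : T.erase (Sum.inr j)) => ρ y i.1) (𝓝 x) (𝓝 u₀) := by
    rw [hu₀]
    exact tendsto_pi_nhds.2 fun i => tendsto_pi_nhds.1 hρt i.1
  have key : ∀ᶠ y in 𝓝 x, y (Sum.inr j) ≠ 0 ∧ ((∀ p ∈ A.idl V, eval y p = 0) →
      ψ (gm fun i => ρ y i) = ρ y) := by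
    filter_upwards [hρt.eventually hψ2,
      (continuousAt_apply (Sum.inr j) x).eventually_ne hxj] with y h1 h2
    refine ⟨h2, fun h3 => ?_⟩
    rw [hgm1 (ρ y) (by simp [hρ, h2])]
    refine h1 ?_
    rw [hρ]
    refine A.idl_scale V _ _ _ fun p hp => ?_
    rw [← h3 p hp]
    congr 2
    funext k
    rcases k with i | k <;> rfl
  have hΘa : AnalyticAt ℂ (fun q' : (Fin g → ℂ) × (Fin g → ℂ) =>
      Sum.elim q'.1 (t • A.θ q'.2)) q :=
    analyticAt_pi_iff.2 (A.analyticAt_elim analyticAt_fst analyticAt_snd analyticAt_const)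
  refine ⟨u₀, ε, Ψ, τ, fun q' i => ρ (Sum.elim q'.1 (t • A.θ q'.2)) i.1, hε,
    ⟨Metric.isOpen_ball, (convex_ball _ _).isPreconnected, ⟨_, Metric.mem_ball_self hε⟩,
      fun y hy => (hball y hy).1, fun y hy => ?_, fun p => ⟨fun hp y hy s => ?_, fun hp => ?_⟩,
      fun J hJ => ?_⟩, hΨ0, hτ0, fun y hy => ⟨(hball y hy).2.1, (hball y hy).2.2.1, fun k => ?_⟩,
    ?_, by simp only [← hx, hρ0, hu₀], ?_, fun p => ?_⟩
  · obtain ⟨h1, h2, h3, -, h5, h6⟩ := hball y hy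
    rw [injective_iff_map_eq_zero]
    intro v hv
    have d1 : HasFDerivAt (fun u => (Ψ u).1) _ y := h1.differentiableAt.hasFDerivAt.fst
    have d2 : HasFDerivAt (fun u => (Ψ u).2) _ y := h1.differentiableAt.hasFDerivAt.snd
    have e2 : fderiv ℂ (fun u => (Ψ u).2) y v = 0 := by simp [d2.fderiv, hv]
    have d3 : ∀ k, fderiv ℂ (fun u => ψ (gm u) (Sum.inr k)) y v =
        fderiv ℂ τ y v * A.θ (Ψ y).2 k := by
      intro k
      rw [Filter.EventuallyEq.fderiv_eq (f := fun u => (τ u • A.θ (Ψ u).2) k)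
        (h5.mono fun u hu => congrFun hu _),
        A.cone_fderiv d2.differentiableAt h2.differentiableAt, e2]
      simp
    have e3 : fderiv ℂ τ y v = 0 := by
      have e4 := d3 j
      rw [Filter.EventuallyEq.fderiv_eq (f := fun _ => x (Sum.inr j))
        (h6.mono fun u hu => (hu.1 ⟨_, hjT'⟩).trans (hgm3 u))] at e4
      have e5 : τ y * A.θ (Ψ y).2 j ≠ 0 := by
        have e6 := congrFun h5.self_of_nhds (Sum.inr j)
        rw [(h6.self_of_nhds.1 ⟨_, hjT'⟩).trans (hgm3 y)] at e6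
        rwa [e6] at hxj
      refine (mul_eq_zero.1 (e4.symm.trans ?_)).resolve_right (right_ne_zero_of_mul e5)
      simp
    funext i
    have e7 : fderiv ℂ (fun u => ψ (gm u) i.1) y v = v i := by
      rw [Filter.EventuallyEq.fderiv_eq (f := fun u => u i)
        (h6.mono fun u hu => (hu.1 ⟨_, Finset.mem_of_mem_erase i.2⟩).trans (hgm2 u i)),
        (hasFDerivAt_apply i y).fderiv]
      rfl
    rw [← e7]
    obtain ⟨i | k, hi⟩ := i
    · rw [Filter.EventuallyEq.fderiv_eq (f := fun u => (Ψ u).1 i)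
        (h5.mono fun u hu => congrFun hu _), (hasFDerivAt_pi'.1 d1 i).fderiv]
      simp [hv]
    · rw [d3, e3, zero_mul]
      rfl
  · obtain ⟨-, -, h3, -, h5, h6⟩ := hball y hy
    have := A.idl_scale V _ _ (s / τ y) (fun p hp => by
      rw [← h5.self_of_nhds]
      exact h6.self_of_nhds.2 p hp) p hp
    rwa [smul_smul, div_mul_cancel₀ _ h3] at this
  · refine mem_of_chart _ hT hTa hψ1 ?_
    have hψc : Tendsto ψ (𝓝 fun i : T => x i) (𝓝 x) := by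
      have := (continuousAt_pi.2 fun k => (hψE k).1.continuousAt : ContinuousAt ψ _).tendsto
      rwa [hψ0] at this
    filter_upwards [hψ1, hψc.eventually key,
      (hρu.comp hψc).eventually (Metric.ball_mem_nhds u₀ hε)] with u h1 h2 h3
    have h4 := (hball _ h3).2.2.2.2.1.self_of_nhds
    have h5 := hp _ h3 (ψ u (Sum.inr j) / x (Sum.inr j) * τ fun i => ρ (ψ u) i.1)
    rw [← h5]
    congr 2
    simp only [Function.comp] at h4 ⊢
    rw [h2.2 h1.2] at h4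
    funext k
    have h6 := congrFun h4 k
    rcases k with i | k
    · simpa [hρ] using h6
    · have h7 := h2.1
      have h8 : ρ (ψ u) (Sum.inr k) = x (Sum.inr j) / ψ u (Sum.inr j) * ψ u (Sum.inr k) := by
        rw [hρ]
        rfl
      rw [h8] at h6
      simp only [Sum.elim_inr, Pi.smul_apply, smul_eq_mul] at h6 ⊢
      rw [mul_assoc, ← h6]
      field_simp
  · have := hT.card_le hTa hJ
    rwa [← Finset.card_erase_add_one hjT', ← Fintype.card_coe (T.erase _),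
      ← Module.finrank_fintype_fun_eq_card ℂ] at this
  · exact ((hball y hy).2.2.2.1 k).congr ((hball y hy).2.2.2.2.1.mono fun u hu => congrFun hu k)
  · exact analyticAt_pi_iff.2 fun i => analyticAt_pi_iff.1
      (AnalyticAt.comp (g := ρ) (by rw [← hx]; exact hρa) hΘa) i.1
  · have hΘt := hΘa.continuousAt.tendsto
    rw [← hx] at hΘt
    have hs : Tendsto (fun q' : (Fin g → ℂ) × (Fin g → ℂ) =>
        (q'.2, x (Sum.inr j) / (t * A.θ q'.2 j) * t)) (𝓝 q) (𝓝 (q.2, t)) := by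
      have h1 := A.theta_continuous
      have h2 : ContinuousAt (fun q' : (Fin g → ℂ) × (Fin g → ℂ) =>
          (q'.2, x (Sum.inr j) / (t * A.θ q'.2 j) * t)) q :=
        continuousAt_snd.prodMk ((continuousAt_const.div
          (g := fun q' : (Fin g → ℂ) × (Fin g → ℂ) => t * A.θ q'.2 j) (by fun_prop)
          (mul_ne_zero ht hθj)).mul continuousAt_const)
      have h3 : x (Sum.inr j) / (t * A.θ q.2 j) * t = t := by
        rw [hx]
        simp only [Sum.elim_inr, Pi.smul_apply, smul_eq_mul]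
        field_simp
      simpa only [h3] using h2.tendsto
    filter_upwards [hΘt.eventually key, hs.eventually hω] with q' h1 h2 h3
    rw [hΨ]
    simp only [h1.2 fun p hp => h3 p hp t]
    refine Prod.ext (by rw [hρ]; rfl) ?_
    rw [mul_smul] at h2
    rw [hρ]
    exact h2
  · obtain ⟨d, p', hp⟩ := exists_homog (fun i : T.erase (Sum.inr j) => i.1) j (x (Sum.inr j)) p
    refine ⟨p', fun y hy s hs => ?_⟩
    obtain ⟨-, -, h3, -, h5, h6⟩ := hball y hy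
    have e6 := congrFun h5.self_of_nhds (Sum.inr j)
    rw [(h6.self_of_nhds.1 ⟨_, hjT'⟩).trans (hgm3 y)] at e6
    have e7 : x (Sum.inr j) = τ y * A.θ (Ψ y).2 j := e6
    have e5 : A.θ (Ψ y).2 j ≠ 0 := right_ne_zero_of_mul (e7 ▸ hxj)
    have e8 : (s • A.θ (Ψ y).2) j ≠ 0 := mul_ne_zero hs e5
    have e9 : (x (Sum.inr j) / (s • A.θ (Ψ y).2) j) • s • A.θ (Ψ y).2 = τ y • A.θ (Ψ y).2 := by
      rw [smul_smul, e7, Pi.smul_apply, smul_eq_mul]
      congr 1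
      field_simp
    rw [hp _ _ e8, e9, ← h5.self_of_nhds, mul_eq_zero, or_iff_right (pow_ne_zero _ e8),
      show (fun i : T.erase (Sum.inr j) => ψ (gm y) i.1) = y from funext fun i =>
        (h6.self_of_nhds.1 ⟨_, Finset.mem_of_mem_erase i.2⟩).trans (hgm2 y i)]

/-- Near every point off a proper closed subset, an irreducible variety has a parametrisation
by algebraic functions, with an analytic local inverse. -/
theorem exists_par {V : Set ((Fin g → ℂ) × (Fin g → ℂ))} (hV : A.Irred V) :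
    ∃ (ι : Type) (_ : Fintype ι) (D : MvPolynomial (Fin g ⊕ Fin N) ℂ), D ∉ A.idl V ∧
      ∀ q ∈ A.zeroSet (A.idl V), ∀ t : ℂ, eval (Sum.elim q.1 (t • A.θ q.2)) D ≠ 0 →
        ∃ (u₀ : ι → ℂ) (ε : ℝ) (Ψ : (ι → ℂ) → (Fin g → ℂ) × (Fin g → ℂ)) (τ : (ι → ℂ) → ℂ)
          (κ : (Fin g → ℂ) × (Fin g → ℂ) → ι → ℂ), 0 < ε ∧
          A.IsPar (A.idl V) (Metric.ball u₀ ε) Ψ ∧ Ψ u₀ = q ∧ τ u₀ = t ∧
          (∀ y ∈ Metric.ball u₀ ε, AnalyticAt ℂ τ y ∧ τ y ≠ 0 ∧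
            ∀ k, IsEt y fun u => Sum.elim (Ψ u).1 (τ u • A.θ (Ψ u).2) k) ∧
          AnalyticAt ℂ κ q ∧ κ q = u₀ ∧
          ∀ᶠ q' in 𝓝 q, q' ∈ A.zeroSet (A.idl V) → Ψ (κ q') = q' := by
  obtain ⟨ι, _, D, hD, h⟩ := A.exists_par' hV
  refine ⟨ι, inferInstance, D, hD, fun q hq t ht => ?_⟩
  obtain ⟨u₀, ε, Ψ, τ, κ, h1, h2, h3, h4, h5, h6, h7, h8, -⟩ := h q hq t ht
  exact ⟨u₀, ε, Ψ, τ, κ, h1, h2, h3, h4, h5, h6, h7, h8⟩

end AbVar

end Pool.Agent.P.MP_f17f76_ag
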