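import Pool.Agent.P.MP_f17f76_ag.BrLat

/-!
The pulled back Fubini-Study form: pointwise computations and integrality of its periods.
-/

namespace Pool.Agent.P.MP_f17f76_ag

open Filter Topology ComplexConjugate MeasureTheory

/-- The standard Hermitian product. -/
noncomputable def ip {N : ℕ} (a b : Fin N → ℂ) : ℂ := ∑ k, conj (a k) * b k

section

variable {N : ℕ} (a a' b b' : Fin N → ℂ) (c : ℂ)

theorem ip_add_left : ip (a + a') b = ip a b + ip a' b := by
  simp [ip, add_mul, Finset.sum_add_distrib]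

theorem ip_add_right : ip a (b + b') = ip a b + ip a b' := by
  simp [ip, mul_add, Finset.sum_add_distrib]

theorem ip_smul_left : ip (c • a) b = conj c * ip a b := by
  simp [ip, Finset.mul_sum, mul_assoc]

theorem ip_smul_right : ip a (c • b) = c * ip a b := by
  simp [ip, Finset.mul_sum, mul_left_comm]

theorem ip_conj : conj (ip a b) = ip b a := by
  simp [ip, mul_comm]

theorem ip_self : ip a a = ((∑ k, Complex.normSq (a k) : ℝ) : ℂ) := by
  simp [ip, Complex.normSq_eq_conj_mul_self]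

theorem ip_self_pos {a : Fin N → ℂ} (h : a ≠ 0) : 0 < ∑ k, Complex.normSq (a k) := by
  obtain ⟨k, hk⟩ := Function.ne_iff.1 h
  exact Finset.sum_pos' (fun k _ => Complex.normSq_nonneg _)
    ⟨k, Finset.mem_univ _, Complex.normSq_pos.2 hk⟩

theorem ip_self_ne {a : Fin N → ℂ} (h : a ≠ 0) : ip a a ≠ 0 := by
  rw [ip_self]
  exact Complex.ofReal_ne_zero.2 (ip_self_pos h).ne'

end

theorem ip_continuous {N : ℕ} {X : Type} [TopologicalSpace X] {a b : X → Fin N → ℂ}
    (ha : Continuous a) (hb : Continuous b) : Continuous fun x => ip (a x) (b x) := by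
  unfold ip
  fun_prop

theorem ip_hasFDerivAt {N : ℕ} {X : Type} [NormedAddCommGroup X] [NormedSpace ℝ X]
    {a b : X → Fin N → ℂ} {a' b' : X →L[ℝ] (Fin N → ℂ)} {x : X} (ha : HasFDerivAt a a' x)
    (hb : HasFDerivAt b b' x) : ∃ L : X →L[ℝ] ℂ, HasFDerivAt (fun x => ip (a x) (b x)) L x ∧
      ∀ u, L u = ip (a' u) (b x) + ip (a x) (b' u) := by
  refine ⟨_, HasFDerivAt.fun_sum fun k _ =>
    (Complex.conjCLE.hasFDerivAt.comp x (hasFDerivAt_pi'.1 ha k)).fun_mul
      (hasFDerivAt_pi'.1 hb k), fun u => ?_⟩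
  simp only [ip, _root_.sum_apply, ← Finset.sum_add_distrib]
  refine Finset.sum_congr rfl fun k _ => ?_
  simp
  ring

theorem exp_integral_logDeriv {k k' : ℝ → ℂ} (hk : ∀ t, HasDerivAt k (k' t) t)
    (hc : Continuous k') (h0 : ∀ t, k t ≠ 0) :
    Complex.exp (∫ t in (0 : ℝ)..1, k' t / k t) * k 0 = k 1 := by
  have hkc : Continuous k := continuous_iff_continuousAt.2 fun t => (hk t).continuousAt
  have hq : Continuous fun t => k' t / k t := hc.div hkc h0
  have h1 : ∀ t, HasDerivAt (fun t => Complex.exp (-∫ s in (0 : ℝ)..t, k' s / k s) * k t) 0 t := by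
    intro t
    have := ((hq.integral_hasStrictDerivAt 0 t).hasDerivAt.fun_neg.cexp).fun_mul (hk t)
    refine this.congr_deriv ?_
    have := h0 t
    field_simp
    ring
  have h2 := is_const_of_deriv_eq_zero (fun t => (h1 t).differentiableAt)
    (fun t => (h1 t).deriv) 0 1
  simp only [intervalIntegral.integral_same, neg_zero, Complex.exp_zero, one_mul] at h2
  rw [h2, ← mul_assoc, ← Complex.exp_add, add_neg_cancel, Complex.exp_zero, one_mul]

namespace AbVar

variable {g N : ℕ} (A : AbVar g N)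

/-- The Chern connection form. -/
noncomputable def polA (w v : Fin g → ℂ) : ℂ :=
  ip (A.θ w) (fderiv ℂ A.θ w v) / ip (A.θ w) (A.θ w)

/-- The pulled back Fubini-Study metric. -/
noncomputable def polH (w u v : Fin g → ℂ) : ℂ :=
  ip (fderiv ℂ A.θ w u) (fderiv ℂ A.θ w v) / ip (A.θ w) (A.θ w) -
    ip (fderiv ℂ A.θ w u) (A.θ w) * ip (A.θ w) (fderiv ℂ A.θ w v) / ip (A.θ w) (A.θ w) ^ 2

theorem fderiv_continuous (v : Fin g → ℂ) : Continuous fun w => fderiv ℂ A.θ w v :=
  (continuous_iff_continuousAt.2 fun w => (A.analytic w trivial).fderiv.continuousAt).clm_apply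
    continuous_const

theorem polH_continuous (u v : Fin g → ℂ) : Continuous fun w => A.polH w u v :=
  ((ip_continuous (A.fderiv_continuous u) (A.fderiv_continuous v)).div
    (ip_continuous A.theta_continuous A.theta_continuous) fun w => ip_self_ne (A.ne_zero w)).sub
    (((ip_continuous (A.fderiv_continuous u) A.theta_continuous).mul
      (ip_continuous A.theta_continuous (A.fderiv_continuous v))).div
      ((ip_continuous A.theta_continuous A.theta_continuous).pow 2)
      fun w => pow_ne_zero _ (ip_self_ne (A.ne_zero w)))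

theorem polH_conj (w u v : Fin g → ℂ) : conj (A.polH w u v) = A.polH w v u := by
  simp only [polH, map_sub, map_div₀, map_mul, map_pow, ip_conj, mul_comm]

theorem polH_add (w u v v' : Fin g → ℂ) : A.polH w u (v + v') = A.polH w u v + A.polH w u v' := by
  simp only [polH, map_add, ip_add_right]
  ring

theorem polH_smul (w u v : Fin g → ℂ) (c : ℂ) : A.polH w u (c • v) = c * A.polH w u v := by
  simp only [polH, map_smul, ip_smul_right]
  ring

theorem polH_pos (w : Fin g → ℂ) {v : Fin g → ℂ} (hv : v ≠ 0) : 0 < (A.polH w v v).re := by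
  have hn := ip_self_ne (A.ne_zero w)
  set a := A.θ w
  set b := fderiv ℂ A.θ w v
  have h1 : b + (-(ip a b / ip a a)) • a ≠ 0 := fun h =>
    hv (A.imm w v (ip a b / ip a a) (by
      rw [neg_smul, ← sub_eq_add_neg, sub_eq_zero] at h
      exact h))
  have h2 : A.polH w v v = ip (b + (-(ip a b / ip a a)) • a) (b + (-(ip a b / ip a a)) • a) /
      ip a a := by
    simp only [ip_add_left, ip_add_right, ip_smul_left, ip_smul_right, map_neg, map_div₀, ip_conj]
    change ip b b / ip a a - ip b a * ip a b / ip a a ^ 2 = _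
    field_simp
    ring
  have h3 := div_pos (ip_self_pos h1) (ip_self_pos (A.ne_zero w))
  rw [← Complex.ofReal_re (_ / _), Complex.ofReal_div, ← ip_self, ← ip_self] at h3
  rw [h2]
  exact h3

theorem polA_deriv (w v : Fin g → ℂ) : ∃ L : (Fin g → ℂ) →L[ℝ] ℂ,
    HasFDerivAt (fun w => A.polA w v) L w ∧ ∀ u, L u = A.polH w u v +
      (ip (A.θ w) (fderiv ℂ (fderiv ℂ A.θ) w u v) / ip (A.θ w) (A.θ w) -
        ip (A.θ w) (fderiv ℂ A.θ w u) * ip (A.θ w) (fderiv ℂ A.θ w v) /
          ip (A.θ w) (A.θ w) ^ 2) := by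
  have h1 := (A.analytic w trivial).differentiableAt.hasFDerivAt.restrictScalars ℝ
  have h2 := ((ContinuousLinearMap.apply ℂ (Fin N → ℂ) v).hasFDerivAt.comp w
    (A.analytic w trivial).fderiv.differentiableAt.hasFDerivAt).restrictScalars ℝ
  obtain ⟨L₁, d₁, e₁⟩ := ip_hasFDerivAt h1 h2
  obtain ⟨L₂, d₂, e₂⟩ := ip_hasFDerivAt h1 h1
  have hn := ip_self_ne (A.ne_zero w)
  have d₃ := ((hasDerivAt_inv hn).hasFDerivAt.restrictScalars ℝ).comp w d₂
  refine ⟨_, (d₁.fun_mul d₃).congr_of_eventuallyEq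
    (Eventually.of_forall fun w => div_eq_mul_inv _ _), fun u => ?_⟩
  simp [e₁, e₂, polH]
  field_simp
  ring

theorem exists_factor {m : Fin g → ℂ} (hm : m ∈ A.Λ) : ∃ e : (Fin g → ℂ) → ℂ,
    (∀ w, AnalyticAt ℂ e w) ∧ (∀ w, e w ≠ 0) ∧ ∀ w, A.θ (w + m) = e w • A.θ w := by
  choose e he using fun w => (A.per w (w + m)).2 (by simpa using hm)
  refine ⟨e, fun w => ?_, fun w h => A.ne_zero (w + m) (by rw [he, h, zero_smul]), he⟩
  obtain ⟨j, hj⟩ := Function.ne_iff.1 (A.ne_zero w)
  have h1 : AnalyticAt ℂ (fun w => A.θ w j) w := A.analyticAt_coord analyticAt_id j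
  refine ((A.analyticAt_coord (w := fun w => w + m) (analyticAt_id.add analyticAt_const) j).div
    h1 hj).congr ?_
  filter_upwards [h1.continuousAt.eventually_ne hj] with z hz
  simp only [Pi.div_apply, he, Pi.smul_apply, smul_eq_mul]
  exact mul_div_cancel_right₀ _ hz

section

variable {A} {m : Fin g → ℂ} {e : (Fin g → ℂ) → ℂ} (ha : ∀ w, AnalyticAt ℂ e w)
  (h0 : ∀ w, e w ≠ 0) (he : ∀ w, A.θ (w + m) = e w • A.θ w)

include ha he in
theorem fderiv_factor (w v : Fin g → ℂ) :
    fderiv ℂ A.θ (w + m) v = e w • fderiv ℂ A.θ w v + fderiv ℂ e w v • A.θ w := by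
  have h1 : HasFDerivAt (fun w => A.θ (w + m)) (fderiv ℂ A.θ (w + m)) w := by
    simpa using (A.analytic (w + m) trivial).differentiableAt.hasFDerivAt.comp w
      ((hasFDerivAt_id w).add_const m)
  have h2 := (ha w).differentiableAt.hasFDerivAt.fun_smul
    (A.analytic w trivial).differentiableAt.hasFDerivAt
  rw [← funext he] at h2
  rw [h1.unique h2]
  simp

include ha h0 he in
theorem polA_factor (w v : Fin g → ℂ) :
    A.polA (w + m) v = A.polA w v + fderiv ℂ e w v / e w := by
  have hn := ip_self_ne (A.ne_zero w)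
  have h1 := h0 w
  have h2 : conj (e w) ≠ 0 := (map_ne_zero _).2 h1
  simp only [polA, fderiv_factor ha he, he, ip_add_right, ip_smul_left, ip_smul_right]
  field_simp

include ha h0 he in
theorem polH_factor (w u v : Fin g → ℂ) : A.polH (w + m) u v = A.polH w u v := by
  have hn := ip_self_ne (A.ne_zero w)
  have h1 := h0 w
  have h2 : conj (e w) ≠ 0 := (map_ne_zero _).2 h1
  simp only [polH, fderiv_factor ha he, he, ip_add_right, ip_add_left, ip_smul_left,
    ip_smul_right]
  field_simp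
  ring

include ha h0 he in
theorem exp_edge (w μ : Fin g → ℂ) :
    Complex.exp ((∫ t in (0 : ℝ)..1, A.polA (w + t • μ + m) μ) -
      ∫ t in (0 : ℝ)..1, A.polA (w + t • μ) μ) * e w = e (w + μ) := by
  have hc : ∀ v, Continuous fun w => A.polA w v := fun v =>
    continuous_iff_continuousAt.2 fun w => (A.polA_deriv w v).choose_spec.1.continuousAt
  have hl : Continuous fun t : ℝ => w + t • μ := by fun_prop
  have c1 : Continuous fun t : ℝ => A.polA (w + t • μ + m) μ :=
    (hc μ).comp (hl.add continuous_const)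
  have c2 : Continuous fun t : ℝ => A.polA (w + t • μ) μ := (hc μ).comp hl
  rw [← intervalIntegral.integral_sub (c1.intervalIntegrable _ _) (c2.intervalIntegrable _ _)]
  have := exp_integral_logDeriv (k := fun t => e (w + t • μ))
    (k' := fun t => fderiv ℂ e (w + t • μ) μ) (fun t =>
      (((ha (w + t • μ)).differentiableAt.hasFDerivAt.restrictScalars ℝ).comp_hasDerivAt
        t (((hasDerivAt_id t).smul_const μ).const_add w)).congr_deriv (by simp))
    (((continuous_iff_continuousAt.2 fun w => (ha w).fderiv.continuousAt).comp hl).clm_apply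
      continuous_const) fun t => h0 _
  simpa [polA_factor ha h0 he] using this

end

theorem polH_per {m : Fin g → ℂ} (hm : m ∈ A.Λ) (w u v : Fin g → ℂ) :
    A.polH (w + m) u v = A.polH w u v := by
  obtain ⟨e, ha, h0, he⟩ := A.exists_factor hm
  exact polH_factor ha h0 he w u v

/-- The periods of the curvature over lattice parallelograms lie in `2 π i ℤ`. -/
theorem exp_period {m μ : Fin g → ℂ} (hm : m ∈ A.Λ) (hμ : μ ∈ A.Λ) (w : Fin g → ℂ) :
    Complex.exp (∫ x in Set.Icc ((0, 0) : ℝ × ℝ) (1, 1),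
      (A.polH (w + x.1 • m + x.2 • μ) m μ - A.polH (w + x.1 • m + x.2 • μ) μ m)) = 1 := by
  choose L hL hL' using A.polA_deriv
  let φ : ℝ × ℝ →L[ℝ] (Fin g → ℂ) := (ContinuousLinearMap.fst ℝ ℝ ℝ).smulRight m +
    (ContinuousLinearMap.snd ℝ ℝ ℝ).smulRight μ
  have hφ : ∀ x : ℝ × ℝ, HasFDerivAt (fun x : ℝ × ℝ => w + x.1 • m + x.2 • μ) φ x := fun x =>
    (φ.hasFDerivAt.const_add w).congr_of_eventuallyEq
      (Eventually.of_forall fun _ => add_assoc _ _ _)
  have hd : ∀ v (x : ℝ × ℝ), HasFDerivAt (fun x : ℝ × ℝ => A.polA (w + x.1 • m + x.2 • μ) v)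
      ((L (w + x.1 • m + x.2 • μ) v).comp φ) x := fun v x => (hL _ v).comp x (hφ x)
  have he : ∀ x : ℝ × ℝ, (L (w + x.1 • m + x.2 • μ) μ).comp φ (1, 0) +
      (-(L (w + x.1 • m + x.2 • μ) m).comp φ) (0, 1) =
      A.polH (w + x.1 • m + x.2 • μ) m μ - A.polH (w + x.1 • m + x.2 • μ) μ m := by
    intro x
    have hs : IsSymmSndFDerivAt ℂ A.θ (w + x.1 • m + x.2 • μ) :=
      ((A.analytic _ trivial).contDiffAt (n := ⊤)).isSymmSndFDerivAt_of_omega
    have e1 : φ (1, 0) = m := by simp [φ]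
    have e2 : φ (0, 1) = μ := by simp [φ]
    simp only [ContinuousLinearMap.comp_apply, _root_.neg_apply, e1, e2, hL', hs m μ]
    ring
  have hc : Continuous fun x : ℝ × ℝ => w + x.1 • m + x.2 • μ := by fun_prop
  have h1 := integral_divergence_prod_Icc_of_hasFDerivAt_of_le
    (fun x : ℝ × ℝ => A.polA (w + x.1 • m + x.2 • μ) μ)
    (fun x : ℝ × ℝ => -A.polA (w + x.1 • m + x.2 • μ) m) _ _ (0, 0) (1, 1)
    ⟨zero_le_one, zero_le_one⟩ (fun x _ => (hd μ x).continuousAt.continuousWithinAt)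
    (fun x _ => (hd m x).neg.continuousAt.continuousWithinAt) (fun x _ => hd μ x)
    (fun x _ => (hd m x).neg) (by
      simp only [he]
      exact (((A.polH_continuous m μ).comp hc).sub
        ((A.polH_continuous μ m).comp hc)).continuousOn.integrableOn_compact isCompact_Icc)
  simp only [he] at h1
  obtain ⟨e₁, a₁, z₁, f₁⟩ := A.exists_factor hm
  obtain ⟨e₂, a₂, z₂, f₂⟩ := A.exists_factor hμ
  have k₁ := exp_edge a₁ z₁ f₁ w μ
  have k₂ := exp_edge a₂ z₂ f₂ w m
  have k₃ : e₂ (w + m) * e₁ w = e₁ (w + μ) * e₂ w := by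
    apply smul_left_injective ℂ (A.ne_zero w)
    simp only [mul_smul, ← f₁, ← f₂, add_right_comm]
  have k₄ : ∀ t : ℝ, w + m + t • μ = w + t • μ + m := fun t => add_right_comm _ _ _
  simp only [one_smul, zero_smul, add_zero, intervalIntegral.integral_neg, k₄] at h1
  rw [← k₁, ← k₂] at k₃
  rw [mul_right_comm, mul_assoc, mul_assoc] at k₃
  have k₅ := mul_right_cancel₀ (mul_ne_zero (z₁ w) (z₂ w)) k₃
  rw [h1, show ∀ a b c d : ℂ, -a - -b + c - d = c - d - (a - b) from fun a b c d => by ring,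
    Complex.exp_sub, k₅, div_self (Complex.exp_ne_zero _)]

end AbVar

end Pool.Agent.P.MP_f17f76_ag
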