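import Pool.Agent.P.MP_f17f76_ag.BrPol1
import Pool.Agent.P.MP_f17f76_ag.Inv

/-!
The Riemann form and Poincare's reducibility theorem.
-/

namespace Pool.Agent.P.MP_f17f76_ag

open Filter Topology ComplexConjugate MeasureTheory

namespace AbVar

variable {g N : ℕ} (A : AbVar g N)

theorem exists_domain : ∃ D : Set (Fin g → ℂ), MeasurableSet D ∧ Bornology.IsBounded D ∧
    volume D ≠ 0 ∧ ∀ f : (Fin g → ℂ) → ℂ, (∀ m ∈ A.Λ, ∀ w, f (w + m) = f w) →
      ∀ c, ∫ w in D, f (w + c) = ∫ w in D, f w := by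
  have := A.discrete
  have : IsZLattice ℝ A.Λ := ⟨A.spans⟩
  let b := Module.Free.chooseBasis ℤ A.Λ
  have hD := ZLattice.isAddFundamentalDomain b (volume : Measure (Fin g → ℂ))
  refine ⟨_, ZSpan.fundamentalDomain_measurableSet (b.ofZLatticeBasis ℝ),
    ZSpan.fundamentalDomain_isBounded _, ZSpan.measure_fundamentalDomain_ne_zero _,
    fun f hf c => ?_⟩
  have : Countable A.Λ := A.countable_lattice.to_subtype
  have : VAddInvariantMeasure A.Λ (Fin g → ℂ) volume :=
    inferInstanceAs (VAddInvariantMeasure A.Λ.toAddSubgroup (Fin g → ℂ) volume)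
  have : MeasurableConstVAdd A.Λ (Fin g → ℂ) :=
    inferInstanceAs (MeasurableConstVAdd A.Λ.toAddSubgroup (Fin g → ℂ))
  have : VAddCommClass (Fin g → ℂ) A.Λ (Fin g → ℂ) :=
    ⟨fun a m x => add_left_comm a m.1 x⟩
  rw [hD.setIntegral_eq (hD.vadd_of_comm c) (f := f) fun m x => by
    rw [show m +ᵥ x = x + m.1 from add_comm _ _]
    exact hf _ m.2 x]
  refine ((measurePreserving_vadd c volume).setIntegral_image_emb
    (measurableEmbedding_const_vadd c) f _).trans ?_ |>.symm
  simp only [vadd_eq_add, add_comm]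

/-- The Riemann form. -/
theorem exists_pol : ∃ H : (Fin g → ℂ) →ₗ⋆[ℂ] (Fin g → ℂ) →ₗ[ℂ] ℂ,
    (∀ u v, conj (H u v) = H v u) ∧ (∀ v, v ≠ 0 → 0 < (H v v).re) ∧
      ∀ m ∈ A.Λ, ∀ μ ∈ A.Λ, ∃ n : ℤ, (H m μ).im = n := by
  obtain ⟨D, hDm, hDb, hD0, hD⟩ := A.exists_domain
  have hK := hDb.isCompact_closure
  have hint : ∀ {f : (Fin g → ℂ) → ℂ}, Continuous f → IntegrableOn f D := fun hf =>
    (hf.continuousOn.integrableOn_compact hK).mono_set subset_closure
  have hfin : volume D ≠ ⊤ := hDb.measure_lt_top.ne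
  have hvol : 0 < volume.real D := ENNReal.toReal_pos hD0 hfin
  set c : ℝ := (Real.pi * volume.real D)⁻¹ with hc
  have hc0 : 0 < c := inv_pos.2 (mul_pos Real.pi_pos hvol)
  let h : (Fin g → ℂ) → (Fin g → ℂ) → ℂ := fun u v => c * ∫ w in D, A.polH w u v
  have h1 : ∀ u v, conj (h u v) = h v u := fun u v => by
    simp only [h, map_mul, Complex.conj_ofReal, ← integral_conj, A.polH_conj]
  have h2 : ∀ u v v', h u (v + v') = h u v + h u v' := fun u v v' => by
    simp only [h, A.polH_add]
    rw [integral_add (hint (A.polH_continuous u v)) (hint (A.polH_continuous u v')), mul_add]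
  have h3 : ∀ (a : ℂ) u v, h u (a • v) = a * h u v := fun a u v => by
    simp only [h, A.polH_smul, integral_const_mul]
    ring
  refine ⟨LinearMap.mk₂'ₛₗ (starRingEnd ℂ) (RingHom.id ℂ) h
    (fun u u' v => by rw [← h1, h2, map_add, h1, h1])
    (fun a u v => by rw [← h1, h3, map_mul, h1]; rfl) h2 h3, h1, fun v hv => ?_,
    fun m hm μ hμ => ?_⟩
  · change 0 < (h v v).re
    simp only [h, Complex.re_ofReal_mul]
    refine mul_pos hc0 ?_
    have hi := hint (A.polH_continuous v v)
    have e := integral_re hi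
    simp only [RCLike.re_to_complex] at e
    rw [← e, setIntegral_pos_iff_support_of_nonneg_ae
      (Eventually.of_forall fun w => (A.polH_pos w hv).le) hi.re]
    have : (Function.support fun w => (A.polH w v v).re) = Set.univ :=
      Set.eq_univ_of_forall fun w => (A.polH_pos w hv).ne'
    rw [this, Set.univ_inter]
    exact pos_iff_ne_zero.2 hD0
  · change ∃ n : ℤ, (h m μ).im = n
    let Ω : (Fin g → ℂ) → ℂ := fun w => A.polH w m μ - A.polH w μ m
    have hΩ : Continuous Ω := (A.polH_continuous m μ).sub (A.polH_continuous μ m)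
    let S := Set.Icc ((0, 0) : ℝ × ℝ) (1, 1)
    let F : (Fin g → ℂ) → ℝ × ℝ → ℂ := fun w x => Ω (w + x.1 • m + x.2 • μ)
    have hF : Continuous F.uncurry := hΩ.comp (by fun_prop)
    have hE : ∀ w, ∫ x in S, F w x = ∫ x in S, F 0 x := fun w =>
      Complex.isCoveringMap_exp.const_of_comp
        (continuous_parametric_integral_of_continuous hF isCompact_Icc) (fun a a' =>
          Subtype.ext ((A.exp_period hm hμ a).trans (A.exp_period hm hμ a').symm)) w 0
    obtain ⟨n, hn⟩ := Complex.exp_eq_one_iff.1 (A.exp_period hm hμ 0)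
    have hsw := integral_integral_swap (μ := volume.restrict D) (ν := volume.restrict S)
      (f := F) (by
        rw [Measure.prod_restrict]
        exact (hF.continuousOn.integrableOn_compact (hK.prod isCompact_Icc)).mono_set
          (Set.prod_mono_left subset_closure))
    have e1 : ∀ x : ℝ × ℝ, ∫ w in D, F w x = ∫ w in D, Ω w := fun x => by
      simp only [F, add_assoc]
      exact hD Ω (fun m' hm' w => by simp only [Ω, A.polH_per hm']) _
    have e2 : volume.real S = 1 := by
      rw [Measure.real, show S = Set.Icc (0 : ℝ) 1 ×ˢ Set.Icc (0 : ℝ) 1 from Set.Icc_prod_eq _ _,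
        Measure.volume_eq_prod, Measure.prod_prod]
      simp
    simp only [hE, e1, setIntegral_const, e2, one_smul] at hsw
    have e3 : h m μ - conj (h m μ) = c * ∫ w in D, Ω w := by
      rw [h1]
      simp only [h, Ω]
      rw [integral_sub (hint (A.polH_continuous m μ)) (hint (A.polH_continuous μ m)), mul_sub]
    have e4 : ∫ x in S, F 0 x = n * (2 * Real.pi * Complex.I) := hn
    rw [← hsw, e4, Complex.sub_conj, Complex.real_smul, hc] at e3
    refine ⟨n, ?_⟩
    have e5 : (Real.pi : ℂ) ≠ 0 := Complex.ofReal_ne_zero.2 Real.pi_pos.ne'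
    have e6 : (volume.real D : ℂ) ≠ 0 := Complex.ofReal_ne_zero.2 hvol.ne'
    have e7 : (((h m μ).im : ℝ) : ℂ) = n := by
      push_cast at e3
      field_simp at e3
      linear_combination e3
    exact_mod_cast e7

variable {A} {L : Submodule ℂ (Fin g → ℂ)}

/-- Poincare's reducibility theorem, with an orthogonal complement for the Riemann form. -/
theorem exists_orth' (A : AbVar g N) : ∃ o : Submodule ℂ (Fin g → ℂ) → Submodule ℂ (Fin g → ℂ),
    (∀ L, L ≤ o (o L)) ∧ Antitone o ∧ (∀ L, IsCompl L (o L)) ∧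
      ∀ L, A.IsLie L → A.IsLie (o L) := by
  obtain ⟨H, h1, h2, h3⟩ := A.exists_pol
  let o : Submodule ℂ (Fin g → ℂ) → Submodule ℂ (Fin g → ℂ) := fun L =>
    ⨅ l ∈ L, LinearMap.ker (H l)
  have ho : ∀ L v, v ∈ o L ↔ ∀ l ∈ L, H l v = 0 := fun L v => by simp [o]
  refine ⟨o, fun L v hv => (ho _ _).2 fun l hl => by rw [← h1, (ho _ _).1 hl v hv, map_zero],
    fun L L' hL v hv => (ho _ _).2 fun l hl => (ho _ _).1 hv l (hL hl), fun L => ?_,
    fun L hL => ?_⟩
  · have hd : Disjoint L (o L) := Submodule.disjoint_def.2 fun v hv hv' => by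
      by_contra h0
      have := h2 v h0
      rw [(ho _ _).1 hv' v hv] at this
      exact lt_irrefl _ this
    refine ⟨hd, codisjoint_iff.2 (Submodule.eq_top_of_finrank_eq ?_)⟩
    obtain ⟨l, β, hl, -, hr⟩ := exists_lin_param L
    let Φ : (Fin g → ℂ) →ₗ[ℂ] (Fin l → ℂ) := LinearMap.pi fun i => H (β (Pi.single i 1))
    have hk : LinearMap.ker Φ ≤ o L := fun v hv => (ho _ _).2 fun x hx => by
      obtain ⟨u, rfl⟩ := (hr x).1 hx
      have e : β u = ∑ i, u i • β (Pi.single i 1) := by
        funext k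
        simp [inv_expand β u k, Finset.sum_apply]
      have hv' : ∀ i, H (β (Pi.single i 1)) v = 0 := fun i => congrFun (LinearMap.mem_ker.1 hv) i
      rw [e, map_sum, LinearMap.sum_apply]
      simp [hv']
    have a1 := Φ.finrank_range_add_finrank_ker
    have a2 := (LinearMap.range Φ).finrank_le
    have a3 := Submodule.finrank_mono hk
    have a4 := Submodule.finrank_sup_add_finrank_inf_eq L (o L)
    have a5 := (L ⊔ o L).finrank_le
    rw [hd.eq_bot, finrank_bot] at a4
    simp only [Module.finrank_fin_fun] at a1 a2 a5 ⊢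
    omega
  · rcases A.rat_or_line (o L) with h | ⟨v, hv, h⟩
    · exact h
    refine absurd ((ho _ _).2 ?_) hv
    have key : ∀ m ∈ A.Λ, m ∈ L → (H m v).im = 0 := by
      intro m hm hmL
      have hc : Continuous fun x => (H m x).im :=
        Complex.continuous_im.comp (H m).continuous_of_finiteDimensional
      have hz : ∀ τ : ℝ, τ * (H m v).im ∈ Set.range ((↑) : ℤ → ℝ) := fun τ => by
        have := closure_minimal (t := (fun x => (H m x).im) ⁻¹' Set.range ((↑) : ℤ → ℝ)) (by
          rintro _ ⟨l, hl, μ, hμ, rfl⟩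
          obtain ⟨n, hn⟩ := h3 m hm μ hμ
          exact ⟨n, by simp [(ho _ _).1 hl m hmL, hn]⟩)
          (Int.isClosedEmbedding_coe_real.isClosed_range.preimage hc) (h τ)
        simpa using this
      by_contra h0
      obtain ⟨n, hn⟩ := hz (1 / 2 / (H m v).im)
      rw [div_mul_cancel₀ _ h0] at hn
      have : (2 * n : ℤ) = 1 := by exact_mod_cast (by linarith : (2 * n : ℝ) = 1)
      omega
    have key2 : ∀ l ∈ L, (H l v).im = 0 := by
      intro l hl
      refine Submodule.span_induction (p := fun l _ => (H l v).im = 0)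
        (fun m hm => key m hm.1 hm.2) (by simp) (fun a b _ _ ha hb => by simp [ha, hb])
        (fun r a _ ha => ?_) (hL hl)
      rw [← Complex.coe_smul, LinearMap.map_smulₛₗ]
      simp [ha]
    intro l hl
    have := key2 _ (L.smul_mem Complex.I hl)
    rw [LinearMap.map_smulₛₗ] at this
    exact Complex.ext (by simpa using this) (key2 l hl)

theorem exists_orth (A : AbVar g N) : ∃ o : Submodule ℂ (Fin g → ℂ) → Submodule ℂ (Fin g → ℂ),
    Antitone o ∧ (∀ L, IsCompl L (o L)) ∧ ∀ L, A.IsLie L → A.IsLie (o L) :=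
  A.exists_orth'.imp fun _ h => h.2

/-- Poincare's reducibility theorem. -/
theorem IsLie.exists_isCompl (hL : A.IsLie L) : ∃ L', A.IsLie L' ∧ IsCompl L L' := by
  obtain ⟨o, -, h1, h2⟩ := A.exists_orth
  exact ⟨o L, h2 L hL, h1 L⟩

/-- A rational complement inside a larger rational subspace. -/
theorem IsLie.exists_rel_compl {L' : Submodule ℂ (Fin g → ℂ)} (hL : A.IsLie L)
    (hL' : A.IsLie L') (hle : L ≤ L') : ∃ G, A.IsLie G ∧ Disjoint L G ∧ L ⊔ G = L' := by
  obtain ⟨C, hC, h⟩ := hL.exists_isCompl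
  refine ⟨C ⊓ L', hC.inf hL', h.disjoint.mono_right inf_le_left, ?_⟩
  rw [← sup_inf_assoc_of_le _ hle, h.sup_eq_top, top_inf_eq]

end AbVar

end Pool.Agent.P.MP_f17f76_ag
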