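import Pool.Agent.P.MP_f17f76_ag.BrRank1

/-!
Transcendence degree as a natural number, equality with the Krull dimension, and very generic
points at which all projections have the generic rank.
-/

namespace Pool.Agent.P.MP_f17f76_ag

open MvPolynomial Filter Topology

open Classical in
/-- The largest number of coordinates that are independent modulo `P`. -/
noncomputable def tdeg {σ : Type} [Fintype σ] (P : Ideal (MvPolynomial σ ℂ)) : ℕ :=
  (Finset.univ.filter (Indep P)).sup Finset.card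

section

variable {σ : Type} [Fintype σ] {P Q : Ideal (MvPolynomial σ ℂ)} {T : Finset σ}

theorem Indep.le_tdeg (h : Indep P T) : T.card ≤ tdeg P := by
  classical
  exact Finset.le_sup (f := Finset.card) (Finset.mem_filter.2 ⟨Finset.mem_univ _, h⟩)

theorem tdeg_le {n : ℕ} (h : ∀ T, Indep P T → T.card ≤ n) : tdeg P ≤ n := by
  classical
  exact Finset.sup_le fun T hT => h T (Finset.mem_filter.1 hT).2

omit [Fintype σ] in
theorem Indep.of_le (h : Indep Q T) (hle : P ≤ Q) : Indep P T := fun p hp => h p (hle hp)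

theorem tdeg_anti (h : P ≤ Q) : tdeg Q ≤ tdeg P := tdeg_le fun _ hT => (hT.of_le h).le_tdeg

theorem tdeg_eq_card [P.IsPrime] (hT : Indep P T) (ha : AlgOver P T) : tdeg P = T.card :=
  le_antisymm (tdeg_le fun _ hJ => hT.card_le ha hJ) hT.le_tdeg

theorem exists_basis_tdeg (P : Ideal (MvPolynomial σ ℂ)) [P.IsPrime] :
    ∃ T, Indep P T ∧ AlgOver P T ∧ T.card = tdeg P := by
  obtain ⟨T, h1, h2⟩ := exists_basis P
  exact ⟨T, h1, h2, (tdeg_eq_card h1 h2).symm⟩

theorem tdeg_lt [P.IsPrime] [Q.IsPrime] (h : P < Q) : tdeg Q < tdeg P := by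
  classical
  obtain ⟨T, h1, -, h2⟩ := exists_basis_tdeg Q
  obtain ⟨k, hk, h3⟩ := alg_step P Q h T h1
  have := h3.le_tdeg
  rw [Finset.card_insert_of_notMem hk] at this
  omega

theorem eq_of_le_of_tdeg_le [P.IsPrime] [Q.IsPrime] (h : P ≤ Q) (h' : tdeg P ≤ tdeg Q) :
    P = Q := by
  by_contra hne
  exact absurd (tdeg_lt (lt_of_le_of_ne h hne)) (not_lt.2 h')

theorem exists_prime_tdeg (P : Ideal (MvPolynomial σ ℂ)) [P.IsPrime] {n : ℕ}
    (h : tdeg P = n + 1) : ∃ Q : Ideal (MvPolynomial σ ℂ), Q.IsPrime ∧ P < Q ∧ tdeg Q = n := by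
  classical
  obtain ⟨T, hT, hTa, hc⟩ := exists_basis_tdeg P
  obtain ⟨j, hj⟩ : T.Nonempty := Finset.card_pos.1 (by omega)
  obtain ⟨D, hD, hch⟩ := chart P T hT hTa
  obtain ⟨q, hq, hne⟩ := exists_point P D hD
  obtain ⟨ψ, -, hE, h1, -⟩ := hch q hq hne
  obtain ⟨ε, hε, hb⟩ := Metric.eventually_nhds_iff_ball.1
    ((eventually_all.2 fun k => (hE k).eventually).and h1)
  let Z : (T → ℂ) → σ → ℂ := fun u => ψ (Function.update u ⟨j, hj⟩ (q j))
  have hu : ∀ u ∈ Metric.ball (fun i : T => q i) ε,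
      Function.update u ⟨j, hj⟩ (q j) ∈ Metric.ball (fun i : T => q i) ε := by
    intro u hu
    rw [ball_pi _ hε] at hu ⊢
    intro i _
    by_cases hi : i = ⟨j, hj⟩
    · subst hi
      simpa using hε
    · rw [Function.update_of_ne hi]
      exact hu i trivial
  have hQ : (vanI (Metric.ball (fun i : T => q i) ε) Z).IsPrime :=
    vanI_prime Metric.isOpen_ball (convex_ball _ _).isPreconnected ⟨_, Metric.mem_ball_self hε⟩
      fun u hu' k => AnalyticAt.comp (g := fun u => ψ u k) ((hb _ (hu u hu')).1 k).1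
        (analyticAt_pi_iff.2 fun i => by
          by_cases hi : i = ⟨j, hj⟩
          · subst hi
            simpa using analyticAt_const
          · simpa [Function.update_of_ne hi] using nash1_analytic_coord u i)
  have hlt : P < vanI (Metric.ball (fun i : T => q i) ε) Z := by
    refine lt_of_le_of_ne (fun p hp u hu' => (hb _ (hu u hu')).2.2 p hp) fun he => ?_
    have h2 : X j - C (q j) ∈ P := by
      rw [he]
      intro u hu'
      have := (hb _ (hu u hu')).2.1 ⟨j, hj⟩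
      simp only [Function.update_self] at this
      simp [Z, this]
    have h3 := hT (X ⟨j, hj⟩ - C (q j)) (by simpa using h2)
    have h4 := congrArg (eval fun _ : T => q j + 1) h3
    simp at h4
  refine ⟨_, hQ, hlt, le_antisymm (by have := tdeg_lt hlt; omega) ?_⟩
  have h5 : Indep (vanI (Metric.ball (fun i : T => q i) ε) Z) (T.erase j) := by
    intro p hp
    let e : T.erase j → T := fun i => ⟨i.1, Finset.mem_of_mem_erase i.2⟩
    have he : Function.Injective e := fun a b h => Subtype.ext (congrArg (fun z : T => z.1) h)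
    apply rename_injective e he
    rw [map_zero]
    refine nash1_poly_eq_zero (x := fun i : T => q i) _ ?_
    filter_upwards [Metric.ball_mem_nhds _ hε] with u hu'
    have := hp u hu'
    rw [eval_rename] at this ⊢
    rw [← this]
    congr 2
    funext i
    exact ((hb _ (hu u hu')).2.1 (e i)).trans (Function.update_of_ne
      (fun h => Finset.ne_of_mem_erase i.2 (congrArg Subtype.val h)) _ _) |>.symm
  have := h5.le_tdeg
  rw [Finset.card_erase_of_mem hj] at this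
  omega

theorem le_tdeg_of_le_krull {n : ℕ}
    (h : (n : WithBot ℕ∞) ≤ ringKrullDim (MvPolynomial σ ℂ ⧸ P)) : n ≤ tdeg P := by
  obtain ⟨P', -, h1, T, h2, h3, -⟩ := exists_prime_indep P n h
  exact h2.trans (h3.of_le h1).le_tdeg

theorem tdeg_le_krull (P : Ideal (MvPolynomial σ ℂ)) [hP : P.IsPrime] :
    (tdeg P : WithBot ℕ∞) ≤ ringKrullDim (MvPolynomial σ ℂ ⧸ P) := by
  induction h : tdeg P generalizing P with
  | zero => exact ringKrullDim_nonneg_of_nontrivial
  | succ n ih =>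
    obtain ⟨Q, hQ, hlt, hn⟩ := exists_prime_tdeg P h
    obtain ⟨r, hr1, hr2⟩ := SetLike.exists_of_lt hlt
    have h1 := ringKrullDim_succ_le_of_surjective (Ideal.Quotient.factor hlt.le)
      (Ideal.Quotient.factor_surjective hlt.le) (r := Ideal.Quotient.mk P r)
      (mem_nonZeroDivisors_of_ne_zero fun h0 => hr2 (Ideal.Quotient.eq_zero_iff_mem.1 h0))
      (Ideal.Quotient.eq_zero_iff_mem.2 hr1)
    refine le_trans ?_ h1
    push_cast
    gcongr
    exact ih Q hn

theorem le_krull_iff [P.IsPrime] {n : ℕ} :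
    (n : WithBot ℕ∞) ≤ ringKrullDim (MvPolynomial σ ℂ ⧸ P) ↔ n ≤ tdeg P :=
  ⟨le_tdeg_of_le_krull, fun h => le_trans (by exact_mod_cast h) (tdeg_le_krull P)⟩

end

namespace AbVar

variable {g N : ℕ} {A : AbVar g N} {F : Type} [NormedAddCommGroup F] [NormedSpace ℂ F]
  {Ω : Set F} {Ψ γ : F → (Fin g → ℂ) × (Fin g → ℂ)} {V : Set ((Fin g → ℂ) × (Fin g → ℂ))}
  {P : Ideal (MvPolynomial (Fin g ⊕ Fin N) ℂ)} {K L : Submodule ℂ (Fin g → ℂ)}

theorem IsPar.tdeg_eq [FiniteDimensional ℂ F] (h : A.IsPar P Ω Ψ) :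
    tdeg P = Module.finrank ℂ F + 1 := by
  have := h.isPrime
  obtain ⟨T, h1, h2, h3⟩ := h.exists_basis
  rw [tdeg_eq_card h1 h2, h3]

/-- The rank of an analytic map into the zero set of `P` is less than `tdeg P`. -/
theorem rank_lt_tdeg [FiniteDimensional ℂ F] {y : F} (han : AnalyticAt ℂ γ y)
    (hP : ∀ᶠ z in 𝓝 y, γ z ∈ A.zeroSet P) :
    Module.finrank ℂ (LinearMap.range (fderiv ℂ γ y).toLinearMap) + 1 ≤ tdeg P := by
  obtain ⟨C, hC⟩ := (LinearMap.ker (fderiv ℂ γ y).toLinearMap).exists_isCompl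
  have hd : Module.finrank ℂ (LinearMap.range (fderiv ℂ γ y).toLinearMap) = Module.finrank ℂ C := by
    have h1 := (fderiv ℂ γ y).toLinearMap.finrank_range_add_finrank_ker
    have h2 := Submodule.finrank_add_eq_of_isCompl hC
    omega
  have := FiniteDimensional.complete ℂ C
  have hl : AnalyticAt ℂ (fun c : C => y + c.1) 0 :=
    analyticAt_const.add (C.subtypeL.analyticAt 0)
  have h0 : y + (0 : C).1 = y := add_zero y
  have ha : AnalyticAt ℂ (fun c : C => γ (y + c.1)) 0 :=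
    AnalyticAt.comp (g := γ) (by rw [h0]; exact han) hl
  have hf : fderiv ℂ (fun c : C => γ (y + c.1)) 0 = (fderiv ℂ γ y).comp C.subtypeL :=
    (HasFDerivAt.comp (g := γ) (0 : C) (by simpa using han.differentiableAt.hasFDerivAt)
      (C.subtypeL.hasFDerivAt.const_add y)).fderiv
  have hi : ∀ᶠ c in 𝓝 (0 : C), Function.Injective (fderiv ℂ (fun c : C => γ (y + c.1)) c) := by
    refine ha.fderiv.continuousAt.eventually (ContinuousLinearMap.isOpen_injective.mem_nhds ?_)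
    rw [Set.mem_ofPred_eq, hf, injective_iff_map_eq_zero]
    exact fun c hc => Subtype.ext (Submodule.disjoint_def.1 hC.disjoint _ hc c.2)
  have ht : Tendsto (fun c : C => y + c.1) (𝓝 0) (𝓝 y) := by
    simpa only [h0] using hl.continuousAt.tendsto
  obtain ⟨ε, hε, hb⟩ := Metric.eventually_nhds_iff_ball.1
    (ha.eventually_analyticAt.and (hi.and (ht.eventually hP)))
  have hI : (A.idl ((fun c : C => γ (y + c.1)) '' Metric.ball 0 ε)).IsPrime :=
    irred_image Metric.isOpen_ball (convex_ball _ _).isPreconnected ⟨_, Metric.mem_ball_self hε⟩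
      fun c hc => (hb c hc).1
  obtain ⟨T, hT, hTa⟩ := Pool.Agent.P.MP_f17f76_ag.exists_basis
    (A.idl ((fun c : C => γ (y + c.1)) '' Metric.ball 0 ε))
  rw [hd]
  exact (finrank_lt_basis Metric.isOpen_ball (convex_ball _ _).isPreconnected
    ⟨_, Metric.mem_ball_self hε⟩ (fun c hc => (hb c hc).1) (fun c hc => (hb c hc).2.1)
    hT hTa).trans (hT.of_le fun p hp => A.mem_idl.2 (Set.forall_mem_image.2 fun c hc =>
      (hb c hc).2.2 p hp)).le_tdeg

theorem add_mem_zeroSet_sat₂ {q : (Fin g → ℂ) × (Fin g → ℂ)} (hq : q ∈ A.zeroSet (A.idl V))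
    {a b : Fin g → ℂ} (ha : a ∈ K) (hb : b ∈ L) :
    q + (a, b) ∈ A.zeroSet (A.idl (sat₂ K L V)) := by
  intro p hp t
  obtain ⟨p', h1, h2⟩ := A.transl₂ a b q.2 t p
  have h3 := hq p' (A.mem_idl.2 fun q' hq' s => by
    obtain ⟨r, hr⟩ := h1 q'.1 q'.2 s
    rw [hr]
    exact A.mem_idl.1 hp (q'.1 + a, q'.2 + b) ⟨q', hq', by simpa using ha, by simpa using hb⟩ r) 1
  rwa [one_smul, h2] at h3

theorem IsPar.idl_sat₂ (h : A.IsPar (A.idl V) Ω Ψ) (K L : Submodule ℂ (Fin g → ℂ)) :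
    A.idl (sat₂ K L V) = A.idl ((fun y : F × K × L => Ψ y.1 + (y.2.1.1, y.2.2.1)) ''
      (Ω ×ˢ Set.univ)) := by
  refine le_antisymm (fun p hp => A.mem_idl.2 (Set.forall_mem_image.2 fun y hy =>
    add_mem_zeroSet_sat₂ (h.mem_zeroSet hy.1) y.2.1.2 y.2.2.2 p hp)) fun p hp => ?_
  obtain ⟨y, hy⟩ := h.nonempty
  refine h.mem_sat₂ hy ?_
  filter_upwards [h.isOpen.mem_nhds hy] with u hu a ha b hb t
  exact A.mem_idl.1 hp _ ⟨(u, ⟨a, ha⟩, ⟨b, hb⟩), ⟨hu, trivial⟩, rfl⟩ t

theorem sat_an {y : F × K × L} (h : AnalyticAt ℂ Ψ y.1) :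
    AnalyticAt ℂ (fun y : F × K × L => Ψ y.1 + (y.2.1.1, y.2.2.1)) y :=
  (AnalyticAt.comp (g := Ψ) h analyticAt_fst).add
    (((K.subtypeL.analyticAt _).comp (analyticAt_fst.comp analyticAt_snd)).prod
      ((L.subtypeL.analyticAt _).comp (analyticAt_snd.comp analyticAt_snd)))

theorem Irred.exists_isPar (hV : A.Irred V) : ∃ (ι : Type) (_ : Fintype ι) (Ω : Set (ι → ℂ))
    (Ψ : (ι → ℂ) → (Fin g → ℂ) × (Fin g → ℂ)), A.IsPar (A.idl V) Ω Ψ := by
  obtain ⟨ι, _, D, hD, h⟩ := A.exists_par hV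
  obtain ⟨q, hq, t, ht⟩ : ∃ q ∈ V, ∃ t : ℂ, eval (Sum.elim q.1 (t • A.θ q.2)) D ≠ 0 := by
    by_contra hcon
    push Not at hcon
    exact hD (A.mem_idl.2 hcon)
  obtain ⟨u₀, ε, Ψ, -, -, -, h1, -⟩ := h q (A.subset_zeroSet_idl V hq) t ht
  exact ⟨ι, inferInstance, _, Ψ, h1⟩

theorem Irred.sat₂ (hV : A.Irred V) (K L : Submodule ℂ (Fin g → ℂ)) : A.Irred (sat₂ K L V) := by
  obtain ⟨ι, _, Ω, Ψ, h⟩ := hV.exists_isPar
  change (A.idl _).IsPrime
  rw [h.idl_sat₂]
  exact irred_image (h.isOpen.prod isOpen_univ) (h.conn.prod isPreconnected_univ)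
    (h.nonempty.prod Set.univ_nonempty) fun y hy => sat_an (h.an _ hy.1)

/-- Upper bound for the rank at every point. -/
theorem IsPar.rank_le₂ [FiniteDimensional ℂ F] (h : A.IsPar (A.idl V) Ω Ψ)
    (K L : Submodule ℂ (Fin g → ℂ)) {y : F} (hy : y ∈ Ω) :
    Module.finrank ℂ ↥(LinearMap.range (fderiv ℂ Ψ y).toLinearMap ⊔ K.prod L) + 1 ≤
      tdeg (A.idl (sat₂ K L V)) := by
  have h1 := rank_lt_tdeg (A := A) (P := A.idl (sat₂ K L V))
    (sat_an (K := K) (L := L) (y := (y, 0)) (h.an y hy)) (by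
      filter_upwards [(continuousAt_fst (p := ((y, 0) : F × K × L))).eventually
        (h.isOpen.mem_nhds hy)] with z hz
      exact add_mem_zeroSet_sat₂ (h.mem_zeroSet hz) z.2.1.2 z.2.2.2)
  refine le_trans (Nat.succ_le_succ (Submodule.finrank_mono ?_)) h1
  have hd : HasFDerivAt (fun y : F × K × L => Ψ y.1 + (y.2.1.1, y.2.2.1)) _ (y, 0) :=
    (HasFDerivAt.comp (g := Ψ) (y, (0 : K × L)) (h.an y hy).differentiableAt.hasFDerivAt
      hasFDerivAt_fst).fun_add ((K.subtypeL.hasFDerivAt.comp _ hasFDerivAt_snd.fst).prodMk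
        (L.subtypeL.hasFDerivAt.comp _ hasFDerivAt_snd.snd))
  rw [hd.fderiv]
  refine sup_le ?_ ?_
  · rintro _ ⟨v, rfl⟩
    exact ⟨(v, 0), by simp⟩
  · rintro ⟨a, b⟩ ⟨ha, hb⟩
    exact ⟨(0, ⟨a, ha⟩, ⟨b, hb⟩), by simp⟩

theorem IsPar.exists_rank_eq [FiniteDimensional ℂ F] (h : A.IsPar (A.idl V) Ω Ψ)
    (K : Submodule ℂ (Fin g → ℂ)) (hL : A.IsLie L) : ∃ y ∈ Ω,
    Module.finrank ℂ ↥(LinearMap.range (fderiv ℂ Ψ y).toLinearMap ⊔ K.prod L) + 1 =
      tdeg (A.idl (sat₂ K L V)) := by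
  have hV : A.Irred V := h.isPrime
  have : (A.idl (sat₂ K L V)).IsPrime := hV.sat₂ K L
  obtain ⟨T, h1, -, h2⟩ := exists_basis_tdeg (A.idl (sat₂ K L V))
  obtain ⟨y, hy, h3⟩ := h.rank_ge₂ hL K h1
  exact ⟨y, hy, le_antisymm (h.rank_le₂ K L hy) (h2 ▸ h3)⟩

omit [NormedAddCommGroup F] [NormedSpace ℂ F] in
theorem isOpen_rank {X G : Type} [TopologicalSpace X] [NormedAddCommGroup F] [NormedSpace ℂ F]
    [NormedAddCommGroup G] [NormedSpace ℂ G] [FiniteDimensional ℂ G] {M : X → F →L[ℂ] G} {x : X}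
    (hM : ContinuousAt M x) (S : Submodule ℂ G) : ∀ᶠ z in 𝓝 x,
      Module.finrank ℂ ↥(LinearMap.range (M x).toLinearMap ⊔ S) ≤
        Module.finrank ℂ ↥(LinearMap.range (M z).toLinearMap ⊔ S) := by
  let b := Module.finBasis ℂ ↥(LinearMap.range (M x).toLinearMap ⊔ S)
  have h1 : ∀ i, ∃ u, ∃ s ∈ S, M x u + s = (b i).1 := fun i => by
    obtain ⟨_, ⟨u, rfl⟩, s, hs, h⟩ := Submodule.mem_sup.1 (b i).2
    exact ⟨u, s, hs, h⟩
  choose u s hs hus using h1
  have h2 : ContinuousAt (fun z i => M z (u i) + s i) x :=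
    continuousAt_pi.2 fun i => (hM.clm_apply continuousAt_const).add continuousAt_const
  have h3 : LinearIndependent ℂ fun i => M x (u i) + s i := by
    simp only [hus]
    exact b.linearIndependent.map' _ (Submodule.ker_subtype _)
  filter_upwards [h2.eventually (isOpen_setOfPred_linearIndependent.mem_nhds h3)] with z hz
  have h4 : LinearIndependent ℂ fun i => (⟨M z (u i) + s i, Submodule.add_mem_sup ⟨_, rfl⟩ (hs i)⟩ :
      ↥(LinearMap.range (M z).toLinearMap ⊔ S)) := LinearIndependent.of_comp (Submodule.subtype _) hz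
  simpa using h4.fintype_card_le_finrank

/-- The generic rank is attained on a residual set. -/
theorem IsPar.rank_residual [FiniteDimensional ℂ F] (h : A.IsPar (A.idl V) Ω Ψ)
    (K : Submodule ℂ (Fin g → ℂ)) (hL : A.IsLie L) : ∀ᶠ y in residual F, y ∈ Ω →
    Module.finrank ℂ ↥(LinearMap.range (fderiv ℂ Ψ y).toLinearMap ⊔ K.prod L) + 1 =
      tdeg (A.idl (sat₂ K L V)) := by
  refine mem_of_superset (residual_of_dense_open (s := {y | y ∈ Ω ∧
    Module.finrank ℂ ↥(LinearMap.range (fderiv ℂ Ψ y).toLinearMap ⊔ K.prod L) + 1 =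
      tdeg (A.idl (sat₂ K L V))} ∪ (closure Ω)ᶜ) (IsOpen.union ?_ isClosed_closure.isOpen_compl)
    (dense_iff_inter_open.2 fun U hU hne => ?_)) ?_
  · refine isOpen_iff_mem_nhds.2 fun y hy => ?_
    filter_upwards [h.isOpen.mem_nhds hy.1,
      isOpen_rank (h.an y hy.1).fderiv.continuousAt (K.prod L)] with z hz h1
    have := h.rank_le₂ K L hz
    exact ⟨hz, by have := hy.2; omega⟩
  · obtain ⟨x, hx⟩ := hne
    by_cases hc : x ∈ closure Ω
    · obtain ⟨y, hy⟩ := mem_closure_iff.1 hc U hU hx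
      obtain ⟨ε, hε, hb⟩ := Metric.isOpen_iff.1 (hU.inter h.isOpen) y hy
      obtain ⟨z, hz, h1⟩ := (h.mono Metric.isOpen_ball (convex_ball _ _).isPreconnected
        ⟨_, Metric.mem_ball_self hε⟩ fun z hz => (hb hz).2).exists_rank_eq K hL
      exact ⟨z, (hb hz).1, Or.inl ⟨(hb hz).2, h1⟩⟩
    · exact ⟨x, hx, Or.inr hc⟩
  · rintro y (hy | hy) hy'
    · exact hy.2
    · exact absurd (subset_closure hy') hy

/-- Very generic points: all projections along rational subspaces have the generic rank. -/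
theorem IsPar.generic_residual [FiniteDimensional ℂ F] (h : A.IsPar (A.idl V) Ω Ψ) :
    ∀ᶠ y in residual F, y ∈ Ω → ∀ K L, A.IsLie K → A.IsLie L →
      Module.finrank ℂ ↥(LinearMap.range (fderiv ℂ Ψ y).toLinearMap ⊔ K.prod L) + 1 =
        tdeg (A.idl (sat₂ K L V)) := by
  have := (eventually_countable_ball A.countable_isLie).2 fun K _ =>
    (eventually_countable_ball A.countable_isLie).2 fun L hL => h.rank_residual K hL
  filter_upwards [this] with y hy hyΩ K L hK hL using hy K hK L hL hyΩ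

theorem exists_of_residual [FiniteDimensional ℂ F] (ho : IsOpen Ω) (hne : Ω.Nonempty)
    {p : F → Prop} (h : ∀ᶠ y in residual F, p y) : ∃ y ∈ Ω, p y := by
  have := FiniteDimensional.complete ℂ F
  obtain ⟨y, h1, h2⟩ := (dense_of_mem_residual h).inter_open_nonempty Ω ho hne
  exact ⟨y, h1, h2⟩

theorem IsPar.exists_generic [FiniteDimensional ℂ F] (h : A.IsPar (A.idl V) Ω Ψ) :
    ∃ y ∈ Ω, ∀ K L, A.IsLie K → A.IsLie L →
      Module.finrank ℂ ↥(LinearMap.range (fderiv ℂ Ψ y).toLinearMap ⊔ K.prod L) + 1 =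
        tdeg (A.idl (sat₂ K L V)) := by
  obtain ⟨y, h1, h2⟩ := exists_of_residual h.isOpen h.nonempty h.generic_residual
  exact ⟨y, h1, h2 h1⟩

theorem rotund_iff (hV : A.Irred V) : A.Rotund V ↔
    ∀ L, A.IsLie L → g + Module.finrank ℂ L + 1 ≤ tdeg (A.idl (sat L V)) := by
  refine forall₂_congr fun L _ => ?_
  have : (A.idl (sat L V)).IsPrime := hV.sat₂ L L
  have h2 := L.finrank_le
  rw [Module.finrank_fin_fun] at h2
  rw [coneDim, le_krull_iff]
  change _ ≤ tdeg (A.idl (sat L V)) ↔ _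
  omega

end AbVar

end Pool.Agent.P.MP_f17f76_ag
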