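import Pool.Agent.P.MP_f17f76_ag.BrPar

/-!
Rotundity and freeness read on the tangent spaces of a parametrisation.
-/

namespace Pool.Agent.P.MP_f17f76_ag

open MvPolynomial Filter Topology

namespace AbVar

variable {g N : ℕ} {A : AbVar g N} {F : Type} [NormedAddCommGroup F] [NormedSpace ℂ F]
  {Ω : Set F} {Ψ : F → (Fin g → ℂ) × (Fin g → ℂ)} {V : Set ((Fin g → ℂ) × (Fin g → ℂ))}
  {L : Submodule ℂ (Fin g → ℂ)}

/-- A polynomial vanishing on translates of a piece of `V` vanishes on the saturation. -/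
theorem IsPar.mem_sat (h : A.IsPar (A.idl V) Ω Ψ) {y₀ : F} (hy₀ : y₀ ∈ Ω)
    {p : MvPolynomial (Fin g ⊕ Fin N) ℂ}
    (hp : ∀ᶠ u in 𝓝 y₀, ∀ a ∈ L, ∀ b ∈ L, ∀ t : ℂ,
      eval (Sum.elim ((Ψ u).1 + a) (t • A.θ ((Ψ u).2 + b))) p = 0) :
    p ∈ A.idl (sat L V) := by
  refine A.mem_idl.2 ?_
  rintro q ⟨q₀, hq₀, ha, hb⟩ t
  obtain ⟨p', h1, h2⟩ := A.transl₂ (q.1 - q₀.1) (q.2 - q₀.2) q₀.2 t p
  have h3 : p' ∈ A.idl V := h.mem_of_eventually hy₀ fun s => by
    filter_upwards [hp] with u hu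
    obtain ⟨r, hr⟩ := h1 (Ψ u).1 (Ψ u).2 s
    rw [hr]
    exact hu _ ha _ hb r
  have h4 := A.mem_idl.1 h3 q₀ hq₀ 1
  rwa [one_smul, h2, add_sub_cancel, add_sub_cancel] at h4

/-- The parameter space for the saturation. -/
abbrev SatF (F : Type) (l : ℕ) : Type := (F × ℂ) × ((Option (Fin l) → ℂ) × ((Fin l → ℂ) × ℂ))

/-- The parametrisation of the product of the cones over `V`, `L` and `exp L`. -/
noncomputable def satZ (A : AbVar g N) (Ψ : F → (Fin g → ℂ) × (Fin g → ℂ)) {l : ℕ}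
    (β : (Fin l → ℂ) →L[ℂ] (Fin g → ℂ)) (y : SatF F l) :
    (Fin g ⊕ Fin N) ⊕ (Option (Fin l) ⊕ Fin N) → ℂ :=
  Sum.elim (Sum.elim (Ψ y.1.1).1 (y.1.2 • A.θ (Ψ y.1.1).2))
    (Sum.elim y.2.1 (y.2.2.2 • A.θ (0 + β y.2.2.1)))

theorem satZ_an {l : ℕ} (β : (Fin l → ℂ) →L[ℂ] (Fin g → ℂ)) {y : SatF F l}
    (hy : AnalyticAt ℂ Ψ y.1.1) (k) : AnalyticAt ℂ (fun z => A.satZ Ψ β z k) y := by
  have h1 : AnalyticAt ℂ (fun z : SatF F l => Ψ z.1.1) y :=
    AnalyticAt.comp (g := Ψ) hy (analyticAt_fst.comp analyticAt_fst)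
  rcases k with k | k | k
  · exact A.analyticAt_elim (analyticAt_fst.comp h1) (analyticAt_snd.comp h1)
      (analyticAt_snd.comp analyticAt_fst) k
  · exact analyticAt_pi_iff.1 (analyticAt_fst.comp analyticAt_snd) k
  · exact AnalyticAt.comp (f := fun z : SatF F l => z.2.2) (lie_analytic (A := A) β 0 y.2.2 k)
      (analyticAt_snd.comp analyticAt_snd)

theorem satZ_imm {l : ℕ} {β : (Fin l → ℂ) →L[ℂ] (Fin g → ℂ)} (hβ : Function.Injective β)
    {y : SatF F l} (hy : AnalyticAt ℂ Ψ y.1.1) (hi : Function.Injective (fderiv ℂ Ψ y.1.1))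
    (h1 : y.1.2 ≠ 0) (h2 : y.2.2.2 ≠ 0) (v : SatF F l)
    (hv : ∀ k, fderiv ℂ (fun z => A.satZ Ψ β z k) y v = 0) : v = 0 := by
  have d0 : HasFDerivAt (fun z : SatF F l => Ψ z.1.1) _ y :=
    HasFDerivAt.comp (g := Ψ) y hy.differentiableAt.hasFDerivAt hasFDerivAt_fst.fst
  have d1 := d0.fst
  have d2 := d0.snd
  have d3 : HasFDerivAt (fun z : SatF F l => z.1.2) _ y := (hasFDerivAt_fst (𝕜 := ℂ)).snd
  obtain ⟨e1, e2⟩ := A.cone_imm d2.differentiableAt d3.differentiableAt h1 v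
    fun k => hv (Sum.inl (Sum.inr k))
  rw [d2.fderiv] at e1
  rw [d3.fderiv] at e2
  have e3 : (fderiv ℂ Ψ y.1.1 v.1.1).1 = 0 := funext fun i => by
    have := hv (Sum.inl (Sum.inl i))
    rwa [show (fun z => A.satZ Ψ β z (Sum.inl (Sum.inl i))) = fun z => (Ψ z.1.1).1 i from rfl,
      (hasFDerivAt_pi'.1 d1 i).fderiv] at this
  have e4 : v.1.1 = 0 := hi (by rw [map_zero]; exact Prod.ext e3 e1)
  have d4 : HasFDerivAt (fun z : SatF F l => z.2.1) _ y := (hasFDerivAt_snd (𝕜 := ℂ)).fst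
  have e5 : v.2.1 = 0 := funext fun i => by
    have := hv (Sum.inr (Sum.inl i))
    rwa [show (fun z => A.satZ Ψ β z (Sum.inr (Sum.inl i))) = fun z => z.2.1 i from rfl,
      (hasFDerivAt_pi'.1 d4 i).fderiv] at this
  have d5 : HasFDerivAt (fun z : SatF F l => z.2.2) _ y := (hasFDerivAt_snd (𝕜 := ℂ)).snd
  have e6 : v.2.2 = 0 := lie_imm (A := A) hβ 0 h2 _ fun k => by
    have := hv (Sum.inr (Sum.inr k))
    rwa [show (fun z => A.satZ Ψ β z (Sum.inr (Sum.inr k))) =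
      (fun y : (Fin l → ℂ) × ℂ => (y.2 • A.θ (0 + β y.1)) k) ∘ fun z => z.2.2 from rfl,
      ((lie_analytic β 0 y.2.2 k).differentiableAt.hasFDerivAt.comp y d5).fderiv] at this
  exact Prod.ext (Prod.ext e4 e2) (Prod.ext e5 e6)

theorem satZ_dim [FiniteDimensional ℂ F] {P : Ideal (MvPolynomial (Fin g ⊕ Fin N) ℂ)}
    (h : A.IsPar P Ω Ψ) (hL : A.IsLie L) {l : ℕ} {β : (Fin l → ℂ) →L[ℂ] (Fin g → ℂ)}
    (hβ : Function.Injective β) (hr : ∀ x, x ∈ L ↔ ∃ u, β u = x) {Ω' : Set (SatF F l)}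
    (hΩ : ∀ y ∈ Ω', y.1.1 ∈ Ω) {T} (hT : Indep (vanI Ω' (A.satZ Ψ β)) T) :
    T.card ≤ Module.finrank ℂ (SatF F l) := by
  have h1 := hT.block (Ω₁ := Ω ×ˢ Set.univ)
    (Z₁ := fun y : F × ℂ => Sum.elim (Ψ y.1).1 (y.2 • A.θ (Ψ y.1).2)) Sum.inl Sum.inl_injective
    fun y hy => ⟨y.1, ⟨hΩ y hy, trivial⟩, fun _ => rfl⟩
  have h2 := hT.block (Ω₁ := Set.univ)
    (Z₁ := fun y : (Option (Fin l) → ℂ) × ((Fin l → ℂ) × ℂ) =>
      Sum.elim y.1 (y.2.2 • A.θ (0 + β y.2.1))) Sum.inr Sum.inr_injective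
    fun y _ => ⟨y.2, trivial, fun _ => rfl⟩
  have h3 := h2.block (Ω₁ := Set.univ)
    (Z₁ := fun y : (Fin l → ℂ) × ℂ => y.2 • A.θ (0 + β y.1)) Sum.inr Sum.inr_injective
    fun y _ => ⟨y.2, trivial, fun _ => rfl⟩
  have h4 := h.dim _ fun p hp => h1 p fun y hy => (h.mem _).1 hp y.1 hy.1 y.2
  have h5 := A.siegel_lie hL β hβ hr 0 h3
  have h6 := Finset.card_le_univ ((T.preimage Sum.inr Sum.inr_injective.injOn).preimage Sum.inl
    Sum.inl_injective.injOn)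
  rw [card_sum_preimage T, card_sum_preimage (T.preimage Sum.inr _)]
  simp only [SatF, Module.finrank_prod, Module.finrank_self, Module.finrank_fintype_fun_eq_card,
    Fintype.card_option, Fintype.card_fin] at h6 ⊢
  omega

/-- The dimension of the saturation bounds the generic rank from below. -/
theorem IsPar.rank_ge [FiniteDimensional ℂ F] (h : A.IsPar (A.idl V) Ω Ψ) (hL : A.IsLie L)
    {n : ℕ} (hn : ((n + 1 : ℕ) : WithBot ℕ∞) ≤ A.coneDim (sat L V)) :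
    ∃ y ∈ Ω, n ≤ Module.finrank ℂ
      ↥(LinearMap.range (fderiv ℂ Ψ y).toLinearMap ⊔ L.prod L) := by
  classical
  obtain ⟨P', -, hP', T, hTc, hT', -⟩ := exists_prime_indep _ _ hn
  have hT : Indep (A.idl (sat L V)) T := fun p hp => hT' p (hP' hp)
  obtain ⟨l, β, -, hβ, hr⟩ := exists_lin_param L
  obtain ⟨y₀, hy₀⟩ := h.nonempty
  obtain ⟨Q, hQ0, hQ⟩ := A.add (Ψ y₀).2 0
  obtain ⟨j, hj⟩ := Function.ne_iff.1 hQ0
  obtain ⟨ε, hε, hb⟩ : ∃ ε > 0, ∀ y ∈ Metric.ball (((y₀, 1), (0, 1)) :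
      (F × ℂ) × ((Fin l → ℂ) × ℂ)) ε, y.1.1 ∈ Ω ∧ y.1.2 ≠ 0 ∧ y.2.2 ≠ 0 ∧
      eval (Sum.elim (y.1.2 • A.θ (Ψ y.1.1).2) (y.2.2 • A.θ (0 + β y.2.1))) (Q j) ≠ 0 := by
    have c0 := A.theta_continuous
    have c1 := (h.an y₀ hy₀).continuousAt
    have c2 : ContinuousAt (fun y : (F × ℂ) × ((Fin l → ℂ) × ℂ) => (Ψ y.1.1).2)
        ((y₀, 1), (0, 1)) := (ContinuousAt.comp (g := Ψ) c1 (by fun_prop)).snd
    have c3 : ContinuousAt (fun y : (F × ℂ) × ((Fin l → ℂ) × ℂ) =>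
        Sum.elim (y.1.2 • A.θ (Ψ y.1.1).2) (y.2.2 • A.θ (0 + β y.2.1))) ((y₀, 1), (0, 1)) := by
      refine continuousAt_pi.2 fun k => ?_
      rcases k with k | k
      · exact continuousAt_fst.snd.mul (continuousAt_pi.1 (c0.continuousAt.comp c2) k)
      · exact ((lie_analytic (A := A) β 0 _ k).continuousAt).comp continuousAt_snd
    refine Metric.eventually_nhds_iff_ball.1 (Eventually.and ?_ (Eventually.and ?_
      (Eventually.and ?_ ?_)))
    · exact (continuousAt_fst.fst).eventually (h.isOpen.mem_nhds hy₀)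
    · exact (continuousAt_fst.snd).eventually_ne one_ne_zero
    · exact (continuousAt_snd.snd).eventually_ne one_ne_zero
    · exact ((continuous_eval (Q j)).continuousAt.comp c3).eventually_ne (by simpa using hj)
  let Ω' : Set (SatF F l) := Metric.ball (y₀, 1) ε ×ˢ (Set.univ ×ˢ Metric.ball (0, 1) ε)
  have hΩ' : ∀ y ∈ Ω', (y.1, y.2.2) ∈ Metric.ball (((y₀, 1), (0, 1)) :
      (F × ℂ) × ((Fin l → ℂ) × ℂ)) ε := fun y hy => by
    rw [← ball_prod_same]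
    exact ⟨hy.1, hy.2.2⟩
  let G : Fin g ⊕ Fin N → MvPolynomial ((Fin g ⊕ Fin N) ⊕ (Option (Fin l) ⊕ Fin N)) ℂ :=
    Sum.elim (fun i => X (Sum.inl (Sum.inl i)) +
      ∑ a, C (β (Pi.single a 1) i) * X (Sum.inr (Sum.inl (some a))))
      fun k => X (Sum.inr (Sum.inl none)) *
        rename (Sum.elim (Sum.inl ∘ Sum.inr) (Sum.inr ∘ Sum.inr)) (Q k)
  have hG : ∀ y : SatF F l, (fun k => eval (A.satZ Ψ β y) (G k)) =
      Sum.elim ((Ψ y.1.1).1 + β fun a => y.2.1 (some a)) (y.2.1 none • fun k =>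
        eval (Sum.elim (y.1.2 • A.θ (Ψ y.1.1).2) (y.2.2.2 • A.θ (0 + β y.2.2.1))) (Q k)) := by
    intro y
    funext k
    rcases k with i | k
    · simp only [G, Sum.elim_inl, map_add, eval_X, map_sum, map_mul, eval_C, Pi.add_apply]
      rw [inv_expand β]
      simp [satZ, mul_comm]
    · simp only [G, Sum.elim_inr, map_mul, eval_X, eval_rename, Pi.smul_apply, smul_eq_mul]
      congr 3
      funext o
      rcases o with o | o <;> rfl
  obtain ⟨D, hD, hs⟩ := jac_surj (Ω := Ω')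
    (Metric.isOpen_ball.prod (isOpen_univ.prod Metric.isOpen_ball))
    ((convex_ball _ _).isPreconnected.prod
      (isPreconnected_univ.prod (convex_ball _ _).isPreconnected))
    ⟨((y₀, 1), (0, (0, 1))), Metric.mem_ball_self hε, trivial, Metric.mem_ball_self hε⟩
    (Z := A.satZ Ψ β) (fun y hy => satZ_an β (h.an _ (hb _ (hΩ' y hy)).1))
    (fun y hy => satZ_imm hβ (h.an _ (hb _ (hΩ' y hy)).1) (h.imm _ (hb _ (hΩ' y hy)).1)
      (hb _ (hΩ' y hy)).2.1 (hb _ (hΩ' y hy)).2.2.1)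
    (fun T hT => satZ_dim h hL hβ hr (fun y hy => (hb _ (hΩ' y hy)).1) hT)
    (fun i : T => G i.1) (fun p hp => hT p (h.mem_sat hy₀ (by
      have c1 : ContinuousAt (fun u : F => (u, (1 : ℂ))) y₀ := by fun_prop
      filter_upwards [c1.eventually (Metric.ball_mem_nhds (y₀, 1) hε)] with u hu a ha b hb' t
      obtain ⟨a, rfl⟩ := (hr a).1 ha
      obtain ⟨b, rfl⟩ := (hr b).1 hb'
      have han : AnalyticOnNhd ℂ (fun b => eval (Sum.elim ((Ψ u).1 + β a)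
          (t • A.θ ((Ψ u).2 + β b))) (rename Subtype.val p)) Set.univ := fun b _ =>
        analyticAt_eval _ _ (A.analyticAt_elim analyticAt_const
          (analyticAt_const.add (β.analyticAt b)) analyticAt_const)
      refine han.eqOn_zero_of_preconnected_of_eventuallyEq_zero isPreconnected_univ
        (Set.mem_univ 0) ?_ (Set.mem_univ b)
      have c2 : ContinuousAt (fun b : Fin l → ℂ => (b, (1 : ℂ))) 0 := by fun_prop
      filter_upwards [c2.eventually (Metric.ball_mem_nhds (0, 1) hε)] with b hb2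
      obtain ⟨r, hr'⟩ := hQ (Ψ u).2 (0 + β b) 1 1
      have hr0 : r ≠ 0 := by
        rintro rfl
        exact (hb ((u, 1), (b, 1)) (by rw [← ball_prod_same]; exact ⟨hu, hb2⟩)).2.2.2
          (by simpa using congrFun hr' j)
      have h1 := hp ((u, 1), (fun o => o.elim (t / r) a, (b, 1))) ⟨hu, trivial, hb2⟩
      rw [eval_aeval'] at h1
      have h2 := hG ((u, 1), (fun o => o.elim (t / r) a, (b, 1)))
      simp only [Option.elim_some, Option.elim_none] at h2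
      rw [hr', smul_smul, div_mul_cancel₀ _ hr0, zero_add] at h2
      rw [Pi.zero_apply, eval_rename, ← h2]
      exact h1)))
  obtain ⟨y, hy, hDy⟩ : ∃ y ∈ Ω', eval (A.satZ Ψ β y) D ≠ 0 := by
    by_contra hcon
    push Not at hcon
    exact hD hcon
  have hyΩ := (hb _ (hΩ' y hy)).1
  refine ⟨y.1.1, hyΩ, ?_⟩
  have d0 : HasFDerivAt (fun z : SatF F l => Ψ z.1.1) _ y :=
    HasFDerivAt.comp (g := Ψ) y (h.an _ hyΩ).differentiableAt.hasFDerivAt hasFDerivAt_fst.fst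
  let γ : SatF F l →L[ℂ] (Fin l → ℂ) := ContinuousLinearMap.pi fun a =>
    (ContinuousLinearMap.proj (some a)).comp ((ContinuousLinearMap.fst ℂ _ _).comp
      (ContinuousLinearMap.snd ℂ _ _))
  have d1 : HasFDerivAt (fun z : SatF F l => (Ψ z.1.1).1 + β fun a => z.2.1 (some a)) _ y :=
    d0.fst.add (β.comp γ).hasFDerivAt
  have d2 : HasFDerivAt (fun z : SatF F l => (Ψ z.1.1).2 + (0 + β z.2.2.1)) _ y :=
    d0.snd.add ((β.hasFDerivAt.comp y hasFDerivAt_snd.snd.fst).const_add 0)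
  obtain ⟨i₀, hi₀⟩ := Function.ne_iff.1 (A.ne_zero ((Ψ y.1.1).2 + (0 + β y.2.2.1)))
  let ρ : SatF F l → ℂ := fun z => eval (A.satZ Ψ β z) (G (Sum.inr i₀)) /
    A.θ ((Ψ z.1.1).2 + (0 + β z.2.2.1)) i₀
  have d3 : DifferentiableAt ℂ (fun z : SatF F l => A.θ ((Ψ z.1.1).2 + (0 + β z.2.2.1)) i₀) y :=
    differentiableAt_pi.1 ((A.analytic _ trivial).differentiableAt.comp y d2.differentiableAt) i₀
  have d4 : DifferentiableAt ℂ ρ y := by
    simp only [ρ, div_eq_mul_inv]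
    exact (analyticAt_eval _ _ (satZ_an β (h.an _ hyΩ))).differentiableAt.mul (d3.inv hi₀)
  have he : ∀ k, (fun z => eval (A.satZ Ψ β z) (G (Sum.inr k))) =ᶠ[𝓝 y]
      fun z => (ρ z • A.θ ((Ψ z.1.1).2 + (0 + β z.2.2.1))) k := by
    intro k
    filter_upwards [d3.continuousAt.eventually_ne hi₀] with z hz
    obtain ⟨r, hr'⟩ := hQ (Ψ z.1.1).2 (0 + β z.2.2.1) z.1.2 z.2.2.2
    have h2 := hG z
    rw [hr'] at h2
    simp only [ρ, congrFun h2 (Sum.inr k), congrFun h2 (Sum.inr i₀), Sum.elim_inr, Pi.smul_apply,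
      smul_eq_mul]
    rw [← mul_assoc, ← mul_assoc, mul_div_cancel_right₀ _ hz]
  set S := LinearMap.range (fderiv ℂ Ψ y.1.1).toLinearMap ⊔ L.prod L with hS
  let M : (S × ℂ) →ₗ[ℂ] (T → ℂ) :=
    { toFun := fun x i => Sum.elim x.1.1.1 (ρ y • fderiv ℂ A.θ
        ((Ψ y.1.1).2 + (0 + β y.2.2.1)) x.1.1.2 + x.2 • A.θ ((Ψ y.1.1).2 + (0 + β y.2.2.1))) i.1
      map_add' := fun a b => by
        funext i
        obtain ⟨i | i, hi⟩ := i
        · rfl
        · simp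
          ring
      map_smul' := fun c a => by
        funext i
        obtain ⟨i | i, hi⟩ := i
        · rfl
        · simp
          ring }
  have hM : Function.Surjective M := by
    intro c
    obtain ⟨v, hv⟩ := hs y hy hDy c
    refine ⟨(⟨fderiv ℂ Ψ y.1.1 v.1.1 + (β (γ v), β v.2.2.1), Submodule.add_mem_sup
      ⟨_, rfl⟩ ⟨(hr _).2 ⟨_, rfl⟩, (hr _).2 ⟨_, rfl⟩⟩⟩, fderiv ℂ ρ y v), funext fun i => ?_⟩
    rw [← hv i]
    obtain ⟨i | k, hi⟩ := i
    · have h2 : (fun z => eval (A.satZ Ψ β z) (G (Sum.inl i))) =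
          fun z : SatF F l => ((Ψ z.1.1).1 + β fun a => z.2.1 (some a)) i := by
        funext z
        have h4 := congrFun (hG z) (Sum.inl i)
        rw [Sum.elim_inl] at h4
        exact h4
      have h3 : fderiv ℂ (fun z => eval (A.satZ Ψ β z) (G (Sum.inl i))) y v =
          ((fderiv ℂ Ψ y.1.1 v.1.1).1 + β (γ v)) i := by
        rw [h2, (hasFDerivAt_pi'.1 d1 i).fderiv]
        simp
      exact h3.symm
    · have h3 : fderiv ℂ (fun z => eval (A.satZ Ψ β z) (G (Sum.inr k))) y v =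
          ρ y * fderiv ℂ A.θ ((Ψ y.1.1).2 + (0 + β y.2.2.1))
            ((fderiv ℂ Ψ y.1.1 v.1.1).2 + β v.2.2.1) k +
          fderiv ℂ ρ y v * A.θ ((Ψ y.1.1).2 + (0 + β y.2.2.1)) k := by
        rw [(he k).fderiv_eq, A.cone_fderiv d2.differentiableAt d4, d2.fderiv]
        simp
      exact h3.symm
  have := LinearMap.finrank_le_finrank_of_surjective hM
  simp only [Module.finrank_fintype_fun_eq_card, Fintype.card_coe, Module.finrank_prod,
    Module.finrank_self] at this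
  omega

/-- Rotundity on tangent spaces. -/
theorem IsPar.rotund [FiniteDimensional ℂ F] (h : A.IsPar (A.idl V) Ω Ψ) (hV : A.Rotund V)
    (hL : A.IsLie L) : ∃ y ∈ Ω, g + Module.finrank ℂ L ≤ Module.finrank ℂ
      ↥(LinearMap.range (fderiv ℂ Ψ y).toLinearMap ⊔ L.prod L) := by
  obtain ⟨y, hy, h1⟩ := h.rank_ge hL (hV L hL)
  have h2 := L.finrank_le
  rw [Module.finrank_fin_fun] at h2
  exact ⟨y, hy, by omega⟩

/-- Additive freeness on a piece. -/
theorem IsPar.free_add (h : A.IsPar (A.idl V) Ω Ψ) (hV : A.Free V) (hL : A.IsLie L)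
    (hL' : L ≠ ⊤) (c : Fin g → ℂ) : ∃ y ∈ Ω, (Ψ y).1 - c ∉ L := by
  by_contra hcon
  push Not at hcon
  refine (hV L hL hL' c).1 fun q hq => ?_
  refine (Subspace.forall_mem_dualAnnihilator_apply_eq_zero_iff L _).1 fun φ hφ => ?_
  let p : MvPolynomial (Fin g ⊕ Fin N) ℂ :=
    ∑ i, C (φ (Pi.single i 1)) * (X (Sum.inl i) - C (c i))
  have hp : ∀ (z : Fin g → ℂ) (y : Fin N → ℂ), eval (Sum.elim z y) p = φ (z - c) := by
    intro z y
    rw [LinearMap.pi_apply_eq_sum_univ φ]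
    simp only [p, map_sum, map_mul, eval_C, map_sub, eval_X, Sum.elim_inl, Pi.sub_apply,
      smul_eq_mul]
    refine Finset.sum_congr rfl fun i _ => ?_
    rw [mul_comm]
    congr 2
    funext k
    simp [Pi.single_apply, eq_comm]
  have h1 : p ∈ A.idl V := (h.mem p).2 fun y hy t => by
    rw [hp]
    exact (Submodule.mem_dualAnnihilator φ).1 hφ _ (hcon y hy)
  simpa only [hp] using A.mem_idl.1 h1 q hq 1

/-- Multiplicative freeness on a piece. -/
theorem IsPar.free_mul (h : A.IsPar (A.idl V) Ω Ψ) (hV : A.Free V) (hL : A.IsLie L)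
    (hL' : L ≠ ⊤) (c : Fin g → ℂ) : ∃ y ∈ Ω, ∀ m ∈ A.Λ, (Ψ y).2 - c - m ∉ L := by
  by_contra hcon
  push Not at hcon
  refine (hV L hL hL' c).2 fun q hq => zcl_sub hL fun p hp t => ?_
  obtain ⟨p', h1, h2⟩ := A.transl₂ 0 (-c) q.2 t (rename Sum.inr p)
  have h3 : p' ∈ A.idl V := (h.mem p').2 fun y hy s => by
    obtain ⟨r, hr⟩ := h1 (Ψ y).1 (Ψ y).2 s
    obtain ⟨m, hm, hmL⟩ := hcon y hy
    rw [hr, eval_rename]
    have := zcl_per (mem_zcl (A := A) hmL) hm p hp r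
    rwa [sub_add_cancel, sub_eq_add_neg] at this
  have h4 := A.mem_idl.1 h3 q hq 1
  rw [one_smul, h2, eval_rename] at h4
  rwa [sub_eq_add_neg]

theorem const_of_fderiv_mem {G : F → Fin g → ℂ} (ho : IsOpen Ω) (hc : IsPreconnected Ω)
    (hG : ∀ y ∈ Ω, DifferentiableAt ℂ G y) (hL : ∀ y ∈ Ω, ∀ v, fderiv ℂ G y v ∈ L) {y y' : F}
    (hy : y ∈ Ω) (hy' : y' ∈ Ω) : G y - G y' ∈ L := by
  refine (Subspace.forall_mem_dualAnnihilator_apply_eq_zero_iff L _).1 fun φ hφ => ?_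
  let φ' : (Fin g → ℂ) →L[ℂ] ℂ := LinearMap.toContinuousLinearMap φ
  have d : ∀ y ∈ Ω, HasFDerivAt (fun z => φ' (G z)) (φ'.comp (fderiv ℂ G y)) y := fun y hy =>
    φ'.hasFDerivAt.comp y (hG y hy).hasFDerivAt
  have := ho.is_const_of_fderiv_eq_zero (𝕜 := ℂ) (f := fun z => φ' (G z)) hc
    (fun y hy => (d y hy).differentiableAt.differentiableWithinAt) (fun y hy => by
      rw [(d y hy).fderiv]
      ext v
      exact (Submodule.mem_dualAnnihilator φ).1 hφ _ (hL y hy v)) hy hy'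
  rw [map_sub, sub_eq_zero]
  exact this

/-- Freeness on tangent spaces. -/
theorem IsPar.free (h : A.IsPar (A.idl V) Ω Ψ) (hV : A.Free V) (hL : A.IsLie L)
    (hL' : L ≠ ⊤) : (∃ y ∈ Ω, ∃ v, (fderiv ℂ Ψ y v).1 ∉ L) ∧
      ∃ y ∈ Ω, ∃ v, (fderiv ℂ Ψ y v).2 ∉ L := by
  obtain ⟨y₀, hy₀⟩ := h.nonempty
  constructor
  · by_contra hcon
    push Not at hcon
    obtain ⟨y, hy, h1⟩ := h.free_add hV hL hL' (Ψ y₀).1
    exact h1 (const_of_fderiv_mem (G := fun y => (Ψ y).1) h.isOpen h.conn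
      (fun y hy => (h.an y hy).differentiableAt.fst) (fun y hy v => by
        rw [(h.an y hy).differentiableAt.hasFDerivAt.fst.fderiv]
        exact hcon y hy v) hy hy₀)
  · by_contra hcon
    push Not at hcon
    obtain ⟨y, hy, h1⟩ := h.free_mul hV hL hL' (Ψ y₀).2
    refine h1 0 A.Λ.zero_mem ?_
    rw [sub_zero]
    exact const_of_fderiv_mem (G := fun y => (Ψ y).2) h.isOpen h.conn
      (fun y hy => (h.an y hy).differentiableAt.snd) (fun y hy v => by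
        rw [(h.an y hy).differentiableAt.hasFDerivAt.snd.fderiv]
        exact hcon y hy v) hy hy₀

end AbVar

end Pool.Agent.P.MP_f17f76_ag
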