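import Pool.Agent.P.MP_f17f76_ag.BrPol2
import Pool.Agent.P.MP_f17f76_ag.BrPar

/-!
A translate of an abelian subvariety is again an abelian variety in the sense of `AbVar`.
-/

namespace Pool.Agent.P.MP_f17f76_ag

open MvPolynomial Filter Topology

namespace AbVar

variable {g N l : ℕ} (A : AbVar g N) {L : Submodule ℂ (Fin g → ℂ)}

theorem eval_smul_poly (c : ℂ) (y : Fin N → ℂ) (p : MvPolynomial (Fin N) ℂ) :
    eval y (aeval (fun k => C c * X k) p) = eval (c • y) p := by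
  rw [eval_aeval']
  congr 2
  funext k
  simp

/-- The translate `exp (c + L)` with the group structure of `exp L`. -/
noncomputable def sub (hL : A.IsLie L) (β : (Fin l → ℂ) →L[ℂ] (Fin g → ℂ))
    (hβ : Function.Injective β) (hr : ∀ x, x ∈ L ↔ ∃ u, β u = x) (c : Fin g → ℂ) :
    AbVar l N where
  Λ := A.Λ.comap (β.toLinearMap.restrictScalars ℤ)
  discrete := by
    have := A.discrete
    refine DiscreteTopology.of_continuous_injective
      (f := fun u : A.Λ.comap (β.toLinearMap.restrictScalars ℤ) => (⟨β u.1, u.2⟩ : A.Λ))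
      ((β.continuous.comp continuous_subtype_val).subtype_mk _) fun a b h => ?_
    exact Subtype.ext (hβ (congrArg Subtype.val h))
  spans := by
    refine Submodule.eq_top_iff'.2 fun u => ?_
    have h1 : (A.Λ : Set (Fin g → ℂ)) ∩ L ⊆ (β.toLinearMap.restrictScalars ℝ) ''
        (A.Λ.comap (β.toLinearMap.restrictScalars ℤ) : Set (Fin l → ℂ)) := by
      rintro m ⟨hm, hmL⟩
      obtain ⟨v, rfl⟩ := (hr m).1 hmL
      exact ⟨v, hm, rfl⟩
    have h2 := Submodule.span_mono h1 (hL ((hr _).2 ⟨u, rfl⟩))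
    rw [Submodule.span_image] at h2
    obtain ⟨v, hv, h3⟩ := h2
    exact hβ h3 ▸ hv
  θ u := A.θ (c + β u)
  analytic u _ := (A.analytic _ trivial).fun_comp (analyticAt_const.add (β.analyticAt u))
  ne_zero _ := A.ne_zero _
  per u u' := by
    rw [A.per, add_sub_add_left_eq_sub, ← map_sub]
    rfl
  imm u v t h := by
    have h1 : HasFDerivAt (fun u => A.θ (c + β u)) ((fderiv ℂ A.θ (c + β u)).comp β) u :=
      (A.analytic (c + β u) trivial).differentiableAt.hasFDerivAt.comp u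
        (β.hasFDerivAt.const_add c)
    rw [h1.fderiv] at h
    exact hβ ((A.imm _ _ t h).trans (map_zero β).symm)
  closed := by
    refine ⟨{p | ∀ u (t : ℂ), eval (t • A.θ (c + β u)) p = 0}, fun y => ⟨fun hy => ?_, ?_⟩⟩
    · obtain ⟨J, hJ⟩ := A.closed
      obtain ⟨t, w, rfl⟩ := (hJ y).1 fun p hp => hy p fun u t => (hJ _).2 ⟨t, _, rfl⟩ p hp
      by_cases ht : t = 0
      · exact ⟨0, 0, by rw [ht, zero_smul, zero_smul]⟩
      obtain ⟨m, hm, h⟩ := zcl_sub hL (w := w + -c) fun p hp s => by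
        obtain ⟨Q, hQ, hQ1⟩ := A.transl (-c) w s
        have := hy (aeval (fun k => C t⁻¹ * X k) (aeval Q p)) fun u s' => by
          obtain ⟨r, hr'⟩ := hQ (c + β u) (t⁻¹ * s')
          rw [eval_smul_poly, smul_smul, eval_aeval', hr', add_neg_cancel_comm]
          exact hp _ ((hr _).2 ⟨u, rfl⟩) r
        rwa [eval_smul_poly, inv_smul_smul₀ ht, eval_aeval', hQ1] at this
      obtain ⟨u, hu⟩ := (hr _).1 h
      obtain ⟨s, hs⟩ := (A.per (c + β u) w).2 (by
        rw [hu]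
        convert hm using 1
        abel)
      exact ⟨t * s, u, by rw [hs, smul_smul]⟩
    · rintro ⟨t, u, rfl⟩ p hp
      exact hp u t
  add u₁ u₂ := by
    obtain ⟨Q, hQ0, hQ⟩ := A.add (c + β u₁) (c + β u₂)
    obtain ⟨r₀, hr₀⟩ := hQ (c + β u₁) (c + β u₂) 1 1
    rw [one_smul, one_smul] at hr₀
    have h0 : r₀ ≠ 0 := by
      rintro rfl
      exact hQ0 (by rw [hr₀, zero_smul])
    obtain ⟨R, hR, hR1⟩ := A.transl (-c) (c + β u₁ + (c + β u₂)) 1
    have key : ∀ (x : Fin N ⊕ Fin N → ℂ), (fun k => eval x (aeval (fun i => C r₀⁻¹ * Q i) (R k))) =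
        fun k => eval (r₀⁻¹ • fun i => eval x (Q i)) (R k) := by
      intro x
      funext k
      rw [eval_aeval']
      congr 2
      funext i
      simp
    refine ⟨fun k => aeval (fun i => C r₀⁻¹ * Q i) (R k), ?_, fun u v s t => ?_⟩
    · rw [key, hr₀, inv_smul_smul₀ h0, hR1, one_smul]
      exact A.ne_zero _
    · obtain ⟨r, h⟩ := hQ (c + β u) (c + β v) s t
      obtain ⟨r', h'⟩ := hR (c + β u + (c + β v)) (r₀⁻¹ * r)
      refine ⟨r', ?_⟩
      rw [key, h, smul_smul, h', map_add]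
      congr 2
      abel

section

variable {A} (hL : A.IsLie L) {β : (Fin l → ℂ) →L[ℂ] (Fin g → ℂ)} (hβ : Function.Injective β)
  (hr : ∀ x, x ∈ L ↔ ∃ u, β u = x) (c : Fin g → ℂ)

@[simp] theorem sub_θ (u : Fin l → ℂ) : (A.sub hL β hβ hr c).θ u = A.θ (c + β u) := rfl

@[simp] theorem mem_sub_Λ (u : Fin l → ℂ) : u ∈ (A.sub hL β hβ hr c).Λ ↔ β u ∈ A.Λ := Iff.rfl

theorem sub_isLie (M : Submodule ℂ (Fin l → ℂ)) :
    (A.sub hL β hβ hr c).IsLie M ↔ A.IsLie (M.map β.toLinearMap) := by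
  have e : (A.Λ : Set (Fin g → ℂ)) ∩ M.map β.toLinearMap = (β.toLinearMap.restrictScalars ℝ) ''
      (((A.sub hL β hβ hr c).Λ : Set (Fin l → ℂ)) ∩ M) := by
    ext m
    constructor
    · rintro ⟨hm, v, hv, rfl⟩
      exact ⟨v, ⟨hm, hv⟩, rfl⟩
    · rintro ⟨v, ⟨h1, h2⟩, rfl⟩
      exact ⟨h1, v, h2, rfl⟩
  unfold IsLie
  rw [e, Submodule.span_image]
  constructor
  · rintro h _ ⟨v, hv, rfl⟩
    exact ⟨v, h hv, rfl⟩
  · intro h v hv
    obtain ⟨v', h1, h2⟩ := h ⟨v, hv, rfl⟩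
    exact hβ h2 ▸ h1

theorem sub_isLie_comap {M : Submodule ℂ (Fin g → ℂ)} (hM : A.IsLie M) :
    (A.sub hL β hβ hr c).IsLie (M.comap β.toLinearMap) := by
  have e : LinearMap.range β.toLinearMap = L := by
    ext x
    exact (hr x).symm
  rw [sub_isLie, Submodule.map_comap_eq, e]
  exact hL.inf hM

end

/-- Pull back of polynomials along `z = a + β z'`. -/
noncomputable def pb (N : ℕ) (β : (Fin l → ℂ) →L[ℂ] (Fin g → ℂ)) (a : Fin g → ℂ) :
    MvPolynomial (Fin g ⊕ Fin N) ℂ →ₐ[ℂ] MvPolynomial (Fin l ⊕ Fin N) ℂ :=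
  aeval (Sum.elim (fun i => C (a i) + ∑ j, C (β (Pi.single j 1) i) * X (Sum.inl j))
    fun k => X (Sum.inr k))

theorem eval_pb (β : (Fin l → ℂ) →L[ℂ] (Fin g → ℂ)) (a : Fin g → ℂ) (z : Fin l → ℂ)
    (y : Fin N → ℂ) (p : MvPolynomial (Fin g ⊕ Fin N) ℂ) :
    eval (Sum.elim z y) (pb N β a p) = eval (Sum.elim (a + β z) y) p := by
  rw [pb, eval_aeval']
  congr 2
  funext k
  rcases k with i | k
  · simp [inv_expand β z i, mul_comm]
  · simp

theorem pb_surjective {β : (Fin l → ℂ) →L[ℂ] (Fin g → ℂ)} (hβ : Function.Injective β)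
    (a : Fin g → ℂ) : Function.Surjective (pb N β a) := by
  obtain ⟨π, hπ⟩ := β.toLinearMap.exists_leftInverse_of_injective (LinearMap.ker_eq_bot.2 hβ)
  let π' : (Fin g → ℂ) →L[ℂ] (Fin l → ℂ) := LinearMap.toContinuousLinearMap π
  intro p
  refine ⟨pb N π' (-π' a) p, MvPolynomial.funext fun x => ?_⟩
  have hx : x = Sum.elim (fun i => x (Sum.inl i)) fun k => x (Sum.inr k) := by
    funext k
    rcases k with k | k <;> rfl
  have h1 : ∀ u, π' (β u) = u := fun u => LinearMap.congr_fun hπ u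
  rw [hx, eval_pb, eval_pb, map_add, neg_add_cancel_left, h1]

section

variable {A} (hL : A.IsLie L) {β : (Fin l → ℂ) →L[ℂ] (Fin g → ℂ)} (hβ : Function.Injective β)
  (hr : ∀ x, x ∈ L ↔ ∃ u, β u = x) (a c : Fin g → ℂ)

theorem mem_sub_zeroSet (I : Set (MvPolynomial (Fin g ⊕ Fin N) ℂ))
    (q : (Fin l → ℂ) × (Fin l → ℂ)) :
    q ∈ (A.sub hL β hβ hr c).zeroSet (pb N β a '' I) ↔ (a + β q.1, c + β q.2) ∈ A.zeroSet I := by
  simp only [zeroSet, Set.mem_ofPred_eq, Set.forall_mem_image, eval_pb, sub_θ]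

theorem idl_sub (V : Set ((Fin l → ℂ) × (Fin l → ℂ))) :
    A.idl ((fun q => (a + β q.1, c + β q.2)) '' V) =
      ((A.sub hL β hβ hr c).idl V).comap (pb N β a) := by
  ext p
  simp only [Ideal.mem_comap, mem_idl, Set.forall_mem_image, eval_pb, sub_θ]

theorem irred_sub (V : Set ((Fin l → ℂ) × (Fin l → ℂ))) :
    A.Irred ((fun q => (a + β q.1, c + β q.2)) '' V) ↔ (A.sub hL β hβ hr c).Irred V := by
  change (A.idl _).IsPrime ↔ ((A.sub hL β hβ hr c).idl V).IsPrime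
  rw [idl_sub hL hβ hr a c]
  refine ⟨fun h => ?_, fun h => Ideal.comap_isPrime _ _⟩
  rw [← Ideal.map_comap_of_surjective (pb N β a) (pb_surjective hβ a)
    ((A.sub hL β hβ hr c).idl V)]
  exact Ideal.map_isPrime_of_surjective (pb_surjective hβ a) (Ideal.ker_le_comap _)

theorem coneDim_sub (V : Set ((Fin l → ℂ) × (Fin l → ℂ))) :
    A.coneDim ((fun q => (a + β q.1, c + β q.2)) '' V) = (A.sub hL β hβ hr c).coneDim V := by
  change ringKrullDim (_ ⧸ A.idl _) = ringKrullDim (_ ⧸ (A.sub hL β hβ hr c).idl V)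
  rw [idl_sub hL hβ hr a c]
  refine RingEquiv.ringKrullDim (RingEquiv.ofBijective (Ideal.quotientMap _
    (pb N β a).toRingHom le_rfl) ⟨Ideal.quotientMap_injective, ?_⟩)
  exact Ideal.quotientMap_surjective (pb_surjective hβ a)

end

end AbVar

end Pool.Agent.P.MP_f17f76_ag
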