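import Mathlib

/-!
Definitions for the statement: complex abelian varieties with their exponential map,
algebraic subsets of `ℂ^g × A`, and simplicity.
-/

namespace Pool.Agent.P.MP_f17f76_ag

open MvPolynomial

/-- A complex abelian variety `A ⊆ ℙ^(N-1)` of dimension `g` together with its exponential map
`w ↦ [θ w]`, written in homogeneous coordinates by entire functions without common zero. -/
structure AbVar (g N : ℕ) where
  /-- the period lattice, the kernel of the exponential map -/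
  Λ : Submodule ℤ (Fin g → ℂ)
  discrete : DiscreteTopology Λ
  spans : Submodule.span ℝ (Λ : Set (Fin g → ℂ)) = ⊤
  /-- homogeneous coordinates of the exponential map -/
  θ : (Fin g → ℂ) → (Fin N → ℂ)
  analytic : AnalyticOnNhd ℂ θ Set.univ
  ne_zero : ∀ w, θ w ≠ 0
  /-- `[θ w'] = [θ w]` exactly when `w' - w` is a period -/
  per : ∀ w w', (∃ t : ℂ, θ w' = t • θ w) ↔ w' - w ∈ Λ
  /-- `w ↦ [θ w]` is an immersion into projective space -/
  imm : ∀ w v, ∀ t : ℂ, fderiv ℂ θ w v = t • θ w → v = 0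
  /-- the image `A` is Zariski closed in projective space -/
  closed : ∃ J : Set (MvPolynomial (Fin N) ℂ),
    ∀ y, (∀ p ∈ J, eval y p = 0) ↔ ∃ (t : ℂ) (w : Fin g → ℂ), y = t • θ w
  /-- the group law of `A` is a morphism: near every pair of points it is given by polynomials -/
  add : ∀ w₁ w₂, ∃ Q : Fin N → MvPolynomial (Fin N ⊕ Fin N) ℂ,
    (fun k => eval (Sum.elim (θ w₁) (θ w₂)) (Q k)) ≠ 0 ∧
    ∀ u v, ∀ s t : ℂ, ∃ r : ℂ,
      (fun k => eval (Sum.elim (s • θ u) (t • θ v)) (Q k)) = r • θ (u + v)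

namespace AbVar

variable {g N : ℕ}

/-- `A` is simple: the only complex subspaces `L` in which `Λ ∩ L` is a lattice (the Lie algebras
of the abelian subvarieties) are `0` and the whole space. -/
def Simple (A : AbVar g N) : Prop :=
  ∀ L : Submodule ℂ (Fin g → ℂ),
    (L : Set (Fin g → ℂ)) ⊆ Submodule.span ℝ ((A.Λ : Set (Fin g → ℂ)) ∩ L) → L = ⊥ ∨ L = ⊤

/-- The Zariski closed subset of `ℂ^g × A` cut out by the polynomials `I` in the affine
coordinates `z` and the homogeneous coordinates `y`, pulled back to pairs `(z, w)` with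
`y = θ w`. -/
def zeroSet (A : AbVar g N) (I : Set (MvPolynomial (Fin g ⊕ Fin N) ℂ)) :
    Set ((Fin g → ℂ) × (Fin g → ℂ)) :=
  {q | ∀ p ∈ I, ∀ t : ℂ, eval (Sum.elim q.1 (t • A.θ q.2)) p = 0}

/-- The affine cone in `ℂ^g × ℂ^N` over a subset of `ℂ^g × A`. -/
def cone (A : AbVar g N) (V : Set ((Fin g → ℂ) × (Fin g → ℂ))) : Set (Fin g ⊕ Fin N → ℂ) :=
  {x | ∃ q ∈ V, ∃ t : ℂ, x = Sum.elim q.1 (t • A.θ q.2)}

/-- The Krull dimension of the coordinate ring of the affine cone over `V`; it is `dim V + 1`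
for nonempty `V`. -/
noncomputable def coneDim (A : AbVar g N) (V : Set ((Fin g → ℂ) × (Fin g → ℂ))) : WithBot ℕ∞ :=
  ringKrullDim (MvPolynomial (Fin g ⊕ Fin N) ℂ ⧸ vanishingIdeal ℂ (A.cone V))

end AbVar

end Pool.Agent.P.MP_f17f76_ag
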