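import Pool.Agent.P.MP_f17f76_ag.Defs

/-!
Auxiliary definitions used only inside the proof.
-/

namespace Pool.Agent.P.MP_f17f76_ag

open MvPolynomial Filter Topology

/-- Minimum modulus principle for maps to `ℂ^k` on the set `S`. -/
def MP {E : Type} [NormedAddCommGroup E] [NormedSpace ℂ E] (k : ℕ) (S : Set E) : Prop :=
  ∀ G : E → EuclideanSpace ℂ (Fin k), AnalyticOnNhd ℂ G Set.univ → ∀ (c : E) (r : ℝ),
    ∀ p ∈ S ∩ Metric.ball c r, (∀ q ∈ S ∩ Metric.ball c r, G q ≠ 0) →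
      ∃ q ∈ S ∩ Metric.sphere c r, ‖G q‖ ≤ ‖G p‖

/-- Limit of a sequence of sets along an ultrafilter. -/
def ulim {E : Type} [NormedAddCommGroup E] (𝒰 : Ultrafilter ℕ) (S : ℕ → Set E) : Set E :=
  {p | ∀ ε > 0, ∀ᶠ n in (𝒰 : Filter ℕ), ∃ q ∈ S n, dist q p < ε}

/-- The coordinates in `T` are algebraically independent modulo `P`. -/
def Indep {σ : Type} (P : Ideal (MvPolynomial σ ℂ)) (T : Finset σ) : Prop :=
  ∀ p : MvPolynomial T ℂ, rename Subtype.val p ∈ P → p = 0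

/-- Every coordinate is algebraic over the coordinates in `T` modulo `P`. -/
def AlgOver {σ : Type} (P : Ideal (MvPolynomial σ ℂ)) (T : Finset σ) : Prop :=
  ∀ k : σ, ∃ f : Polynomial (MvPolynomial T ℂ), f ≠ 0 ∧
    f.eval₂ (rename Subtype.val : MvPolynomial T ℂ →ₐ[ℂ] MvPolynomial σ ℂ).toRingHom (X k) ∈ P

/-- `a` is analytic at `x` and a simple root of a polynomial equation there. -/
def IsEt {ι : Type} [Fintype ι] (x : ι → ℂ) (a : (ι → ℂ) → ℂ) : Prop :=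
  AnalyticAt ℂ a x ∧ ∃ f : Polynomial (MvPolynomial ι ℂ),
    (∀ᶠ u in 𝓝 x, f.eval₂ (eval u) (a u) = 0) ∧
      (Polynomial.derivative f).eval₂ (eval x) (a x) ≠ 0

/-- `a` is a Nash germ at `x`: analytic and algebraic over the polynomials. -/
def IsNash {ι : Type} [Fintype ι] (x : ι → ℂ) (a : (ι → ℂ) → ℂ) : Prop :=
  AnalyticAt ℂ a x ∧ ∃ f : Polynomial (MvPolynomial ι ℂ), f ≠ 0 ∧
    ∀ᶠ u in 𝓝 x, f.eval₂ (eval u) (a u) = 0

end Pool.Agent.P.MP_f17f76_ag
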