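import Pool.Agent.P.MP_f17f76_ag.Nash2

namespace Pool.Agent.P.MP_f17f76_ag

open MvPolynomial Filter Topology

variable {F σ : Type} [NormedAddCommGroup F] [NormedSpace ℂ F]

/-- polynomials vanishing on the image of `Ω` -/
def vanI (Ω : Set F) (Z : F → σ → ℂ) : Ideal (MvPolynomial σ ℂ) where
  carrier := {p | ∀ y ∈ Ω, eval (Z y) p = 0}
  add_mem' := by
    intro a b ha hb y hy
    simp [ha y hy, hb y hy]
  zero_mem' := by intro y _; simp
  smul_mem' := by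
    intro c a ha y hy
    simp [ha y hy]

omit [NormedAddCommGroup F] [NormedSpace ℂ F] in
theorem mem_vanI {Ω : Set F} {Z : F → σ → ℂ} {p : MvPolynomial σ ℂ} :
    p ∈ vanI Ω Z ↔ ∀ y ∈ Ω, eval (Z y) p = 0 := Iff.rfl

theorem mem_vanI_of_eventually {Ω : Set F} (hc : IsPreconnected Ω) {Z : F → σ → ℂ}
    (hZ : ∀ y ∈ Ω, ∀ k, AnalyticAt ℂ (fun z => Z z k) y) {p : MvPolynomial σ ℂ} {y : F}
    (hy : y ∈ Ω) (h : ∀ᶠ z in 𝓝 y, eval (Z z) p = 0) : p ∈ vanI Ω Z := by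
  have ha : AnalyticOnNhd ℂ (fun z => eval (Z z) p) Ω := fun z hz =>
    analyticAt_eval p Z (hZ z hz)
  exact fun z hz => ha.eqOn_zero_of_preconnected_of_eventuallyEq_zero hc hy h hz

theorem vanI_prime {Ω : Set F} (ho : IsOpen Ω) (hc : IsPreconnected Ω) (hne : Ω.Nonempty)
    {Z : F → σ → ℂ} (hZ : ∀ y ∈ Ω, ∀ k, AnalyticAt ℂ (fun z => Z z k) y) :
    (vanI Ω Z).IsPrime := by
  obtain ⟨y, hy⟩ := hne
  refine ⟨?_, ?_⟩
  · intro h
    have : (1 : MvPolynomial σ ℂ) ∈ vanI Ω Z := by rw [h]; trivial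
    simpa using this y hy
  · intro a b hab
    have h1 : ∀ᶠ z in 𝓝 y, eval (Z z) a * eval (Z z) b = 0 := by
      filter_upwards [ho.mem_nhds hy] with z hz
      simpa using hab z hz
    rcases analytic_mul_eq_zero (analyticAt_eval a Z (hZ y hy)) (analyticAt_eval b Z (hZ y hy))
      h1 with h | h
    · exact Or.inl (mem_vanI_of_eventually hc hZ hy h)
    · exact Or.inr (mem_vanI_of_eventually hc hZ hy h)

theorem AbVar.analyticAt_coord {g N : ℕ} (A : AbVar g N) {w : F → Fin g → ℂ} {y : F}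
    (hw : AnalyticAt ℂ w y) (k : Fin N) : AnalyticAt ℂ (fun z => A.θ (w z) k) y := by
  have h1 : AnalyticAt ℂ (fun z => A.θ (w z)) y := (A.analytic _ trivial).comp hw
  exact (analyticAt_pi_iff.1 h1) k

end Pool.Agent.P.MP_f17f76_ag
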