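import Pool.Agent.P.MP_f17f76_ag.Defs2

/-!
Ring operations on Nash germs, linear systems and algebraic dependence.
-/

namespace Pool.Agent.P.MP_f17f76_ag

open MvPolynomial Filter Topology

section Nash1
variable {ι : Type} [Fintype ι] {x : ι → ℂ} {a b : (ι → ℂ) → ℂ}

/-- The ring of germs of functions at `x`. -/
def nash1_G (x : ι → ℂ) : Type := Germ (𝓝 x) ℂ

noncomputable instance nash1_ring (x : ι → ℂ) : CommRing (nash1_G x) :=
  inferInstanceAs (CommRing (Germ (𝓝 x) ℂ))

/-- The germ of a function. -/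
noncomputable def nash1_mk (x : ι → ℂ) : ((ι → ℂ) → ℂ) →+* nash1_G x := Germ.coeRingHom (𝓝 x)

omit [Fintype ι] in
theorem nash1_mk_eq : nash1_mk x a = nash1_mk x b ↔ a =ᶠ[𝓝 x] b := Germ.coe_eq

omit [Fintype ι] in
theorem nash1_mk_eq_zero : nash1_mk x a = 0 ↔ ∀ᶠ u in 𝓝 x, a u = 0 := by
  rw [← map_zero (nash1_mk x), nash1_mk_eq]
  rfl

/-- A polynomial as a function. -/
noncomputable def nash1_ev (ι : Type) : MvPolynomial ι ℂ →+* ((ι → ℂ) → ℂ) :=
  RingHom.pi fun u => eval u

noncomputable instance nash1_alg (x : ι → ℂ) : Algebra (MvPolynomial ι ℂ) (nash1_G x) :=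
  ((nash1_mk x).comp (nash1_ev ι)).toAlgebra

noncomputable instance nash1_algC (x : ι → ℂ) : Algebra ℂ (nash1_G x) :=
  (((nash1_mk x).comp (nash1_ev ι)).comp (algebraMap ℂ (MvPolynomial ι ℂ))).toAlgebra

instance nash1_tower (x : ι → ℂ) : IsScalarTower ℂ (MvPolynomial ι ℂ) (nash1_G x) :=
  IsScalarTower.of_algebraMap_eq fun _ => rfl

omit [Fintype ι] in
theorem nash1_algebraMap (p : MvPolynomial ι ℂ) :
    algebraMap (MvPolynomial ι ℂ) (nash1_G x) p = nash1_mk x (fun u => eval u p) := rfl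

omit [Fintype ι] in
theorem nash1_algebraMapC (c : ℂ) : algebraMap ℂ (nash1_G x) c = nash1_mk x (fun _ => c) := by
  have h : algebraMap ℂ (nash1_G x) c = nash1_mk x (fun u => eval u (C c)) := rfl
  simpa only [eval_C] using h

omit [Fintype ι] in
theorem nash1_aeval (f : Polynomial (MvPolynomial ι ℂ)) :
    Polynomial.aeval (nash1_mk x a) f = nash1_mk x (fun u => f.eval₂ (eval u) (a u)) := by
  have h1 : Polynomial.aeval (nash1_mk x a) f =
      f.eval₂ ((nash1_mk x).comp (nash1_ev ι)) (nash1_mk x a) := rfl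
  rw [h1, ← Polynomial.hom_eval₂]
  congr 1
  funext u
  exact Polynomial.hom_eval₂ f (nash1_ev ι) (Pi.evalRingHom (fun _ => ℂ) u) a

theorem nash1_iff :
    IsNash x a ↔ AnalyticAt ℂ a x ∧ IsAlgebraic (MvPolynomial ι ℂ) (nash1_mk x a) := by
  unfold IsNash IsAlgebraic
  simp only [nash1_aeval, nash1_mk_eq_zero]

theorem nash1_analytic_coord (x : ι → ℂ) (i : ι) : AnalyticAt ℂ (fun u : ι → ℂ => u i) x :=
  (ContinuousLinearMap.proj (R := ℂ) (φ := fun _ : ι => ℂ) i).analyticAt x

theorem nash1_analytic_eval (x : ι → ℂ) (p : MvPolynomial ι ℂ) :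
    AnalyticAt ℂ (fun u : ι → ℂ => eval u p) x := by
  induction p using MvPolynomial.induction_on with
  | C c => simpa only [eval_C] using analyticAt_const
  | add p q hp hq =>
    simp only [map_add]
    exact hp.add hq
  | mul_X p i hp =>
    simp only [map_mul, eval_X]
    exact hp.mul (nash1_analytic_coord x i)

theorem nash1_poly (x : ι → ℂ) (p : MvPolynomial ι ℂ) : IsNash x (fun u => eval u p) :=
  nash1_iff.2 ⟨nash1_analytic_eval x p, by
    rw [← nash1_algebraMap]
    exact isAlgebraic_algebraMap p⟩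

theorem IsNash.congr (h : IsNash x a) (hab : a =ᶠ[𝓝 x] b) : IsNash x b := by
  rw [nash1_iff] at h ⊢
  exact ⟨h.1.congr hab, nash1_mk_eq.2 hab ▸ h.2⟩

theorem isNash_const (x : ι → ℂ) (c : ℂ) : IsNash x (fun _ => c) := by
  simpa only [eval_C] using nash1_poly x (C c)

theorem isNash_coord (x : ι → ℂ) (i : ι) : IsNash x (fun u => u i) := by
  simpa only [eval_X] using nash1_poly x (X i)

theorem IsNash.add (ha : IsNash x a) (hb : IsNash x b) : IsNash x (fun u => a u + b u) := by
  rw [nash1_iff] at ha hb ⊢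
  refine ⟨ha.1.add hb.1, ?_⟩
  have h := ha.2.add hb.2
  rw [← map_add] at h
  exact h

theorem IsNash.mul (ha : IsNash x a) (hb : IsNash x b) : IsNash x (fun u => a u * b u) := by
  rw [nash1_iff] at ha hb ⊢
  refine ⟨ha.1.mul hb.1, ?_⟩
  have h := ha.2.mul hb.2
  rw [← map_mul] at h
  exact h

theorem IsNash.neg (ha : IsNash x a) : IsNash x (fun u => - a u) := by
  rw [nash1_iff] at ha ⊢
  refine ⟨ha.1.neg, ?_⟩
  have h := ha.2.neg
  rw [← map_neg] at h
  exact h

theorem IsNash.sub (ha : IsNash x a) (hb : IsNash x b) : IsNash x (fun u => a u - b u) := by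
  simpa only [sub_eq_add_neg] using ha.add hb.neg

theorem IsNash.inv (ha : IsNash x a) (h0 : a x ≠ 0) : IsNash x (fun u => (a u)⁻¹) := by
  obtain ⟨h1, f, hf, h2⟩ := ha
  refine ⟨h1.inv h0, f.reverse, fun h => hf (Polynomial.reverse_eq_zero.1 h), ?_⟩
  filter_upwards [h2, h1.continuousAt.eventually_ne h0] with u hu hu0
  let _ := invertibleOfNonzero hu0
  exact (Polynomial.eval₂_reverse_eq_zero_iff (eval u) (a u) f).2 hu

theorem isNash_sum {κ : Type} (s : Finset κ) (f : κ → (ι → ℂ) → ℂ)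
    (h : ∀ k ∈ s, IsNash x (f k)) : IsNash x (fun u => ∑ k ∈ s, f k u) := by
  classical
  induction s using Finset.induction_on with
  | empty => simpa only [Finset.sum_empty] using isNash_const x 0
  | insert k s hk ih =>
    simp only [Finset.sum_insert hk]
    exact (h k (Finset.mem_insert_self _ _)).add
      (ih fun j hj => h j (Finset.mem_insert_of_mem hj))

theorem isNash_prod {κ : Type} (s : Finset κ) (f : κ → (ι → ℂ) → ℂ)
    (h : ∀ k ∈ s, IsNash x (f k)) : IsNash x (fun u => ∏ k ∈ s, f k u) := by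
  classical
  induction s using Finset.induction_on with
  | empty => simpa only [Finset.prod_empty] using isNash_const x 1
  | insert k s hk ih =>
    simp only [Finset.prod_insert hk]
    exact (h k (Finset.mem_insert_self _ _)).mul
      (ih fun j hj => h j (Finset.mem_insert_of_mem hj))

theorem isNash_eval {κ : Type} (p : MvPolynomial κ ℂ) (f : (ι → ℂ) → κ → ℂ)
    (h : ∀ k, IsNash x (fun u => f u k)) : IsNash x (fun u => eval (f u) p) := by
  induction p using MvPolynomial.induction_on with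
  | C c => simpa only [eval_C] using isNash_const x c
  | add p q hp hq => simpa only [map_add] using hp.add hq
  | mul_X p i hp => simpa only [map_mul, eval_X] using hp.mul (h i)

theorem isNash_det {n : Type} [Fintype n] [DecidableEq n] (M : (ι → ℂ) → Matrix n n ℂ)
    (h : ∀ i j, IsNash x (fun u => M u i j)) : IsNash x (fun u => (M u).det) := by
  simp only [Matrix.det_apply']
  exact isNash_sum _ _ fun σ _ =>
    (isNash_const x _).mul (isNash_prod _ (fun i u => M u (σ i) i) fun i _ => h _ _)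

theorem isNash_clm {κ : Type} [Fintype κ] (φ : (κ → ℂ) →L[ℂ] ℂ) (f : (ι → ℂ) → κ → ℂ)
    (h : ∀ k, IsNash x (fun u => f u k)) : IsNash x (fun u => φ (f u)) := by
  classical
  have e : ∀ u, φ (f u) = ∑ k, f u k * φ (fun j => if k = j then 1 else 0) := fun u =>
    LinearMap.pi_apply_eq_sum_univ (φ : (κ → ℂ) →ₗ[ℂ] ℂ) (f u)
  simp only [e]
  exact isNash_sum _ _ fun k _ => (h k).mul (isNash_const x _)

theorem nash_solve {n κ : Type} [Fintype n] [Fintype κ] (m : (ι → ℂ) → n → κ → ℂ)
    (hm : ∀ i k, IsNash x (fun u => m u i k)) (hli : LinearIndependent ℂ (m x))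
    (c : (ι → ℂ) → n → ℂ) (hr : ∀ k, IsNash x (fun u => ∑ i, c u i * m u i k)) (i : n) :
    IsNash x (fun u => c u i) := by
  classical
  obtain ⟨g, hg⟩ := (Fintype.linearCombination ℂ (m x)).exists_leftInverse_of_injective
    (LinearMap.ker_eq_bot.2 hli.fintypeLinearCombination_injective)
  let φ : n → (κ → ℂ) →L[ℂ] ℂ := fun j =>
    LinearMap.toContinuousLinearMap ((LinearMap.proj j).comp g)
  let M : (ι → ℂ) → Matrix n n ℂ := fun u => Matrix.of fun j l => g (m u l) j
  let r : (ι → ℂ) → n → ℂ := fun u => g (fun k => ∑ l, c u l * m u l k)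
  have hM : ∀ j l, IsNash x (fun u => M u j l) := fun j l =>
    isNash_clm (φ j) (fun u => m u l) (hm l)
  have hrN : ∀ j, IsNash x (fun u => r u j) := fun j =>
    isNash_clm (φ j) (fun u k => ∑ l, c u l * m u l k) hr
  have hM1 : M x = 1 := by
    ext j l
    have h1 := LinearMap.congr_fun hg (Pi.single l 1)
    rw [LinearMap.comp_apply, Fintype.linearCombination_apply_single, one_smul] at h1
    simp only [M, Matrix.of_apply, h1, LinearMap.id_apply, Matrix.one_apply, Pi.single_apply]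
  have hMc : ∀ u, (M u).mulVec (c u) = r u := by
    intro u
    have e : (fun k => ∑ l, c u l * m u l k) = ∑ l, c u l • m u l := by
      funext k
      simp only [Finset.sum_apply, Pi.smul_apply, smul_eq_mul]
    funext j
    simp only [r, e, map_sum, map_smul, Finset.sum_apply, Pi.smul_apply, smul_eq_mul, M,
      Matrix.mulVec, dotProduct, Matrix.of_apply]
    exact Finset.sum_congr rfl fun l _ => mul_comm _ _
  have hdet := isNash_det M hM
  have hd0 : (M x).det ≠ 0 := by rw [hM1, Matrix.det_one]; exact one_ne_zero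
  have hup : IsNash x (fun u => ((M u).updateCol i (r u)).det) := by
    refine isNash_det _ fun j l => ?_
    simp only [Matrix.updateCol_apply]
    split_ifs
    · exact hrN j
    · exact hM j l
  refine ((hdet.inv hd0).mul hup).congr ?_
  filter_upwards [hdet.1.continuousAt.eventually_ne hd0] with u hu
  rw [← Matrix.cramer_apply, Matrix.cramer_eq_adjugate_mulVec, ← hMc u, Matrix.mulVec_mulVec,
    Matrix.adjugate_mul, Matrix.smul_mulVec, Matrix.one_mulVec, Pi.smul_apply, smul_eq_mul,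
    inv_mul_cancel_left₀ hu]

theorem nash1_mul_eq_zero (ha : AnalyticAt ℂ a x) (hb : AnalyticAt ℂ b x)
    (h : ∀ᶠ u in 𝓝 x, a u * b u = 0) : (∀ᶠ u in 𝓝 x, a u = 0) ∨ ∀ᶠ u in 𝓝 x, b u = 0 := by
  obtain ⟨ε, hε, hb'⟩ := Metric.eventually_nhds_iff_ball.1
    (ha.eventually_analyticAt.and (hb.eventually_analyticAt.and h.eventually_nhds))
  by_cases h0 : ∀ u ∈ Metric.ball x ε, a u = 0
  · exact Or.inl (Metric.eventually_nhds_iff_ball.2 ⟨ε, hε, h0⟩)
  · push Not at h0
    obtain ⟨y, hy, hy0⟩ := h0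
    have h1 : b =ᶠ[𝓝 y] 0 := by
      filter_upwards [(hb' y hy).2.2, (hb' y hy).1.continuousAt.eventually_ne hy0] with u h1 h2
      exact (mul_eq_zero.1 h1).resolve_left h2
    have h2 : AnalyticOnNhd ℂ b (Metric.ball x ε) := fun u hu => (hb' u hu).2.1
    exact Or.inr (Metric.eventually_nhds_iff_ball.2 ⟨ε, hε,
      h2.eqOn_zero_of_preconnected_of_eventuallyEq_zero (convex_ball x ε).isPreconnected hy h1⟩)

theorem nash1_poly_eq_zero (p : MvPolynomial ι ℂ) (h : ∀ᶠ u in 𝓝 x, eval u p = 0) : p = 0 := by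
  have h1 : AnalyticOnNhd ℂ (fun u : ι → ℂ => eval u p) Set.univ :=
    fun u _ => nash1_analytic_eval u p
  have h2 := h1.eqOn_zero_of_preconnected_of_eventuallyEq_zero isPreconnected_univ
    (Set.mem_univ x) h
  exact MvPolynomial.funext fun u => by
    rw [map_zero]
    exact h2 (Set.mem_univ u)

/-- The germs of Nash functions. -/
noncomputable def nash1_S (x : ι → ℂ) : Subalgebra (MvPolynomial ι ℂ) (nash1_G x) where
  carrier := {g | ∃ a, IsNash x a ∧ nash1_mk x a = g}
  mul_mem' := by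
    rintro _ _ ⟨a, ha, rfl⟩ ⟨b, hb, rfl⟩
    exact ⟨_, ha.mul hb, map_mul (nash1_mk x) a b⟩
  add_mem' := by
    rintro _ _ ⟨a, ha, rfl⟩ ⟨b, hb, rfl⟩
    exact ⟨_, ha.add hb, map_add (nash1_mk x) a b⟩
  algebraMap_mem' p := ⟨_, nash1_poly x p, rfl⟩

omit [Fintype ι] in
theorem nash1_mv_aeval {J : Type} (f : J → (ι → ℂ) → ℂ) (p : MvPolynomial J ℂ) :
    aeval (fun j => nash1_mk x (f j)) p = nash1_mk x (fun u => eval (fun j => f j u) p) := by
  induction p using MvPolynomial.induction_on with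
  | C c => simp only [aeval_C, eval_C, nash1_algebraMapC]
  | add p q hp hq =>
    simp only [map_add, hp, hq]
    exact (map_add (nash1_mk x) _ _).symm
  | mul_X p i hp =>
    simp only [map_mul, hp, aeval_X, eval_X]
    exact (map_mul (nash1_mk x) _ _).symm

theorem nash_dep {J : Type} [Fintype J] (hJ : Fintype.card ι < Fintype.card J)
    (f : J → (ι → ℂ) → ℂ) (h : ∀ j, IsNash x (f j)) :
    ∃ p : MvPolynomial J ℂ, p ≠ 0 ∧ ∀ᶠ u in 𝓝 x, eval (fun j => f j u) p = 0 := by
  by_contra hne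
  have hnz : NoZeroDivisors (nash1_S x) := ⟨by
    rintro ⟨_, a, ha, rfl⟩ ⟨_, b, hb, rfl⟩ hab
    have h1 : nash1_mk x (a * b) = 0 := (map_mul (nash1_mk x) a b).trans (congrArg Subtype.val hab)
    rcases nash1_mul_eq_zero ha.1 hb.1 (nash1_mk_eq_zero.1 h1) with h2 | h2
    · exact Or.inl (Subtype.ext (nash1_mk_eq_zero.2 h2))
    · exact Or.inr (Subtype.ext (nash1_mk_eq_zero.2 h2))⟩
  have hfs : FaithfulSMul (MvPolynomial ι ℂ) (nash1_S x) := by
    rw [faithfulSMul_iff_algebraMap_injective, injective_iff_map_eq_zero]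
    intro p hp
    exact nash1_poly_eq_zero p (nash1_mk_eq_zero.1 (congrArg Subtype.val hp))
  have halg : Algebra.IsAlgebraic (MvPolynomial ι ℂ) (nash1_S x) := ⟨by
    rintro ⟨_, a, ha, rfl⟩
    exact Subalgebra.isAlgebraic_iff_isAlgebraic_val.2 (nash1_iff.1 ha).2⟩
  have h1 := trdeg_add_eq ℂ (MvPolynomial ι ℂ) (A := nash1_S x)
  rw [trdeg_eq_zero (R := MvPolynomial ι ℂ) (A := nash1_S x), add_zero,
    MvPolynomial.trdeg_of_isDomain] at h1
  let y : J → nash1_S x := fun j => ⟨nash1_mk x (f j), f j, h j, rfl⟩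
  have h2 : AlgebraicIndependent ℂ y := by
    refine AlgebraicIndependent.of_comp ((nash1_S x).val.restrictScalars ℂ) ?_
    rw [algebraicIndependent_iff]
    intro p hp
    by_contra hp0
    exact hne ⟨p, hp0, nash1_mk_eq_zero.1 ((nash1_mv_aeval f p).symm.trans hp)⟩
  have h3 := h2.cardinalMk_le_trdeg
  rw [← h1, Cardinal.lift_id, Cardinal.mk_fintype, Cardinal.mk_fintype, Nat.cast_le] at h3
  omega

end Nash1

end Pool.Agent.P.MP_f17f76_ag
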